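import Mathlib

/-! helper12, AEU (MP_5b0138_an) Part III type A: the first two coefficients of the germ of the doubled
edge determine the unordered pair of angles.  `c = pi/alpha` lies in `(1,2)` for an obtuse angle. -/

namespace Pool.Agent.AEU.H12

open Real Set

/-- leading coefficient factor of type A -/
noncomputable def fA (c : ℝ) : ℝ := -(c ^ 3 * sin (c * π) / (1 - cos (c * π)) ^ 2)
/-- relative first correction of type A -/
noncomputable def gA (c : ℝ) : ℝ := c ^ 2 * (6 / (1 - cos (c * π)) - 1)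

/-- half angle tangent -/
noncomputable def TT (x : ℝ) : ℝ := tan (π * x / 2)

lemma cos_pos_half {x : ℝ} (hx : x ∈ Ioo (0 : ℝ) 1) : 0 < cos (π * x / 2) := by
  apply cos_pos_of_mem_Ioo
  have := pi_pos
  constructor <;> nlinarith [hx.1, hx.2]

lemma TT_pos {x : ℝ} (hx : x ∈ Ioo (0 : ℝ) 1) : 0 < TT x := by
  apply tan_pos_of_pos_of_lt_pi_div_two
  · have := pi_pos; nlinarith [hx.1]
  · have := pi_pos; nlinarith [hx.2]

lemma TT_lt {x y : ℝ} (hx : x ∈ Ioo (0 : ℝ) 1) (hy : y ∈ Ioo (0 : ℝ) 1) (h : x < y) : TT x < TT y := by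
  apply tan_lt_tan_of_lt_of_lt_pi_div_two
  · have := pi_pos; nlinarith [hx.1]
  · have := pi_pos; nlinarith [hy.2]
  · have := pi_pos; nlinarith

lemma TT_deriv {x : ℝ} (hx : x ∈ Ioo (0 : ℝ) 1) : HasDerivAt TT (π / 2 * (1 + TT x ^ 2)) x := by
  have hc := cos_pos_half hx
  have h1 : HasDerivAt (fun x : ℝ => π * x / 2) (π / 2) x := by
    have := ((hasDerivAt_id x).const_mul π).div_const 2
    simpa using this
  have h2 := (hasDerivAt_tan hc.ne').comp x h1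
  have h3 : 1 / cos (π * x / 2) ^ 2 * (π / 2) = π / 2 * (1 + TT x ^ 2) := by
    unfold TT
    rw [tan_eq_sin_div_cos]
    have h4 := sin_sq_add_cos_sq (π * x / 2)
    field_simp
    linarith
  rw [h3] at h2
  exact h2

lemma one_sub_cos {x : ℝ} (hx : x ∈ Ioo (0 : ℝ) 1) : 1 - cos ((1 + x) * π) = 2 / (1 + TT x ^ 2) := by
  have hc := cos_pos_half hx
  have h1 : (1 + x) * π = 2 * (π * x / 2) + π := by ring
  rw [h1, cos_add_pi, cos_two_mul]
  unfold TT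
  rw [tan_eq_sin_div_cos]
  have h4 := sin_sq_add_cos_sq (π * x / 2)
  have h5 : 0 < 1 + (sin (π * x / 2) / cos (π * x / 2)) ^ 2 := by positivity
  rw [eq_div_iff h5.ne']
  field_simp
  nlinarith

lemma sin_eq {x : ℝ} (hx : x ∈ Ioo (0 : ℝ) 1) : sin ((1 + x) * π) = -(2 * TT x / (1 + TT x ^ 2)) := by
  have hc := cos_pos_half hx
  have h1 : (1 + x) * π = 2 * (π * x / 2) + π := by ring
  rw [h1, sin_add_pi, sin_two_mul]
  unfold TT
  rw [tan_eq_sin_div_cos]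
  have h4 := sin_sq_add_cos_sq (π * x / 2)
  have h5 : 0 < 1 + (sin (π * x / 2) / cos (π * x / 2)) ^ 2 := by positivity
  rw [neg_inj, eq_div_iff h5.ne']
  field_simp
  linear_combination (sin (π * x / 2)) * h4

lemma fA_eq {x : ℝ} (hx : x ∈ Ioo (0 : ℝ) 1) :
    fA (1 + x) = (1 + x) ^ 3 * (TT x * (1 + TT x ^ 2)) / 2 := by
  unfold fA
  rw [one_sub_cos hx, sin_eq hx]
  have : 0 < 1 + TT x ^ 2 := by positivity
  field_simp

lemma gA_eq {x : ℝ} (hx : x ∈ Ioo (0 : ℝ) 1) : gA (1 + x) = (1 + x) ^ 2 * (2 + 3 * TT x ^ 2) := by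
  unfold gA
  rw [one_sub_cos hx]
  have : 0 < 1 + TT x ^ 2 := by positivity
  field_simp
  ring

/-- logarithm of the leading coefficient -/
noncomputable def LF (x : ℝ) : ℝ := 3 * log (1 + x) + log (TT x) + log (1 + TT x ^ 2)
noncomputable def LF' (x : ℝ) : ℝ := 3 / (1 + x) + π / 2 * (1 + 3 * TT x ^ 2) / TT x
noncomputable def GF (x : ℝ) : ℝ := (1 + x) ^ 2 * (2 + 3 * TT x ^ 2)
noncomputable def GF' (x : ℝ) : ℝ :=
  2 * (1 + x) * (2 + 3 * TT x ^ 2) + 3 * π * (1 + x) ^ 2 * TT x * (1 + TT x ^ 2)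

lemma LF_deriv {x : ℝ} (hx : x ∈ Ioo (0 : ℝ) 1) : HasDerivAt LF (LF' x) x := by
  have hT := TT_pos hx
  have h0 : (0 : ℝ) < 1 + x := by linarith [hx.1]
  have hd := TT_deriv hx
  have h1 : HasDerivAt (fun x : ℝ => 1 + x) 1 x := by simpa using (hasDerivAt_id x).const_add 1
  have h2 := (h1.log h0.ne').const_mul 3
  have h3 := hd.log hT.ne'
  have h5 : (0 : ℝ) < 1 + TT x ^ 2 := by positivity
  have h4 := ((hd.pow 2).const_add 1).log h5.ne'
  have h6 : HasDerivAt LF _ x := (h2.add h3).add h4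
  refine h6.congr_deriv ?_
  unfold LF'
  simp only [Nat.cast_ofNat, Nat.add_one_sub_one, pow_one, Pi.pow_apply]
  field_simp
  ring

lemma GF_deriv {x : ℝ} (hx : x ∈ Ioo (0 : ℝ) 1) : HasDerivAt GF (GF' x) x := by
  have hd := TT_deriv hx
  have h1 : HasDerivAt (fun x : ℝ => 1 + x) 1 x := by simpa using (hasDerivAt_id x).const_add 1
  have h6 : HasDerivAt GF _ x := (h1.pow 2).mul (((hd.pow 2).const_mul 3).const_add 2)
  refine h6.congr_deriv ?_
  unfold GF'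
  simp only [Nat.cast_ofNat, Nat.add_one_sub_one, pow_one, Pi.pow_apply]
  ring

lemma LF'_pos {x : ℝ} (hx : x ∈ Ioo (0 : ℝ) 1) : 0 < LF' x := by
  have hT := TT_pos hx
  have h0 : (0 : ℝ) < 1 + x := by linarith [hx.1]
  have := pi_pos
  unfold LF'
  positivity

/-- The ratio of the derivatives as a function of `c` and `T`. -/
lemma ratio_mono {c d S T : ℝ} (hc : 0 < c) (hcd : c ≤ d) (hS : 0 < S) (hST : S < T) :
    (2 * c * (2 + 3 * S ^ 2) + 3 * π * c ^ 2 * S * (1 + S ^ 2)) * (3 / d + π / 2 * (1 + 3 * T ^ 2) / T)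
      < (2 * d * (2 + 3 * T ^ 2) + 3 * π * d ^ 2 * T * (1 + T ^ 2)) *
        (3 / c + π / 2 * (1 + 3 * S ^ 2) / S) := by
  have hT : 0 < T := hS.trans hST
  have hd : 0 < d := hc.trans_le hcd
  have hp := pi_pos
  have hTS : 0 < T - S := by linarith
  -- step 1: for fixed `c`, increase in `T`
  have key : (2 * c * (2 + 3 * S ^ 2) + 3 * π * c ^ 2 * S * (1 + S ^ 2)) *
      (3 / c + π / 2 * (1 + 3 * T ^ 2) / T)
      < (2 * c * (2 + 3 * T ^ 2) + 3 * π * c ^ 2 * T * (1 + T ^ 2)) *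
        (3 / c + π / 2 * (1 + 3 * S ^ 2) / S) := by
    rw [← sub_pos]
    have e : (2 * c * (2 + 3 * T ^ 2) + 3 * π * c ^ 2 * T * (1 + T ^ 2)) *
        (3 / c + π / 2 * (1 + 3 * S ^ 2) / S) - (2 * c * (2 + 3 * S ^ 2) +
        3 * π * c ^ 2 * S * (1 + S ^ 2)) * (3 / c + π / 2 * (1 + 3 * T ^ 2) / T)
        = 18 * ((T - S) * (T + S)) + 9 * π * c * (T - S) * (1 + T ^ 2 + T * S + S ^ 2)
          + π * c * (T - S) / (S * T) * (2 + 3 * ((T - S) ^ 2 + T * S) + 9 * T ^ 2 * S ^ 2)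
          + 3 * π ^ 2 * c ^ 2 / 2 / (S * T) * ((T - S) * (T + S)) *
            (1 + T ^ 2 + S ^ 2 + 3 * T ^ 2 * S ^ 2) := by
      field_simp
      ring
    rw [e]
    positivity
  have h1 : 3 / d + π / 2 * (1 + 3 * T ^ 2) / T ≤ 3 / c + π / 2 * (1 + 3 * T ^ 2) / T := by
    gcongr
  have h2 : (2 * c * (2 + 3 * T ^ 2) + 3 * π * c ^ 2 * T * (1 + T ^ 2))
      ≤ (2 * d * (2 + 3 * T ^ 2) + 3 * π * d ^ 2 * T * (1 + T ^ 2)) := by
    gcongr
  calc _ ≤ (2 * c * (2 + 3 * S ^ 2) + 3 * π * c ^ 2 * S * (1 + S ^ 2)) *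
      (3 / c + π / 2 * (1 + 3 * T ^ 2) / T) := by gcongr
    _ < _ := key
    _ ≤ _ := by gcongr

lemma ratio_lt {x y : ℝ} (hx : x ∈ Ioo (0 : ℝ) 1) (hy : y ∈ Ioo (0 : ℝ) 1) (h : x < y) :
    GF' x * LF' y < GF' y * LF' x :=
  ratio_mono (by linarith [hx.1]) (by linarith) (TT_pos hx) (TT_lt hx hy h)

lemma fA_pos {x : ℝ} (hx : x ∈ Ioo (0 : ℝ) 1) : 0 < fA (1 + x) := by
  rw [fA_eq hx]
  have := TT_pos hx
  have h0 : (0 : ℝ) < 1 + x := by linarith [hx.1]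
  positivity

lemma log_fA {x : ℝ} (hx : x ∈ Ioo (0 : ℝ) 1) : log (fA (1 + x)) = LF x - log 2 := by
  rw [fA_eq hx]
  have hT := TT_pos hx
  have h0 : (0 : ℝ) < 1 + x := by linarith [hx.1]
  have h5 : (0 : ℝ) < 1 + TT x ^ 2 := by positivity
  unfold LF
  rw [log_div (by positivity) (by norm_num), log_mul (by positivity) (by positivity),
    log_mul hT.ne' h5.ne', log_pow]
  push_cast
  ring

lemma LF_strictMono {x y : ℝ} (hx : x ∈ Ioo (0 : ℝ) 1) (hy : y ∈ Ioo (0 : ℝ) 1) (h : x < y) :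
    LF x < LF y := by
  have hs : StrictMonoOn LF (Ioo 0 1) := by
    apply strictMonoOn_of_deriv_pos (convex_Ioo 0 1)
    · intro z hz
      exact (LF_deriv hz).continuousAt.continuousWithinAt
    · intro z hz
      rw [interior_Ioo] at hz
      rw [(LF_deriv hz).deriv]
      exact LF'_pos hz
  exact hs hx hy h

/-- Cauchy mean value theorem for `GF` against `LF`. -/
lemma cauchy {x y : ℝ} (hx : x ∈ Ioo (0 : ℝ) 1) (hy : y ∈ Ioo (0 : ℝ) 1) (h : x < y) :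
    ∃ z ∈ Ioo x y, (LF y - LF x) * GF' z = (GF y - GF x) * LF' z := by
  have hsub : ∀ z ∈ Icc x y, z ∈ Ioo (0 : ℝ) 1 := fun z hz =>
    ⟨hx.1.trans_le hz.1, hz.2.trans_lt hy.2⟩
  exact exists_ratio_hasDerivAt_eq_ratio_slope GF GF' h
    (fun z hz => (GF_deriv (hsub z hz)).continuousAt.continuousWithinAt)
    (fun z hz => GF_deriv (hsub z (Ioo_subset_Icc_self hz))) LF LF'
    (fun z hz => (LF_deriv (hsub z hz)).continuousAt.continuousWithinAt)
    (fun z hz => LF_deriv (hsub z (Ioo_subset_Icc_self hz)))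

/-- Key step: no nested pairs with the same sums. -/
lemma no_nested {x1 x2 y1 y2 : ℝ} (hx1 : x1 ∈ Ioo (0 : ℝ) 1) (hx2 : x2 ∈ Ioo (0 : ℝ) 1)
    (hy1 : y1 ∈ Ioo (0 : ℝ) 1) (hy2 : y2 ∈ Ioo (0 : ℝ) 1) (hy : y1 ≤ y2)
    (hL : LF x1 + LF x2 = LF y1 + LF y2) (h : x1 < y1) : GF y1 + GF y2 < GF x1 + GF x2 := by
  have h1 : LF x1 < LF y1 := LF_strictMono hx1 hy1 h
  have h2 : y2 < x2 := by
    by_contra hcon
    rcases (not_lt.mp hcon).eq_or_lt with he | hl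
    · rw [he] at hL; linarith
    · have := LF_strictMono hx2 hy2 hl
      linarith
  obtain ⟨z, hz, ez⟩ := cauchy hx1 hy1 h
  obtain ⟨w, hw, ew⟩ := cauchy hy2 hx2 h2
  have hz1 : z ∈ Ioo (0 : ℝ) 1 := ⟨hx1.1.trans hz.1, hz.2.trans hy1.2⟩
  have hw1 : w ∈ Ioo (0 : ℝ) 1 := ⟨hy2.1.trans hw.1, hw.2.trans hx2.2⟩
  have hzw : z < w := by linarith [hz.2, hw.1]
  have hr := ratio_lt hz1 hw1 hzw
  have pz := LF'_pos hz1
  have pw := LF'_pos hw1
  have hd : LF x2 - LF y2 = LF y1 - LF x1 := by linarith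
  rw [hd] at ew
  have hpos : 0 < LF y1 - LF x1 := by linarith
  -- (GF y1 - GF x1) = D * GF' z / LF' z,  (GF x2 - GF y2) = D * GF' w / LF' w
  have ez' : GF y1 - GF x1 = (LF y1 - LF x1) * (GF' z / LF' z) := by
    field_simp; linarith
  have ew' : GF x2 - GF y2 = (LF y1 - LF x1) * (GF' w / LF' w) := by
    field_simp; linarith
  have hq : GF' z / LF' z < GF' w / LF' w := by
    rw [div_lt_div_iff₀ pz pw]; linarith
  have := mul_lt_mul_of_pos_left hq hpos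
  linarith

lemma inj_ordered {x1 x2 y1 y2 : ℝ} (hx1 : x1 ∈ Ioo (0 : ℝ) 1) (hx2 : x2 ∈ Ioo (0 : ℝ) 1)
    (hy1 : y1 ∈ Ioo (0 : ℝ) 1) (hy2 : y2 ∈ Ioo (0 : ℝ) 1) (hx : x1 ≤ x2) (hy : y1 ≤ y2)
    (hL : LF x1 + LF x2 = LF y1 + LF y2) (hG : GF x1 + GF x2 = GF y1 + GF y2) :
    x1 = y1 ∧ x2 = y2 := by
  rcases lt_trichotomy x1 y1 with h | h | h
  · have := no_nested hx1 hx2 hy1 hy2 hy hL h
    linarith
  · refine ⟨h, ?_⟩
    rw [h] at hL
    have hL2 : LF x2 = LF y2 := by linarith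
    rcases lt_trichotomy x2 y2 with h' | h' | h'
    · have := LF_strictMono hx2 hy2 h'; linarith
    · exact h'
    · have := LF_strictMono hy2 hx2 h'; linarith
  · have := no_nested hy1 hy2 hx1 hx2 hx hL.symm h
    linarith

/-- **Inversion of the type A germ.** -/
theorem a_inj {c1 c2 d1 d2 : ℝ} (hc1 : c1 ∈ Ioo (1 : ℝ) 2) (hc2 : c2 ∈ Ioo (1 : ℝ) 2)
    (hd1 : d1 ∈ Ioo (1 : ℝ) 2) (hd2 : d2 ∈ Ioo (1 : ℝ) 2)
    (hf : fA c1 * fA c2 = fA d1 * fA d2) (hg : gA c1 + gA c2 = gA d1 + gA d2) :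
    (c1 = d1 ∧ c2 = d2) ∨ (c1 = d2 ∧ c2 = d1) := by
  have sh : ∀ {c : ℝ}, c ∈ Ioo (1 : ℝ) 2 → c - 1 ∈ Ioo (0 : ℝ) 1 := fun {c} h =>
    ⟨by linarith [h.1], by linarith [h.2]⟩
  have hL : LF (c1 - 1) + LF (c2 - 1) = LF (d1 - 1) + LF (d2 - 1) := by
    have h1 := congrArg log hf
    have e : ∀ {c : ℝ}, c ∈ Ioo (1 : ℝ) 2 → 0 < fA c ∧ log (fA c) = LF (c - 1) - log 2 := by
      intro c h
      have h2 := fA_pos (sh h)
      have h3 := log_fA (sh h)
      rw [show 1 + (c - 1) = c by ring] at h2 h3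
      exact ⟨h2, h3⟩
    rw [log_mul (e hc1).1.ne' (e hc2).1.ne', log_mul (e hd1).1.ne' (e hd2).1.ne',
      (e hc1).2, (e hc2).2, (e hd1).2, (e hd2).2] at h1
    linarith
  have hG : GF (c1 - 1) + GF (c2 - 1) = GF (d1 - 1) + GF (d2 - 1) := by
    have e : ∀ {c : ℝ}, c ∈ Ioo (1 : ℝ) 2 → gA c = GF (c - 1) := by
      intro c h
      have h2 := gA_eq (sh h)
      rw [show 1 + (c - 1) = c by ring] at h2
      rw [h2]
      unfold GF
      ring
    rw [e hc1, e hc2, e hd1, e hd2] at hg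
    exact hg
  rcases le_total c1 c2 with h1 | h1 <;> rcases le_total d1 d2 with h2 | h2
  · have := inj_ordered (sh hc1) (sh hc2) (sh hd1) (sh hd2) (by linarith) (by linarith) hL hG
    exact Or.inl ⟨by linarith [this.1], by linarith [this.2]⟩
  · have := inj_ordered (sh hc1) (sh hc2) (sh hd2) (sh hd1) (by linarith) (by linarith)
      (by linarith) (by linarith)
    exact Or.inr ⟨by linarith [this.1], by linarith [this.2]⟩
  · have := inj_ordered (sh hc2) (sh hc1) (sh hd1) (sh hd2) (by linarith) (by linarith)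
      (by linarith) (by linarith)
    exact Or.inr ⟨by linarith [this.2], by linarith [this.1]⟩
  · have := inj_ordered (sh hc2) (sh hc1) (sh hd2) (sh hd1) (by linarith) (by linarith)
      (by linarith) (by linarith)
    exact Or.inl ⟨by linarith [this.2], by linarith [this.1]⟩

end Pool.Agent.AEU.H12
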