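import Mathlib

/-! helper12, AEU (MP_5b0138_an) Part III type B: the second and third coefficients of the germ of a
doubled vertex-to-side segment determine the angle at the vertex (`b = pi/alpha`, no restriction on the
size of the angle), the first coefficient then determines the direction of the segment up to reflection.

Germ (even function of `u`): `B(u) = b sin(b pi) (1/(cos b pi - cosh 2bu) - 1/(cos b pi - cos 2 b eta))`,
with `C = 1 - cos b pi`: `B(u) = B(0) + 2 fB u^2 - ..`, fourth/second coefficient ratio `-gB/3`. -/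

namespace Pool.Agent.AEU.H12

open Real Set

noncomputable def fB (b : ℝ) : ℝ := b ^ 3 * sin (b * π) / (1 - cos (b * π)) ^ 2
noncomputable def gB (b : ℝ) : ℝ := b ^ 2 * (6 / (1 - cos (b * π)) - 1)
/-- the constant part of the germ -/
noncomputable def cB (b η : ℝ) : ℝ := b * sin (b * π) / (cos (b * π) - cos (2 * b * η))

/-- `C ↦ (2-C)/(6-C)^3` is injective on `(0,2]`. -/
lemma cube_inj {C D : ℝ} (hC : 0 < C) (hC2 : C ≤ 2) (hD : 0 < D) (hD2 : D ≤ 2)
    (h : (2 - C) * (6 - D) ^ 3 = (2 - D) * (6 - C) ^ 3) : C = D := by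
  have e : (2 - C) * (6 - D) ^ 3 - (2 - D) * (6 - C) ^ 3
      = (C - D) * (2 * C ^ 2 + 2 * D ^ 2 - 36 * (C + D) + 20 * C * D - C * D * (C + D)) := by ring
  have h0 : (C - D) * (2 * C ^ 2 + 2 * D ^ 2 - 36 * (C + D) + 20 * C * D - C * D * (C + D)) = 0 := by
    rw [← e, h, sub_self]
  rcases mul_eq_zero.mp h0 with h1 | h1
  · linarith
  · exfalso
    have h2 : 0 ≤ C * (2 - C) := mul_nonneg hC.le (by linarith)
    have h3 : 0 ≤ D * (2 - D) := mul_nonneg hD.le (by linarith)
    have h4 : 0 ≤ C * (2 - D) := mul_nonneg hC.le (by linarith)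
    have h5 : 0 ≤ D * (2 - C) := mul_nonneg hD.le (by linarith)
    have h6 : 0 < C * D * (C + D) := by positivity
    linarith only [hD, h1, h2, h3, h4, h5, h6]

/-- **Inversion of the type B germ, part 1**: the angle at the vertex. -/
theorem b_inj {b d : ℝ} (hb : 0 < b) (hd : 0 < d) (hb1 : cos (b * π) ≠ 1) (hd1 : cos (d * π) ≠ 1)
    (hf : fB b = fB d) (hg : gB b = gB d) : b = d := by
  obtain ⟨C, hCdef⟩ : ∃ C, C = 1 - cos (b * π) := ⟨_, rfl⟩
  obtain ⟨D, hDdef⟩ : ∃ D, D = 1 - cos (d * π) := ⟨_, rfl⟩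
  have hC : 0 < C := by
    have := cos_le_one (b * π)
    rcases this.lt_or_eq with h | h
    · linarith
    · exact absurd h hb1
  have hD : 0 < D := by
    have := cos_le_one (d * π)
    rcases this.lt_or_eq with h | h
    · linarith
    · exact absurd h hd1
  have hC2 : C ≤ 2 := by have := neg_one_le_cos (b * π); linarith
  have hD2 : D ≤ 2 := by have := neg_one_le_cos (d * π); linarith
  have sC : sin (b * π) ^ 2 = C * (2 - C) := by
    have := sin_sq_add_cos_sq (b * π)
    rw [hCdef]; linarith only [this]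
  have sD : sin (d * π) ^ 2 = D * (2 - D) := by
    have := sin_sq_add_cos_sq (d * π)
    rw [hDdef]; linarith only [this]
  have ef : ∀ {x X : ℝ}, 0 < X → X = 1 - cos (x * π) → sin (x * π) ^ 2 = X * (2 - X) →
      fB x ^ 2 = x ^ 6 * (2 - X) / X ^ 3 := by
    intro x X hX hdef hs
    unfold fB
    rw [← hdef, div_pow, mul_pow, hs]
    field_simp
  have eg : ∀ {x X : ℝ}, 0 < X → X = 1 - cos (x * π) → gB x = x ^ 2 * (6 - X) / X := by
    intro x X hX hdef
    unfold gB
    rw [← hdef]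
    field_simp
  have h1 : b ^ 6 * (2 - C) / C ^ 3 = d ^ 6 * (2 - D) / D ^ 3 := by
    rw [← ef hC hCdef sC, ← ef hD hDdef sD, hf]
  have h2 : b ^ 2 * (6 - C) / C = d ^ 2 * (6 - D) / D := by
    rw [← eg hC hCdef, ← eg hD hDdef, hg]
  have h3 : C = D := by
    apply cube_inj hC hC2 hD hD2
    have h4 : (b ^ 2 * (6 - C) / C) ^ 3 = (d ^ 2 * (6 - D) / D) ^ 3 := by rw [h2]
    have h5 : (b ^ 6 * (2 - C) / C ^ 3) * (d ^ 2 * (6 - D) / D) ^ 3
        = (d ^ 6 * (2 - D) / D ^ 3) * (b ^ 2 * (6 - C) / C) ^ 3 := by rw [h1, h4]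
    have h6 : (b ^ 6 * (2 - C) / C ^ 3) * (d ^ 2 * (6 - D) / D) ^ 3
        = (b ^ 6 * d ^ 6 / (C ^ 3 * D ^ 3)) * ((2 - C) * (6 - D) ^ 3) := by
      field_simp
    have h7 : (d ^ 6 * (2 - D) / D ^ 3) * (b ^ 2 * (6 - C) / C) ^ 3
        = (b ^ 6 * d ^ 6 / (C ^ 3 * D ^ 3)) * ((2 - D) * (6 - C) ^ 3) := by
      field_simp
    rw [h6, h7] at h5
    exact mul_left_cancel₀ (by positivity) h5
  rw [h3] at h2
  have h8 : (6 - D) / D ≠ 0 := by
    have : 0 < (6 - D) / D := div_pos (by linarith) hD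
    exact this.ne'
  have h9 : b ^ 2 = d ^ 2 := by
    have : b ^ 2 * ((6 - D) / D) = d ^ 2 * ((6 - D) / D) := by
      rw [← mul_div_assoc, ← mul_div_assoc]; exact h2
    exact mul_right_cancel₀ h8 this
  nlinarith only [h9, hb, hd, sq_nonneg (b - d)]

/-- **Inversion of the type B germ, part 2**: the direction, up to reflection in the bisector. -/
theorem b_dir {b η θ : ℝ} (hb : 0 < b) (hs : sin (b * π) ≠ 0)
    (hη : η ∈ Ioo 0 (π / b)) (hθ : θ ∈ Ioo 0 (π / b))
    (h1 : cos (b * π) ≠ cos (2 * b * η)) (h2 : cos (b * π) ≠ cos (2 * b * θ))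
    (h : cB b η = cB b θ) : θ = η ∨ θ = π / b - η := by
  unfold cB at h
  have h3 : cos (b * π) - cos (2 * b * η) = cos (b * π) - cos (2 * b * θ) := by
    have hn : b * sin (b * π) ≠ 0 := mul_ne_zero hb.ne' hs
    rw [div_eq_div_iff (sub_ne_zero.mpr h1) (sub_ne_zero.mpr h2)] at h
    exact (mul_left_cancel₀ hn h).symm
  have h4 : cos (2 * b * η) = cos (2 * b * θ) := by linarith
  have hη0 : 0 < 2 * b * η := by have := hη.1; positivity
  have hθ0 : 0 < 2 * b * θ := by have := hθ.1; positivity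
  have hη1 : 2 * b * η < 2 * π := by
    have := mul_lt_mul_of_pos_left hη.2 (show 0 < 2 * b by positivity)
    have e : 2 * b * (π / b) = 2 * π := by field_simp
    linarith
  have hθ1 : 2 * b * θ < 2 * π := by
    have := mul_lt_mul_of_pos_left hθ.2 (show 0 < 2 * b by positivity)
    have e : 2 * b * (π / b) = 2 * π := by field_simp
    linarith
  have hp := pi_pos
  -- reduce to [0, π]
  have key : 2 * b * θ = 2 * b * η ∨ 2 * b * θ = 2 * π - 2 * b * η := by
    rcases le_or_gt (2 * b * η) π with a1 | a1 <;> rcases le_or_gt (2 * b * θ) π with a2 | a2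
    · left
      exact (injOn_cos ⟨hη0.le, a1⟩ ⟨hθ0.le, a2⟩ h4).symm
    · right
      have : cos (2 * b * η) = cos (2 * π - 2 * b * θ) := by rw [cos_two_pi_sub]; exact h4
      have := injOn_cos ⟨hη0.le, a1⟩ ⟨by linarith, by linarith⟩ this
      linarith
    · right
      have : cos (2 * π - 2 * b * η) = cos (2 * b * θ) := by rw [cos_two_pi_sub]; exact h4
      have := injOn_cos ⟨by linarith, by linarith⟩ ⟨hθ0.le, a2⟩ this
      linarith
    · left
      have : cos (2 * π - 2 * b * η) = cos (2 * π - 2 * b * θ) := by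
        rw [cos_two_pi_sub, cos_two_pi_sub]; exact h4
      have := injOn_cos ⟨by linarith, by linarith⟩ ⟨by linarith, by linarith⟩ this
      linarith
  rcases key with h5 | h5
  · left
    exact mul_left_cancel₀ (show (2 * b : ℝ) ≠ 0 by positivity) h5
  · right
    have e : π / b - η = (2 * π - 2 * b * η) / (2 * b) := by field_simp
    rw [e, ← h5]
    field_simp

end Pool.Agent.AEU.H12
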