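import Pool.Agent.Helper12_AEU.Strip
import Pool.Agent.Helper60_AEU.Stmt

/-! helper12, AEU (MP_5b0138_an) Part III, FLUX: from pairs of complex numbers to four real
coordinates. -/

namespace Pool.Agent.AEU.H12

open MeasureTheory Filter Topology Real Set

/-- `((X, Y), (s, s')) ↦ (X + i s, Y + i s')` -/
noncomputable def Psi : ((ℝ × ℝ) × (ℝ × ℝ)) ≃ᵐ ℂ × ℂ :=
  (MeasurableEquiv.prodAssoc.trans
    (((MeasurableEquiv.refl ℝ).prodCongr (MeasurableEquiv.prodAssoc.symm.trans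
      ((MeasurableEquiv.prodComm.prodCongr (MeasurableEquiv.refl ℝ)).trans
        MeasurableEquiv.prodAssoc))).trans MeasurableEquiv.prodAssoc.symm)).trans
    (Complex.measurableEquivRealProd.symm.prodCongr Complex.measurableEquivRealProd.symm)

lemma Psi_apply (q r : ℝ × ℝ) : Psi (q, r) = ((q.1 + r.1 * Complex.I : ℂ), (q.2 + r.2 * Complex.I : ℂ)) := by
  have h : Psi (q, r) = (Complex.measurableEquivRealProd.symm (q.1, r.1),
    Complex.measurableEquivRealProd.symm (q.2, r.2)) := rfl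
  rw [h, Complex.measurableEquivRealProd_symm_apply, Complex.measurableEquivRealProd_symm_apply]
  simp only [Prod.mk.injEq]
  constructor <;> apply Complex.ext <;> simp

lemma Psi_mp : MeasurePreserving Psi volume volume := by
  have a1 : MeasurePreserving (MeasurableEquiv.prodAssoc : (ℝ × ℝ) × (ℝ × ℝ) ≃ᵐ ℝ × ℝ × (ℝ × ℝ)) :=
    volume_preserving_prodAssoc
  have a2 : MeasurePreserving (MeasurableEquiv.prodAssoc : (ℝ × ℝ) × ℝ ≃ᵐ ℝ × ℝ × ℝ) :=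
    volume_preserving_prodAssoc
  have a3 : MeasurePreserving (MeasurableEquiv.prodComm : ℝ × ℝ ≃ᵐ ℝ × ℝ) :=
    Measure.measurePreserving_swap
  have a4 : MeasurePreserving ((MeasurableEquiv.prodComm : ℝ × ℝ ≃ᵐ ℝ × ℝ).prodCongr
      (MeasurableEquiv.refl ℝ)) := a3.prod (MeasurePreserving.id _)
  have a5 : MeasurePreserving (MeasurableEquiv.prodAssoc.symm.trans
      (((MeasurableEquiv.prodComm : ℝ × ℝ ≃ᵐ ℝ × ℝ).prodCongr (MeasurableEquiv.refl ℝ)).trans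
        MeasurableEquiv.prodAssoc)) := (a2.comp a4).comp (a2.symm _)
  have a6 : MeasurePreserving ((MeasurableEquiv.refl ℝ).prodCongr
    (MeasurableEquiv.prodAssoc.symm.trans
      (((MeasurableEquiv.prodComm : ℝ × ℝ ≃ᵐ ℝ × ℝ).prodCongr (MeasurableEquiv.refl ℝ)).trans
        MeasurableEquiv.prodAssoc))) := (MeasurePreserving.id _).prod a5
  have a7 : MeasurePreserving (Complex.measurableEquivRealProd.symm.prodCongr
      Complex.measurableEquivRealProd.symm) :=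
    (Complex.volume_preserving_equiv_real_prod.symm _).prod
      (Complex.volume_preserving_equiv_real_prod.symm _)
  exact a7.comp (((a1.symm _).comp a6).comp a1)

open Pool.Agent.H60K in
lemma Psi_preimage (X0 Δ ζ1 ζ2 : ℝ) :
    Psi ⁻¹' (Rw X0 Δ ζ1 ζ2 ×ˢ Rw X0 Δ ζ1 ζ2) = Iq X0 Δ ×ˢ (Ioo (-ζ2) ζ1 ×ˢ Ioo (-ζ2) ζ1) := by
  ext ⟨q, r⟩
  rw [mem_preimage, Psi_apply]
  unfold Rw Iq
  simp only [mem_prod, mem_setOf_eq, Complex.add_re, Complex.ofReal_re, Complex.mul_re,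
    Complex.I_re, mul_zero, Complex.ofReal_im, Complex.I_im, mul_one, sub_self, add_zero,
    Complex.add_im, Complex.mul_im, zero_add, mem_Ioo, abs_lt]
  constructor
  · rintro ⟨⟨⟨h1, h2⟩, h3, h4⟩, ⟨h5, h6⟩, h7, h8⟩
    exact ⟨⟨⟨by linarith, by linarith⟩, by linarith, by linarith⟩, ⟨h3, h4⟩, h7, h8⟩
  · rintro ⟨⟨⟨h1, h2⟩, h5, h6⟩, ⟨h3, h4⟩, h7, h8⟩
    exact ⟨⟨⟨by linarith, by linarith⟩, h3, h4⟩, ⟨by linarith, by linarith⟩, h7, h8⟩

open Pool.Agent.H60K in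
/-- transformation of the integral over the window -/
lemma window_integral {X0 Δ ζ1 ζ2 : ℝ} {F : ℂ → ℂ → ℂ}
    (hF : Integrable (fun z : (ℝ × ℝ) × (ℝ × ℝ) =>
      F (z.1.1 + z.2.1 * Complex.I) (z.1.2 + z.2.2 * Complex.I))
      ((volume.restrict (Iq X0 Δ)).prod (volume.restrict (Ioo (-ζ2) ζ1 ×ˢ Ioo (-ζ2) ζ1)))) :
    ∫ x in Rw X0 Δ ζ1 ζ2, ∫ y in Rw X0 Δ ζ1 ζ2, F x y =
      ∫ q in Iq X0 Δ, ∫ r in Ioo (-ζ2) ζ1 ×ˢ Ioo (-ζ2) ζ1,
        F (q.1 + r.1 * Complex.I) (q.2 + r.2 * Complex.I) := by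
  have hset : IntegrableOn (fun z : (ℝ × ℝ) × (ℝ × ℝ) =>
      F (z.1.1 + z.2.1 * Complex.I) (z.1.2 + z.2.2 * Complex.I))
      (Iq X0 Δ ×ˢ (Ioo (-ζ2) ζ1 ×ˢ Ioo (-ζ2) ζ1)) := by
    rw [IntegrableOn, Measure.volume_eq_prod, ← Measure.prod_restrict]
    exact hF
  have e1 : (fun z : (ℝ × ℝ) × (ℝ × ℝ) =>
      F (z.1.1 + z.2.1 * Complex.I) (z.1.2 + z.2.2 * Complex.I)) =
      (fun p : ℂ × ℂ => F p.1 p.2) ∘ Psi := by
    ext z
    simp only [Function.comp]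
    rw [show z = (z.1, z.2) from rfl, Psi_apply]
  rw [e1, ← Psi_preimage X0 Δ ζ1 ζ2] at hset
  have hC : IntegrableOn (fun p : ℂ × ℂ => F p.1 p.2) (Rw X0 Δ ζ1 ζ2 ×ˢ Rw X0 Δ ζ1 ζ2) :=
    (Psi_mp.integrableOn_comp_preimage Psi.measurableEmbedding).mp hset
  have h2 := Psi_mp.setIntegral_preimage_emb Psi.measurableEmbedding
    (fun p : ℂ × ℂ => F p.1 p.2) (Rw X0 Δ ζ1 ζ2 ×ˢ Rw X0 Δ ζ1 ζ2)
  have h3 : ∫ p in Rw X0 Δ ζ1 ζ2 ×ˢ Rw X0 Δ ζ1 ζ2, F p.1 p.2 =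
      ∫ x in Rw X0 Δ ζ1 ζ2, ∫ y in Rw X0 Δ ζ1 ζ2, F x y := by
    rw [Measure.volume_eq_prod, setIntegral_prod]
    rw [← Measure.volume_eq_prod]
    exact hC
  rw [← h3, ← h2, Psi_preimage, Measure.volume_eq_prod, ← Measure.prod_restrict, integral_prod]
  · apply setIntegral_congr_fun (Iq_meas X0 Δ)
    intro q _
    simp only
    apply integral_congr_ae
    refine Eventually.of_forall fun r => ?_
    simp only [Psi_apply]
  · have := hF
    rwa [e1] at this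

end Pool.Agent.AEU.H12
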