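import Pool.Agent.Helper12_AEU.GermA

/-! helper12, AEU (MP_5b0138_an) Part III: germs of different types are different. -/

namespace Pool.Agent.AEU.H12

open MeasureTheory Filter Topology Real Set

/-- the germ of type D (Fagnano) -/
noncomputable def TD (L κ : ℝ) : ℝ := rexp (-(L * κ))

lemma lead_TD (L : ℝ) : Lead (TD L) L 0 1 := by
  unfold Lead TD
  refine tendsto_const_nhds.congr ?_
  intro κ
  rw [Real.rpow_zero, mul_one, ← Real.exp_add, neg_add_cancel, Real.exp_zero]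

lemma Lead.neg {T : ℝ → ℝ} {L p c : ℝ} (h : Lead T L p c) : Lead (fun κ => -T κ) L p (-c) := by
  unfold Lead at h ⊢
  refine h.neg.congr ?_
  intro κ; ring

lemma Lead.const_mul {T : ℝ → ℝ} {L p c : ℝ} (a : ℝ) (h : Lead T L p c) :
    Lead (fun κ => a * T κ) L p (a * c) := by
  unfold Lead at h ⊢
  refine (Tendsto.const_mul a h).congr ?_
  intro κ; ring

/-- two germs with different powers are never exponentially close at their rate -/
theorem Lead.ne_of_power {T T' : ℝ → ℝ} {L p c L' p' c' C δ : ℝ} (h : Lead T L p c)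
    (h' : Lead T' L' p' c') (hc : c ≠ 0) (hc' : c' ≠ 0) (hp : p ≠ p') (hδ : 0 < δ)
    (hb : ∀ᶠ κ in atTop, |T κ - T' κ| ≤ C * rexp (-((L + δ) * κ))) : False :=
  hp (h.unique h' hc hc' hδ hb).2.1

lemma lead_TB_ne {d b η : ℝ} (hd : 0 < d) (hb : 0 < b) (hs : sin (b * π) ≠ 0)
    (hb1 : cos (b * π) ≠ 1) (hη : η ∈ Ioo 0 (π / b)) (hcη : cos (b * π) ≠ cos (2 * b * η)) :
    1 / π * ((Ceta b η - KKf b 0) * II 0 * (2 * d) ^ (-(1 / 2 : ℝ))) ≠ 0 := by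
  have hp := pi_pos
  exact mul_ne_zero (by positivity) (mul_ne_zero (mul_ne_zero (c0_ne hb hb1 hs hη hcη)
    (II_pos 0).ne') (Real.rpow_pos_of_pos (by positivity) _).ne')

/-- the leading coefficient of type B is a nonzero multiple of `C_η - K(0)`, which is positive
exactly in the nonspanning case -/
theorem lead_TB_exists {d b η : ℝ} (hd : 0 < d) (hb : 0 < b) (hs : sin (b * π) ≠ 0)
    (hη : η ∈ Ioo 0 (π / b)) (hcη : cos (b * π) ≠ cos (2 * b * η)) :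
    ∃ c, c ≠ 0 ∧ Lead (TB d b η) (2 * d) (1 / 2) c := by
  have hb1 : cos (b * π) ≠ 1 := by
    intro h
    have := sin_sq_add_cos_sq (b * π)
    rw [h] at this
    exact hs (pow_eq_zero_iff two_ne_zero |>.mp (by linarith))
  exact ⟨_, lead_TB_ne hd hb hs hb1 hη hcη, lead_TB η hd hb1⟩

theorem lead_TA_exists {b b' l : ℝ} (hl : 0 < l) (hb : b ∈ Ioo (1 : ℝ) 2)
    (hb' : b' ∈ Ioo (1 : ℝ) 2) : ∃ c, 0 < c ∧ Lead (fun κ => TA b b' (κ * l)) (2 * l) 3 c := by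
  have ne1 : ∀ {x : ℝ}, x ∈ Ioo (1 : ℝ) 2 → cos (x * π) ≠ 1 := by
    intro x hx h
    have hp := pi_pos
    have h2 : cos (x * π - 2 * π) = 1 := by rw [cos_sub_two_pi, h]
    rw [Real.cos_eq_one_iff_of_lt_of_lt] at h2
    · nlinarith [hx.2]
    · nlinarith [hx.1]
    · nlinarith [hx.2]
  have fpos : ∀ {x : ℝ}, x ∈ Ioo (1 : ℝ) 2 → 0 < FA x := by
    intro x hx
    have := fA_pos (x := x - 1) ⟨by linarith [hx.1], by linarith [hx.2]⟩
    rw [FA_eq]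
    rwa [show 1 + (x - 1) = x by ring] at this
  refine ⟨_, ?_, lead_TA hl (by linarith [hb.1]) (by linarith [hb'.1]) (ne1 hb) (ne1 hb')⟩
  have := fpos hb
  have := fpos hb'
  have := JJ_pos 0
  have := Real.rpow_pos_of_pos hl (-(3 : ℝ))
  positivity

/-- types A and B -/
theorem cross_AB {b b' l d b1 η C δ : ℝ} (hl : 0 < l) (hb : b ∈ Ioo (1 : ℝ) 2)
    (hb' : b' ∈ Ioo (1 : ℝ) 2) (hd : 0 < d) (hb1 : 0 < b1) (hs : sin (b1 * π) ≠ 0)
    (hη : η ∈ Ioo 0 (π / b1)) (hcη : cos (b1 * π) ≠ cos (2 * b1 * η)) (x y : ℝ) (hx : x ≠ 0)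
    (hy : y ≠ 0) (hδ : 0 < δ)
    (h : ∀ᶠ κ in atTop, |x * TA b b' (κ * l) - y * TB d b1 η κ| ≤ C * rexp (-((2 * l + δ) * κ))) :
    False := by
  obtain ⟨c, hc, h1⟩ := lead_TA_exists hl hb hb'
  obtain ⟨c', hc', h2⟩ := lead_TB_exists hd hb1 hs hη hcη
  exact (h1.const_mul x).ne_of_power (h2.const_mul y) (mul_ne_zero hx hc.ne')
    (mul_ne_zero hy hc') (by norm_num) hδ h

/-- types A and D -/
theorem cross_AD {b b' l L C δ : ℝ} (hl : 0 < l) (hb : b ∈ Ioo (1 : ℝ) 2)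
    (hb' : b' ∈ Ioo (1 : ℝ) 2) (x y : ℝ) (hx : x ≠ 0) (hy : y ≠ 0) (hδ : 0 < δ)
    (h : ∀ᶠ κ in atTop, |x * TA b b' (κ * l) - y * TD L κ| ≤ C * rexp (-((2 * l + δ) * κ))) :
    False := by
  obtain ⟨c, hc, h1⟩ := lead_TA_exists hl hb hb'
  exact (h1.const_mul x).ne_of_power ((lead_TD L).const_mul y) (mul_ne_zero hx hc.ne')
    (mul_ne_zero hy one_ne_zero) (by norm_num) hδ h

/-- types B and D -/
theorem cross_BD {d b1 η L C δ : ℝ} (hd : 0 < d) (hb1 : 0 < b1) (hs : sin (b1 * π) ≠ 0)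
    (hη : η ∈ Ioo 0 (π / b1)) (hcη : cos (b1 * π) ≠ cos (2 * b1 * η)) (x y : ℝ) (hx : x ≠ 0)
    (hy : y ≠ 0) (hδ : 0 < δ)
    (h : ∀ᶠ κ in atTop, |x * TB d b1 η κ - y * TD L κ| ≤ C * rexp (-((2 * d + δ) * κ))) :
    False := by
  obtain ⟨c', hc', h2⟩ := lead_TB_exists hd hb1 hs hη hcη
  exact (h2.const_mul x).ne_of_power ((lead_TD L).const_mul y) (mul_ne_zero hx hc')
    (mul_ne_zero hy one_ne_zero) (by norm_num) hδ h

end Pool.Agent.AEU.H12
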