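import Pool.Agent.Helper12_AEU.Slab

/-! helper12, AEU (MP_5b0138_an) Part III, FLUX: exact flux through a strip. -/

namespace Pool.Agent.AEU.H12

open MeasureTheory Filter Topology Real Set

lemma integral_abs_gauss {b : ℝ} (hb : 0 < b) : ∫ w : ℝ, |w| * rexp (-(b * w ^ 2)) = 1 / b := by
  have h1 : ∫ w : ℝ, |w| * rexp (-(b * w ^ 2)) = 2 * ∫ w in Ioi (0 : ℝ), w * rexp (-(b * w ^ 2)) := by
    have := integral_comp_abs (f := fun w : ℝ => w * rexp (-(b * w ^ 2)))
    rw [← this]
    congr 1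
    ext w
    rw [sq_abs]
  have h2 := integral_mul_cexp_neg_mul_sq (b := (b : ℂ)) (by simpa using hb)
  have h3 : ((∫ w in Ioi (0 : ℝ), w * rexp (-(b * w ^ 2)) : ℝ) : ℂ) = (((2 * b)⁻¹ : ℝ) : ℂ) := by
    rw [← integral_complex_ofReal]
    push_cast
    rw [← h2]
    congr 1
    ext w
    push_cast
    congr 2
    ring
  have h4 : ∫ w in Ioi (0 : ℝ), w * rexp (-(b * w ^ 2)) = (2 * b)⁻¹ := by exact_mod_cast h3
  rw [h1, h4]
  field_simp

lemma integrable_abs_gauss {b : ℝ} (hb : 0 < b) : Integrable fun w : ℝ => |w| * rexp (-(b * w ^ 2)) := by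
  have := (integrable_mul_exp_neg_mul_sq hb).norm
  refine this.congr (Eventually.of_forall fun w => ?_)
  simp only
  rw [norm_mul, Real.norm_eq_abs, Real.norm_eq_abs, abs_of_pos (exp_pos _), neg_mul]

lemma integral_abs_g1 {A : ℝ} (hA : 0 < A) : ∫ w, |w| * g1 A w = (√(4 * π * A))⁻¹ * (4 * A) := by
  have h := integral_abs_gauss (b := 1 / (4 * A)) (by positivity)
  have e : ∀ w : ℝ, |w| * g1 A w = (√(4 * π * A))⁻¹ * (|w| * rexp (-(1 / (4 * A) * w ^ 2))) := by
    intro w
    unfold g1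
    have : 1 / (4 * A) * w ^ 2 = w ^ 2 / (4 * A) := by field_simp
    rw [this]
    ring
  simp_rw [e]
  rw [integral_const_mul, h]
  congr 1
  field_simp

lemma integrable_abs_g1 {A : ℝ} (hA : 0 < A) : Integrable fun w => |w| * g1 A w := by
  refine (int_g1_mul hA).norm.congr (Eventually.of_forall fun w => ?_)
  simp only
  rw [norm_mul, Real.norm_eq_abs, Real.norm_eq_abs, abs_of_nonneg (g1_nonneg A w)]

lemma RR_nonneg (A Δ lam : ℝ) : 0 ≤ RR A Δ lam := by
  unfold RR
  apply integral_nonneg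
  intro w
  apply indicator_nonneg
  intro v _
  have := g1_nonneg A v
  positivity

lemma RR1 {A Δ lam : ℝ} (hA : 0 < A) (hΔ : 0 < Δ) (h0 : 0 ≤ lam) (h : lam ≤ Δ / (8 * A)) :
    RR A Δ lam ≤ 32 * A * (√(4 * π * A))⁻¹ * rexp (-(Δ ^ 2 / (16 * A))) := by
  have hg := (integrable_abs_gauss (b := 1 / (16 * A)) (by positivity)).const_mul
    (2 * (√(4 * π * A))⁻¹ * rexp (-(Δ ^ 2 / (16 * A))))
  have h1 : RR A Δ lam ≤ ∫ w, 2 * (√(4 * π * A))⁻¹ * rexp (-(Δ ^ 2 / (16 * A))) *
      (|w| * rexp (-(1 / (16 * A) * w ^ 2))) := by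
    unfold RR
    apply integral_mono _ hg
    · intro w
      simp only
      by_cases hw : w ∈ (Ioo (-Δ) Δ)ᶜ
      · rw [indicator_of_mem hw]
        have hw' : Δ ≤ |w| := by
          by_contra hc
          rw [not_le] at hc
          exact hw (abs_lt.mp hc)
        have e1 : g1 A w * rexp (-(w * lam)) ≤ (√(4 * π * A))⁻¹ *
            (rexp (-(Δ ^ 2 / (16 * A))) * rexp (-(1 / (16 * A) * w ^ 2))) := by
          unfold g1
          rw [mul_assoc, ← Real.exp_add, ← Real.exp_add]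
          have : -(w ^ 2 / (4 * A)) + -(w * lam) ≤ -(Δ ^ 2 / (16 * A)) + -(1 / (16 * A) * w ^ 2) := by
            have h2 : -(w * lam) ≤ |w| * lam := by nlinarith [neg_abs_le w]
            have h3 : |w| * lam ≤ |w| * (Δ / (8 * A)) := by gcongr
            have h4 : |w| * (Δ / (8 * A)) ≤ |w| * (|w| / (8 * A)) := by gcongr
            have h5 : |w| * (|w| / (8 * A)) = w ^ 2 / (8 * A) := by
              rw [← mul_div_assoc, ← sq, sq_abs]
            have h6 : Δ ^ 2 / (16 * A) ≤ w ^ 2 / (16 * A) := by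
              rw [← sq_abs w]; gcongr
            have h7 : w ^ 2 / (4 * A) = 4 * (w ^ 2 / (16 * A)) := by field_simp; norm_num
            have h8 : w ^ 2 / (8 * A) = 2 * (w ^ 2 / (16 * A)) := by field_simp; ring
            have h9 : 1 / (16 * A) * w ^ 2 = w ^ 2 / (16 * A) := by field_simp
            linarith
          have hp : 0 ≤ (√(4 * π * A))⁻¹ := by positivity
          exact mul_le_mul_of_nonneg_left (exp_le_exp.mpr this) hp
        calc 2 * |w| * (g1 A w * rexp (-(w * lam))) ≤ 2 * |w| * ((√(4 * π * A))⁻¹ *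
              (rexp (-(Δ ^ 2 / (16 * A))) * rexp (-(1 / (16 * A) * w ^ 2)))) := by gcongr
          _ = _ := by ring
      · rw [indicator_of_notMem hw]
        positivity
    · exact (int_abs_g1_exp hA lam).indicator measurableSet_Ioo.compl
  rw [integral_const_mul, integral_abs_gauss (by positivity)] at h1
  refine h1.trans (le_of_eq ?_)
  field_simp
  norm_num

lemma RR2 {A Δ lam : ℝ} (hA : 0 < A) (h0 : 0 ≤ lam) :
    RR A Δ lam ≤ 2 * rexp (A * lam ^ 2) * (2 * A * lam + (√(4 * π * A))⁻¹ * (4 * A)) := by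
  have h1 : RR A Δ lam ≤ ∫ w, 2 * |w| * (g1 A w * rexp (-(w * lam))) := by
    unfold RR
    apply integral_mono ((int_abs_g1_exp hA lam).indicator measurableSet_Ioo.compl)
      (int_abs_g1_exp hA lam)
    intro w
    apply indicator_le_self'
    intro v _
    have := g1_nonneg A v
    positivity
  refine h1.trans ?_
  have e : ∀ w, 2 * |w| * (g1 A w * rexp (-(w * lam))) =
      (fun v => 2 * rexp (A * lam ^ 2) * (|v - 2 * A * lam| * g1 A v)) (w + 2 * A * lam) := by
    intro w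
    simp only
    rw [g1_shift hA, add_sub_cancel_right]
    ring
  simp_rw [e]
  rw [integral_add_right_eq_self (fun v => 2 * rexp (A * lam ^ 2) *
    (|v - 2 * A * lam| * g1 A v)), integral_const_mul]
  gcongr
  have h2 : ∫ v, |v - 2 * A * lam| * g1 A v ≤ ∫ v, (2 * A * lam * g1 A v + |v| * g1 A v) := by
    apply integral_mono_of_nonneg
    · exact Eventually.of_forall fun v => mul_nonneg (abs_nonneg _) (g1_nonneg _ _)
    · exact ((int_g1 hA).const_mul _).add (integrable_abs_g1 hA)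
    · refine Eventually.of_forall fun v => ?_
      simp only
      rw [← add_mul]
      apply mul_le_mul_of_nonneg_right _ (g1_nonneg _ _)
      have h3 : 0 ≤ 2 * A * lam := by positivity
      calc |v - 2 * A * lam| ≤ |v| + |2 * A * lam| := abs_sub _ _
        _ = _ := by rw [abs_of_nonneg h3]; ring
  rw [integral_add ((int_g1 hA).const_mul _) (integrable_abs_g1 hA), integral_const_mul,
    integral_g1 hA, integral_abs_g1 hA, mul_one] at h2
  exact h2

/-- product form of the integral across the cut-off line -/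
lemma MM_prod (A X0 Δ lam : ℝ) :
    ∫ q in Ioo (X0 - Δ) (X0 + Δ) ×ˢ Ioo (X0 - Δ) (X0 + Δ),
      g1 A (q.1 - q.2) * (chi X0 q.2 - chi X0 q.1) * rexp (-((q.1 - q.2) * lam)) = MM A X0 Δ lam := by
  unfold MM
  rw [Measure.volume_eq_prod, ← Measure.prod_restrict, integral_prod_symm]
  have hc : Continuous fun q : ℝ × ℝ => g1 A (q.1 - q.2) * rexp (-((q.1 - q.2) * lam)) := by
    have := continuous_g1 A
    fun_prop
  have hb : IntegrableOn (fun q : ℝ × ℝ => g1 A (q.1 - q.2) * rexp (-((q.1 - q.2) * lam)))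
      (Ioo (X0 - Δ) (X0 + Δ) ×ˢ Ioo (X0 - Δ) (X0 + Δ)) := by
    have h1 : IntegrableOn (fun q : ℝ × ℝ => g1 A (q.1 - q.2) * rexp (-((q.1 - q.2) * lam)))
      (Icc (X0 - Δ) (X0 + Δ) ×ˢ Icc (X0 - Δ) (X0 + Δ)) :=
      hc.continuousOn.integrableOn_compact (isCompact_Icc.prod isCompact_Icc)
    exact h1.mono_set (prod_mono Ioo_subset_Icc_self Ioo_subset_Icc_self)
  rw [Measure.prod_restrict, ← Measure.volume_eq_prod]
  refine hb.norm.mono' ?_ (Eventually.of_forall fun q => ?_)
  · apply Measurable.aestronglyMeasurable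
    have m1 := (continuous_g1 A).measurable
    have m2 := chi_meas X0
    fun_prop
  · have h2 := chi_sub_le X0 q.2 q.1
    rw [norm_mul, norm_mul, norm_mul, Real.norm_eq_abs (chi X0 q.2 - chi X0 q.1)]
    have h3 : 0 ≤ ‖g1 A (q.1 - q.2)‖ := norm_nonneg _
    have h4 : 0 ≤ ‖rexp (-((q.1 - q.2) * lam))‖ := norm_nonneg _
    have h5 : ‖g1 A (q.1 - q.2)‖ * |chi X0 q.2 - chi X0 q.1| ≤ ‖g1 A (q.1 - q.2)‖ * 1 := by gcongr
    rw [mul_one] at h5
    gcongr

end Pool.Agent.AEU.H12
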