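import Pool.Agent.Helper12_AEU.PW

/-! helper12, AEU (MP_5b0138_an) Part III, FLUX: Fourier transform of plane wave superpositions. -/

namespace Pool.Agent.AEU.H12

open MeasureTheory Filter Topology Real Set
open scoped FourierTransform

/-- bound of a plane wave superposition along a line -/
lemma pw_bound_abs (hK : KitShift) {p τ c : ℝ} (s : ℝ) (hp : 0 < p) (hc : 0 < c) (hc2 : c < π / 2) :
    ‖pw p s τ‖ ≤ rexp (c * |τ|) * (E0 (p * cos c + |s| * sin c) / 2) := by
  have h1 : 0 < cos c := cos_pos_of_mem_Ioo ⟨by linarith [pi_pos], hc2⟩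
  have h2 : 0 < sin c := sin_pos_of_mem_Ioo ⟨hc, by linarith [pi_pos]⟩
  have h3 : 0 < p * cos c + |s| * sin c := by positivity
  rcases le_total 0 s with hs | hs
  · have h := pw_bound hK (τ := τ) (s := s) (φ := c) hp (by rwa [abs_of_pos hc])
      (by rwa [abs_of_nonneg hs] at h3)
    rw [abs_of_nonneg hs]
    refine h.trans ?_
    have := E0_nonneg (p * cos c + s * sin c)
    gcongr
    nlinarith [neg_abs_le τ]
  · have e : p * cos (-c) + s * sin (-c) = p * cos c + |s| * sin c := by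
      rw [cos_neg, sin_neg, abs_of_nonpos hs]; ring
    have h := pw_bound hK (τ := τ) (s := s) (φ := -c) hp (by rwa [abs_neg, abs_of_pos hc])
      (by rw [e]; exact h3)
    rw [e] at h
    refine h.trans ?_
    have := E0_nonneg (p * cos c + |s| * sin c)
    gcongr
    nlinarith [le_abs_self τ]

lemma int_exp_neg_abs {a : ℝ} (ha : 0 < a) : Integrable (fun s : ℝ => rexp (-(a * |s|))) := by
  have h1 : IntegrableOn (fun s : ℝ => rexp (-(a * |s|))) (Ioi 0) := by
    have := integrableOn_exp_mul_Ioi (a := -a) (by linarith) 0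
    refine this.congr_fun (fun s hs => ?_) measurableSet_Ioi
    simp only
    rw [abs_of_pos (show (0 : ℝ) < s from hs)]
    congr 1; ring
  have h2 : IntegrableOn (fun s : ℝ => rexp (-(a * |s|))) (Iic 0) := by
    have := integrableOn_exp_mul_Iic ha 0
    refine this.congr_fun (fun s hs => ?_) measurableSet_Iic
    simp only
    rw [abs_of_nonpos (show s ≤ 0 from hs)]
    congr 1; ring
  rw [← integrableOn_univ, ← Iic_union_Ioi (a := (0 : ℝ))]
  exact h2.union h1

lemma int_pw_line (hK : KitShift) {p : ℝ} (hp : 0 < p) (τ : ℝ) :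
    Integrable fun s => pw p s τ := by
  have hc : (0 : ℝ) < 1 := one_pos
  have hc2 : (1 : ℝ) < π / 2 := by linarith [pi_gt_three]
  have h1 : 0 < cos 1 := cos_pos_of_mem_Ioo ⟨by linarith [pi_pos], hc2⟩
  have h2 : 0 < sin 1 := sin_pos_of_mem_Ioo ⟨hc, by linarith [pi_gt_three]⟩
  refine ((int_exp_neg_abs h2).const_mul (rexp (1 * |τ|) * (E0 (p * cos 1) / 2))).mono'
    (continuous_pw hp τ).aestronglyMeasurable (Eventually.of_forall fun s => ?_)
  refine (pw_bound_abs hK s hp hc hc2).trans ?_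
  rw [mul_assoc]
  gcongr
  have h3 := E0_decay (x := p * cos 1) (y := p * cos 1 + |s| * sin 1) (by positivity)
    (by have : 0 ≤ |s| * sin 1 := by positivity
        linarith)
  have e : p * cos 1 + |s| * sin 1 - p * cos 1 = sin 1 * |s| := by ring
  rw [e] at h3
  linarith

/-- the density on the frequency side -/
noncomputable def FF (p τ η : ℝ) : ℂ :=
  Complex.exp (((-(p * √(1 + η ^ 2)) : ℝ) : ℂ) + ((τ * arsinh η : ℝ) : ℂ) * Complex.I) /
    ((√(1 + η ^ 2) : ℝ) : ℂ)

lemma continuous_FF (p τ : ℝ) : Continuous (FF p τ) := by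
  unfold FF
  have h : ∀ η : ℝ, ((√(1 + η ^ 2) : ℝ) : ℂ) ≠ 0 := by
    intro η
    have : 0 < √(1 + η ^ 2) := Real.sqrt_pos.mpr (by positivity)
    exact_mod_cast this.ne'
  have h2 : Continuous arsinh := Real.continuous_arsinh
  fun_prop (disch := exact h _)

lemma FF_sinh (p τ u : ℝ) : ((cosh u : ℝ) : ℂ) * FF p τ (sinh u) =
    Complex.exp (((-(p * cosh u) : ℝ) : ℂ) + ((τ * u : ℝ) : ℂ) * Complex.I) := by
  unfold FF
  have h : √(1 + sinh u ^ 2) = cosh u := by
    rw [add_comm, ← Real.cosh_sq, Real.sqrt_sq (cosh_pos u).le]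
  rw [h, arsinh_sinh]
  have h2 : ((cosh u : ℝ) : ℂ) ≠ 0 := by exact_mod_cast (cosh_pos u).ne'
  field_simp

lemma integral_comp_sinh (g : ℝ → ℂ) : ∫ η, g η = ∫ u, ((cosh u : ℝ) : ℂ) * g (sinh u) := by
  have h := integral_image_eq_integral_abs_deriv_smul (s := univ) (f := sinh) (f' := cosh)
    MeasurableSet.univ (fun x _ => (Real.hasDerivAt_sinh x).hasDerivWithinAt)
    (Real.sinh_injective.injOn) g
  rw [image_univ, Real.sinh_surjective.range_eq, setIntegral_univ, setIntegral_univ] at h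
  rw [h]
  congr 1
  ext u
  rw [abs_of_pos (cosh_pos u), Complex.real_smul]

lemma integrable_comp_sinh (g : ℝ → ℂ) (h : Integrable fun u => ((cosh u : ℝ) : ℂ) * g (sinh u)) :
    Integrable g := by
  have h1 := integrableOn_image_iff_integrableOn_abs_deriv_smul (s := univ) (f := sinh) (f' := cosh)
    MeasurableSet.univ (fun x _ => (Real.hasDerivAt_sinh x).hasDerivWithinAt)
    (Real.sinh_injective.injOn) g
  rw [image_univ, Real.sinh_surjective.range_eq, integrableOn_univ, integrableOn_univ] at h1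
  rw [h1]
  refine h.congr (Eventually.of_forall fun u => ?_)
  simp only
  rw [abs_of_pos (cosh_pos u), Complex.real_smul]

lemma int_FF {p : ℝ} (hp : 0 < p) (τ : ℝ) : Integrable (FF p τ) := by
  apply integrable_comp_sinh
  simp_rw [FF_sinh]
  have := int_pwi hp 0 τ
  refine this.congr (Eventually.of_forall fun u => ?_)
  unfold pwi
  simp only [zero_mul, zero_add]

lemma fourier_FF (p τ w : ℝ) : 𝓕 (FF p τ) w = 2 * pw p (-(2 * π * w)) τ := by
  rw [fourier_real_eq_integral_exp_smul, integral_comp_sinh]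
  unfold pw
  rw [← mul_assoc]
  norm_num
  congr 1
  ext u
  rw [mul_left_comm, ← Complex.ofReal_cosh, FF_sinh]
  unfold pwi
  rw [← Complex.exp_add]
  congr 1
  push_cast
  ring

/-- Fourier transform of a plane wave superposition -/
theorem ft_pw (hK : KitShift) {p : ℝ} (hp : 0 < p) (τ v : ℝ) :
    ∫ s : ℝ, pw p s τ * Complex.exp (((s * sinh v : ℝ) : ℂ) * Complex.I) =
      ((π / cosh v : ℝ) : ℂ) *
        Complex.exp (((-(p * cosh v) : ℝ) : ℂ) + ((-(τ * v) : ℝ) : ℂ) * Complex.I) := by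
  have h1 : Integrable (𝓕 (FF p τ)) := by
    have h2 : Integrable fun w : ℝ => 2 * pw p (-(2 * π) * w) τ :=
      ((int_pw_line hK hp τ).comp_mul_left' (R := -(2 * π)) (by
        have := pi_pos; linarith [pi_pos])).const_mul 2
    refine h2.congr (Eventually.of_forall fun w => ?_)
    simp only
    rw [fourier_FF]
    congr 2
    ring
  have h3 := (continuous_FF p τ).fourierInv_fourier_eq (int_FF hp τ) h1
  have h4 := congrFun h3 (-(sinh v))
  rw [fourierInv_eq'] at h4
  have h5 : ∫ w : ℝ, Complex.exp ((↑(2 * π * inner ℝ w (-(sinh v))) * Complex.I)) •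
      𝓕 (FF p τ) w = ∫ w : ℝ, (fun s : ℝ => 2 * (pw p s τ * Complex.exp (((s * sinh v : ℝ) : ℂ) * Complex.I))) (-(2 * π) * w) := by
    congr 1
    ext w
    rw [fourier_FF, smul_eq_mul]
    simp only
    have e1 : -(2 * π) * w = -(2 * π * w) := by ring
    have e2 : (2 * π * inner ℝ w (-(sinh v)) : ℝ) = -(2 * π * w) * sinh v := by
      simp [inner]
      ring
    rw [e1, e2]
    ring
  rw [h5, Measure.integral_comp_mul_left (fun s : ℝ => 2 * (pw p s τ *
    Complex.exp (((s * sinh v : ℝ) : ℂ) * Complex.I))) (-(2 * π)), integral_const_mul] at h4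
  have h6 := FF_sinh p τ (-v)
  rw [sinh_neg, cosh_neg] at h6
  have h7 : ((cosh v : ℝ) : ℂ) ≠ 0 := by exact_mod_cast (cosh_pos v).ne'
  have h8 : FF p τ (-(sinh v)) = Complex.exp (((-(p * cosh v) : ℝ) : ℂ) +
      ((-(τ * v) : ℝ) : ℂ) * Complex.I) / ((cosh v : ℝ) : ℂ) := by
    rw [eq_div_iff h7, mul_comm, h6]
    congr 3
    push_cast
    ring
  rw [h8] at h4
  have h9 : |(-(2 * π))⁻¹| = (2 * π)⁻¹ := by
    rw [abs_inv, abs_neg, abs_of_pos (by positivity)]
  rw [h9] at h4
  set X := ∫ s : ℝ, pw p s τ * Complex.exp (((s * sinh v : ℝ) : ℂ) * Complex.I) with hX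
  rw [Complex.real_smul] at h4
  have h10 : X = (π : ℂ) * ((((2 * π)⁻¹ : ℝ) : ℂ) * (2 * X)) := by
    have : (π : ℂ) ≠ 0 := by exact_mod_cast pi_ne_zero
    push_cast
    field_simp
  rw [h10, h4]
  push_cast
  ring

end Pool.Agent.AEU.H12
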