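import Pool.Agent.Helper12_AEU.Gen
import Pool.Agent.Helper15_AEU3.Cvt
import Pool.Agent.Helper14_AEU3.Angles
import Pool.Agent.Helper96_AEU3.Shb

/-! helper12, AEU (MP_5b0138_an) Part III, FLUX: the nonspanning case. -/

namespace Pool.Agent.AEU.H12

open MeasureTheory Filter Topology Real Set Pool.Agent.H60K

lemma rf_eq (η1 η2 d : ℝ) (y : ℂ) :
    rf (us η1 η2) (hh d) 0 y = 2 * d - (starRingEnd ℂ) y := by
  unfold rf us hh
  simp only [if_true]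
  unfold Pool.Agent.H62T.ip
  apply Complex.ext <;> simp
  ring

lemma ev_shb {p q : ℝ} (h : |p| < q) :
    ∃ C, Ev (fun τ => sinh (p * τ) / sinh (q * τ)) C (q - |p|) := by
  obtain ⟨hm, C, _, hC⟩ := Pool.Agent.AEU.H96F.shb p q h
  refine ⟨C, hm, fun τ => ?_, hC⟩
  show sinh (p * -τ) / sinh (q * -τ) = sinh (p * τ) / sinh (q * τ)
  rw [mul_neg, mul_neg, sinh_neg, sinh_neg, neg_div_neg_eq]

lemma Ev.neg {m : ℝ → ℝ} {C g : ℝ} (h : Ev m C g) : Ev (fun τ => -m τ) C g :=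
  ⟨h.meas.neg, fun τ => by rw [h.even], fun τ => by rw [abs_neg]; exact h.bound τ⟩

/-- replacement of the inner integral -/
lemma inner_congr {X0 δ ζ1 ζ2 : ℝ} {W : ℂ → ℂ → ℝ} {A B : ℂ → ℂ → ℝ}
    (h : ∀ x ∈ Rw X0 δ ζ1 ζ2, ∀ y ∈ Rw X0 δ ζ1 ζ2, A x y = B x y) :
    ∫ x in Rw X0 δ ζ1 ζ2, ∫ y in Rw X0 δ ζ1 ζ2, W x y * A x y =
      ∫ x in Rw X0 δ ζ1 ζ2, ∫ y in Rw X0 δ ζ1 ζ2, W x y * B x y := by
  have hm := (H15.Rw_open X0 δ ζ1 ζ2).measurableSet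
  apply setIntegral_congr_fun hm
  intro x hx
  apply setIntegral_congr_fun hm
  intro y hy
  simp only
  rw [h x hx y hy]

lemma ker_jkr (hKER : KerStatement) {η1 η2 d κ : ℝ} (h1 : 0 < η1) (h2 : 0 < η2)
    (h12 : η1 + η2 < π) (hκ : 0 < κ) {z x : ℂ} (hz : z ≠ 0) (hx : x ≠ 0)
    (hz1 : -η2 < z.arg) (hz2 : z.arg < η1) (hx1 : -η2 < x.arg) (hx2 : x.arg < η1) :
    ∫ t in Ioi (0 : ℝ), rexp (-(κ ^ 2 * t)) * kME (us η1 η2) (hh d) {1} {2} t z x =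
      JKr (fun τ => sinh ((π - (η1 + η2)) * τ) / sinh ((η1 + η2) * τ))
        (fun τ => -(sinh ((π - (η1 + η2)) * τ) / sinh ((η1 + η2) * τ))) (2 * η2) κ z x := by
  obtain ⟨_, _, h⟩ := hKER η1 η2 d κ ‖z‖ ‖x‖ z.arg x.arg h1 h2 h12 hκ (norm_pos_iff.mpr hz)
    (norm_pos_iff.mpr hx) hz1 hz2 hx1 hx2
  rw [Complex.norm_mul_exp_arg_mul_I, Complex.norm_mul_exp_arg_mul_I] at h
  rw [h]
  unfold JKr
  rw [show (2 : ℝ) / π ^ 2 = 1 / π ^ 2 * 2 by ring, mul_assoc, ← integral_const_mul]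
  congr 1
  congr 1
  ext τ
  have e1 : cosh ((2 * η2 + z.arg + x.arg) * τ) = cosh (τ * (z.arg + η2)) * cosh (τ * (x.arg + η2)) +
      sinh (τ * (z.arg + η2)) * sinh (τ * (x.arg + η2)) := by
    rw [← cosh_add]
    congr 1
    ring
  have e2 : cosh ((z.arg - x.arg) * τ) = cosh (τ * (z.arg + η2)) * cosh (τ * (x.arg + η2)) -
      sinh (τ * (z.arg + η2)) * sinh (τ * (x.arg + η2)) := by
    rw [← cosh_sub]
    congr 1
    ring
  rw [e1, e2]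
  have e3 : H38KL.Kit τ (κ * ‖z‖) = Kit τ (κ * ‖z‖) := rfl
  have e4 : H38KL.Kit τ (κ * ‖x‖) = Kit τ (κ * ‖x‖) := rfl
  rw [e3, e4]
  ring

/-- FLN -/
theorem fln (hKER : KerStatement) : FlnStatement := by
  intro η1 η2 d h1 h2 h12 hd
  have hpi := pi_pos
  obtain ⟨ρ0, hρ0, H⟩ := Pool.Agent.AEU.H12F.H14.prn η1 η2 d h1 h2 h12 hd
  refine ⟨ρ0, hρ0, fun ρ hρ hρρ => ?_⟩
  obtain ⟨θ, t0, t1, t2, t3, e, δ0, he, hδ0, H⟩ := H ρ hρ hρρ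
  refine ⟨e, δ0, he, hδ0, fun δ hδ hδδ => ?_⟩
  obtain ⟨q1, q2, q3, q4⟩ := H δ hδ hδδ
  have hp : |π - (η1 + η2)| < η1 + η2 := by
    rw [abs_of_pos (by linarith)]; linarith
  have hp' : η1 + η2 - |π - (η1 + η2)| = 2 * (η1 + η2) - π := by
    rw [abs_of_pos (by linarith)]; ring
  obtain ⟨C1, hev⟩ := ev_shb hp
  rw [hp'] at hev
  have hb : |2 * η2| < 2 * (η1 + η2) - π := by
    rw [abs_of_pos (by linarith)]; linarith
  obtain ⟨c0, hc0, hg⟩ := gen (δ := δ) hev hev.neg hb (by linarith) hδ q1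
    (by linarith : 0 < 2 * d + e) q2.le q2.le t0 t1 t0 t1 t0 t1 t0 t1
    (by linarith) (by linarith) q4 q4 q4 q4
  refine ⟨c0, hc0, fun c hc hcc => ?_⟩
  obtain ⟨C, κ0, hκ0, hg⟩ := hg c hc hcc
  refine ⟨C, κ0, hκ0, fun κ hκ => ?_⟩
  have hκp : 0 < κ := hκ0.trans_le hκ
  have hg := hg κ hκ
  rw [H15.cvt η1 η2 d δ ρ ρ c κ {1} {2} hd hδ q1 hc hκp (by decide) (by decide) (by decide)]
  have e1 : FN η1 η2 d κ = 2 / π * ∫ τ in Ioi (0 : ℝ),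
      (sinh ((π - (η1 + η2)) * τ) / sinh ((η1 + η2) * τ) * cosh (2 * η2 * τ) *
        Kit 0 (2 * κ * d) + -(sinh ((π - (η1 + η2)) * τ) / sinh ((η1 + η2) * τ)) *
        Kit (2 * τ) (2 * κ * d)) := by
    unfold FN
    congr 1
    congr 1
    ext τ
    have e3 : H38KL.Kit 0 (2 * κ * d) = Kit 0 (2 * κ * d) := rfl
    have e4 : H38KL.Kit (2 * τ) (2 * κ * d) = Kit (2 * τ) (2 * κ * d) := rfl
    rw [e3, e4]
    ring
  rw [e1, ← mul_assoc (κ / c)]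
  rw [inner_congr (B := fun x y => JKr (fun τ => sinh ((π - (η1 + η2)) * τ) / sinh ((η1 + η2) * τ))
        (fun τ => -(sinh ((π - (η1 + η2)) * τ) / sinh ((η1 + η2) * τ))) (2 * η2) κ
        (2 * d - (starRingEnd ℂ) y) x)]
  · exact hg
  · intro x hx y hy
    obtain ⟨a1, a2, a3, _, _, _⟩ := q3 x hx
    obtain ⟨_, _, _, b1, b2, b3⟩ := q3 y hy
    simp only [rf_eq]
    apply ker_jkr hKER (by linarith) h2 h12 hκp _ _ b2 b3 a2 a3
    · intro h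
      rw [h, Complex.zero_re] at b1
      exact lt_irrefl _ b1
    · intro h
      rw [h, Complex.zero_re] at a1
      exact lt_irrefl _ a1

end Pool.Agent.AEU.H12
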