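import Pool.Agent.Helper12_AEU.Fls2
import Pool.Agent.Helper35_AEU3.Prs

/-! helper12, AEU (MP_5b0138_an) Part III, FLUX: the spanning case. -/

namespace Pool.Agent.AEU.H12

open MeasureTheory Filter Topology Real Set Pool.Agent.H60K

/-- the conclusion of FLS -/
def FlsC (η1 η2 d ε : ℝ) : Prop :=
  ∃ ρ0 : ℝ, 0 < ρ0 ∧ ∀ ρ : ℝ, 0 < ρ → ρ < ρ0 → ∃ δ0 : ℝ, 0 < δ0 ∧ ∀ δ : ℝ, 0 < δ → δ < δ0 →
    ∃ c0 : ℝ, 0 < c0 ∧ ∀ c : ℝ, 0 < c → c < c0 → ∃ C κ0 : ℝ, 0 < κ0 ∧ ∀ κ : ℝ, κ0 ≤ κ →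
      |κ / c * (∫ t in Set.Ioi (c / κ), Real.exp (-(κ ^ 2 * t)) *
          TT3 η1 η2 d {1, 2} ∅ (d - 2 * δ) δ (d * Real.tan η1 - ρ) (d * Real.tan η2 - ρ) (c / κ) t)
        - FS η1 η2 d κ| ≤ C * Real.exp (-(κ * (2 * hb η1 η2 d - ε)))

lemma FlsC.mono {η1 η2 d ε ε' : ℝ} (h : FlsC η1 η2 d ε') (hε : ε' ≤ ε) : FlsC η1 η2 d ε := by
  obtain ⟨ρ0, hρ0, h⟩ := h
  refine ⟨ρ0, hρ0, fun ρ hρ hρρ => ?_⟩
  obtain ⟨δ0, hδ0, h⟩ := h ρ hρ hρρ
  refine ⟨δ0, hδ0, fun δ hδ hδδ => ?_⟩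
  obtain ⟨c0, hc0, h⟩ := h δ hδ hδδ
  refine ⟨c0, hc0, fun c hc hcc => ?_⟩
  obtain ⟨C, κ0, hκ0, h⟩ := h c hc hcc
  refine ⟨C, κ0, hκ0, fun κ hκ => ?_⟩
  have h := h κ hκ
  have hκp : 0 < κ := hκ0.trans_le hκ
  have hC : 0 ≤ C := by
    have h2 := (abs_nonneg _).trans h
    by_contra hneg
    rw [not_le] at hneg
    have := mul_neg_of_neg_of_pos hneg (exp_pos (-(κ * (2 * hb η1 η2 d - ε'))))
    linarith
  refine h.trans (mul_le_mul_of_nonneg_left (exp_le_exp.mpr ?_) hC)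
  have := mul_le_mul_of_nonneg_left hε hκp.le
  linarith

lemma hb_pos {η1 η2 d : ℝ} (h1 : 0 < η1) (h1' : η1 < π / 2) (h2 : 0 < η2) (h2' : η2 < π / 2)
    (hd : 0 < d) : 0 < hb η1 η2 d := by
  have s : 0 < sin (η1 + η2) := sin_pos_of_mem_Ioo ⟨by linarith, by linarith⟩
  have c1 : 0 < cos η1 := cos_pos_of_mem_Ioo ⟨by linarith [pi_pos], h1'⟩
  have c2 : 0 < cos η2 := cos_pos_of_mem_Ioo ⟨by linarith [pi_pos], h2'⟩
  unfold hb
  exact lt_min (by positivity) (by positivity)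

lemma ev_w1 {η1 η2 : ℝ} (h : |2 * (η1 + η2) - π| + |η1 - η2| < η1 + η2) :
    ∃ C, Ev (w1 (η1 + η2)) C (η1 + η2 - |2 * (η1 + η2) - π|) := by
  have := abs_nonneg (η1 - η2)
  exact ev_shb (p := 2 * (η1 + η2) - π) (q := η1 + η2) (by linarith)

/-- obtuse case -/
theorem flsA (hKES : KesStatement) {η1 η2 d ε : ℝ} (h1 : 0 < η1) (h1' : η1 < π / 2) (h2 : 0 < η2)
    (h2' : η2 < π / 2) (hd : 0 < d) (hε : 0 < ε)
    (hcond : |2 * (η1 + η2) - π| + |η1 - η2| < η1 + η2) (hα : π / 2 < η1 + η2)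
    (hεh : ε ≤ hb η1 η2 d) : FlsC η1 η2 d ε := by
  have hpi := pi_pos
  have hbp := hb_pos h1 h1' h2 h2' hd
  have hM : 0 < 2 * hb η1 η2 d - ε := by linarith
  obtain ⟨θ1, θ2, t1, t1', t2, t2', r1, r2, ρ0, hρ0, H⟩ :=
    Pool.Agent.AEU.H35F.prs η1 η2 d ε h1 h1' h2 h2' hd hε hcond
  refine ⟨ρ0, hρ0, fun ρ hρ hρρ => ?_⟩
  obtain ⟨δ0, hδ0, H⟩ := H ρ hρ hρρ
  refine ⟨δ0, hδ0, fun δ hδ hδδ => ?_⟩
  obtain ⟨q1, q2, q3, q4, x1, x3, x4, x2⟩ := H δ hδ hδδ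
  obtain ⟨C1, hev1⟩ := ev_w1 hcond
  have hp : |π - (η1 + η2)| < η1 + η2 := by
    rw [abs_of_pos (by linarith)]; linarith
  have hp' : η1 + η2 - |π - (η1 + η2)| = 2 * (η1 + η2) - π := by
    rw [abs_of_pos (by linarith)]; ring
  obtain ⟨C2, hev2⟩ := ev_shb hp
  rw [hp'] at hev2
  have hev2' : Ev (w2 (η1 + η2)) C2 (2 * (η1 + η2) - π) := hev2
  have hb : |(-(η1 - η2))| < η1 + η2 - |2 * (η1 + η2) - π| := by
    rw [abs_neg]; linarith only [hcond]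
  obtain ⟨c0, hc0, hg⟩ := gen (δ := δ) hev1 hev2' hb (by linarith) hδ q1
    hM q2.le q3.le t1 t1' h2 h2' h1 h1' t2 t2'
    (by linarith only [r1]) (by linarith only [r2]) x1 x2 x3 x4
  refine ⟨c0, hc0, fun c hc hcc => ?_⟩
  obtain ⟨C, κ0, hκ0, hg⟩ := hg c hc hcc
  refine ⟨C, κ0, hκ0, fun κ hκ => ?_⟩
  have hκp : 0 < κ := hκ0.trans_le hκ
  have hg := hg κ hκ
  rw [H15.cvt η1 η2 d δ _ _ c κ {1, 2} ∅ hd hδ q1 hc hκp (by decide) (by decide) (by decide)]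
  rw [fs_eq, ← mul_assoc (κ / c)]
  rw [inner_congr (B := fun x y => JKr (w1 (η1 + η2)) (w2 (η1 + η2)) (-(η1 - η2)) κ
        (2 * d - (starRingEnd ℂ) y) x)]
  · exact hg
  · intro x hx y hy
    obtain ⟨a1, a2, a3, _, _, _⟩ := q4 x hx
    obtain ⟨_, _, _, b1, b2, b3⟩ := q4 y hy
    simp only [rf_eq]
    refine (kes_jkr hKES h1 h2 (by linarith) hκp ?_ ?_ b2 b3 a2 a3).2
    · intro h
      rw [h, Complex.zero_re] at b1
      exact lt_irrefl _ b1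
    · intro h
      rw [h, Complex.zero_re] at a1
      exact lt_irrefl _ a1

theorem jkr_int_ev {m1 m2 : ℝ → ℝ} {C1 C2 g₁ g₂ b d δ ζ1 ζ2 : ℝ} (h1 : Ev m1 C1 g₁)
    (h2 : Ev m2 C2 g₂) (hb : |b| < g₁) (hg₂ : 0 < g₂) (hδ : 0 < δ) (hδd : 3 * δ < d) :
    ∃ κ0 : ℝ, 0 < κ0 ∧ ∀ κ, κ0 ≤ κ → ∀ a, 0 < a →
      Integrable (fun p : ℂ × ℂ => H62T.G a (p.1 - p.2) * (ch (d - 2 * δ) p.2 - ch (d - 2 * δ) p.1) *
        JKr m1 m2 b κ (2 * d - (starRingEnd ℂ) p.2) p.1)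
        ((volume.restrict (Rw (d - 2 * δ) δ ζ1 ζ2)).prod
          (volume.restrict (Rw (d - 2 * δ) δ ζ1 ζ2))) := by
  have hb' := abs_lt.mp hb
  set g := min (min (g₁ - b) (g₁ + b)) (min g₂ 1) with hg
  have hgp : 0 < g := lt_min (lt_min (by linarith) (by linarith)) (lt_min hg₂ one_pos)
  set θ0 := g / 4 with hθ0
  have q1 : g ≤ g₁ - b := (min_le_left _ _).trans (min_le_left _ _)
  have q2 : g ≤ g₁ + b := (min_le_left _ _).trans (min_le_right _ _)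
  have q3 : g ≤ g₂ := (min_le_right _ _).trans (min_le_left _ _)
  have q4 : g ≤ 1 := (min_le_right _ _).trans (min_le_right _ _)
  have h0 : 0 < θ0 := by positivity
  have h0' : θ0 < π / 2 := by have := pi_gt_three; linarith
  have hcos : 0 < cos θ0 := cos_pos_of_mem_Ioo ⟨by linarith [pi_pos], h0'⟩
  have hdd : 0 < d - 3 * δ := by linarith
  refine ⟨1 / ((d - 3 * δ) * cos θ0), by positivity, fun κ m3' a ha => ?_⟩
  have hκp : 0 < κ := (by positivity : 0 < 1 / ((d - 3 * δ) * cos θ0)).trans_le m3'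
  have hA : 1 ≤ κ * (d - 2 * δ - δ) * cos θ0 ∧ 1 ≤ κ * (2 * d - (d - 2 * δ) - δ) * cos θ0 := by
    rw [div_le_iff₀ (by positivity)] at m3'
    constructor
    · calc 1 ≤ κ * ((d - 3 * δ) * cos θ0) := m3'
        _ = _ := by ring
    · calc 1 ≤ κ * ((d - 3 * δ) * cos θ0) := m3'
        _ = κ * (d - 3 * δ) * cos θ0 := by ring
        _ ≤ _ := by
          gcongr <;> linarith
  exact jkr_int h1 h2 hb hg₂ hκp ha (by linarith) (by linarith) h0 h0' (by linarith)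
    (by linarith) (by linarith) hA

/-- acute case -/
theorem flsB (hKES : KesStatement) (hKTS : KtsStatement)
    (hIMG : Pool.Agent.AEU.H12F.ImgStatement) {η1 η2 d ε k C2 g₂ : ℝ}
    {m2r : ℝ → ℝ} (h1 : 0 < η1) (h1' : η1 < π / 2) (h2 : 0 < η2)
    (h2' : η2 < π / 2) (hd : 0 < d) (hε : 0 < ε)
    (hcond : |2 * (η1 + η2) - π| + |η1 - η2| < η1 + η2) (hα : η1 + η2 ≤ π / 2)
    (hεh : ε ≤ hb η1 η2 d) (hev : Ev m2r C2 g₂) (hg₂ : 0 < g₂)
    (hm : ∀ τ : ℝ, 0 < τ → w2 (η1 + η2) τ = k * cosh (2 * (π / 2 - (η1 + η2)) * τ) + m2r τ) :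
    FlsC η1 η2 d ε := by
  have hpi := pi_pos
  have hbp := hb_pos h1 h1' h2 h2' hd
  have hM : 0 < 2 * hb η1 η2 d - ε := by linarith only [hε, hεh]
  have hcond2 : π - 2 * (η1 + η2) + |η1 - η2| < η1 + η2 := by
    rw [abs_of_nonpos (by linarith : 2 * (η1 + η2) - π ≤ 0)] at hcond
    linarith
  obtain ⟨θ1, θ2, t1, t1', t2, t2', r1, r2, ρa, hρa, H⟩ :=
    Pool.Agent.AEU.H35F.prs η1 η2 d ε h1 h1' h2 h2' hd hε hcond
  obtain ⟨ρb, hρb, HI⟩ := hIMG η1 η2 d ε h1 h1' h2 h2' hd hε hα hcond2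
  refine ⟨min ρa ρb, lt_min hρa hρb, fun ρ hρ hρρ => ?_⟩
  obtain ⟨δa, hδa, H⟩ := H ρ hρ (hρρ.trans_le (min_le_left _ _))
  obtain ⟨δb, hδb, HI⟩ := HI ρ hρ (hρρ.trans_le (min_le_right _ _))
  refine ⟨min δa δb, lt_min hδa hδb, fun δ hδ hδδ => ?_⟩
  obtain ⟨q1, q2, q3, q4, x1, x3, x4, x2⟩ := H δ hδ (hδδ.trans_le (min_le_left _ _))
  obtain ⟨cb, hcb, HI⟩ := HI δ hδ (hδδ.trans_le (min_le_right _ _))
  obtain ⟨C1, hev1⟩ := ev_w1 hcond
  have hb : |(-(η1 - η2))| < η1 + η2 - |2 * (η1 + η2) - π| := by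
    rw [abs_neg]; linarith
  obtain ⟨ca, hca, hg⟩ := gen (δ := δ) hev1 hev hb hg₂ hδ q1
    hM q2.le q3.le t1 t1' h2 h2' h1 h1' t2 t2'
    (by linarith) (by linarith) x1 x2 x3 x4
  obtain ⟨κc, hκc, hJ⟩ := jkr_int_ev (ζ1 := d * tan η1 - ρ) (ζ2 := d * tan η2 - ρ) hev1 hev hb hg₂
    hδ q1
  refine ⟨min ca cb, lt_min hca hcb, fun c hc hcc => ?_⟩
  obtain ⟨Ca, κa, hκa, hg⟩ := hg c hc (hcc.trans_le (min_le_left _ _))
  obtain ⟨Cb, κb, hκb, HI⟩ := HI c hc (hcc.trans_le (min_le_right _ _))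
  refine ⟨Ca + |k / (4 * π)| * Cb, max (max κa κb) κc,
    lt_max_of_lt_left (lt_max_of_lt_left hκa), fun κ hκ => ?_⟩
  have m1' : κa ≤ κ := ((le_max_left _ _).trans (le_max_left _ _)).trans hκ
  have m2' : κb ≤ κ := ((le_max_right _ _).trans (le_max_left _ _)).trans hκ
  have m3' : κc ≤ κ := (le_max_right _ _).trans hκ
  have hκp : 0 < κ := hκa.trans_le m1'
  have hg := hg κ m1'
  have HI := HI κ m2'
  have hJ := hJ κ m3' (c / κ) (by positivity)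
  have hφ0 : 0 ≤ π / 2 - (η1 + η2) := by linarith only [hα]
  have hφ1 : |π / 2 - (η1 + η2)| < π / 2 := by
    rw [abs_of_nonneg hφ0]; linarith only [h1, h2]
  have hq : ∀ x ∈ Rw (d - 2 * δ) δ (d * tan η1 - ρ) (d * tan η2 - ρ),
      ∀ y ∈ Rw (d - 2 * δ) δ (d * tan η1 - ρ) (d * tan η2 - ρ),
      |(2 * d - (starRingEnd ℂ) y : ℂ).arg - x.arg| + 2 * (π / 2 - (η1 + η2)) ≤ π - (η1 + η2) ∧
        d - 3 * δ ≤ ‖(2 * d - (starRingEnd ℂ) y : ℂ)‖ ∧ d - 3 * δ ≤ ‖x‖ := by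
    intro x hx y hy
    obtain ⟨a1, a2, a3, _, _, _⟩ := q4 x hx
    obtain ⟨_, _, _, b1, b2, b3⟩ := q4 y hy
    have ex := abs_lt.mp hx.1
    have ey := abs_lt.mp hy.1
    refine ⟨?_, ?_, ?_⟩
    · have : |(2 * d - (starRingEnd ℂ) y : ℂ).arg - x.arg| ≤ η1 + η2 := by
        rw [abs_le]
        constructor <;> linarith only [a3, b2, a2, b3]
      linarith only [this]
    · refine le_trans ?_ ((le_abs_self _).trans (Complex.abs_re_le_norm _))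
      have : (2 * d - (starRingEnd ℂ) y : ℂ).re = 2 * d - y.re := by simp
      rw [this]
      linarith only [ey]
    · refine le_trans ?_ ((le_abs_self _).trans (Complex.abs_re_le_norm _))
      linarith only [ex]
  have hIk := ik_int (κ := κ) (a := c / κ) (d := d) (m := d - 3 * δ) hκp (by positivity) hφ0
    (by linarith only [h1, h2] : π - (η1 + η2) < π) (by linarith only [q1]) hq
  have hFS := fs_split (k := k) hKTS hκp hd hev1 hev hb hg₂ hφ1 hm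
  rw [H15.cvt η1 η2 d δ _ _ c κ {1, 2} ∅ hd hδ q1 hc hκp (by decide) (by decide) (by decide)]
  rw [hFS, ← mul_assoc (κ / c)]
  rw [inner_congr (B := fun x y => JKr (w1 (η1 + η2)) m2r (-(η1 - η2)) κ
        (2 * d - (starRingEnd ℂ) y) x + k / (4 * π) * IK (π / 2 - (η1 + η2)) κ
        (2 * d - (starRingEnd ℂ) y) x)]
  · have hl := win_lin (k := k / (4 * π)) (W := fun x y => H62T.G (c / κ) (x - y) *
        (ch (d - 2 * δ) y - ch (d - 2 * δ) x))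
      (A := fun x y => JKr (w1 (η1 + η2)) m2r (-(η1 - η2)) κ (2 * d - (starRingEnd ℂ) y) x)
      (B := fun x y => IK (π / 2 - (η1 + η2)) κ (2 * d - (starRingEnd ℂ) y) x) hJ hIk
    rw [hl]
    have HI' : |κ / c * rexp (-(κ * c)) *
        (∫ x in Rw (d - 2 * δ) δ (d * tan η1 - ρ) (d * tan η2 - ρ),
          ∫ y in Rw (d - 2 * δ) δ (d * tan η1 - ρ) (d * tan η2 - ρ),
          H62T.G (c / κ) (x - y) * (ch (d - 2 * δ) y - ch (d - 2 * δ) x) *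
          IK (π / 2 - (η1 + η2)) κ (2 * d - (starRingEnd ℂ) y) x)
        - 2 * π * rexp (-(2 * κ * d * cos (π / 2 - (η1 + η2))))|
        ≤ Cb * rexp (-(κ * (2 * H60K.hb η1 η2 d - ε))) := by
      rw [cos_pi_div_two_sub]
      have e : 2 * κ * d * sin (η1 + η2) = 2 * d * κ * sin (η1 + η2) := by ring
      rw [e]
      exact HI
    set P := ∫ x in Rw (d - 2 * δ) δ (d * tan η1 - ρ) (d * tan η2 - ρ),
          ∫ y in Rw (d - 2 * δ) δ (d * tan η1 - ρ) (d * tan η2 - ρ),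
          H62T.G (c / κ) (x - y) * (ch (d - 2 * δ) y - ch (d - 2 * δ) x) *
          JKr (w1 (η1 + η2)) m2r (-(η1 - η2)) κ (2 * d - (starRingEnd ℂ) y) x with hP
    set Q := ∫ x in Rw (d - 2 * δ) δ (d * tan η1 - ρ) (d * tan η2 - ρ),
          ∫ y in Rw (d - 2 * δ) δ (d * tan η1 - ρ) (d * tan η2 - ρ),
          H62T.G (c / κ) (x - y) * (ch (d - 2 * δ) y - ch (d - 2 * δ) x) *
          IK (π / 2 - (η1 + η2)) κ (2 * d - (starRingEnd ℂ) y) x with hQ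
    set A := 2 / π * ∫ τ in Ioi (0 : ℝ), (w1 (η1 + η2) τ * cosh (-(η1 - η2) * τ) *
      Kit 0 (2 * κ * d) + m2r τ * Kit (2 * τ) (2 * κ * d)) with hA
    set B := 2 * π * rexp (-(2 * κ * d * cos (π / 2 - (η1 + η2)))) with hB
    calc |κ / c * rexp (-(κ * c)) * (P + k / (4 * π) * Q) - (A + k / (4 * π) * B)|
        = |(κ / c * rexp (-(κ * c)) * P - A) + k / (4 * π) * (κ / c * rexp (-(κ * c)) * Q - B)| := by
          congr 1
          ring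
      _ ≤ |κ / c * rexp (-(κ * c)) * P - A| + |k / (4 * π)| * |κ / c * rexp (-(κ * c)) * Q - B| := by
          refine (abs_add_le _ _).trans ?_
          rw [abs_mul (k / (4 * π))]
      _ ≤ Ca * rexp (-(κ * (2 * H60K.hb η1 η2 d - ε))) +
          |k / (4 * π)| * (Cb * rexp (-(κ * (2 * H60K.hb η1 η2 d - ε)))) :=
          add_le_add hg (mul_le_mul_of_nonneg_left HI' (abs_nonneg _))
      _ = _ := by ring
  · intro x hx y hy
    obtain ⟨a1, a2, a3, _, _, _⟩ := q4 x hx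
    obtain ⟨_, _, _, b1, b2, b3⟩ := q4 y hy
    simp only [rf_eq]
    have hz0 : (2 * d - (starRingEnd ℂ) y : ℂ) ≠ 0 := by
      intro h
      rw [h, Complex.zero_re] at b1
      exact lt_irrefl _ b1
    have hx0 : x ≠ 0 := by
      intro h
      rw [h, Complex.zero_re] at a1
      exact lt_irrefl _ a1
    obtain ⟨k1, k2⟩ := kes_jkr (d := d) hKES h1 h2 (by linarith only [h1, h1', hα]) hκp hz0 hx0 b2 b3 a2 a3
    rw [k2]
    exact jkr_split hκp hz0 hx0 hφ0 (by have := (hq x hx y hy).1; linarith only [h1, h2, this]) hm k1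

/-- FLS -/
theorem fls (hKES : KesStatement) (hKTS : KtsStatement)
    (hIMG : Pool.Agent.AEU.H12F.ImgStatement) : FlsStatement := by
  intro η1 η2 d ε h1 h1' h2 h2' hd hε hcond
  have hpi := pi_pos
  have hbp := hb_pos h1 h1' h2 h2' hd
  suffices h : FlsC η1 η2 d (min ε (hb η1 η2 d)) from h.mono (min_le_left _ _)
  have hε' : 0 < min ε (hb η1 η2 d) := lt_min hε hbp
  rcases lt_trichotomy (η1 + η2) (π / 2) with hα | hα | hα
  · have hcond' := hcond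
    rw [abs_of_neg (by linarith : 2 * (η1 + η2) - π < 0)] at hcond'
    have h3 := abs_nonneg (η1 - η2)
    have hp : |3 * (η1 + η2) - π| < η1 + η2 := by
      rw [abs_of_pos (by linarith)]; linarith
    have hp' : η1 + η2 - |3 * (η1 + η2) - π| = π - 2 * (η1 + η2) := by
      rw [abs_of_pos (by linarith)]; ring
    obtain ⟨C, hev⟩ := ev_shb hp
    rw [hp'] at hev
    refine flsB hKES hKTS hIMG (k := 2) h1 h1' h2 h2' hd hε' hcond hα.le (min_le_right _ _)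
      hev.neg (by linarith) fun τ hτ => ?_
    have hs : sinh ((η1 + η2) * τ) ≠ 0 := by
      have : 0 < sinh ((η1 + η2) * τ) := sinh_pos_iff.mpr (by positivity)
      exact this.ne'
    unfold w2
    have e1 : sinh ((π - (η1 + η2)) * τ) = sinh ((η1 + η2) * τ) * cosh ((π - 2 * (η1 + η2)) * τ) +
        cosh ((η1 + η2) * τ) * sinh ((π - 2 * (η1 + η2)) * τ) := by
      rw [← sinh_add]
      congr 1
      ring
    have e2 : sinh ((3 * (η1 + η2) - π) * τ) =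
        sinh ((η1 + η2) * τ) * cosh ((π - 2 * (η1 + η2)) * τ) -
        cosh ((η1 + η2) * τ) * sinh ((π - 2 * (η1 + η2)) * τ) := by
      rw [← sinh_sub]
      congr 1
      ring
    have e3 : cosh (2 * (π / 2 - (η1 + η2)) * τ) = cosh ((π - 2 * (η1 + η2)) * τ) := by
      congr 1
      ring
    rw [e1, e2, e3]
    field_simp
    ring
  · refine flsB hKES hKTS hIMG (k := 1) (m2r := fun _ => 0) (C2 := 0) (g₂ := 1) h1 h1' h2 h2' hd
      hε' hcond hα.le (min_le_right _ _)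
      ⟨measurable_const, fun _ => rfl, fun τ => by rw [abs_zero, zero_mul]⟩ one_pos fun τ hτ => ?_
    have hs : sinh ((η1 + η2) * τ) ≠ 0 := by
      have : 0 < sinh ((η1 + η2) * τ) := sinh_pos_iff.mpr (by positivity)
      exact this.ne'
    unfold w2
    have e1 : π - (η1 + η2) = η1 + η2 := by linarith
    have e2 : π / 2 - (η1 + η2) = 0 := by linarith
    rw [e1, e2, div_self hs, mul_zero, zero_mul, cosh_zero, one_mul, add_zero]
  · exact flsA hKES h1 h1' h2 h2' hd hε' hcond hα (min_le_right _ _)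

end Pool.Agent.AEU.H12
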