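import Pool.Agent.Helper12_AEU.Img1

/-! helper12, AEU (MP_5b0138_an) Part III, FLUX: preparations of the spanning case. -/

namespace Pool.Agent.AEU.H12

open MeasureTheory Filter Topology Real Set Pool.Agent.H60K

/-- weights -/
noncomputable def w1 (α τ : ℝ) : ℝ := sinh ((2 * α - π) * τ) / sinh (α * τ)
noncomputable def w2 (α τ : ℝ) : ℝ := sinh ((π - α) * τ) / sinh (α * τ)

lemma kes_jkr (hKES : KesStatement) {η1 η2 d κ : ℝ} (h1 : 0 < η1) (h2 : 0 < η2)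
    (h12 : η1 + η2 < π) (hκ : 0 < κ) {z x : ℂ} (hz : z ≠ 0) (hx : x ≠ 0)
    (hz1 : -η2 < z.arg) (hz2 : z.arg < η1) (hx1 : -η2 < x.arg) (hx2 : x.arg < η1) :
    IntegrableOn (fun τ : ℝ => Kit τ (κ * ‖z‖) * Kit τ (κ * ‖x‖) *
      (w1 (η1 + η2) τ * cosh ((-(η1 - η2) + z.arg + x.arg) * τ) +
        w2 (η1 + η2) τ * cosh ((z.arg - x.arg) * τ))) (Ioi 0) ∧
    ∫ t in Ioi (0 : ℝ), rexp (-(κ ^ 2 * t)) * kME (us η1 η2) (hh d) {1, 2} ∅ t z x =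
      JKr (w1 (η1 + η2)) (w2 (η1 + η2)) (-(η1 - η2)) κ z x := by
  obtain ⟨_, hi, h⟩ := hKES η1 η2 d κ ‖z‖ ‖x‖ z.arg x.arg h1 h2 h12 hκ (norm_pos_iff.mpr hz)
    (norm_pos_iff.mpr hx) hz1 hz2 hx1 hx2
  rw [Complex.norm_mul_exp_arg_mul_I, Complex.norm_mul_exp_arg_mul_I] at h
  have e : ∀ τ : ℝ, H38KL.Kit τ (κ * ‖z‖) * H38KL.Kit τ (κ * ‖x‖) *
      ((sinh ((2 * (η1 + η2) - π) * τ) * cosh ((η1 - η2 - z.arg - x.arg) * τ)
        + sinh ((π - (η1 + η2)) * τ) * cosh ((z.arg - x.arg) * τ)) / sinh ((η1 + η2) * τ)) =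
      Kit τ (κ * ‖z‖) * Kit τ (κ * ‖x‖) *
      (w1 (η1 + η2) τ * cosh ((-(η1 - η2) + z.arg + x.arg) * τ) +
        w2 (η1 + η2) τ * cosh ((z.arg - x.arg) * τ)) := by
    intro τ
    have e3 : H38KL.Kit τ (κ * ‖z‖) = Kit τ (κ * ‖z‖) := rfl
    have e4 : H38KL.Kit τ (κ * ‖x‖) = Kit τ (κ * ‖x‖) := rfl
    have e5 : cosh ((-(η1 - η2) + z.arg + x.arg) * τ) = cosh ((η1 - η2 - z.arg - x.arg) * τ) := by
      rw [← cosh_neg]
      congr 1
      ring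
    rw [e3, e4, e5]
    unfold w1 w2
    ring
  simp_rw [e] at hi h
  exact ⟨hi, h⟩

/-- the weight is an image term and a decaying term -/
lemma jkr_split {m1 m2 m2r : ℝ → ℝ} {b κ k φ : ℝ} (hκ : 0 < κ) {z x : ℂ} (hz : z ≠ 0) (hx : x ≠ 0)
    (hφ0 : 0 ≤ φ) (h : |z.arg - x.arg| + 2 * φ < π)
    (hm : ∀ τ : ℝ, 0 < τ → m2 τ = k * cosh (2 * φ * τ) + m2r τ)
    (hi : IntegrableOn (fun τ : ℝ => Kit τ (κ * ‖z‖) * Kit τ (κ * ‖x‖) *
      (m1 τ * cosh ((b + z.arg + x.arg) * τ) + m2 τ * cosh ((z.arg - x.arg) * τ))) (Ioi 0)) :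
    JKr m1 m2 b κ z x = JKr m1 m2r b κ z x + k / (4 * π) * IK φ κ z x := by
  obtain ⟨j1, j2⟩ := img_tau hκ hz hx hφ0 h
  unfold JKr
  have e : ∫ τ in Ioi (0 : ℝ), Kit τ (κ * ‖z‖) * Kit τ (κ * ‖x‖) *
      (m1 τ * cosh ((b + z.arg + x.arg) * τ) + m2r τ * cosh ((z.arg - x.arg) * τ)) =
      ∫ τ in Ioi (0 : ℝ), (Kit τ (κ * ‖z‖) * Kit τ (κ * ‖x‖) *
      (m1 τ * cosh ((b + z.arg + x.arg) * τ) + m2 τ * cosh ((z.arg - x.arg) * τ)) -
      k * (Kit τ (κ * ‖z‖) * Kit τ (κ * ‖x‖) *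
      (cosh (2 * φ * τ) * cosh ((z.arg - x.arg) * τ)))) := by
    apply setIntegral_congr_fun measurableSet_Ioi
    intro τ hτ
    simp only
    rw [hm τ hτ]
    ring
  rw [e, integral_sub hi (j1.const_mul k), integral_const_mul, j2]
  have hpi := pi_ne_zero
  have key : ∀ I J : ℝ, 1 / π ^ 2 * I = 1 / π ^ 2 * (I - k * (π / 4 * J)) + k / (4 * π) * J := by
    intro I J
    field_simp
    ring
  exact key _ _

lemma ev_int {m1 m2 : ℝ → ℝ} {C1 C2 g₁ g₂ b X K : ℝ} (h1 : Ev m1 C1 g₁)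
    (h2 : Ev m2 C2 g₂) (hb : |b| < g₁) (hg₂ : 0 < g₂) (hX : 0 < X) :
    IntegrableOn (fun τ : ℝ => m1 τ * cosh (b * τ) * K + m2 τ * Kit (2 * τ) X) (Ioi 0) := by
  have hC1 := h1.C_nonneg
  have hC2 := h2.C_nonneg
  apply Integrable.integrableOn
  apply Integrable.add
  · refine ((int_exp_neg_abs (a := g₁ - |b|) (by linarith)).const_mul (C1 * |K|)).mono' ?_ ?_
    · apply Measurable.aestronglyMeasurable
      have := h1.meas
      fun_prop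
    · refine Eventually.of_forall fun τ => ?_
      rw [Real.norm_eq_abs, abs_mul, abs_mul, abs_of_pos (cosh_pos _)]
      have b1 := h1.bound τ
      have b3 : cosh (b * τ) ≤ rexp (|b| * |τ|) := by
        rw [← cosh_abs, abs_mul]
        rw [cosh_eq]
        have : rexp (-(|b| * |τ|)) ≤ rexp (|b| * |τ|) := by
          apply exp_le_exp.mpr
          have : 0 ≤ |b| * |τ| := by positivity
          linarith
        linarith
      calc |m1 τ| * cosh (b * τ) * |K| ≤ (C1 * rexp (-(g₁ * |τ|))) * rexp (|b| * |τ|) * |K| := by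
            gcongr
        _ = C1 * |K| * (rexp (-(g₁ * |τ|)) * rexp (|b| * |τ|)) := by ring
        _ = _ := by
          rw [← Real.exp_add]
          congr 2
          ring
  · refine ((int_exp_neg_abs hg₂).const_mul (C2 * (E0 X / 2))).mono' ?_ ?_
    · apply Measurable.aestronglyMeasurable
      exact h2.meas.mul ((kit_meas_left hX).comp (by fun_prop : Measurable fun τ : ℝ => 2 * τ))
    · refine Eventually.of_forall fun τ => ?_
      rw [Real.norm_eq_abs, abs_mul]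
      have b1 := h2.bound τ
      have b2 := kit_zero_nonneg_le hX (2 * τ)
      calc |m2 τ| * |Kit (2 * τ) X| ≤ (C2 * rexp (-(g₂ * |τ|))) * (E0 X / 2) :=
            mul_le_mul b1 b2 (abs_nonneg _) (by positivity)
        _ = _ := by ring

lemma kts_half (hKTS : KtsStatement) {X φ : ℝ} (hX : 0 < X) (hφ : |φ| < π / 2) :
    IntegrableOn (fun τ : ℝ => Kit (2 * τ) X * cosh (2 * φ * τ)) (Ioi 0) ∧
    ∫ τ in Ioi (0 : ℝ), Kit (2 * τ) X * cosh (2 * φ * τ) = π / 4 * rexp (-(X * cos φ)) := by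
  obtain ⟨h1, h2⟩ := hKTS.2.2 X φ hX hφ
  have h1' : IntegrableOn (fun τ : ℝ => Kit τ X * cosh (φ * τ)) (Ioi 0) := h1
  have h2' : ∫ τ in Ioi (0 : ℝ), Kit τ X * cosh (φ * τ) = π / 2 * rexp (-(X * cos φ)) := h2
  have e : ∀ τ : ℝ, Kit (2 * τ) X * cosh (2 * φ * τ) =
      (fun τ : ℝ => Kit τ X * cosh (φ * τ)) (2 * τ) := by
    intro τ
    simp only
    congr 2
    ring
  constructor
  · simp_rw [e]
    rw [integrableOn_Ioi_comp_mul_left_iff (fun τ : ℝ => Kit τ X * cosh (φ * τ)) 0 two_pos,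
      mul_zero]
    exact h1'
  · simp_rw [e]
    rw [integral_comp_mul_left_Ioi (fun τ : ℝ => Kit τ X * cosh (φ * τ)) 0 two_pos, mul_zero, h2',
      smul_eq_mul]
    ring

lemma fs_eq (η1 η2 d κ : ℝ) : FS η1 η2 d κ = 2 / π * ∫ τ in Ioi (0 : ℝ),
    (w1 (η1 + η2) τ * cosh (-(η1 - η2) * τ) * Kit 0 (2 * κ * d) +
      w2 (η1 + η2) τ * Kit (2 * τ) (2 * κ * d)) := by
  unfold FS
  congr 1
  congr 1
  ext τ
  have e3 : H38KL.Kit 0 (2 * κ * d) = Kit 0 (2 * κ * d) := rfl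
  have e4 : H38KL.Kit (2 * τ) (2 * κ * d) = Kit (2 * τ) (2 * κ * d) := rfl
  have e5 : cosh (-(η1 - η2) * τ) = cosh ((η1 - η2) * τ) := by
    rw [← cosh_neg]
    congr 1
    ring
  rw [e3, e4, e5]
  rfl

/-- decomposition of the main term -/
lemma fs_split (hKTS : KtsStatement) {m2r : ℝ → ℝ} {η1 η2 d κ k φ C1 C2 g₁ g₂ : ℝ} (hκ : 0 < κ)
    (hd : 0 < d) (h1 : Ev (w1 (η1 + η2)) C1 g₁) (h2 : Ev m2r C2 g₂) (hb : |(-(η1 - η2))| < g₁)
    (hg₂ : 0 < g₂) (hφ : |φ| < π / 2)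
    (hm : ∀ τ : ℝ, 0 < τ → w2 (η1 + η2) τ = k * cosh (2 * φ * τ) + m2r τ) :
    FS η1 η2 d κ = 2 / π * (∫ τ in Ioi (0 : ℝ),
      (w1 (η1 + η2) τ * cosh (-(η1 - η2) * τ) * Kit 0 (2 * κ * d) +
        m2r τ * Kit (2 * τ) (2 * κ * d))) +
      k / (4 * π) * (2 * π * rexp (-(2 * κ * d * cos φ))) := by
  have hX : 0 < 2 * κ * d := by positivity
  obtain ⟨j1, j2⟩ := kts_half hKTS hX hφ
  have i1 := ev_int (K := Kit 0 (2 * κ * d)) h1 h2 hb hg₂ hX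
  rw [fs_eq]
  have e : ∫ τ in Ioi (0 : ℝ), (w1 (η1 + η2) τ * cosh (-(η1 - η2) * τ) * Kit 0 (2 * κ * d) +
      w2 (η1 + η2) τ * Kit (2 * τ) (2 * κ * d)) = ∫ τ in Ioi (0 : ℝ),
      ((w1 (η1 + η2) τ * cosh (-(η1 - η2) * τ) * Kit 0 (2 * κ * d) +
      m2r τ * Kit (2 * τ) (2 * κ * d)) + k * (Kit (2 * τ) (2 * κ * d) * cosh (2 * φ * τ))) := by
    apply setIntegral_congr_fun measurableSet_Ioi
    intro τ hτ
    simp only
    rw [hm τ hτ]
    ring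
  rw [e, integral_add i1 (j1.const_mul k), integral_const_mul, j2]
  have hpi := pi_ne_zero
  have key : ∀ I E : ℝ, 2 / π * (I + k * (π / 4 * E)) = 2 / π * I + k / (4 * π) * (2 * π * E) := by
    intro I E
    field_simp
  exact key _ _

end Pool.Agent.AEU.H12
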