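import Pool.Agent.Helper12_AEU.Fls1

/-! helper12, AEU (MP_5b0138_an) Part III, FLUX: integrability over the window. -/

namespace Pool.Agent.AEU.H12

open MeasureTheory Filter Topology Real Set Pool.Agent.H60K

lemma window_integrable {X0 Δ ζ1 ζ2 : ℝ} {F : ℂ → ℂ → ℂ}
    (hF : Integrable (fun z : (ℝ × ℝ) × (ℝ × ℝ) =>
      F (z.1.1 + z.2.1 * Complex.I) (z.1.2 + z.2.2 * Complex.I))
      ((volume.restrict (Iq X0 Δ)).prod (volume.restrict (Ioo (-ζ2) ζ1 ×ˢ Ioo (-ζ2) ζ1)))) :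
    Integrable (fun p : ℂ × ℂ => F p.1 p.2)
      ((volume.restrict (Rw X0 Δ ζ1 ζ2)).prod (volume.restrict (Rw X0 Δ ζ1 ζ2))) := by
  have hset : IntegrableOn (fun z : (ℝ × ℝ) × (ℝ × ℝ) =>
      F (z.1.1 + z.2.1 * Complex.I) (z.1.2 + z.2.2 * Complex.I))
      (Iq X0 Δ ×ˢ (Ioo (-ζ2) ζ1 ×ˢ Ioo (-ζ2) ζ1)) := by
    rw [IntegrableOn, Measure.volume_eq_prod, ← Measure.prod_restrict]
    exact hF
  have e1 : (fun z : (ℝ × ℝ) × (ℝ × ℝ) =>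
      F (z.1.1 + z.2.1 * Complex.I) (z.1.2 + z.2.2 * Complex.I)) =
      (fun p : ℂ × ℂ => F p.1 p.2) ∘ Psi := by
    ext z
    simp only [Function.comp]
    rw [show z = (z.1, z.2) from rfl, Psi_apply]
  rw [e1, ← Psi_preimage X0 Δ ζ1 ζ2] at hset
  have hC : IntegrableOn (fun p : ℂ × ℂ => F p.1 p.2) (Rw X0 Δ ζ1 ζ2 ×ˢ Rw X0 Δ ζ1 ζ2) :=
    (Psi_mp.integrableOn_comp_preimage Psi.measurableEmbedding).mp hset
  rw [IntegrableOn, Measure.volume_eq_prod, ← Measure.prod_restrict] at hC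
  exact hC

/-- integrability of the plane wave part over the window -/
lemma jkr_int {m1 m2 : ℝ → ℝ} {C1 C2 g₁ g₂ b κ d a X0 Δ θ0 ζ1 ζ2 : ℝ} (h1 : Ev m1 C1 g₁)
    (h2 : Ev m2 C2 g₂) (hb : |b| < g₁) (hg₂ : 0 < g₂) (hκ : 0 < κ) (ha : 0 < a) (hX : Δ < X0)
    (hX2 : X0 + Δ < 2 * d) (h0 : 0 < θ0) (h0' : θ0 < π / 2)
    (hθ1 : 2 * θ0 < g₁ - b) (hθ2 : 2 * θ0 < g₁ + b) (hθ3 : 2 * θ0 < g₂)
    (hA : 1 ≤ κ * (X0 - Δ) * cos θ0 ∧ 1 ≤ κ * (2 * d - X0 - Δ) * cos θ0) :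
    Integrable (fun p : ℂ × ℂ => H62T.G a (p.1 - p.2) * (ch X0 p.2 - ch X0 p.1) *
      JKr m1 m2 b κ (2 * d - (starRingEnd ℂ) p.2) p.1)
      ((volume.restrict (Rw X0 Δ ζ1 ζ2)).prod (volume.restrict (Rw X0 Δ ζ1 ζ2))) := by
  have hw1 := h1.wt hb
  have hw2 := h2.wt (b := 0) (by rwa [abs_zero])
  have i1 := t_int (ζ1 := ζ1) (ζ2 := ζ2) (s1 := -1) (s2 := -1) hw1 (by norm_num) (by norm_num)
    hκ ha hX hX2 h0 h0' hθ1 hθ2 hA
  have i2 := t_int (ζ1 := ζ1) (ζ2 := ζ2) (s1 := 1) (s2 := -1) hw2 (by norm_num) (by norm_num)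
    hκ ha hX hX2 h0 h0' (by linarith) (by linarith) hA
  have hmem : ∀ᵐ z : (ℝ × ℝ) × (ℝ × ℝ) ∂((volume.restrict (Iq X0 Δ)).prod
      (volume.restrict (Jw ζ1 ζ2))), z.1 ∈ Iq X0 Δ := by
    have hA : ∀ᵐ q ∂(volume.restrict (Iq X0 Δ)), q ∈ Iq X0 Δ := ae_restrict_mem (Iq_meas X0 Δ)
    exact Measure.quasiMeasurePreserving_fst.ae hA
  set F : ℂ → ℂ → ℂ := fun x y => ((H62T.G a (x - y) * (ch X0 y - ch X0 x) *
    JKr m1 m2 b κ (2 * d - (starRingEnd ℂ) y) x : ℝ) : ℂ) with hF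
  have hFe : (fun z : (ℝ × ℝ) × (ℝ × ℝ) =>
      F (z.1.1 + z.2.1 * Complex.I) (z.1.2 + z.2.2 * Complex.I)) =ᵐ[(volume.restrict (Iq X0 Δ)).prod
      (volume.restrict (Jw ζ1 ζ2))] fun z => (∫ τ, ((wt m1 b τ : ℝ) : ℂ) *
        KF κ d a X0 (-1 * τ) (-1 * τ) z.1 z.2) +
      ∫ τ, ((wt m2 0 τ : ℝ) : ℂ) * KF κ d a X0 (1 * τ) (-1 * τ) z.1 z.2 := by
    filter_upwards [hmem] with z hz
    exact f_eq h1 h2 hb hg₂ hκ ha hX hX2 hz z.2
  have hFi : Integrable (fun z : (ℝ × ℝ) × (ℝ × ℝ) =>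
      F (z.1.1 + z.2.1 * Complex.I) (z.1.2 + z.2.2 * Complex.I))
      ((volume.restrict (Iq X0 Δ)).prod (volume.restrict (Ioo (-ζ2) ζ1 ×ˢ Ioo (-ζ2) ζ1))) :=
    (integrable_congr hFe).mpr (i1.add i2)
  have h := (window_integrable hFi).re
  refine h.congr (Eventually.of_forall fun p => ?_)
  simp [hF]

lemma kit_meas : Measurable fun x : ℝ => Kit 0 x := by
  unfold Kit
  have h : Continuous fun z : ℝ × ℝ => rexp (-(z.1 * cosh z.2)) * cos (0 * z.2) := by fun_prop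
  exact (h.stronglyMeasurable.integral_prod_right').measurable

lemma sqrt_low {r r' m β θ : ℝ} (hm : 0 < m) (hr : m ≤ r) (hr' : m ≤ r') (hβ : β ≤ π)
    (hθ : |θ| ≤ β) :
    m * √(2 * (1 + cos β)) ≤ √(r ^ 2 + r' ^ 2 + 2 * r * r' * cos θ) := by
  have h1 : cos β ≤ cos θ := by
    rw [← cos_abs θ]
    exact cos_le_cos_of_nonneg_of_le_pi (abs_nonneg _) hβ hθ
  have h2 := neg_one_le_cos β
  have h3 : m * √(2 * (1 + cos β)) = √(m ^ 2 * (2 * (1 + cos β))) := by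
    rw [Real.sqrt_mul (sq_nonneg m), Real.sqrt_sq hm.le]
  rw [h3]
  apply Real.sqrt_le_sqrt
  have h4 : m * m ≤ r * r' := mul_le_mul hr hr' hm.le (hm.le.trans hr)
  have h5 : 0 ≤ r * r' := (by positivity : 0 ≤ m * m).trans h4
  nlinarith [mul_le_mul_of_nonneg_left h1 h5, mul_le_mul_of_nonneg_right h4 (by linarith : 0 ≤ 1 + cos β),
    sq_nonneg (r - r')]

lemma ik_bound {φ κ β m : ℝ} {z x : ℂ} (hκ : 0 < κ) (hφ : 0 ≤ φ) (hβ : β < π)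
    (h : |z.arg - x.arg| + 2 * φ ≤ β) (hm : 0 < m) (hz : m ≤ ‖z‖) (hx : m ≤ ‖x‖) :
    |IK φ κ z x| ≤ E0 (κ * (m * √(2 * (1 + cos β)))) := by
  have hc : 0 < 1 + cos β := by
    have h1 : cos π < cos β := cos_lt_cos_of_nonneg_of_le_pi
      ((by positivity : 0 ≤ |z.arg - x.arg| + 2 * φ).trans h) le_rfl hβ
    rw [cos_pi] at h1
    linarith
  have hq : 0 < m * √(2 * (1 + cos β)) := by positivity
  have a1 : |z.arg - x.arg + 2 * φ| ≤ β := by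
    refine (abs_add_le _ _).trans ?_
    rwa [abs_of_nonneg (by positivity : 0 ≤ 2 * φ)]
  have a2 : |z.arg - x.arg - 2 * φ| ≤ β := by
    refine (abs_sub _ _).trans ?_
    rwa [abs_of_nonneg (by positivity : 0 ≤ 2 * φ)]
  have s1 := sqrt_low hm hz hx hβ.le a1
  have s2 := sqrt_low hm hz hx hβ.le a2
  unfold IK
  rw [norm_rot, norm_rot']
  have t : ∀ v, m * √(2 * (1 + cos β)) ≤ v →
      |Kit 0 (κ * v)| ≤ E0 (κ * (m * √(2 * (1 + cos β)))) / 2 := by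
    intro v hv
    have hv0 := hq.trans_le hv
    refine (kit_zero_nonneg_le (by positivity) 0).trans ?_
    have := E0_anti (x := κ * (m * √(2 * (1 + cos β)))) (y := κ * v) (by positivity)
      (mul_le_mul_of_nonneg_left hv hκ.le)
    linarith
  refine (abs_add_le _ _).trans ?_
  have := t _ s1
  have := t _ s2
  linarith

lemma G_le {a : ℝ} (ha : 0 < a) (z : ℂ) : |H62T.G a z| ≤ (4 * π * a)⁻¹ := by
  unfold H62T.G
  rw [abs_of_nonneg (by positivity)]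
  have h : rexp (-‖z‖ ^ 2 / (4 * a)) ≤ 1 := by
    rw [← Real.exp_zero]
    apply exp_le_exp.mpr
    rw [neg_div]
    have : 0 ≤ ‖z‖ ^ 2 / (4 * a) := by positivity
    linarith
  have h2 : 0 ≤ (4 * π * a)⁻¹ := by positivity
  rw [div_eq_mul_inv]
  calc _ ≤ 1 * (4 * π * a)⁻¹ := mul_le_mul_of_nonneg_right h h2
    _ = _ := one_mul _

lemma ik_meas (φ κ d : ℝ) : Measurable fun p : ℂ × ℂ => IK φ κ (2 * d - (starRingEnd ℂ) p.2) p.1 := by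
  unfold IK
  have hc : Continuous fun z : ℂ => (starRingEnd ℂ) z := Complex.continuous_conj
  apply Measurable.add
  · apply kit_meas.comp
    apply Continuous.measurable
    fun_prop
  · apply kit_meas.comp
    apply Continuous.measurable
    fun_prop

/-- integrability of the image part over the window -/
lemma ik_int {φ κ β m a d X0 Δ ζ1 ζ2 : ℝ} (hκ : 0 < κ) (ha : 0 < a) (hφ : 0 ≤ φ) (hβ : β < π)
    (hm : 0 < m) (hq : ∀ x ∈ Rw X0 Δ ζ1 ζ2, ∀ y ∈ Rw X0 Δ ζ1 ζ2,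
      |(2 * d - (starRingEnd ℂ) y : ℂ).arg - x.arg| + 2 * φ ≤ β ∧
        m ≤ ‖(2 * d - (starRingEnd ℂ) y : ℂ)‖ ∧ m ≤ ‖x‖) :
    Integrable (fun p : ℂ × ℂ => H62T.G a (p.1 - p.2) * (ch X0 p.2 - ch X0 p.1) *
      IK φ κ (2 * d - (starRingEnd ℂ) p.2) p.1)
      ((volume.restrict (Rw X0 Δ ζ1 ζ2)).prod (volume.restrict (Rw X0 Δ ζ1 ζ2))) := by
  have hop := H15.Rw_open X0 Δ ζ1 ζ2
  have hfin := H15.Rw_finite X0 Δ ζ1 ζ2
  rw [Measure.prod_restrict, ← Measure.volume_eq_prod]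
  have hset : MeasurableSet (Rw X0 Δ ζ1 ζ2 ×ˢ Rw X0 Δ ζ1 ζ2) :=
    hop.measurableSet.prod hop.measurableSet
  have hfin2 : volume (Rw X0 Δ ζ1 ζ2 ×ˢ Rw X0 Δ ζ1 ζ2) ≠ ⊤ := by
    rw [Measure.volume_eq_prod, Measure.prod_prod]
    exact ENNReal.mul_ne_top hfin.ne hfin.ne
  have hcst : IntegrableOn (fun _ : ℂ × ℂ => (4 * π * a)⁻¹ * 1 * E0 (κ * (m * √(2 * (1 + cos β)))))
      (Rw X0 Δ ζ1 ζ2 ×ˢ Rw X0 Δ ζ1 ζ2) := integrableOn_const hfin2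
  refine Integrable.mono' hcst ?_ ?_
  · apply Measurable.aestronglyMeasurable
    apply Measurable.mul _ (ik_meas φ κ d)
    apply Measurable.mul
    · apply Continuous.measurable
      unfold H62T.G
      fun_prop
    · exact ((H15.ch_meas X0).comp measurable_snd).sub ((H15.ch_meas X0).comp measurable_fst)
  · filter_upwards [ae_restrict_mem hset] with p hp
    obtain ⟨q1, q2, q3⟩ := hq p.1 hp.1 p.2 hp.2
    rw [Real.norm_eq_abs, abs_mul, abs_mul]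
    have b1 := G_le ha (p.1 - p.2)
    have b2 := H15.ch_abs X0 p.1 p.2
    have b3 := ik_bound hκ hφ hβ q1 hm q2 q3
    have := E0_nonneg (κ * (m * √(2 * (1 + cos β))))
    gcongr

/-- linearity of the integral over the window -/
lemma win_lin {X0 Δ ζ1 ζ2 k : ℝ} {W A B : ℂ → ℂ → ℝ}
    (hA : Integrable (fun p : ℂ × ℂ => W p.1 p.2 * A p.1 p.2)
      ((volume.restrict (Rw X0 Δ ζ1 ζ2)).prod (volume.restrict (Rw X0 Δ ζ1 ζ2))))
    (hB : Integrable (fun p : ℂ × ℂ => W p.1 p.2 * B p.1 p.2)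
      ((volume.restrict (Rw X0 Δ ζ1 ζ2)).prod (volume.restrict (Rw X0 Δ ζ1 ζ2)))) :
    ∫ x in Rw X0 Δ ζ1 ζ2, ∫ y in Rw X0 Δ ζ1 ζ2, W x y * (A x y + k * B x y) =
      (∫ x in Rw X0 Δ ζ1 ζ2, ∫ y in Rw X0 Δ ζ1 ζ2, W x y * A x y) +
      k * ∫ x in Rw X0 Δ ζ1 ζ2, ∫ y in Rw X0 Δ ζ1 ζ2, W x y * B x y := by
  have hAB := hA.add (hB.const_mul k)
  have e1 := integral_prod _ hA
  have e2 := integral_prod _ hB
  have e3 := integral_prod _ hAB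
  rw [integral_add' hA (hB.const_mul k), integral_const_mul, e1, e2] at e3
  simp only [Pi.add_apply] at e3
  rw [e3]
  congr 1
  ext x
  congr 1
  ext y
  ring

end Pool.Agent.AEU.H12
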