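import Pool.Agent.Helper12_AEU.Link

/-! helper12, AEU (MP_5b0138_an) Part III, FLUX: the general flux through the window. -/

namespace Pool.Agent.AEU.H12

open MeasureTheory Filter Topology Real Set Pool.Agent.H60K

lemma pp_int {w : ℝ → ℝ} {Cw ap am κ s1 s2 : ℝ} (hw : Wt w Cw ap am) (hs1 : |s1| ≤ 1)
    (hs2 : |s2| ≤ 1) (hκ : 0 < κ) {z x : ℂ} (hz : 0 < z.re) (hx : 0 < x.re) :
    Integrable fun τ : ℝ => ((w τ : ℝ) : ℂ) *
      (pw (κ * x.re) (κ * x.im) (s1 * τ) * pw (κ * z.re) (κ * z.im) (s2 * τ)) := by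
  have hap := hw.hap
  have ham := hw.ham
  have hCw := hw.Cw_nonneg
  set g := min ap am with hg
  have hgp : 0 < g := lt_min hap ham
  set θ := min g 1 / 4 with hθ
  have hm0 : 0 < min g 1 := lt_min hgp one_pos
  have hθ0 : 0 < θ := by positivity
  have hm1 : min g 1 ≤ 1 := min_le_right _ _
  have hm2 : min g 1 ≤ g := min_le_left _ _
  have hθ1 : θ < π / 2 := by
    have := pi_gt_three; linarith
  have hθ2 : 2 * θ < g := by linarith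
  have p1 : 0 < κ * x.re := mul_pos hκ hx
  have p2 : 0 < κ * z.re := mul_pos hκ hz
  set K1 := E0 (κ * x.re * cos θ + |κ * x.im| * sin θ) / 2 with hK1
  set K2 := E0 (κ * z.re * cos θ + |κ * z.im| * sin θ) / 2 with hK2
  have hK1' : 0 ≤ K1 := div_nonneg (E0_nonneg _) two_pos.le
  have hK2' : 0 ≤ K2 := div_nonneg (E0_nonneg _) two_pos.le
  refine ((int_exp_neg_abs (a := g - 2 * θ) (by linarith)).const_mul (Cw * K1 * K2)).mono' ?_ ?_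
  · apply Measurable.aestronglyMeasurable
    refine (Complex.measurable_ofReal.comp hw.meas).mul (Measurable.mul ?_ ?_)
    · exact measurable_pw.comp (by fun_prop : Measurable fun τ : ℝ =>
        ((κ * x.re, κ * x.im, s1 * τ) : ℝ × ℝ × ℝ))
    · exact measurable_pw.comp (by fun_prop : Measurable fun τ : ℝ =>
        ((κ * z.re, κ * z.im, s2 * τ) : ℝ × ℝ × ℝ))
  · refine Eventually.of_forall fun τ => ?_
    rw [norm_mul, norm_mul, Complex.norm_real, Real.norm_eq_abs]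
    have b0 := hw.bound (g := g) (min_le_left _ _) (min_le_right _ _) τ
    have b1 := pw_bound_abs kitShift (τ := s1 * τ) (κ * x.im) p1 hθ0 hθ1
    have b2 := pw_bound_abs kitShift (τ := s2 * τ) (κ * z.im) p2 hθ0 hθ1
    have e1 : rexp (θ * |s1 * τ|) ≤ rexp (θ * |τ|) := by
      apply exp_le_exp.mpr
      rw [abs_mul]
      have := mul_le_mul_of_nonneg_right hs1 (abs_nonneg τ)
      nlinarith only [hθ, this, hm0]
    have e2 : rexp (θ * |s2 * τ|) ≤ rexp (θ * |τ|) := by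
      apply exp_le_exp.mpr
      rw [abs_mul]
      have := mul_le_mul_of_nonneg_right hs2 (abs_nonneg τ)
      nlinarith only [hθ, this, hm0]
    have c1 : ‖pw (κ * x.re) (κ * x.im) (s1 * τ)‖ ≤ rexp (θ * |τ|) * K1 :=
      b1.trans (mul_le_mul_of_nonneg_right e1 hK1')
    have c2 : ‖pw (κ * z.re) (κ * z.im) (s2 * τ)‖ ≤ rexp (θ * |τ|) * K2 :=
      b2.trans (mul_le_mul_of_nonneg_right e2 hK2')
    calc |w τ| * (‖pw (κ * x.re) (κ * x.im) (s1 * τ)‖ * ‖pw (κ * z.re) (κ * z.im) (s2 * τ)‖)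
        ≤ (Cw * rexp (-(g * |τ|))) * ((rexp (θ * |τ|) * K1) * (rexp (θ * |τ|) * K2)) :=
          mul_le_mul b0 (mul_le_mul c1 c2 (norm_nonneg _) (by positivity)) (by positivity)
            (by positivity)
      _ = Cw * K1 * K2 * (rexp (-(g * |τ|)) * (rexp (θ * |τ|) * rexp (θ * |τ|))) := by ring
      _ = _ := by
          rw [← Real.exp_add, ← Real.exp_add]
          congr 3
          ring

lemma mn_int {w : ℝ → ℝ} {Cw ap am κ d s1 s2 : ℝ} (hw : Wt w Cw ap am) :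
    Integrable fun τ : ℝ => ((w τ : ℝ) : ℂ) * Mn κ d (s1 * τ) (s2 * τ) := by
  have hg : 0 < min ap am := lt_min hw.hap hw.ham
  have hCw := hw.Cw_nonneg
  refine ((int_exp_neg_abs hg).const_mul (Cw * E0 (2 * d * κ))).mono' ?_ ?_
  · apply Measurable.aestronglyMeasurable
    exact (Complex.measurable_ofReal.comp hw.meas).mul (measurable_Mn κ d s1 s2)
  · refine Eventually.of_forall fun τ => ?_
    rw [norm_mul, Complex.norm_real, Real.norm_eq_abs]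
    have b0 := hw.bound (g := min ap am) (min_le_left _ _) (min_le_right _ _) τ
    have b1 := norm_Mn_le (κ := κ) (d := d) (s1 * τ) (s2 * τ)
    calc |w τ| * ‖Mn κ d (s1 * τ) (s2 * τ)‖ ≤ (Cw * rexp (-(min ap am * |τ|))) * E0 (2 * d * κ) :=
          mul_le_mul b0 b1 (norm_nonneg _) (by positivity)
      _ = _ := by ring

/-- the main term -/
lemma main_term {m1 m2 : ℝ → ℝ} {C1 C2 g₁ g₂ b κ d : ℝ} (h1 : Ev m1 C1 g₁) (h2 : Ev m2 C2 g₂)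
    (hb : |b| < g₁) (hg₂ : 0 < g₂) (hκ : 0 < κ) (hd : 0 < d) :
    ((π : ℝ) : ℂ) * (∫ τ, ((wt m1 b τ : ℝ) : ℂ) * Mn κ d (-1 * τ) (-1 * τ)) +
      ((π : ℝ) : ℂ) * (∫ τ, ((wt m2 0 τ : ℝ) : ℂ) * Mn κ d (1 * τ) (-1 * τ)) =
    ((2 / π * ∫ τ in Ioi (0 : ℝ), (m1 τ * cosh (b * τ) * Kit 0 (2 * κ * d) +
      m2 τ * Kit (2 * τ) (2 * κ * d)) : ℝ) : ℂ) := by
  have i1 := mn_int (κ := κ) (d := d) (s1 := -1) (s2 := -1) (h1.wt hb)
  have i2 := mn_int (κ := κ) (d := d) (s1 := 1) (s2 := -1) (h2.wt (b := 0) (by rwa [abs_zero]))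
  have i12 : Integrable fun τ : ℝ => ((wt m1 b τ : ℝ) : ℂ) * Mn κ d (-1 * τ) (-1 * τ) +
    ((wt m2 0 τ : ℝ) : ℂ) * Mn κ d (1 * τ) (-1 * τ) := i1.add i2
  rw [← mul_add, ← integral_add i1 i2, integral_line_eq i12, ← integral_const_mul,
    ← integral_const_mul, ← integral_complex_ofReal]
  congr 1
  ext τ
  simp only [Mn_eq hκ hd]
  have k1 : Kit (-1 * τ - -1 * τ) (2 * κ * d) = Kit 0 (2 * κ * d) := by rw [sub_self]
  have k2 : Kit (-1 * -τ - -1 * -τ) (2 * κ * d) = Kit 0 (2 * κ * d) := by rw [sub_self]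
  have k3 : Kit (-1 * τ - 1 * τ) (2 * κ * d) = Kit (2 * τ) (2 * κ * d) := by
    rw [← Kit_neg']; congr 1; ring
  have k4 : Kit (-1 * -τ - 1 * -τ) (2 * κ * d) = Kit (2 * τ) (2 * κ * d) := by
    congr 1; ring
  rw [k1, k2, k3, k4]
  simp only [← Complex.ofReal_mul, ← Complex.ofReal_add]
  congr 1
  unfold wt
  rw [h1.even, h2.even, cosh_eq, zero_mul, zero_mul, exp_zero]
  have e1 : b * -τ = -(b * τ) := by ring
  rw [e1]
  have := pi_ne_zero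
  field_simp
  ring

/-- integrability in the space variables -/
lemma t_int {w : ℝ → ℝ} {κ d a X0 Δ θ0 s1 s2 Cw ap am ζ1 ζ2 : ℝ}
    (hw : Wt w Cw ap am) (hs1 : |s1| ≤ 1) (hs2 : |s2| ≤ 1) (hκ : 0 < κ) (ha : 0 < a)
    (hX : Δ < X0) (hX2 : X0 + Δ < 2 * d) (h0 : 0 < θ0) (h0' : θ0 < π / 2)
    (h1 : 2 * θ0 < ap) (h2 : 2 * θ0 < am)
    (hA : 1 ≤ κ * (X0 - Δ) * cos θ0 ∧ 1 ≤ κ * (2 * d - X0 - Δ) * cos θ0) :
    Integrable (fun z : (ℝ × ℝ) × (ℝ × ℝ) => ∫ τ, ((w τ : ℝ) : ℂ) *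
      KF κ d a X0 (s1 * τ) (s2 * τ) z.1 z.2)
      ((volume.restrict (Iq X0 Δ)).prod (volume.restrict (Jw ζ1 ζ2))) := by
  have hj := joint_int kitShift hw hs1 hs2 hκ ha hX hX2 h0 h0' h1 h2 hA
  have hjJ : Integrable (fun z : (ℝ × (ℝ × ℝ)) × (ℝ × ℝ) => ((w z.1.1 : ℝ) : ℂ) *
      KF κ d a X0 (s1 * z.1.1) (s2 * z.1.1) z.1.2 z.2)
      ((volume.prod (volume.restrict (Iq X0 Δ))).prod (volume.restrict (Jw ζ1 ζ2))) :=
    hj.mono_measure (Measure.prod_mono le_rfl Measure.restrict_le_self)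
  have p1 := (measurePreserving_prodAssoc (volume : Measure ℝ) (volume.restrict (Iq X0 Δ))
    (volume.restrict (Jw ζ1 ζ2))).symm _
  have p2 : MeasurePreserving Prod.swap
      (((volume.restrict (Iq X0 Δ)).prod (volume.restrict (Jw ζ1 ζ2))).prod (volume : Measure ℝ))
      ((volume : Measure ℝ).prod ((volume.restrict (Iq X0 Δ)).prod (volume.restrict (Jw ζ1 ζ2)))) :=
    Measure.measurePreserving_swap
  have h3 := p1.integrable_comp_of_integrable hjJ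
  have h4 := p2.integrable_comp_of_integrable h3
  exact h4.integral_prod_left

/-- the value at a point -/
lemma f_eq {m1 m2 : ℝ → ℝ} {C1 C2 g₁ g₂ b κ d a X0 Δ : ℝ} (h1 : Ev m1 C1 g₁) (h2 : Ev m2 C2 g₂)
    (hb : |b| < g₁) (hg₂ : 0 < g₂) (hκ : 0 < κ) (ha : 0 < a) (hX : Δ < X0)
    (hX2 : X0 + Δ < 2 * d) {q : ℝ × ℝ} (hq : q ∈ Iq X0 Δ) (r : ℝ × ℝ) :
    ((H62T.G a ((q.1 + r.1 * Complex.I : ℂ) - (q.2 + r.2 * Complex.I)) *
      (ch X0 (q.2 + r.2 * Complex.I) - ch X0 (q.1 + r.1 * Complex.I)) *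
      JKr m1 m2 b κ (2 * d - (starRingEnd ℂ) (q.2 + r.2 * Complex.I)) (q.1 + r.1 * Complex.I) : ℝ) : ℂ)
    = (∫ τ, ((wt m1 b τ : ℝ) : ℂ) * KF κ d a X0 (-1 * τ) (-1 * τ) q r) +
      ∫ τ, ((wt m2 0 τ : ℝ) : ℂ) * KF κ d a X0 (1 * τ) (-1 * τ) q r := by
  have hq11 := hq.1.1
  have hq22 := hq.2.2
  have xre : (q.1 + r.1 * Complex.I : ℂ).re = q.1 := by simp
  have xim : (q.1 + r.1 * Complex.I : ℂ).im = r.1 := by simp
  have yre : (q.2 + r.2 * Complex.I : ℂ).re = q.2 := by simp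
  have zre : (2 * d - (starRingEnd ℂ) (q.2 + r.2 * Complex.I) : ℂ).re = 2 * d - q.2 := by simp
  have zim : (2 * d - (starRingEnd ℂ) (q.2 + r.2 * Complex.I) : ℂ).im = r.2 := by simp
  have hx : 0 < (q.1 + r.1 * Complex.I : ℂ).re := by rw [xre]; linarith
  have hz : 0 < (2 * d - (starRingEnd ℂ) (q.2 + r.2 * Complex.I) : ℂ).re := by rw [zre]; linarith
  have j1 := pp_int (s1 := -1) (s2 := -1) (h1.wt hb) (by norm_num) (by norm_num) hκ hz hx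
  have j2 := pp_int (s1 := 1) (s2 := -1) (h2.wt (b := 0) (by rwa [abs_zero])) (by norm_num)
    (by norm_num) hκ hz hx
  have hl := jk_link h1 h2 hκ hz hx j1 j2
  rw [Complex.ofReal_mul, ← hl, G_eq a ha]
  have c1 : ch X0 (q.1 + r.1 * Complex.I) = chi X0 q.1 := by
    unfold ch chi
    rw [xre]
  have c2 : ch X0 (q.2 + r.2 * Complex.I) = chi X0 q.2 := by
    unfold ch chi
    rw [yre]
  rw [c1, c2, mul_add, ← integral_const_mul, ← integral_const_mul, xre, xim, zre, zim]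
  congr 1
  · congr 1
    ext τ
    unfold KF
    push_cast
    ring
  · congr 1
    ext τ
    unfold KF
    push_cast
    ring

/-- decomposition of the integral over the window -/
lemma win_split {m1 m2 : ℝ → ℝ} {C1 C2 g₁ g₂ b κ d a X0 Δ θ0 ζ1 ζ2 : ℝ} (h1 : Ev m1 C1 g₁)
    (h2 : Ev m2 C2 g₂) (hb : |b| < g₁) (hg₂ : 0 < g₂) (hκ : 0 < κ) (ha : 0 < a) (hX : Δ < X0)
    (hX2 : X0 + Δ < 2 * d) (h0 : 0 < θ0) (h0' : θ0 < π / 2)
    (hθ1 : 2 * θ0 < g₁ - b) (hθ2 : 2 * θ0 < g₁ + b) (hθ3 : 2 * θ0 < g₂)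
    (hA : 1 ≤ κ * (X0 - Δ) * cos θ0 ∧ 1 ≤ κ * (2 * d - X0 - Δ) * cos θ0) :
    ((∫ x in Rw X0 Δ ζ1 ζ2, ∫ y in Rw X0 Δ ζ1 ζ2,
      H62T.G a (x - y) * (ch X0 y - ch X0 x) * JKr m1 m2 b κ (2 * d - (starRingEnd ℂ) y) x : ℝ) : ℂ)
    = (∫ q in Iq X0 Δ, ∫ r in Jw ζ1 ζ2,
        ∫ τ, ((wt m1 b τ : ℝ) : ℂ) * KF κ d a X0 (-1 * τ) (-1 * τ) q r) +
      ∫ q in Iq X0 Δ, ∫ r in Jw ζ1 ζ2,
        ∫ τ, ((wt m2 0 τ : ℝ) : ℂ) * KF κ d a X0 (1 * τ) (-1 * τ) q r := by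
  have hw1 := h1.wt hb
  have hw2 := h2.wt (b := 0) (by rwa [abs_zero])
  have i1 := t_int (ζ1 := ζ1) (ζ2 := ζ2) (s1 := -1) (s2 := -1) hw1 (by norm_num) (by norm_num)
    hκ ha hX hX2 h0 h0' hθ1 hθ2 hA
  have i2 := t_int (ζ1 := ζ1) (ζ2 := ζ2) (s1 := 1) (s2 := -1) hw2 (by norm_num) (by norm_num)
    hκ ha hX hX2 h0 h0' (by linarith) (by linarith) hA
  have hmem : ∀ᵐ z : (ℝ × ℝ) × (ℝ × ℝ) ∂((volume.restrict (Iq X0 Δ)).prod
      (volume.restrict (Jw ζ1 ζ2))), z.1 ∈ Iq X0 Δ := by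
    have hA : ∀ᵐ q ∂(volume.restrict (Iq X0 Δ)), q ∈ Iq X0 Δ := ae_restrict_mem (Iq_meas X0 Δ)
    exact Measure.quasiMeasurePreserving_fst.ae hA
  set F : ℂ → ℂ → ℂ := fun x y => ((H62T.G a (x - y) * (ch X0 y - ch X0 x) *
    JKr m1 m2 b κ (2 * d - (starRingEnd ℂ) y) x : ℝ) : ℂ) with hF
  have hFe : (fun z : (ℝ × ℝ) × (ℝ × ℝ) =>
      F (z.1.1 + z.2.1 * Complex.I) (z.1.2 + z.2.2 * Complex.I)) =ᵐ[(volume.restrict (Iq X0 Δ)).prod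
      (volume.restrict (Jw ζ1 ζ2))] fun z => (∫ τ, ((wt m1 b τ : ℝ) : ℂ) *
        KF κ d a X0 (-1 * τ) (-1 * τ) z.1 z.2) +
      ∫ τ, ((wt m2 0 τ : ℝ) : ℂ) * KF κ d a X0 (1 * τ) (-1 * τ) z.1 z.2 := by
    filter_upwards [hmem] with z hz
    exact f_eq h1 h2 hb hg₂ hκ ha hX hX2 hz z.2
  have hFi : Integrable (fun z : (ℝ × ℝ) × (ℝ × ℝ) =>
      F (z.1.1 + z.2.1 * Complex.I) (z.1.2 + z.2.2 * Complex.I))
      ((volume.restrict (Iq X0 Δ)).prod (volume.restrict (Ioo (-ζ2) ζ1 ×ˢ Ioo (-ζ2) ζ1))) :=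
    (integrable_congr hFe).mpr (i1.add i2)
  have e0 : ((∫ x in Rw X0 Δ ζ1 ζ2, ∫ y in Rw X0 Δ ζ1 ζ2,
      H62T.G a (x - y) * (ch X0 y - ch X0 x) * JKr m1 m2 b κ (2 * d - (starRingEnd ℂ) y) x : ℝ) : ℂ)
      = ∫ x in Rw X0 Δ ζ1 ζ2, ∫ y in Rw X0 Δ ζ1 ζ2, F x y := by
    rw [← integral_complex_ofReal]
    congr 1
    ext x
    rw [← integral_complex_ofReal]
  rw [e0, window_integral hFi]
  change ∫ q in Iq X0 Δ, ∫ r in Jw ζ1 ζ2, F (q.1 + r.1 * Complex.I) (q.2 + r.2 * Complex.I) = _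
  have e1 := integral_prod _ hFi
  have e2 := integral_prod _ i1
  have e3 := integral_prod _ i2
  have e4 := integral_congr_ae hFe
  rw [integral_add i1 i2, e2, e3] at e4
  rw [← e4]
  exact e1.symm

/-- the general flux -/
theorem gen {m1 m2 : ℝ → ℝ} {C1 C2 g₁ g₂ b d δ M ζ1 ζ2 θ1 θ2 θ1' θ2' : ℝ} (h1 : Ev m1 C1 g₁)
    (h2 : Ev m2 C2 g₂) (hb : |b| < g₁) (hg₂ : 0 < g₂) (hδ : 0 < δ) (hδd : 3 * δ < d)
    (hM : 0 < M) (hζ1 : δ ≤ ζ1) (hζ2 : δ ≤ ζ2) (t1 : 0 < θ1) (t1' : θ1 < π / 2) (t2 : 0 < θ2)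
    (t2' : θ2 < π / 2) (t3 : 0 < θ1') (t3' : θ1' < π / 2) (t4 : 0 < θ2') (t4' : θ2' < π / 2)
    (r1 : 2 * θ1 < g₁ - b) (r4 : 2 * θ2' < g₁ + b)
    (x1 : M ≤ Ex d δ δ θ1 ζ1) (x2 : M ≤ Ex d δ δ θ2 ζ2)
    (x3 : M ≤ Ex d δ δ θ1' ζ1) (x4 : M ≤ Ex d δ δ θ2' ζ2) :
    ∃ c0, 0 < c0 ∧ ∀ c, 0 < c → c < c0 → ∃ C κ0 : ℝ, 0 < κ0 ∧ ∀ κ, κ0 ≤ κ →
      |κ / c * rexp (-(κ * c)) * (∫ x in Rw (d - 2 * δ) δ ζ1 ζ2, ∫ y in Rw (d - 2 * δ) δ ζ1 ζ2,
          H62T.G (c / κ) (x - y) * (ch (d - 2 * δ) y - ch (d - 2 * δ) x) *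
            JKr m1 m2 b κ (2 * d - (starRingEnd ℂ) y) x) -
        2 / π * ∫ τ in Ioi (0 : ℝ), (m1 τ * cosh (b * τ) * Kit 0 (2 * κ * d) +
          m2 τ * Kit (2 * τ) (2 * κ * d))| ≤ C * rexp (-(κ * M)) := by
  have hd : 0 < d := by linarith only [hδ, hδd]
  have hb' := abs_lt.mp hb
  have hw1 := h1.wt hb
  have hw2 := h2.wt (b := 0) (by rwa [abs_zero])
  have hX : δ < d - 2 * δ := by linarith only [hδd]
  have hX2 : d - 2 * δ + δ < 2 * d := by linarith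
  obtain ⟨c1, hc1, H1⟩ := weight_flux kitShift (s1 := -1) (s2 := -1) hd hδ hM hX hX2 hδ hζ1 hζ2
    (by norm_num) (by norm_num) hw1 t1 t1' t2 t2' t3 t3' t4 t4' (by linarith) (by linarith)
    (by linarith) (by linarith) x1 x2 x3 x4
  obtain ⟨c2, hc2, H2⟩ := weight_flux kitShift (s1 := 1) (s2 := -1) hd hδ hM hX hX2 hδ hζ1 hζ2
    (by norm_num) (by norm_num) hw2 t1 t1' t2 t2' t3 t3' t4 t4' (by linarith) (by linarith)
    (by linarith) (by linarith) x1 x2 x3 x4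
  refine ⟨min c1 c2, lt_min hc1 hc2, fun c hc hcc => ?_⟩
  obtain ⟨D1, k1, hk1, K1⟩ := H1 c hc (hcc.trans_le (min_le_left _ _))
  obtain ⟨D2, k2, hk2, K2⟩ := H2 c hc (hcc.trans_le (min_le_right _ _))
  set g := min (min (g₁ - b) (g₁ + b)) (min g₂ 1) with hg
  have hgp : 0 < g := lt_min (lt_min (by linarith) (by linarith)) (lt_min hg₂ one_pos)
  set θ0 := g / 4 with hθ0
  have q1 : g ≤ g₁ - b := (min_le_left _ _).trans (min_le_left _ _)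
  have q2 : g ≤ g₁ + b := (min_le_left _ _).trans (min_le_right _ _)
  have q3 : g ≤ g₂ := (min_le_right _ _).trans (min_le_left _ _)
  have q4 : g ≤ 1 := (min_le_right _ _).trans (min_le_right _ _)
  have h0 : 0 < θ0 := by positivity
  have h0' : θ0 < π / 2 := by have := pi_gt_three; linarith
  have hcos : 0 < cos θ0 := cos_pos_of_mem_Ioo ⟨by linarith [pi_pos], h0'⟩
  have hdd : 0 < d - 3 * δ := by linarith
  refine ⟨D1 + D2, max (max k1 k2) (1 / ((d - 3 * δ) * cos θ0)),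
    lt_max_of_lt_left (lt_max_of_lt_left hk1), fun κ hκ => ?_⟩
  have m1' : k1 ≤ κ := ((le_max_left _ _).trans (le_max_left _ _)).trans hκ
  have m2' : k2 ≤ κ := ((le_max_right _ _).trans (le_max_left _ _)).trans hκ
  have m3' : 1 / ((d - 3 * δ) * cos θ0) ≤ κ := (le_max_right _ _).trans hκ
  have hκp : 0 < κ := hk1.trans_le m1'
  have hA : 1 ≤ κ * (d - 2 * δ - δ) * cos θ0 ∧ 1 ≤ κ * (2 * d - (d - 2 * δ) - δ) * cos θ0 := by
    rw [div_le_iff₀ (by positivity)] at m3'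
    constructor
    · calc 1 ≤ κ * ((d - 3 * δ) * cos θ0) := m3'
        _ = _ := by ring
    · calc 1 ≤ κ * ((d - 3 * δ) * cos θ0) := m3'
        _ = κ * (d - 3 * δ) * cos θ0 := by ring
        _ ≤ _ := by
          gcongr <;> linarith
  have S := win_split (ζ1 := ζ1) (ζ2 := ζ2) (a := c / κ) h1 h2 hb hg₂ hκp (by positivity) hX hX2 h0
    h0' (by linarith) (by linarith) (by linarith) hA
  have T := main_term h1 h2 hb hg₂ hκp hd
  have L1 := K1 κ m1'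
  have L2 := K2 κ m2'
  rw [← Real.norm_eq_abs, ← Complex.norm_real, Complex.ofReal_sub, Complex.ofReal_mul, S, ← T]
  calc _ = ‖(((κ / c * rexp (-(κ * c)) : ℝ) : ℂ) * (∫ q in Iq (d - 2 * δ) δ, ∫ r in Jw ζ1 ζ2,
        ∫ τ, ((wt m1 b τ : ℝ) : ℂ) * KF κ d (c / κ) (d - 2 * δ) (-1 * τ) (-1 * τ) q r) -
        ((π : ℝ) : ℂ) * ∫ τ, ((wt m1 b τ : ℝ) : ℂ) * Mn κ d (-1 * τ) (-1 * τ)) +
        (((κ / c * rexp (-(κ * c)) : ℝ) : ℂ) * (∫ q in Iq (d - 2 * δ) δ, ∫ r in Jw ζ1 ζ2,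
        ∫ τ, ((wt m2 0 τ : ℝ) : ℂ) * KF κ d (c / κ) (d - 2 * δ) (1 * τ) (-1 * τ) q r) -
        ((π : ℝ) : ℂ) * ∫ τ, ((wt m2 0 τ : ℝ) : ℂ) * Mn κ d (1 * τ) (-1 * τ))‖ := by
        congr 1
        ring
    _ ≤ D1 * rexp (-(κ * M)) + D2 * rexp (-(κ * M)) := (norm_add_le _ _).trans (add_le_add L1 L2)
    _ = _ := by ring

end Pool.Agent.AEU.H12
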