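import Pool.Agent.Helper12_AEU.GermA0
import Pool.Agent.Helper16_Fine.Defs2

/-! helper12, AEU (MP_5b0138_an) Part III: germ of type A (edge doubled). -/

namespace Pool.Agent.AEU.H12

open MeasureTheory Filter Topology Real Set

/-- the open quadrant -/
def Qd : Set (ℝ × ℝ) := Ioi (0 : ℝ) ×ˢ Ioi (0 : ℝ)

lemma Qd_meas : MeasurableSet Qd := measurableSet_Ioi.prod measurableSet_Ioi

lemma smul_mem_Qd {p : ℝ × ℝ} {s : ℝ} (hs : 0 < s) : s • p ∈ Qd ↔ p ∈ Qd := by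
  unfold Qd
  simp only [mem_prod, mem_Ioi, Prod.smul_fst, Prod.smul_snd, smul_eq_mul,
    mul_pos_iff_of_pos_left hs]

/-- the homogeneous weights -/
noncomputable def mj (j : ℕ) (p : ℝ × ℝ) : ℝ := p.1 ^ 2 * p.2 ^ 2 * (p.1 ^ 2 + p.2 ^ 2) ^ j

noncomputable def JJ (j : ℕ) : ℝ := ∫ p in Qd, rexp (-((p.1 ^ 2 + p.2 ^ 2) / 2)) * mj j p

lemma int_mj (j : ℕ) :
    Integrable (fun p : ℝ × ℝ => rexp (-((p.1 ^ 2 + p.2 ^ 2) / 2)) * mj j p) := by
  -- bound (a + b)^j by 2^j (a^j + b^j) is avoided: expand binomially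
  have h : ∀ i ∈ Finset.range (j + 1), Integrable (fun p : ℝ × ℝ =>
      (rexp (-(p.1 ^ 2 / 2)) * p.1 ^ (2 * (1 + i))) *
        (rexp (-(p.2 ^ 2 / 2)) * p.2 ^ (2 * (1 + (j - i)))) * (j.choose i : ℝ)) := by
    intro i _
    exact ((int_gauss (1 + i)).mul_prod (int_gauss (1 + (j - i)))).mul_const _
  have hsum := integrable_finsetSum (Finset.range (j + 1)) h
  refine hsum.congr (Eventually.of_forall fun p => ?_)
  simp only [mj]
  rw [add_pow, Finset.mul_sum, Finset.mul_sum]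
  refine Finset.sum_congr rfl fun i _ => ?_
  have e : rexp (-((p.1 ^ 2 + p.2 ^ 2) / 2)) = rexp (-(p.1 ^ 2 / 2)) * rexp (-(p.2 ^ 2 / 2)) := by
    rw [← Real.exp_add]; congr 1; ring
  rw [e, ← pow_mul, ← pow_mul]
  ring

lemma JJ_pos (j : ℕ) : 0 < JJ j := by
  unfold JJ
  rw [setIntegral_pos_iff_support_of_nonneg_ae]
  · have : Qd ⊆ Function.support (fun p : ℝ × ℝ => rexp (-((p.1 ^ 2 + p.2 ^ 2) / 2)) * mj j p) ∩ Qd := by
      intro p hp
      refine ⟨?_, hp⟩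
      have h1 : (0 : ℝ) < p.1 := hp.1
      have h2 : (0 : ℝ) < p.2 := hp.2
      rw [Function.mem_support]
      unfold mj
      positivity
    refine lt_of_lt_of_le ?_ (measure_mono this)
    unfold Qd
    rw [Measure.volume_eq_prod, Measure.prod_prod]
    simp
  · refine Eventually.of_forall fun p => ?_
    have : 0 ≤ mj j p := by unfold mj; positivity
    have h2 := (exp_pos (-((p.1 ^ 2 + p.2 ^ 2) / 2))).le
    exact mul_nonneg h2 this
  · exact (int_mj j).integrableOn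

/-- two dimensional leading term -/
lemma lead2D {h : ℝ × ℝ → ℝ} {M c l : ℝ} (j : ℕ) (hl : 0 < l) (hh : Measurable h)
    (hb : ∀ p ∈ Qd, |h p| ≤ M * mj j p)
    (hlim : ∀ p ∈ Qd, Tendsto (fun s : ℝ => h (s • p) / s ^ (2 * (2 + j))) (𝓝[>] 0)
      (𝓝 (c * mj j p))) :
    Tendsto (fun κ : ℝ => (∫ p in Qd, rexp (-(κ * l * (cosh p.1 + cosh p.2))) * h p) *
      (rexp (2 * l * κ) * κ ^ ((3 : ℝ) + j))) atTop
      (𝓝 (c * JJ j * l ^ (-((3 : ℝ) + j)))) := by
  have hfr : Module.finrank ℝ (ℝ × ℝ) = 2 := by simp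
  have hw := watson_leading (volume : Measure (ℝ × ℝ)) (fun p => (cosh p.1 - 1) + (cosh p.2 - 1))
    (fun p => (p.1 ^ 2 + p.2 ^ 2) / 2) (Qd.indicator (mj j)) (Qd.indicator h) M c (2 + j)
    (by fun_prop) (hh.indicator Qd_meas)
    (by intro p
        have h1 := half_sq_le p.1
        have h2 := half_sq_le p.2
        linarith)
    (by intro p s _; simp only [Prod.smul_fst, Prod.smul_snd, smul_eq_mul]; ring)
    (by intro p
        have h1 := cosh_lim p.1
        have h2 := cosh_lim p.2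
        have h3 := h1.add h2
        have e : p.1 ^ 2 / 2 + p.2 ^ 2 / 2 = (p.1 ^ 2 + p.2 ^ 2) / 2 := by ring
        rw [e] at h3
        refine h3.congr ?_
        intro s
        simp only [Prod.smul_fst, Prod.smul_snd, smul_eq_mul]
        ring)
    (by intro p s hs
        by_cases hp : p ∈ Qd
        · rw [indicator_of_mem ((smul_mem_Qd hs).mpr hp), indicator_of_mem hp]
          unfold mj
          simp only [Prod.smul_fst, Prod.smul_snd, smul_eq_mul]
          rw [show (s * p.1) ^ 2 + (s * p.2) ^ 2 = s ^ 2 * (p.1 ^ 2 + p.2 ^ 2) by ring,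
            mul_pow (s ^ 2) _ j, ← pow_mul]
          ring
        · rw [indicator_of_notMem (fun h => hp ((smul_mem_Qd hs).mp h)), indicator_of_notMem hp,
            mul_zero])
    (by intro p
        by_cases hp : p ∈ Qd
        · rw [indicator_of_mem hp, indicator_of_mem hp]; exact hb p hp
        · rw [indicator_of_notMem hp, indicator_of_notMem hp]; simp)
    (by intro p
        by_cases hp : p ∈ Qd
        · rw [indicator_of_mem hp]
          refine (hlim p hp).congr' ?_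
          filter_upwards [self_mem_nhdsWithin] with s hs
          rw [indicator_of_mem ((smul_mem_Qd hs).mpr hp)]
        · rw [indicator_of_notMem hp, mul_zero]
          refine tendsto_const_nhds.congr' ?_
          filter_upwards [self_mem_nhdsWithin] with s hs
          rw [indicator_of_notMem (fun h => hp ((smul_mem_Qd hs).mp h)), zero_div])
    (by have := (int_mj j).indicator Qd_meas
        refine this.congr (Eventually.of_forall fun p => ?_)
        by_cases hp : p ∈ Qd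
        · simp only [indicator_of_mem hp]
        · simp only [indicator_of_notMem hp, mul_zero])
  rw [hfr] at hw
  have hL : Tendsto (fun κ : ℝ => κ * l) atTop atTop :=
    tendsto_id.atTop_mul_const hl
  have hw2 := (hw.comp hL).mul_const (l ^ (-((3 : ℝ) + j)))
  have e : c * ∫ p : ℝ × ℝ, rexp (-((p.1 ^ 2 + p.2 ^ 2) / 2)) * Qd.indicator (mj j) p = c * JJ j := by
    congr 1
    unfold JJ
    rw [← integral_indicator Qd_meas]
    congr 1
    ext p
    by_cases hp : p ∈ Qd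
    · simp only [indicator_of_mem hp]
    · simp only [indicator_of_notMem hp, mul_zero]
  rw [e] at hw2
  refine hw2.congr' ?_
  filter_upwards [eventually_gt_atTop 0] with κ hκ
  simp only [Function.comp]
  have hLp : 0 < κ * l := by positivity
  have e1 : (√(κ * l)) ^ (2 * (2 + j) + 2) = (κ * l) ^ ((3 : ℝ) + j) := by
    rw [Real.sqrt_eq_rpow, ← Real.rpow_natCast, ← Real.rpow_mul hLp.le]
    congr 1
    push_cast
    ring
  have e2 : (κ * l) ^ ((3 : ℝ) + j) = κ ^ ((3 : ℝ) + j) * l ^ ((3 : ℝ) + j) :=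
    Real.mul_rpow hκ.le hl.le
  have e3 : l ^ ((3 : ℝ) + j) * l ^ (-((3 : ℝ) + j)) = 1 := by
    rw [← Real.rpow_add hl, add_neg_cancel, Real.rpow_zero]
  have e4 : ∫ p in Qd, rexp (-(κ * l * (cosh p.1 + cosh p.2))) * h p
      = rexp (-(2 * l * κ)) * ∫ p, rexp (-(κ * l * ((cosh p.1 - 1) + (cosh p.2 - 1)))) *
        Qd.indicator h p := by
    rw [← integral_const_mul, ← integral_indicator Qd_meas]
    congr 1
    ext p
    by_cases hp : p ∈ Qd
    · simp only [indicator_of_mem hp]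
      rw [← mul_assoc, ← Real.exp_add]
      congr 2
      ring
    · simp only [indicator_of_notMem hp, mul_zero]
  have e5 : rexp (-(2 * l * κ)) * rexp (2 * l * κ) = 1 := by
    rw [← Real.exp_add, neg_add_cancel, Real.exp_zero]
  rw [e4, e1, e2]
  obtain ⟨Z, hZ⟩ : ∃ Z, Z = ∫ p, rexp (-(κ * l * ((cosh p.1 - 1) + (cosh p.2 - 1)))) *
        Qd.indicator h p := ⟨_, rfl⟩
  rw [← hZ]
  calc κ ^ ((3 : ℝ) + j) * l ^ ((3 : ℝ) + j) * Z * l ^ (-((3 : ℝ) + j))
      = (l ^ ((3 : ℝ) + j) * l ^ (-((3 : ℝ) + j))) * (κ ^ ((3 : ℝ) + j) * Z) := by ring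
    _ = (rexp (-(2 * l * κ)) * rexp (2 * l * κ)) * (κ ^ ((3 : ℝ) + j) * Z) := by rw [e3, e5]
    _ = _ := by ring

/-- the germ of type A (without the factor `π^(-2)`) -/
noncomputable def TA (b b' a : ℝ) : ℝ :=
  ∫ p in Qd, rexp (-(a * (cosh p.1 + cosh p.2))) * (PK b p.1 p.2 * PK b' p.1 p.2)

lemma measurable_PK (b : ℝ) : Measurable fun p : ℝ × ℝ => PK b p.1 p.2 := by
  unfold PK
  have := measurable_KKf b
  fun_prop

/-- leading term of type A -/
lemma lead_TA {b b' l : ℝ} (hl : 0 < l) (hb0 : 0 < b) (hb0' : 0 < b') (hb : cos (b * π) ≠ 1)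
    (hb' : cos (b' * π) ≠ 1) :
    Lead (fun κ => TA b b' (κ * l)) (2 * l) 3 (FA b * FA b' * JJ 0 * l ^ (-(3 : ℝ))) := by
  obtain ⟨M, hM0, hM⟩ := PK_bound1 hb0 hb
  obtain ⟨M', hM0', hM'⟩ := PK_bound1 hb0' hb'
  have h := lead2D (h := fun p => PK b p.1 p.2 * PK b' p.1 p.2) (M := M * M')
    (c := FA b * FA b') (l := l) 0 hl ((measurable_PK b).mul (measurable_PK b'))
    (by intro p hp
        have h1 := hM p.1 p.2 hp.1 hp.2
        have h2 := hM' p.1 p.2 hp.1 hp.2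
        rw [abs_mul]
        calc |PK b p.1 p.2| * |PK b' p.1 p.2| ≤ (M * (p.1 * p.2)) * (M' * (p.1 * p.2)) :=
              mul_le_mul h1 h2 (abs_nonneg _) ((abs_nonneg _).trans h1)
          _ = _ := by unfold mj; ring)
    (by intro p hp
        have t := (exp2_PK hb p.1 p.2).tendsto.mul (exp2_PK hb' p.1 p.2).tendsto
        have e : FA b * (p.1 * p.2) * (FA b' * (p.1 * p.2)) = FA b * FA b' * mj 0 p := by
          unfold mj; ring
        rw [e] at t
        refine t.congr ?_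
        intro s
        simp only [Prod.smul_fst, Prod.smul_snd, smul_eq_mul]
        rw [div_mul_div_comm]
        congr 1
        ring)
  simp only [Nat.cast_zero, add_zero] at h
  exact h

lemma int_TA {b b' a : ℝ} (ha : 0 < a) (hb : cos (b * π) ≠ 1) (hb' : cos (b' * π) ≠ 1) :
    Integrable (fun p : ℝ × ℝ => rexp (-(a * (cosh p.1 + cosh p.2))) *
      (PK b p.1 p.2 * PK b' p.1 p.2)) := by
  obtain ⟨M, hM⟩ := KKf_bdd hb
  obtain ⟨M', hM'⟩ := KKf_bdd hb'
  have hg : Integrable fun p : ℝ × ℝ => rexp (-(a / 2) * p.1 ^ 2) * rexp (-(a / 2) * p.2 ^ 2) *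
      ((M + M) * (M' + M')) :=
    ((integrable_exp_neg_mul_sq (by positivity)).mul_prod
      (integrable_exp_neg_mul_sq (by positivity))).mul_const _
  refine hg.mono' ?_ ?_
  · have := measurable_PK b
    have := measurable_PK b'
    exact (Measurable.mul (by fun_prop) (by fun_prop)).aestronglyMeasurable
  · refine Eventually.of_forall fun p => ?_
    rw [norm_mul, norm_mul, Real.norm_eq_abs, Real.norm_eq_abs, Real.norm_eq_abs,
      abs_of_pos (exp_pos _), ← Real.exp_add]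
    have h1 : |PK b p.1 p.2| ≤ M + M := by
      unfold PK
      exact (abs_sub _ _).trans (add_le_add (hM _) (hM _))
    have h2 : |PK b' p.1 p.2| ≤ M' + M' := by
      unfold PK
      exact (abs_sub _ _).trans (add_le_add (hM' _) (hM' _))
    have h3 : -(a * (cosh p.1 + cosh p.2)) ≤ -(a / 2) * p.1 ^ 2 + -(a / 2) * p.2 ^ 2 := by
      have := half_sq_le p.1
      have := half_sq_le p.2
      nlinarith
    have h4 : 0 ≤ M + M := (abs_nonneg _).trans h1
    gcongr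

/-- **Inversion of the germ of type A.** -/
theorem germA {b1 b2 c1 c2 l l' C δ : ℝ} (hl : 0 < l) (hl' : 0 < l')
    (hb1 : b1 ∈ Ioo (1 : ℝ) 2) (hb2 : b2 ∈ Ioo (1 : ℝ) 2) (hc1 : c1 ∈ Ioo (1 : ℝ) 2)
    (hc2 : c2 ∈ Ioo (1 : ℝ) 2) (hδ : 0 < δ)
    (hT : ∀ᶠ κ in atTop, |TA b1 b2 (κ * l) - TA c1 c2 (κ * l')| ≤ C * rexp (-((2 * l + δ) * κ))) :
    l = l' ∧ ((b1 = c1 ∧ b2 = c2) ∨ (b1 = c2 ∧ b2 = c1)) := by
  have ne1 : ∀ {x : ℝ}, x ∈ Ioo (1 : ℝ) 2 → cos (x * π) ≠ 1 := by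
    intro x hx h
    have hp := pi_pos
    have h2 : cos (x * π - 2 * π) = 1 := by rw [cos_sub_two_pi, h]
    rw [Real.cos_eq_one_iff_of_lt_of_lt] at h2
    · nlinarith [hx.2]
    · nlinarith [hx.1]
    · nlinarith [hx.2]
  have fpos : ∀ {x : ℝ}, x ∈ Ioo (1 : ℝ) 2 → 0 < FA x := by
    intro x hx
    have := fA_pos (x := x - 1) ⟨by linarith [hx.1], by linarith [hx.2]⟩
    rw [FA_eq]
    rwa [show 1 + (x - 1) = x by ring] at this
  have p0 : ∀ {x : ℝ}, x ∈ Ioo (1 : ℝ) 2 → 0 < x := fun h => by linarith [h.1]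
  have J0 := (JJ_pos 0).ne'
  have pw : ∀ {x : ℝ}, 0 < x → x ^ (-(3 : ℝ)) ≠ 0 := fun {x} hx =>
    (Real.rpow_pos_of_pos hx _).ne'
  obtain ⟨hLL, -, hcc⟩ := (lead_TA hl (p0 hb1) (p0 hb2) (ne1 hb1) (ne1 hb2)).unique
    (lead_TA hl' (p0 hc1) (p0 hc2) (ne1 hc1) (ne1 hc2))
    (mul_ne_zero (mul_ne_zero (mul_pos (fpos hb1) (fpos hb2)).ne' J0) (pw hl))
    (mul_ne_zero (mul_ne_zero (mul_pos (fpos hc1) (fpos hc2)).ne' J0) (pw hl')) hδ hT
  have hll : l = l' := by linarith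
  subst hll
  refine ⟨rfl, ?_⟩
  have hF : FA b1 * FA b2 = FA c1 * FA c2 :=
    mul_right_cancel₀ J0 (mul_right_cancel₀ (pw hl) hcc)
  have hG : gA b1 + gA b2 = gA c1 + gA c2 := by
    obtain ⟨M1, hM10, hM1⟩ := PK_bound1 (p0 hb1) (ne1 hb1)
    obtain ⟨M2, hM20, hM2⟩ := PK_bound2 (p0 hb1) (ne1 hb1)
    obtain ⟨M4, hM40, hM4⟩ := PK_bound2 (p0 hb2) (ne1 hb2)
    obtain ⟨N1, hN10, hN1⟩ := PK_bound1 (p0 hc1) (ne1 hc1)
    obtain ⟨N2, hN20, hN2⟩ := PK_bound2 (p0 hc1) (ne1 hc1)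
    obtain ⟨N4, hN40, hN4⟩ := PK_bound2 (p0 hc2) (ne1 hc2)
    have prod_est : ∀ {b b' A B D : ℝ}, 0 ≤ A → (∀ v w, 0 < v → 0 < w → |PK b v w| ≤ A * (v * w)) →
        (∀ v w, 0 < v → 0 < w → |PK b v w - FA b * (v * w)| ≤ B * (v * w * (v ^ 2 + w ^ 2))) →
        (∀ v w, 0 < v → 0 < w → |PK b' v w - FA b' * (v * w)| ≤ D * (v * w * (v ^ 2 + w ^ 2))) →
        ∀ p ∈ Qd, |PK b p.1 p.2 * PK b' p.1 p.2 - FA b * FA b' * (p.1 ^ 2 * p.2 ^ 2)|
          ≤ (A * D + |FA b'| * B) * mj 1 p := by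
      intro b b' A B D hA h1 h2 h4 p hp
      have hp1 : 0 < p.1 := hp.1
      have hp2 : 0 < p.2 := hp.2
      have e : PK b p.1 p.2 * PK b' p.1 p.2 - FA b * FA b' * (p.1 ^ 2 * p.2 ^ 2)
          = PK b p.1 p.2 * (PK b' p.1 p.2 - FA b' * (p.1 * p.2)) +
            (FA b' * (p.1 * p.2)) * (PK b p.1 p.2 - FA b * (p.1 * p.2)) := by ring
      rw [e]
      refine (abs_add_le _ _).trans ?_
      rw [abs_mul, abs_mul, abs_mul, abs_of_pos (mul_pos hp1 hp2)]
      have g1 := h1 p.1 p.2 hp1 hp2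
      have g2 := h2 p.1 p.2 hp1 hp2
      have g4 := h4 p.1 p.2 hp1 hp2
      calc |PK b p.1 p.2| * |PK b' p.1 p.2 - FA b' * (p.1 * p.2)| +
            |FA b'| * (p.1 * p.2) * |PK b p.1 p.2 - FA b * (p.1 * p.2)|
          ≤ (A * (p.1 * p.2)) * (D * (p.1 * p.2 * (p.1 ^ 2 + p.2 ^ 2))) +
            |FA b'| * (p.1 * p.2) * (B * (p.1 * p.2 * (p.1 ^ 2 + p.2 ^ 2))) := by
              gcongr
        _ = _ := by unfold mj; ring
    have E1 := prod_est hM10 hM1 hM2 hM4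
    have E2 := prod_est hN10 hN1 hN2 hN4
    have hl2 := lead2D (h := fun p => PK b1 p.1 p.2 * PK b2 p.1 p.2 - PK c1 p.1 p.2 * PK c2 p.1 p.2)
      (M := (M1 * M4 + |FA b2| * M2) + (N1 * N4 + |FA c2| * N2))
      (c := -(FA b1 * FA b2 * ((gA b1 + gA b2) - (gA c1 + gA c2)) / 6)) (l := l) 1 hl
      (((measurable_PK b1).mul (measurable_PK b2)).sub ((measurable_PK c1).mul (measurable_PK c2)))
      (by intro p hp
          have g1 := E1 p hp
          have g2 := E2 p hp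
          have e : PK b1 p.1 p.2 * PK b2 p.1 p.2 - PK c1 p.1 p.2 * PK c2 p.1 p.2
              = (PK b1 p.1 p.2 * PK b2 p.1 p.2 - FA b1 * FA b2 * (p.1 ^ 2 * p.2 ^ 2)) -
                (PK c1 p.1 p.2 * PK c2 p.1 p.2 - FA c1 * FA c2 * (p.1 ^ 2 * p.2 ^ 2)) := by
            rw [hF]; ring
          simp only [e]
          refine (abs_sub _ _).trans ?_
          rw [add_mul]
          exact add_le_add g1 g2)
      (by intro p hp
          have t1 := (exp2_PK (ne1 hb1) p.1 p.2).mul (exp2_PK (ne1 hb2) p.1 p.2)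
          have t2 := (exp2_PK (ne1 hc1) p.1 p.2).mul (exp2_PK (ne1 hc2) p.1 p.2)
          have t3 : Tendsto _ _ _ := t1.sub t2
          have e : -(FA b1 * gA b1 / 6) * (p.1 * p.2 * (p.1 ^ 2 + p.2 ^ 2)) *
              (FA b2 * (p.1 * p.2)) + FA b1 * (p.1 * p.2) * (-(FA b2 * gA b2 / 6) *
                (p.1 * p.2 * (p.1 ^ 2 + p.2 ^ 2))) -
              (-(FA c1 * gA c1 / 6) * (p.1 * p.2 * (p.1 ^ 2 + p.2 ^ 2)) *
              (FA c2 * (p.1 * p.2)) + FA c1 * (p.1 * p.2) * (-(FA c2 * gA c2 / 6) *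
                (p.1 * p.2 * (p.1 ^ 2 + p.2 ^ 2))))
              = -(FA b1 * FA b2 * ((gA b1 + gA b2) - (gA c1 + gA c2)) / 6) * mj 1 p := by
            unfold mj
            linear_combination (1 / 6 * (gA c1 + gA c2) *
              ((p.1 * p.2) * (p.1 * p.2 * (p.1 ^ 2 + p.2 ^ 2)))) * (-hF)
          rw [e] at t3
          refine t3.congr' ?_
          filter_upwards [self_mem_nhdsWithin] with s hs
          have hs' : (0 : ℝ) < s := hs
          simp only [Prod.smul_fst, Prod.smul_snd, smul_eq_mul]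
          field_simp
          linear_combination (-(s ^ 10 * p.1 ^ 2 * p.2 ^ 2)) * hF)
    have hz : Tendsto (fun κ : ℝ => (∫ p in Qd, rexp (-(κ * l * (cosh p.1 + cosh p.2))) *
        (PK b1 p.1 p.2 * PK b2 p.1 p.2 - PK c1 p.1 p.2 * PK c2 p.1 p.2)) *
        (rexp (2 * l * κ) * κ ^ ((3 : ℝ) + ((1 : ℕ) : ℝ)))) atTop (𝓝 0) := by
      have h1 := small_of_bound hδ hT le_rfl ((3 : ℝ) + ((1 : ℕ) : ℝ))
      refine h1.congr' ?_
      filter_upwards [eventually_gt_atTop 0] with κ hκ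
      unfold TA
      rw [← integral_sub (int_TA (by positivity) (ne1 hb1) (ne1 hb2)).integrableOn
        (int_TA (by positivity) (ne1 hc1) (ne1 hc2)).integrableOn]
      congr 2
      ext p
      ring
    have hu := tendsto_nhds_unique hl2 hz
    have hne : JJ 1 * l ^ (-((3 : ℝ) + ((1 : ℕ) : ℝ))) ≠ 0 :=
      mul_ne_zero (JJ_pos 1).ne' (Real.rpow_pos_of_pos hl _).ne'
    rw [mul_assoc] at hu
    rcases mul_eq_zero.mp hu with h1 | h1
    · have hff := mul_pos (fpos hb1) (fpos hb2)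
      have h2 : FA b1 * FA b2 * ((gA b1 + gA b2) - (gA c1 + gA c2)) = 0 := by linarith
      rcases mul_eq_zero.mp h2 with h3 | h3
      · exact absurd h3 hff.ne'
      · linarith
    · exact absurd h1 hne
  rw [FA_eq, FA_eq, FA_eq, FA_eq] at hF
  exact a_inj hb1 hb2 hc1 hc2 hF hG

/-! ### Relation with the function `tau` of squad FINE -/

open Pool.Agent.H16F in
lemma KK_eq (β z : ℝ) : KK β z = KKf (2 * nu β) z / π := by
  unfold KK KKf
  rw [show 2 * π * nu β = 2 * nu β * π by ring]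
  ring

open Pool.Agent.H16F in
theorem tau_eq {β β' a : ℝ} (ha : 0 < a) (hb : cos (2 * nu β * π) ≠ 1)
    (hb' : cos (2 * nu β' * π) ≠ 1) :
    tau β β' a = TA (2 * nu β) (2 * nu β') a / π ^ 2 := by
  unfold tau TA Qd
  rw [Measure.volume_eq_prod, setIntegral_prod]
  · rw [div_eq_mul_inv, mul_comm _ ((π ^ 2)⁻¹), ← integral_const_mul]
    congr 1
    ext v
    rw [← integral_const_mul]
    congr 1
    ext w
    unfold bb PK
    rw [KK_eq, KK_eq, KK_eq, KK_eq]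
    field_simp
  · rw [← Measure.volume_eq_prod]
    exact (int_TA ha hb hb').integrableOn

open Pool.Agent.H16F in
/-- **Inversion of the germ of type A in terms of `tau`** (exterior angles less than `π/2`). -/
theorem germA_tau {β1 β2 γ1 γ2 l l' C δ : ℝ} (hl : 0 < l) (hl' : 0 < l')
    (hb1 : β1 ∈ Ioo (0 : ℝ) (π / 2)) (hb2 : β2 ∈ Ioo (0 : ℝ) (π / 2))
    (hc1 : γ1 ∈ Ioo (0 : ℝ) (π / 2)) (hc2 : γ2 ∈ Ioo (0 : ℝ) (π / 2)) (hδ : 0 < δ)
    (hT : ∀ᶠ κ in atTop, |tau β1 β2 (κ * l) - tau γ1 γ2 (κ * l')|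
      ≤ C * rexp (-((2 * l + δ) * κ))) :
    l = l' ∧ ((β1 = γ1 ∧ β2 = γ2) ∨ (β1 = γ2 ∧ β2 = γ1)) := by
  have hp := pi_pos
  have mem : ∀ {x : ℝ}, x ∈ Ioo (0 : ℝ) (π / 2) → 2 * nu x ∈ Ioo (1 : ℝ) 2 := by
    intro x hx
    have h1 : 0 < π - x := by linarith [hx.2]
    have e : 2 * nu x = π / (π - x) := by unfold nu; field_simp
    rw [e]
    constructor
    · rw [lt_div_iff₀ h1]; linarith [hx.1]
    · rw [div_lt_iff₀ h1]; linarith [hx.2]
  have inj : ∀ {x y : ℝ}, x ∈ Ioo (0 : ℝ) (π / 2) → y ∈ Ioo (0 : ℝ) (π / 2) →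
      2 * nu x = 2 * nu y → x = y := by
    intro x y hx hy h
    have h1 : 0 < π - x := by linarith [hx.2]
    have h2 : 0 < π - y := by linarith [hy.2]
    have e : ∀ {z : ℝ}, 0 < π - z → 2 * nu z = π / (π - z) := by
      intro z hz; unfold nu; field_simp
    rw [e h1, e h2, div_eq_div_iff h1.ne' h2.ne'] at h
    have := mul_left_cancel₀ hp.ne' h
    linarith
  have ne1 : ∀ {x : ℝ}, x ∈ Ioo (0 : ℝ) (π / 2) → cos (2 * nu x * π) ≠ 1 := by
    intro x hx h
    have hm := mem hx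
    have h2 : cos (2 * nu x * π - 2 * π) = 1 := by rw [cos_sub_two_pi, h]
    rw [Real.cos_eq_one_iff_of_lt_of_lt] at h2
    · nlinarith [hm.2]
    · nlinarith [hm.1]
    · nlinarith [hm.2]
  have hT' : ∀ᶠ κ in atTop, |TA (2 * nu β1) (2 * nu β2) (κ * l) -
      TA (2 * nu γ1) (2 * nu γ2) (κ * l')| ≤ (C * π ^ 2) * rexp (-((2 * l + δ) * κ)) := by
    filter_upwards [hT, eventually_gt_atTop 0] with κ hκ hκ0
    rw [tau_eq (by positivity) (ne1 hb1) (ne1 hb2), tau_eq (by positivity) (ne1 hc1) (ne1 hc2),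
      ← sub_div, abs_div, abs_of_pos (by positivity : 0 < π ^ 2), div_le_iff₀ (by positivity)] at hκ
    linarith
  obtain ⟨h1, h2⟩ := germA hl hl' (mem hb1) (mem hb2) (mem hc1) (mem hc2) hδ hT'
  refine ⟨h1, ?_⟩
  rcases h2 with h2 | h2
  · exact Or.inl ⟨inj hb1 hc1 h2.1, inj hb2 hc2 h2.2⟩
  · exact Or.inr ⟨inj hb1 hc2 h2.1, inj hb2 hc1 h2.2⟩

end Pool.Agent.AEU.H12
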