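import Pool.Agent.Helper12_AEU.GermB
import Pool.Agent.Helper12_AEU.AInj

/-! helper12, AEU (MP_5b0138_an) Part III: kernel of type A (edge doubled): bounds and expansion. -/

namespace Pool.Agent.AEU.H12

open MeasureTheory Filter Topology Real Set

/-- the kernel of one corner on the half line -/
noncomputable def PK (b v w : ℝ) : ℝ := KKf b (v - w) - KKf b (v + w)

/-- `F = b³ (-sin bπ) / (1 - cos bπ)²` -/
noncomputable def FA (b : ℝ) : ℝ := b ^ 3 * (-sin (b * π)) / CC b ^ 2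

lemma sinh_le_mul_cosh {y : ℝ} (hy : 0 ≤ y) : sinh y ≤ y * cosh y := by
  rcases hy.eq_or_lt with h | h
  · rw [← h]; simp
  · obtain ⟨c, hc, hcs⟩ := exists_hasDerivAt_eq_slope sinh cosh h
      Real.continuous_sinh.continuousOn (fun x _ => Real.hasDerivAt_sinh x)
    rw [sinh_zero, sub_zero, sub_zero] at hcs
    have h1 : sinh y = y * cosh c := by
      rw [hcs]; field_simp
    rw [h1]
    have h2 : cosh c ≤ cosh y := by
      rw [Real.cosh_le_cosh, abs_of_pos hc.1, abs_of_pos h]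
      exact hc.2.le
    gcongr

lemma PK_eq {b : ℝ} (hb : cos (b * π) ≠ 1) (v w : ℝ) :
    PK b v w = b * (-sin (b * π)) * (sinh (b * v) * sinh (b * w)) *
      ((cosh (b * (v - w)) - cos (b * π))⁻¹ * (cosh (b * (v + w)) - cos (b * π))⁻¹) := by
  have hC := CC_pos hb
  have h1 : cosh (b * (v - w)) - cos (b * π) ≠ 0 := (hC.trans_le (den_pos _)).ne'
  have h2 : cosh (b * (v + w)) - cos (b * π) ≠ 0 := (hC.trans_le (den_pos _)).ne'
  unfold PK KKf
  have e : cosh (b * (v + w)) - cosh (b * (v - w)) = 2 * (sinh (b * v) * sinh (b * w)) := by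
    rw [mul_add, mul_sub, Real.cosh_add, Real.cosh_sub]
    ring
  rw [div_sub_div _ _ h1 h2, ← mul_inv, ← div_eq_mul_inv]
  congr 1
  linear_combination (b / 2 * (-sin (b * π))) * e

/-- first global bound -/
lemma PK_bound1 {b : ℝ} (hb0 : 0 < b) (hb : cos (b * π) ≠ 1) :
    ∃ M, 0 ≤ M ∧ ∀ v w, 0 < v → 0 < w → |PK b v w| ≤ M * (v * w) := by
  have hC := CC_pos hb
  refine ⟨b * |sin (b * π)| * b ^ 2 * ((CC b)⁻¹ * (1 + (CC b)⁻¹)), by positivity, ?_⟩
  intro v w hv hw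
  have hX : CC b ≤ cosh (b * (v - w)) - cos (b * π) := den_pos _
  have hY : CC b ≤ cosh (b * (v + w)) - cos (b * π) := den_pos _
  have hX0 := hC.trans_le hX
  have hY0 := hC.trans_le hY
  have s1 := sinh_le_mul_cosh (show 0 ≤ b * v by positivity)
  have s2 := sinh_le_mul_cosh (show 0 ≤ b * w by positivity)
  have p1 : 0 < sinh (b * v) := Real.sinh_pos_iff.mpr (by positivity)
  have p2 : 0 < sinh (b * w) := Real.sinh_pos_iff.mpr (by positivity)
  have hcc : cosh (b * v) * cosh (b * w) ≤ cosh (b * (v + w)) := by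
    rw [mul_add, Real.cosh_add]
    linarith only [mul_pos p1 p2]
  have h3 : sinh (b * v) * sinh (b * w) ≤ (b * v) * (b * w) * cosh (b * (v + w)) := by
    calc sinh (b * v) * sinh (b * w) ≤ (b * v * cosh (b * v)) * (b * w * cosh (b * w)) := by
          gcongr
      _ = (b * v) * (b * w) * (cosh (b * v) * cosh (b * w)) := by ring
      _ ≤ _ := by gcongr
  have h4 : cosh (b * (v + w)) * (cosh (b * (v + w)) - cos (b * π))⁻¹ ≤ 1 + (CC b)⁻¹ := by
    have e : cosh (b * (v + w)) * (cosh (b * (v + w)) - cos (b * π))⁻¹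
        = 1 + cos (b * π) * (cosh (b * (v + w)) - cos (b * π))⁻¹ := by
      field_simp
      ring
    rw [e]
    have h5 : (cosh (b * (v + w)) - cos (b * π))⁻¹ ≤ (CC b)⁻¹ := inv_anti₀ hC hY
    have h6 : 0 < (cosh (b * (v + w)) - cos (b * π))⁻¹ := inv_pos.mpr hY0
    have h7 := cos_le_one (b * π)
    nlinarith only [h7, hC, h5, hY, e]
  have h5 : (cosh (b * (v - w)) - cos (b * π))⁻¹ ≤ (CC b)⁻¹ := inv_anti₀ hC hX
  rw [PK_eq hb, abs_mul, abs_mul, abs_mul, abs_neg, abs_of_pos hb0, abs_of_pos (mul_pos p1 p2),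
    abs_of_pos (mul_pos (inv_pos.mpr hX0) (inv_pos.mpr hY0))]
  calc b * |sin (b * π)| * (sinh (b * v) * sinh (b * w)) *
        ((cosh (b * (v - w)) - cos (b * π))⁻¹ * (cosh (b * (v + w)) - cos (b * π))⁻¹)
      ≤ b * |sin (b * π)| * ((b * v) * (b * w) * cosh (b * (v + w))) *
        ((cosh (b * (v - w)) - cos (b * π))⁻¹ * (cosh (b * (v + w)) - cos (b * π))⁻¹) := by
        have := mul_pos (inv_pos.mpr hX0) (inv_pos.mpr hY0)
        gcongr
    _ = b * |sin (b * π)| * b ^ 2 * (v * w) * ((cosh (b * (v - w)) - cos (b * π))⁻¹ *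
        (cosh (b * (v + w)) * (cosh (b * (v + w)) - cos (b * π))⁻¹)) := by ring
    _ ≤ b * |sin (b * π)| * b ^ 2 * (v * w) * ((CC b)⁻¹ * (1 + (CC b)⁻¹)) := by
        have := cosh_pos (b * (v + w))
        gcongr
    _ = _ := by ring

/-- local estimate of the relative error -/
lemma loc_est {C p r X Y : ℝ} (hC : 0 < C) (hp : 0 < p) (hr : 0 < r) (hp2 : p ≤ 1 / 2)
    (hr2 : r ≤ 1 / 2) (hX : X = C + (cosh (p - r) - 1)) (hY : Y = C + (cosh (p + r) - 1)) :
    |sinh p * sinh r * (X⁻¹ * Y⁻¹) - p * r / C ^ 2|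
      ≤ (4 / C ^ 2 + (2 * (C + 2) + 4 * C) / C ^ 4) * (p * r * (p ^ 2 + r ^ 2)) := by
  have a1 : |p - r| ≤ 1 := by rw [abs_le]; constructor <;> linarith
  have a2 : |p + r| ≤ 1 := by rw [abs_le]; constructor <;> linarith
  have a3 : |p| ≤ 1 := by rw [abs_of_pos hp]; linarith
  have a4 : |r| ≤ 1 := by rw [abs_of_pos hr]; linarith
  have c1 := cosh_sub_one_le a1
  have c2 := cosh_sub_one_le a2
  have c1' := one_le_cosh (p - r)
  have c2' := one_le_cosh (p + r)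
  have hX1 : C ≤ X := by linarith
  have hY1 : C ≤ Y := by linarith
  have hX0 := hC.trans_le hX1
  have hY0 := hC.trans_le hY1
  have t : ∀ {y : ℝ}, 0 < y → y ≤ 1 / 2 → y ≤ sinh y ∧ sinh y - y ≤ 2 * y ^ 3 ∧ sinh y ≤ 2 * y := by
    intro y hy hy2
    have h1 := sinh_taylor (y := y) (by rw [abs_of_pos hy]; linarith)
    rw [abs_of_pos hy] at h1
    have h2 := (abs_le.mp h1).2
    have h3 : y ≤ sinh y := Real.self_le_sinh_iff.mpr hy.le
    have h4 : y ^ 5 ≤ y ^ 3 := by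
      have : y ^ 2 ≤ 1 := by nlinarith only [hy2, hy]
      have h5 : 0 < y ^ 3 := by positivity
      nlinarith only [h2, this, h3]
    have h5 : y ^ 3 ≤ y / 4 := by
      have : y ^ 2 ≤ 1 / 4 := by nlinarith only [hy2, hy]
      nlinarith
    refine ⟨h3, ?_, ?_⟩
    · have : 0 < y ^ 3 := by positivity
      linarith
    · linarith
  obtain ⟨p1, p2, p3⟩ := t hp hp2
  obtain ⟨r1, r2, r3⟩ := t hr hr2
  have hpr : 0 < p * r := by positivity
  have n1 : |sinh p * sinh r - p * r| ≤ 4 * (p * r * (p ^ 2 + r ^ 2)) := by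
    have e : sinh p * sinh r - p * r = (sinh p - p) * sinh r + p * (sinh r - r) := by ring
    rw [e, abs_of_nonneg (by
      have : 0 ≤ sinh p - p := by linarith
      have : 0 ≤ sinh r - r := by linarith
      have : 0 ≤ sinh r := by linarith
      positivity)]
    have q1 : (sinh p - p) * sinh r ≤ (2 * p ^ 3) * (2 * r) := by
      have : 0 ≤ sinh p - p := by linarith
      gcongr
    have q2 : p * (sinh r - r) ≤ p * (2 * r ^ 3) := by gcongr
    have q3 : 0 ≤ p * r ^ 3 := by positivity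
    linarith only [q1, q2, q3]
  have m1 : X * Y - C ^ 2 ≤ (2 * (C + 2) + 4 * C) * (p ^ 2 + r ^ 2) := by
    have e : X * Y - C ^ 2 = (X - C) * Y + C * (Y - C) := by ring
    have q1 : X - C ≤ 2 * (p ^ 2 + r ^ 2) := by rw [hX]; linarith only [c1, hpr]
    have q2 : Y - C ≤ 4 * (p ^ 2 + r ^ 2) := by rw [hY]; linarith only [c2, sq_nonneg (p - r)]
    have q3 : Y ≤ C + 2 := by rw [hY]; nlinarith only [hr2, c2, hp2, hr, hp]
    have q4 : 0 ≤ X - C := by linarith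
    rw [e]
    calc (X - C) * Y + C * (Y - C)
        ≤ (2 * (p ^ 2 + r ^ 2)) * (C + 2) + C * (4 * (p ^ 2 + r ^ 2)) := by gcongr
      _ = _ := by ring
  have m0 : 0 ≤ X * Y - C ^ 2 := by nlinarith only [hY, hX, hC, c1', c2']
  have e : sinh p * sinh r * (X⁻¹ * Y⁻¹) - p * r / C ^ 2
      = (sinh p * sinh r - p * r) * (X⁻¹ * Y⁻¹) - p * r * ((X * Y - C ^ 2) * (X⁻¹ * Y⁻¹) / C ^ 2) := by
    field_simp
    ring
  have hinv : X⁻¹ * Y⁻¹ ≤ 1 / C ^ 2 := by
    have h1 : X⁻¹ ≤ C⁻¹ := inv_anti₀ hC hX1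
    have h2 : Y⁻¹ ≤ C⁻¹ := inv_anti₀ hC hY1
    calc X⁻¹ * Y⁻¹ ≤ C⁻¹ * C⁻¹ := by
          have := inv_pos.mpr hY0
          gcongr
      _ = 1 / C ^ 2 := by field_simp
  have hinv0 : 0 < X⁻¹ * Y⁻¹ := mul_pos (inv_pos.mpr hX0) (inv_pos.mpr hY0)
  rw [e]
  refine (abs_sub _ _).trans ?_
  rw [abs_mul, abs_of_pos hinv0, abs_of_nonneg (by positivity : (0 : ℝ) ≤ p * r * ((X * Y - C ^ 2) * (X⁻¹ * Y⁻¹) / C ^ 2))]
  have g1 : |sinh p * sinh r - p * r| * (X⁻¹ * Y⁻¹) ≤ 4 * (p * r * (p ^ 2 + r ^ 2)) * (1 / C ^ 2) := by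
    gcongr
  have g2 : p * r * ((X * Y - C ^ 2) * (X⁻¹ * Y⁻¹) / C ^ 2)
      ≤ p * r * (((2 * (C + 2) + 4 * C) * (p ^ 2 + r ^ 2)) * (1 / C ^ 2) / C ^ 2) := by
    gcongr
  calc _ ≤ 4 * (p * r * (p ^ 2 + r ^ 2)) * (1 / C ^ 2) +
      p * r * (((2 * (C + 2) + 4 * C) * (p ^ 2 + r ^ 2)) * (1 / C ^ 2) / C ^ 2) := add_le_add g1 g2
    _ = _ := by field_simp

/-- second global bound -/
lemma PK_bound2 {b : ℝ} (hb0 : 0 < b) (hb : cos (b * π) ≠ 1) :
    ∃ M, 0 ≤ M ∧ ∀ v w, 0 < v → 0 < w →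
      |PK b v w - FA b * (v * w)| ≤ M * (v * w * (v ^ 2 + w ^ 2)) := by
  have hC := CC_pos hb
  obtain ⟨M1, hM10, hM1⟩ := PK_bound1 hb0 hb
  refine ⟨(M1 + |FA b|) * (4 * b ^ 2) + b * |sin (b * π)| *
    ((4 / CC b ^ 2 + (2 * (CC b + 2) + 4 * CC b) / CC b ^ 4) * b ^ 4), by positivity, ?_⟩
  intro v w hv hw
  have hvw : 0 < v * w := by positivity
  by_cases hsm : b * v ≤ 1 / 2 ∧ b * w ≤ 1 / 2
  · have hl := loc_est (C := CC b) (p := b * v) (r := b * w)
      (X := cosh (b * (v - w)) - cos (b * π)) (Y := cosh (b * (v + w)) - cos (b * π)) hC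
      (by positivity) (by positivity) hsm.1 hsm.2
      (by unfold CC; rw [mul_sub]; ring) (by unfold CC; rw [mul_add]; ring)
    have e : PK b v w - FA b * (v * w) = b * (-sin (b * π)) *
        (sinh (b * v) * sinh (b * w) * ((cosh (b * (v - w)) - cos (b * π))⁻¹ *
          (cosh (b * (v + w)) - cos (b * π))⁻¹) - (b * v) * (b * w) / CC b ^ 2) := by
      rw [PK_eq hb]; unfold FA; ring
    rw [e, abs_mul, abs_mul, abs_neg, abs_of_pos hb0]
    calc b * |sin (b * π)| * _ ≤ b * |sin (b * π)| *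
        ((4 / CC b ^ 2 + (2 * (CC b + 2) + 4 * CC b) / CC b ^ 4) *
          (b * v * (b * w) * ((b * v) ^ 2 + (b * w) ^ 2))) := by gcongr
      _ = (b * |sin (b * π)| * ((4 / CC b ^ 2 + (2 * (CC b + 2) + 4 * CC b) / CC b ^ 4) * b ^ 4)) *
          (v * w * (v ^ 2 + w ^ 2)) := by ring
      _ ≤ _ := by
          have : 0 ≤ (M1 + |FA b|) * (4 * b ^ 2) := by positivity
          gcongr
          linarith only [this]
  · have hbig : 1 ≤ 4 * b ^ 2 * (v ^ 2 + w ^ 2) := by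
      rw [not_and_or, not_le, not_le] at hsm
      rcases hsm with h | h
      · have : (1 / 2) ^ 2 < (b * v) ^ 2 := by gcongr
        linarith only [this, sq_nonneg (b * w)]
      · have : (1 / 2) ^ 2 < (b * w) ^ 2 := by gcongr
        linarith only [this, sq_nonneg (b * v)]
    have h1 : |PK b v w - FA b * (v * w)| ≤ (M1 + |FA b|) * (v * w) := by
      calc |PK b v w - FA b * (v * w)| ≤ |PK b v w| + |FA b * (v * w)| := abs_sub _ _
        _ ≤ M1 * (v * w) + |FA b| * (v * w) := by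
            rw [abs_mul, abs_of_pos hvw]
            have := hM1 v w hv hw
            linarith
        _ = _ := by ring
    have h2 : (M1 + |FA b|) * (v * w) ≤ (M1 + |FA b|) * (4 * b ^ 2) * (v * w * (v ^ 2 + w ^ 2)) := by
      have h3 : 0 ≤ (M1 + |FA b|) * (v * w) := by positivity
      calc (M1 + |FA b|) * (v * w) = (M1 + |FA b|) * (v * w) * 1 := by ring
        _ ≤ (M1 + |FA b|) * (v * w) * (4 * b ^ 2 * (v ^ 2 + w ^ 2)) := by gcongr
        _ = _ := by ring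
    have h4 : 0 ≤ b * |sin (b * π)| *
      ((4 / CC b ^ 2 + (2 * (CC b + 2) + 4 * CC b) / CC b ^ 4) * b ^ 4) *
        (v * w * (v ^ 2 + w ^ 2)) := by positivity
    calc _ ≤ _ := h1
      _ ≤ _ := h2
      _ ≤ _ := by rw [add_mul]; linarith only [h4]

/-- radial expansion -/
lemma exp2_PK {b : ℝ} (hb : cos (b * π) ≠ 1) (x y : ℝ) :
    Exp2 (fun s => PK b (s * x) (s * y) / s ^ 2) (FA b * (x * y))
      (-(FA b * gA b / 6) * (x * y * (x ^ 2 + y ^ 2))) := by
  have hC := CC_pos hb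
  have h1 := exp2_sinh (b * x)
  have h2 := exp2_sinh (b * y)
  have h3 := (exp2_den b (x - y)).inv hC.ne'
  have h4 := (exp2_den b (x + y)).inv hC.ne'
  have h5 := ((h1.mul h2).mul (h3.mul h4)).const_mul (b * (-sin (b * π)))
  have e1 : b * (-sin (b * π)) * (b * x * (b * y) * ((CC b)⁻¹ * (CC b)⁻¹)) = FA b * (x * y) := by
    unfold FA; field_simp
  have e2 : b * (-sin (b * π)) * (((b * x) ^ 3 / 6 * (b * y) + b * x * ((b * y) ^ 3 / 6)) *
      ((CC b)⁻¹ * (CC b)⁻¹) + b * x * (b * y) *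
      (-(b ^ 2 * (x - y) ^ 2 / 2) / CC b ^ 2 * (CC b)⁻¹ +
        (CC b)⁻¹ * (-(b ^ 2 * (x + y) ^ 2 / 2) / CC b ^ 2)))
      = -(FA b * gA b / 6) * (x * y * (x ^ 2 + y ^ 2)) := by
    have e3 : gA b = b ^ 2 * (6 / CC b - 1) := rfl
    rw [e3]
    unfold FA; field_simp; ring
  rw [e1, e2] at h5
  refine h5.congr ?_
  intro s hs
  rw [PK_eq hb]
  have e4 : s * x - s * y = s * (x - y) := by ring
  have e5 : s * x + s * y = s * (x + y) := by ring
  have e6 : b * (s * x) = b * x * s := by ring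
  have e7 : b * (s * y) = b * y * s := by ring
  rw [e4, e5, e6, e7]
  field_simp

lemma FA_eq (b : ℝ) : FA b = fA b := by
  unfold FA fA CC; ring

end Pool.Agent.AEU.H12
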