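import Pool.Agent.Helper12_AEU.KKf
import Pool.Agent.Helper12_AEU.BInj

/-! helper12, AEU (MP_5b0138_an) Part III: germ of type B (vertex to side doubled). -/

namespace Pool.Agent.AEU.H12

open MeasureTheory Filter Topology Real Set

lemma half_sq_le (v : ℝ) : v ^ 2 / 2 ≤ cosh v - 1 := by
  have h1 : cosh v = cosh (2 * (v / 2)) := by congr 1; ring
  have h2 := Real.cosh_sq' (v / 2)
  rw [h1, Real.cosh_two_mul, h2]
  have h3 : (v / 2) ^ 2 ≤ sinh (v / 2) ^ 2 := by
    rcases le_total 0 (v / 2) with h | h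
    · have := Real.self_le_sinh_iff.mpr h
      gcongr
    · have := Real.sinh_le_self_iff.mpr h
      nlinarith
  nlinarith

lemma cosh_lim (x : ℝ) : Tendsto (fun s : ℝ => (cosh (s * x) - 1) / s ^ 2) (𝓝[>] 0)
    (𝓝 (x ^ 2 / 2)) := by
  have h := (exp2_cosh x).tendsto
  refine h.congr ?_
  intro s
  rw [mul_comm s x]

/-- moments of the Gaussian weight -/
noncomputable def II (k : ℕ) : ℝ := ∫ x : ℝ, rexp (-(x ^ 2 / 2)) * x ^ (2 * k)

lemma int_gauss (k : ℕ) : Integrable (fun x : ℝ => rexp (-(x ^ 2 / 2)) * x ^ (2 * k)) := by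
  have h := integrable_rpow_mul_exp_neg_mul_sq (b := 1 / 2) (by norm_num) (s := ((2 * k : ℕ) : ℝ))
    (by have : (0 : ℝ) ≤ ((2 * k : ℕ) : ℝ) := Nat.cast_nonneg _
        linarith)
  refine h.congr (Eventually.of_forall fun x => ?_)
  simp only [Real.rpow_natCast]
  rw [mul_comm]
  congr 2
  ring

lemma II_pos (k : ℕ) : 0 < II k := by
  unfold II
  rw [integral_pos_iff_support_of_nonneg]
  · have : Ioi (0 : ℝ) ⊆ Function.support fun x : ℝ => rexp (-(x ^ 2 / 2)) * x ^ (2 * k) := by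
      intro x hx
      have hx' : (0 : ℝ) < x := hx
      rw [Function.mem_support]
      positivity
    refine lt_of_lt_of_le ?_ (measure_mono this)
    simp
  · intro x
    have : 0 ≤ x ^ (2 * k) := by rw [pow_mul]; positivity
    positivity
  · exact int_gauss k

/-- one dimensional leading term -/
lemma lead1D {h : ℝ → ℝ} {M c d : ℝ} (k : ℕ) (hd : 0 < d) (hh : Measurable h)
    (hb : ∀ x, |h x| ≤ M * x ^ (2 * k))
    (hlim : ∀ x, Tendsto (fun s : ℝ => h (s * x) / s ^ (2 * k)) (𝓝[>] 0)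
      (𝓝 (c * x ^ (2 * k)))) :
    Tendsto (fun κ : ℝ => (∫ v, rexp (-(2 * κ * d * cosh v)) * h v) *
      (rexp (2 * d * κ) * κ ^ ((k : ℝ) + 1 / 2))) atTop
      (𝓝 (c * II k * (2 * d) ^ (-((k : ℝ) + 1 / 2)))) := by
  have hw := watson_leading (volume : Measure ℝ) (fun v => cosh v - 1) (fun v => v ^ 2 / 2)
    (fun v => v ^ (2 * k)) h M c k (by fun_prop) hh half_sq_le
    (by intro x s _; simp only [smul_eq_mul]; ring)
    (by intro x; exact cosh_lim x)
    (by intro x s _; simp only [smul_eq_mul]; ring)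
    hb hlim (int_gauss k)
  rw [Module.finrank_self] at hw
  have hL : Tendsto (fun κ : ℝ => 2 * d * κ) atTop atTop :=
    tendsto_id.const_mul_atTop (by positivity)
  have hw2 := (hw.comp hL).mul_const ((2 * d) ^ (-((k : ℝ) + 1 / 2)))
  have e : c * ∫ x : ℝ, rexp (-(x ^ 2 / 2)) * x ^ (2 * k) = c * II k := rfl
  rw [e] at hw2
  refine hw2.congr' ?_
  filter_upwards [eventually_gt_atTop 0] with κ hκ
  simp only [Function.comp]
  have hLp : 0 < 2 * d * κ := by positivity
  have e1 : (√(2 * d * κ)) ^ (2 * k + 1) = (2 * d * κ) ^ ((k : ℝ) + 1 / 2) := by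
    rw [Real.sqrt_eq_rpow, ← Real.rpow_natCast, ← Real.rpow_mul hLp.le]
    congr 1
    push_cast
    ring
  have e2 : (2 * d * κ) ^ ((k : ℝ) + 1 / 2) = (2 * d) ^ ((k : ℝ) + 1 / 2) * κ ^ ((k : ℝ) + 1 / 2) :=
    Real.mul_rpow (by positivity) hκ.le
  have e3 : (2 * d) ^ ((k : ℝ) + 1 / 2) * (2 * d) ^ (-((k : ℝ) + 1 / 2)) = 1 := by
    rw [← Real.rpow_add (by positivity), add_neg_cancel, Real.rpow_zero]
  have e4 : ∫ v, rexp (-(2 * κ * d * cosh v)) * h v
      = rexp (-(2 * d * κ)) * ∫ v, rexp (-(2 * d * κ * (cosh v - 1))) * h v := by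
    rw [← integral_const_mul]
    congr 1
    ext v
    rw [← mul_assoc, ← Real.exp_add]
    congr 2
    ring
  have e5 : rexp (-(2 * d * κ)) * rexp (2 * d * κ) = 1 := by
    rw [← Real.exp_add, neg_add_cancel, Real.exp_zero]
  rw [e4, e1, e2]
  calc (2 * d) ^ ((k : ℝ) + 1 / 2) * κ ^ ((k : ℝ) + 1 / 2) *
        (∫ x, rexp (-(2 * d * κ * (cosh x - 1))) * h x) * (2 * d) ^ (-((k : ℝ) + 1 / 2))
      = ((2 * d) ^ ((k : ℝ) + 1 / 2) * (2 * d) ^ (-((k : ℝ) + 1 / 2))) *
        (κ ^ ((k : ℝ) + 1 / 2) * (∫ x, rexp (-(2 * d * κ * (cosh x - 1))) * h x)) := by ring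
    _ = (rexp (-(2 * d * κ)) * rexp (2 * d * κ)) *
        (κ ^ ((k : ℝ) + 1 / 2) * (∫ x, rexp (-(2 * d * κ * (cosh x - 1))) * h x)) := by
          rw [e3, e5]
    _ = _ := by ring

/-- the constant part of the density of type B -/
noncomputable def Ceta (b η : ℝ) : ℝ := b / 2 * (-sin (b * π)) / (cos (2 * b * η) - cos (b * π))

/-- the germ of type B -/
noncomputable def TB (d b η κ : ℝ) : ℝ :=
  1 / π * ∫ v : ℝ, rexp (-(2 * κ * d * cosh v)) * (Ceta b η - KKf b (2 * v))

lemma measurable_KKf (b : ℝ) : Measurable (KKf b) := by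
  unfold KKf
  fun_prop

lemma KKf_bdd {b : ℝ} (hb : cos (b * π) ≠ 1) : ∃ M, ∀ u, |KKf b u| ≤ M := by
  have hC := CC_pos hb
  refine ⟨|b / 2 * (-sin (b * π))| / CC b, fun u => ?_⟩
  unfold KKf
  have hd := den_pos (b := b) u
  rw [abs_div, abs_of_pos (hC.trans_le hd)]
  gcongr

lemma KKf_lim0 {b : ℝ} (hb : cos (b * π) ≠ 1) (x : ℝ) :
    Tendsto (fun s : ℝ => KKf b (s * x)) (𝓝[>] 0) (𝓝 (KKf b 0)) := by
  have hC := CC_pos hb
  have h1 : ContinuousAt (fun s : ℝ => KKf b (s * x)) 0 := by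
    unfold KKf
    have : ∀ s : ℝ, cosh (b * (s * x)) - cos (b * π) ≠ 0 := fun s =>
      (hC.trans_le (den_pos _)).ne'
    fun_prop (disch := exact this _)
  have h2 : Tendsto (fun s : ℝ => KKf b (s * x)) (𝓝 0) (𝓝 (KKf b (0 * x))) := h1
  rw [zero_mul] at h2
  exact h2.mono_left nhdsWithin_le_nhds

lemma cos_lt_one_of_mem {b η : ℝ} (hb : 0 < b) (hη : η ∈ Ioo 0 (π / b)) :
    cos (2 * b * η) ≠ 1 := by
  intro h
  rw [Real.cos_eq_one_iff_of_lt_of_lt] at h
  · have : 0 < 2 * b * η := by have := hη.1; positivity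
    linarith
  · have : 0 < 2 * b * η := by have := hη.1; positivity
    have := pi_pos; linarith
  · have h1 := mul_lt_mul_of_pos_left hη.2 (show 0 < 2 * b by positivity)
    have e : 2 * b * (π / b) = 2 * π := by field_simp
    linarith

lemma c0_ne {b η : ℝ} (hb : 0 < b) (hb1 : cos (b * π) ≠ 1) (hs : sin (b * π) ≠ 0)
    (hη : η ∈ Ioo 0 (π / b)) (hcη : cos (b * π) ≠ cos (2 * b * η)) :
    Ceta b η - KKf b 0 ≠ 0 := by
  have h1 := cos_lt_one_of_mem hb hη
  unfold Ceta KKf
  rw [mul_zero, cosh_zero]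
  have h2 : cos (2 * b * η) - cos (b * π) ≠ 0 := sub_ne_zero.mpr (Ne.symm hcη)
  have h3 : 1 - cos (b * π) ≠ 0 := sub_ne_zero.mpr (Ne.symm hb1)
  have e : b / 2 * -sin (b * π) / (cos (2 * b * η) - cos (b * π)) -
      b / 2 * -sin (b * π) / (1 - cos (b * π))
      = b / 2 * -sin (b * π) * (1 - cos (2 * b * η)) /
        ((cos (2 * b * η) - cos (b * π)) * (1 - cos (b * π))) := by
    rw [div_sub_div _ _ h2 h3]
    congr 1
    ring
  rw [e]
  apply div_ne_zero
  · apply mul_ne_zero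
    · apply mul_ne_zero
      · positivity
      · exact neg_ne_zero.mpr hs
    · exact sub_ne_zero.mpr (Ne.symm h1)
  · exact mul_ne_zero h2 h3

/-- leading term of type B -/
lemma lead_TB {d b : ℝ} (η : ℝ) (hd : 0 < d) (hb1 : cos (b * π) ≠ 1) :
    Lead (TB d b η) (2 * d) (1 / 2)
      (1 / π * ((Ceta b η - KKf b 0) * II 0 * (2 * d) ^ (-(1 / 2 : ℝ)))) := by
  obtain ⟨M, hM⟩ := KKf_bdd hb1
  have h := lead1D (h := fun v => Ceta b η - KKf b (2 * v)) (M := |Ceta b η| + M)
    (c := Ceta b η - KKf b 0) (d := d) 0 hd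
    (by have := measurable_KKf b; fun_prop)
    (by intro x
        simp only [mul_zero, pow_zero, mul_one]
        calc |Ceta b η - KKf b (2 * x)| ≤ |Ceta b η| + |KKf b (2 * x)| := abs_sub _ _
          _ ≤ _ := by have := hM (2 * x); linarith)
    (by intro x
        simp only [mul_zero, pow_zero, mul_one, div_one]
        refine Tendsto.const_sub _ ?_
        have := KKf_lim0 hb1 (2 * x)
        refine this.congr ?_
        intro s; congr 1; ring)
  have h2 := h.const_mul (1 / π)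
  unfold Lead
  simp only [Nat.cast_zero, zero_add] at h2
  refine h2.congr ?_
  intro κ
  unfold TB
  ring

lemma measurable_Kdiff (b b' : ℝ) (c : ℝ) :
    Measurable fun v : ℝ => c - KKf b (2 * v) + KKf b' (2 * v) := by
  have := measurable_KKf b
  have := measurable_KKf b'
  fun_prop

lemma int_TB {d b κ : ℝ} (η : ℝ) (hd : 0 < d) (hκ : 0 < κ) (hb1 : cos (b * π) ≠ 1) :
    Integrable fun v : ℝ => rexp (-(2 * κ * d * cosh v)) * (Ceta b η - KKf b (2 * v)) := by
  obtain ⟨M, hM⟩ := KKf_bdd hb1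
  have hL : 0 < κ * d := by positivity
  have hg : Integrable fun v : ℝ => rexp (-(κ * d) * v ^ 2) * (|Ceta b η| + M) :=
    (integrable_exp_neg_mul_sq hL).mul_const _
  refine hg.mono' ?_ ?_
  · have := measurable_KKf b
    exact (Measurable.mul (by fun_prop) (by fun_prop)).aestronglyMeasurable
  · refine Eventually.of_forall fun v => ?_
    rw [norm_mul, Real.norm_eq_abs, Real.norm_eq_abs, abs_of_pos (exp_pos _)]
    have h1 : |Ceta b η - KKf b (2 * v)| ≤ |Ceta b η| + M := by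
      calc |Ceta b η - KKf b (2 * v)| ≤ |Ceta b η| + |KKf b (2 * v)| := abs_sub _ _
        _ ≤ _ := by have := hM (2 * v); linarith
    have h2 : -(2 * κ * d * cosh v) ≤ -(κ * d) * v ^ 2 := by
      have := half_sq_le v
      nlinarith
    gcongr

/-- the difference of two germs of type B of the same length -/
lemma TB_sub {d b b' κ : ℝ} (η η' : ℝ) (hd : 0 < d) (hκ : 0 < κ) (hb1 : cos (b * π) ≠ 1)
    (hb1' : cos (b' * π) ≠ 1) : TB d b η κ - TB d b' η' κ
      = 1 / π * ∫ v : ℝ, rexp (-(2 * κ * d * cosh v)) *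
        ((Ceta b η - Ceta b' η') - KKf b (2 * v) + KKf b' (2 * v)) := by
  unfold TB
  rw [← mul_sub, ← integral_sub (int_TB η hd hκ hb1) (int_TB η' hd hκ hb1')]
  congr 2
  ext v
  ring

/-- **Inversion of the germ of type B.** -/
theorem germB {d b η d' b' η' C δ : ℝ} (hd : 0 < d) (hd' : 0 < d') (hb : 0 < b) (hb' : 0 < b')
    (hs : sin (b * π) ≠ 0) (hs' : sin (b' * π) ≠ 0)
    (hη : η ∈ Ioo 0 (π / b)) (hη' : η' ∈ Ioo 0 (π / b'))
    (hcη : cos (b * π) ≠ cos (2 * b * η)) (hcη' : cos (b' * π) ≠ cos (2 * b' * η'))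
    (hδ : 0 < δ)
    (hT : ∀ᶠ κ in atTop, |TB d b η κ - TB d' b' η' κ| ≤ C * rexp (-((2 * d + δ) * κ))) :
    d = d' ∧ b = b' ∧ (η' = η ∨ η' = π / b - η) := by
  have ne1 : ∀ {x : ℝ}, sin (x * π) ≠ 0 → cos (x * π) ≠ 1 := by
    intro x hx h
    have := sin_sq_add_cos_sq (x * π)
    rw [h] at this
    apply hx
    have : sin (x * π) ^ 2 = 0 := by linarith
    exact pow_eq_zero_iff two_ne_zero |>.mp this
  have hb1 := ne1 hs
  have hb1' := ne1 hs'
  have hp := pi_pos
  have n0 := c0_ne hb hb1 hs hη hcη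
  have n0' := c0_ne hb' hb1' hs' hη' hcη'
  have I0 := (II_pos 0).ne'
  have pw : ∀ {x : ℝ}, 0 < x → (2 * x) ^ (-(1 / 2 : ℝ)) ≠ 0 := fun {x} hx =>
    (Real.rpow_pos_of_pos (by positivity) _).ne'
  have nz : ∀ {x c : ℝ}, 0 < x → c ≠ 0 → 1 / π * (c * II 0 * (2 * x) ^ (-(1 / 2 : ℝ))) ≠ 0 := by
    intro x c hx hc
    exact mul_ne_zero (by positivity) (mul_ne_zero (mul_ne_zero hc I0) (pw hx))
  obtain ⟨hLL, -, hcc⟩ := (lead_TB η hd hb1).unique (lead_TB η' hd' hb1') (nz hd n0) (nz hd' n0')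
    hδ hT
  have hdd : d = d' := by linarith
  subst hdd
  have hc0 : Ceta b η - KKf b 0 = Ceta b' η' - KKf b' 0 := by
    have h1 := mul_left_cancel₀ (show (1 / π : ℝ) ≠ 0 by positivity) hcc
    have h2 := mul_right_cancel₀ (pw hd) h1
    exact mul_right_cancel₀ I0 h2
  -- the difference
  obtain ⟨h, hh⟩ : ∃ h : ℝ → ℝ, h = fun v => (Ceta b η - Ceta b' η') - KKf b (2 * v) + KKf b' (2 * v) :=
    ⟨_, rfl⟩
  have hmeas : Measurable h := by rw [hh]; exact measurable_Kdiff b b' _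
  have hzero : ∀ p : ℝ, Tendsto (fun κ : ℝ => (∫ v, rexp (-(2 * κ * d * cosh v)) * h v) *
      (rexp (2 * d * κ) * κ ^ p)) atTop (𝓝 0) := by
    intro p
    have h1 := (small_of_bound hδ hT le_rfl p).const_mul π
    rw [mul_zero] at h1
    refine h1.congr' ?_
    filter_upwards [eventually_gt_atTop 0] with κ hκ
    rw [TB_sub η η' hd hκ hb1 hb1', hh]
    field_simp
  -- first step
  have hk2 : k2 b = k2 b' := by
    obtain ⟨M, hM0, hM⟩ := KKf_bound2 hb1
    obtain ⟨M', hM0', hM'⟩ := KKf_bound2 hb1'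
    have hl := lead1D (h := h) (M := 4 * (M + M')) (c := -2 * (k2 b - k2 b')) (d := d) 1 hd hmeas
      (by intro x
          rw [hh]
          have e : Ceta b η - Ceta b' η' - KKf b (2 * x) + KKf b' (2 * x)
              = -(KKf b (2 * x) - KKf b 0) + (KKf b' (2 * x) - KKf b' 0) := by linarith
          simp only [e]
          calc |-(KKf b (2 * x) - KKf b 0) + (KKf b' (2 * x) - KKf b' 0)|
              ≤ |-(KKf b (2 * x) - KKf b 0)| + |KKf b' (2 * x) - KKf b' 0| := abs_add_le _ _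
            _ ≤ M * (2 * x) ^ 2 + M' * (2 * x) ^ 2 := by
                rw [abs_neg]
                exact add_le_add (hM _) (hM' _)
            _ = _ := by ring)
      (by intro x
          have t1 := (exp2_KKf hb1 (2 * x)).tendsto
          have t2 := (exp2_KKf hb1' (2 * x)).tendsto
          have t3 := t2.sub t1
          have e1 : k2 b' / 2 * (2 * x) ^ 2 - k2 b / 2 * (2 * x) ^ 2
              = -2 * (k2 b - k2 b') * x ^ (2 * 1) := by ring
          rw [e1] at t3
          refine t3.congr ?_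
          intro s
          rw [hh]
          have e2 : s * (2 * x) = 2 * (s * x) := by ring
          simp only [e2, mul_one]
          rw [← sub_div]
          congr 1
          linarith)
    have hu := tendsto_nhds_unique hl (hzero _)
    have hne : II 1 * (2 * d) ^ (-(((1 : ℕ) : ℝ) + 1 / 2)) ≠ 0 :=
      mul_ne_zero (II_pos 1).ne' (Real.rpow_pos_of_pos (by positivity) _).ne'
    rw [mul_assoc] at hu
    rcases mul_eq_zero.mp hu with h1 | h1
    · linarith
    · exact absurd h1 hne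
  -- second step
  have hk4 : k4 b = k4 b' := by
    obtain ⟨M, hM0, hM⟩ := KKf_bound4 hb1
    obtain ⟨M', hM0', hM'⟩ := KKf_bound4 hb1'
    have hl := lead1D (h := h) (M := 16 * (M + M')) (c := -(16 / 24) * (k4 b - k4 b')) (d := d)
      2 hd hmeas
      (by intro x
          rw [hh]
          have e : Ceta b η - Ceta b' η' - KKf b (2 * x) + KKf b' (2 * x)
              = -(KKf b (2 * x) - KKf b 0 - k2 b / 2 * (2 * x) ^ 2) +
                (KKf b' (2 * x) - KKf b' 0 - k2 b' / 2 * (2 * x) ^ 2) := by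
            rw [hk2]; linarith
          simp only [e]
          calc |-(KKf b (2 * x) - KKf b 0 - k2 b / 2 * (2 * x) ^ 2) +
                (KKf b' (2 * x) - KKf b' 0 - k2 b' / 2 * (2 * x) ^ 2)|
              ≤ |-(KKf b (2 * x) - KKf b 0 - k2 b / 2 * (2 * x) ^ 2)| +
                |KKf b' (2 * x) - KKf b' 0 - k2 b' / 2 * (2 * x) ^ 2| := abs_add_le _ _
            _ ≤ M * (2 * x) ^ 4 + M' * (2 * x) ^ 4 := by
                rw [abs_neg]
                exact add_le_add (hM _) (hM' _)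
            _ = _ := by ring)
      (by intro x
          have t1 : Tendsto _ _ _ := exp2_KKf hb1 (2 * x)
          have t2 : Tendsto _ _ _ := exp2_KKf hb1' (2 * x)
          have t3 := t2.sub t1
          have e1 : k4 b' / 24 * (2 * x) ^ 4 - k4 b / 24 * (2 * x) ^ 4
              = -(16 / 24) * (k4 b - k4 b') * x ^ (2 * 2) := by ring
          rw [e1] at t3
          refine t3.congr' ?_
          filter_upwards [self_mem_nhdsWithin] with s hs
          have hs' : (0 : ℝ) < s := hs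
          rw [hh]
          have e2 : s * (2 * x) = 2 * (s * x) := by ring
          simp only [e2]
          rw [hk2]
          field_simp
          linear_combination (-(s ^ 4)) * hc0)
    have hu := tendsto_nhds_unique hl (hzero _)
    have hne : II 2 * (2 * d) ^ (-(((2 : ℕ) : ℝ) + 1 / 2)) ≠ 0 :=
      mul_ne_zero (II_pos 2).ne' (Real.rpow_pos_of_pos (by positivity) _).ne'
    rw [mul_assoc] at hu
    rcases mul_eq_zero.mp hu with h1 | h1
    · linarith
    · exact absurd h1 hne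
  have hfB : fB b = fB b' := by
    have e : ∀ x : ℝ, fB x = 2 * k2 x := by
      intro x; unfold fB k2 CC
      rw [mul_div_assoc', mul_div_mul_left _ _ (two_ne_zero)]
    rw [e, e, hk2]
  have hk2ne : k2 b ≠ 0 := by
    unfold k2
    have := CC_pos hb1
    exact div_ne_zero (mul_ne_zero (by positivity) hs) (by positivity)
  have hgB : gB b = gB b' := by
    have e : ∀ x : ℝ, k4 x = -(gB x) * k2 x := by
      intro x; unfold k4 gB CC; ring
    rw [e, e, ← hk2] at hk4
    have := mul_right_cancel₀ hk2ne hk4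
    linarith
  have hbb := b_inj hb hb' hb1 hb1' hfB hgB
  subst hbb
  refine ⟨rfl, rfl, ?_⟩
  have hCe : Ceta b η = Ceta b η' := by linarith
  have e : ∀ x : ℝ, Ceta b x = cB b x / 2 := by
    intro x
    unfold Ceta cB
    rw [← neg_sub (cos (b * π)) (cos (2 * b * x)), mul_neg, neg_div_neg_eq]
    ring
  rw [e, e] at hCe
  exact b_dir hb hs hη hη' hcη hcη' (by linarith)

end Pool.Agent.AEU.H12
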