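import Pool.Agent.Helper12_AEU.Fln

/-! helper12, AEU (MP_5b0138_an) Part III, FLUX: the image kernel. -/

namespace Pool.Agent.AEU.H12

open MeasureTheory Filter Topology Real Set Pool.Agent.H60K

lemma kit_pw {x : ℝ} (hx : 0 < x) (τ : ℝ) : pw x 0 τ = ((Kit τ x : ℝ) : ℂ) := by
  have h := pw_polar (κ := 1) (z := (x : ℂ)) one_pos (by simpa using hx) τ
  simp only [Complex.ofReal_re, Complex.ofReal_im, one_mul, mul_zero] at h
  rw [Complex.arg_ofReal_of_nonneg hx.le, zero_mul, neg_zero, exp_zero, mul_one,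
    Complex.norm_real, Real.norm_eq_abs, abs_of_pos hx] at h
  exact h

lemma kit_bound {x φ : ℝ} (hx : 0 < x) (h0 : 0 ≤ φ) (hφ : φ < π / 2) (τ : ℝ) :
    |Kit τ x| ≤ rexp (-(φ * |τ|)) * (E0 (x * cos φ) / 2) := by
  have hc : 0 < cos φ := cos_pos_of_mem_Ioo ⟨by linarith [pi_pos], hφ⟩
  have e : |Kit τ x| = ‖pw x 0 τ‖ := by
    rw [kit_pw hx, Complex.norm_real, Real.norm_eq_abs]
  rw [e]
  rcases le_total 0 τ with h | h
  · have := pw_bound kitShift (τ := τ) (s := 0) (φ := φ) hx (by rwa [abs_of_nonneg h0])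
      (by rw [zero_mul, add_zero]; positivity)
    rw [abs_of_nonneg h]
    rwa [zero_mul, add_zero] at this
  · have := pw_bound kitShift (τ := τ) (s := 0) (φ := -φ) hx (by rwa [abs_neg, abs_of_nonneg h0])
      (by rw [zero_mul, add_zero, cos_neg]; positivity)
    rw [zero_mul, add_zero, cos_neg] at this
    rw [abs_of_nonpos h]
    have e2 : -(-φ * τ) = -(φ * -τ) := by ring
    rwa [e2] at this

lemma kit_zero_nonneg_le {x : ℝ} (hx : 0 < x) (τ : ℝ) : |Kit τ x| ≤ E0 x / 2 := by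
  have h := kit_bound hx le_rfl (by positivity) τ
  rwa [zero_mul, neg_zero, exp_zero, one_mul, cos_zero, mul_one] at h

lemma kit_meas_left {x : ℝ} (hx : 0 < x) : Measurable fun τ : ℝ => Kit τ x := by
  have h : (fun τ : ℝ => Kit τ x) = fun τ => (pw x 0 τ).re := by
    ext τ
    rw [kit_pw hx, Complex.ofReal_re]
  rw [h]
  exact Complex.measurable_re.comp (measurable_pw.comp (by fun_prop : Measurable fun τ : ℝ =>
        ((x, 0, τ) : ℝ × ℝ × ℝ)))

/-- integrability in the formula of Kontorovich and Lebedev -/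
lemma kk_int {x y ψ : ℝ} (hx : 0 < x) (hy : 0 < y) (hψ : |ψ| < π) :
    Integrable fun τ : ℝ => Kit τ x * Kit τ y * rexp (ψ * τ) := by
  set φ := (|ψ| + π) / 4 with hφ
  have h0 : 0 ≤ φ := by positivity
  have h1 : φ < π / 2 := by rw [hφ]; linarith
  have h2 : |ψ| < 2 * φ := by rw [hφ]; linarith
  refine ((int_exp_neg_abs (a := 2 * φ - |ψ|) (by linarith)).const_mul
    ((E0 (x * cos φ) / 2) * (E0 (y * cos φ) / 2))).mono' ?_ ?_
  · apply Measurable.aestronglyMeasurable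
    exact ((kit_meas_left hx).mul (kit_meas_left hy)).mul (by fun_prop)
  · refine Eventually.of_forall fun τ => ?_
    rw [Real.norm_eq_abs, abs_mul, abs_mul, abs_of_pos (exp_pos _)]
    have b1 := kit_bound hx h0 h1 τ
    have b2 := kit_bound hy h0 h1 τ
    have b3 : rexp (ψ * τ) ≤ rexp (|ψ| * |τ|) := by
      apply exp_le_exp.mpr
      rw [← abs_mul]
      exact le_abs_self _
    have n1 := E0_nonneg (x * cos φ)
    have n2 := E0_nonneg (y * cos φ)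
    calc |Kit τ x| * |Kit τ y| * rexp (ψ * τ)
        ≤ (rexp (-(φ * |τ|)) * (E0 (x * cos φ) / 2)) * (rexp (-(φ * |τ|)) * (E0 (y * cos φ) / 2)) *
          rexp (|ψ| * |τ|) := by gcongr
      _ = (E0 (x * cos φ) / 2) * (E0 (y * cos φ) / 2) *
          (rexp (-(φ * |τ|)) * rexp (-(φ * |τ|)) * rexp (|ψ| * |τ|)) := by ring
      _ = _ := by
        rw [← Real.exp_add, ← Real.exp_add]
        congr 2
        ring

lemma integral_line_eq' {F : ℝ → ℝ} (hF : Integrable F) :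
    ∫ τ, F τ = ∫ τ in Ioi (0 : ℝ), (F τ + F (-τ)) := by
  have h1 : ∫ τ in Iic (0 : ℝ), F τ = ∫ τ in Ioi (0 : ℝ), F (-τ) := by
    have := integral_comp_neg_Ioi (0 : ℝ) F
    rw [neg_zero] at this
    exact this.symm
  have h2 : IntegrableOn (fun τ => F (-τ)) (Ioi 0) := hF.comp_neg.integrableOn
  rw [integral_add hF.integrableOn h2, ← h1, add_comm]
  have := intervalIntegral.integral_Iic_add_Ioi (b := (0 : ℝ)) hF.integrableOn hF.integrableOn
  exact this.symm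

lemma kk_cosh_int {x y ψ : ℝ} (hx : 0 < x) (hy : 0 < y) (hψ : |ψ| < π) :
    IntegrableOn (fun τ : ℝ => Kit τ x * Kit τ y * cosh (ψ * τ)) (Ioi 0) := by
  have h1 := kk_int hx hy hψ
  have h2 := kk_int (ψ := -ψ) hx hy (by rwa [abs_neg])
  have h := ((h1.add h2).div_const 2).integrableOn (s := Ioi 0)
  refine h.congr_fun (fun τ _ => ?_) measurableSet_Ioi
  simp only [Pi.add_apply]
  rw [cosh_eq]
  have : -ψ * τ = -(ψ * τ) := by ring
  rw [this]
  ring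

/-- the formula on the half-line -/
lemma klf_half {x y ψ : ℝ} (hx : 0 < x) (hy : 0 < y) (hψ : |ψ| < π) :
    ∫ τ in Ioi (0 : ℝ), Kit τ x * Kit τ y * cosh (ψ * τ) =
      π / 2 * Kit 0 (√(x ^ 2 + y ^ 2 + 2 * x * y * cos ψ)) := by
  have h := H38KL.klf hx hy hψ
  have h1 := kk_int hx hy hψ
  have h2 := integral_line_eq' h1
  have h3 : ∫ τ in Ioi (0 : ℝ), (Kit τ x * Kit τ y * rexp (ψ * τ) +
      Kit (-τ) x * Kit (-τ) y * rexp (ψ * -τ)) =
      2 * ∫ τ in Ioi (0 : ℝ), Kit τ x * Kit τ y * cosh (ψ * τ) := by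
    rw [← integral_const_mul]
    congr 1
    ext τ
    rw [Kit_neg', Kit_neg', cosh_eq]
    have : ψ * -τ = -(ψ * τ) := by ring
    rw [this]
    ring
  have h4 : ∫ τ : ℝ, Kit τ x * Kit τ y * rexp (ψ * τ) =
      π * Kit 0 (√(x ^ 2 + y ^ 2 + 2 * x * y * cos ψ)) := h
  rw [h2, h3] at h4
  linarith

lemma norm_rot (φ : ℝ) (z x : ℂ) :
    ‖Complex.exp ((φ : ℝ) * Complex.I) * z + Complex.exp (-((φ : ℝ) * Complex.I)) * x‖ =
      √(‖z‖ ^ 2 + ‖x‖ ^ 2 + 2 * ‖z‖ * ‖x‖ * cos (z.arg - x.arg + 2 * φ)) := by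
  rw [← Real.sqrt_sq (norm_nonneg (Complex.exp ((φ : ℝ) * Complex.I) * z +
    Complex.exp (-((φ : ℝ) * Complex.I)) * x)), Complex.sq_norm]
  congr 1
  have e1 : Complex.exp (-((φ : ℝ) * Complex.I)) = Complex.exp (((-φ : ℝ) : ℂ) * Complex.I) := by
    congr 1
    push_cast
    ring
  rw [e1, Complex.normSq_apply]
  have hz1 := Complex.norm_mul_cos_arg z
  have hz2 := Complex.norm_mul_sin_arg z
  have hx1 := Complex.norm_mul_cos_arg x
  have hx2 := Complex.norm_mul_sin_arg x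
  rw [Complex.add_re, Complex.add_im, Complex.mul_re, Complex.mul_re, Complex.mul_im,
    Complex.mul_im, Complex.exp_ofReal_mul_I_re, Complex.exp_ofReal_mul_I_re,
    Complex.exp_ofReal_mul_I_im, Complex.exp_ofReal_mul_I_im, cos_neg, sin_neg]
  rw [← hz1, ← hz2, ← hx1, ← hx2, cos_add, cos_sub, sin_sub, cos_two_mul', sin_two_mul]
  set a := cos φ
  set b := sin φ
  have hab : b ^ 2 + a ^ 2 = 1 := sin_sq_add_cos_sq φ
  set p := cos z.arg
  set q := sin z.arg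
  have hpq : q ^ 2 + p ^ 2 = 1 := sin_sq_add_cos_sq z.arg
  set s := cos x.arg
  set t := sin x.arg
  have hst : t ^ 2 + s ^ 2 = 1 := sin_sq_add_cos_sq x.arg
  linear_combination (‖z‖ ^ 2 * (q ^ 2 + p ^ 2) + ‖x‖ ^ 2 * (t ^ 2 + s ^ 2)) * hab +
    ‖z‖ ^ 2 * hpq + ‖x‖ ^ 2 * hst

/-- the image kernel -/
noncomputable def IK (φ κ : ℝ) (z x : ℂ) : ℝ :=
  Kit 0 (κ * ‖Complex.exp ((φ : ℝ) * Complex.I) * z + Complex.exp (-((φ : ℝ) * Complex.I)) * x‖) +
    Kit 0 (κ * ‖Complex.exp (-((φ : ℝ) * Complex.I)) * z + Complex.exp ((φ : ℝ) * Complex.I) * x‖)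

lemma norm_rot' (φ : ℝ) (z x : ℂ) :
    ‖Complex.exp (-((φ : ℝ) * Complex.I)) * z + Complex.exp ((φ : ℝ) * Complex.I) * x‖ =
      √(‖z‖ ^ 2 + ‖x‖ ^ 2 + 2 * ‖z‖ * ‖x‖ * cos (z.arg - x.arg - 2 * φ)) := by
  have h := norm_rot (-φ) z x
  have e1 : (((-φ : ℝ) : ℂ) * Complex.I) = -((φ : ℂ) * Complex.I) := by
    push_cast
    ring
  rw [e1, neg_neg] at h
  rw [h]
  congr 5
  ring

lemma kappa_sqrt {κ r r' c : ℝ} (hκ : 0 < κ) :
    √((κ * r) ^ 2 + (κ * r') ^ 2 + 2 * (κ * r) * (κ * r') * c) =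
      κ * √(r ^ 2 + r' ^ 2 + 2 * r * r' * c) := by
  have : (κ * r) ^ 2 + (κ * r') ^ 2 + 2 * (κ * r) * (κ * r') * c =
      κ ^ 2 * (r ^ 2 + r' ^ 2 + 2 * r * r' * c) := by ring
  rw [this, Real.sqrt_mul (sq_nonneg κ), Real.sqrt_sq hκ.le]

/-- the integral of the image part -/
lemma img_tau {φ κ : ℝ} (hκ : 0 < κ) {z x : ℂ} (hz : z ≠ 0) (hx : x ≠ 0) (hφ0 : 0 ≤ φ)
    (h : |z.arg - x.arg| + 2 * φ < π) :
    IntegrableOn (fun τ : ℝ => Kit τ (κ * ‖z‖) * Kit τ (κ * ‖x‖) *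
      (cosh (2 * φ * τ) * cosh ((z.arg - x.arg) * τ))) (Ioi 0) ∧
    ∫ τ in Ioi (0 : ℝ), Kit τ (κ * ‖z‖) * Kit τ (κ * ‖x‖) *
      (cosh (2 * φ * τ) * cosh ((z.arg - x.arg) * τ)) = π / 4 * IK φ κ z x := by
  have hz' : 0 < κ * ‖z‖ := by have := norm_pos_iff.mpr hz; positivity
  have hx' : 0 < κ * ‖x‖ := by have := norm_pos_iff.mpr hx; positivity
  have a1 : |z.arg - x.arg + 2 * φ| < π := by
    refine (abs_add_le _ _).trans_lt ?_
    rwa [abs_of_nonneg (by positivity : 0 ≤ 2 * φ)]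
  have a2 : |z.arg - x.arg - 2 * φ| < π := by
    refine (abs_sub _ _).trans_lt ?_
    rwa [abs_of_nonneg (by positivity : 0 ≤ 2 * φ)]
  have i1 := kk_cosh_int hz' hx' a1
  have i2 := kk_cosh_int hz' hx' a2
  have e : ∀ τ : ℝ, Kit τ (κ * ‖z‖) * Kit τ (κ * ‖x‖) *
      (cosh (2 * φ * τ) * cosh ((z.arg - x.arg) * τ)) =
      (Kit τ (κ * ‖z‖) * Kit τ (κ * ‖x‖) * cosh ((z.arg - x.arg + 2 * φ) * τ) +
      Kit τ (κ * ‖z‖) * Kit τ (κ * ‖x‖) * cosh ((z.arg - x.arg - 2 * φ) * τ)) / 2 := by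
    intro τ
    have g1 : cosh ((z.arg - x.arg + 2 * φ) * τ) = cosh ((z.arg - x.arg) * τ) * cosh (2 * φ * τ) +
        sinh ((z.arg - x.arg) * τ) * sinh (2 * φ * τ) := by
      rw [← cosh_add]
      congr 1
      ring
    have g2 : cosh ((z.arg - x.arg - 2 * φ) * τ) = cosh ((z.arg - x.arg) * τ) * cosh (2 * φ * τ) -
        sinh ((z.arg - x.arg) * τ) * sinh (2 * φ * τ) := by
      rw [← cosh_sub]
      congr 1
      ring
    rw [g1, g2]
    ring
  have f1 := klf_half hz' hx' a1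
  have f2 := klf_half hz' hx' a2
  rw [kappa_sqrt hκ] at f1 f2
  constructor
  · simp_rw [e]
    exact (i1.add i2).div_const 2
  · simp_rw [e]
    rw [integral_div, integral_add i1 i2, f1, f2]
    unfold IK
    rw [norm_rot, norm_rot']
    ring

end Pool.Agent.AEU.H12
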