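import Pool.Agent.Helper12_AEU.Watson

/-! helper12, AEU (MP_5b0138_an) Part III: the diffraction kernel, its expansions and bounds. -/

namespace Pool.Agent.AEU.H12

open MeasureTheory Filter Topology Real Set

/-- the diffraction kernel (closed form), `b = π/α` -/
noncomputable def KKf (b u : ℝ) : ℝ := b / 2 * (-sin (b * π)) / (cosh (b * u) - cos (b * π))

/-- `1 - cos (bπ)` -/
noncomputable def CC (b : ℝ) : ℝ := 1 - cos (b * π)

lemma CC_pos {b : ℝ} (hb : cos (b * π) ≠ 1) : 0 < CC b := by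
  unfold CC
  rcases (cos_le_one (b * π)).lt_or_eq with h | h
  · linarith
  · exact absurd h hb

lemma CC_le (b : ℝ) : CC b ≤ 2 := by
  unfold CC
  have := neg_one_le_cos (b * π); linarith

lemma den_pos {b : ℝ} (u : ℝ) : CC b ≤ cosh (b * u) - cos (b * π) := by
  unfold CC
  have := one_le_cosh (b * u); linarith

/-- `|cosh y - 1 - y²/2 - y⁴/24| ≤ y⁶` for `|y| ≤ 1` -/
lemma cosh_taylor {y : ℝ} (hy : |y| ≤ 1) : |cosh y - 1 - y ^ 2 / 2 - y ^ 4 / 24| ≤ y ^ 6 := by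
  have h1 := Real.exp_bound hy (n := 6) (by norm_num)
  have h2 := Real.exp_bound (x := -y) (by rwa [abs_neg]) (n := 6) (by norm_num)
  simp only [Finset.sum_range_succ, Finset.sum_range_zero, Nat.factorial] at h1 h2
  norm_num at h1 h2
  rw [Real.cosh_eq]
  have h3 : |y| ^ 6 = y ^ 6 := by
    rw [← abs_pow]; exact abs_of_nonneg (by positivity)
  rw [h3] at h1 h2
  have h4 : 0 ≤ y ^ 6 := by positivity
  rw [abs_le] at h1 h2 ⊢
  constructor <;> linarith only [h1.1, h1.2, h2.1, h2.2]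

lemma sinh_taylor {y : ℝ} (hy : |y| ≤ 1) : |sinh y - y - y ^ 3 / 6| ≤ |y| ^ 5 := by
  have h1 := Real.exp_bound hy (n := 5) (by norm_num)
  have h2 := Real.exp_bound (x := -y) (by rwa [abs_neg]) (n := 5) (by norm_num)
  simp only [Finset.sum_range_succ, Finset.sum_range_zero, Nat.factorial] at h1 h2
  norm_num at h1 h2
  rw [Real.sinh_eq]
  have h4 : 0 ≤ |y| ^ 5 := by positivity
  rw [abs_le] at h1 h2 ⊢
  constructor <;> linarith only [h1.1, h1.2, h2.1, h2.2]

lemma small_ev (a : ℝ) : ∀ᶠ s in 𝓝[>] (0 : ℝ), |a * s| ≤ 1 := by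
  have h : Tendsto (fun s : ℝ => |a * s|) (𝓝 0) (𝓝 (|a * 0|)) :=
    ((continuous_const.mul continuous_id).abs).tendsto 0
  rw [mul_zero, abs_zero] at h
  have h' : Tendsto (fun s : ℝ => |a * s|) (𝓝[>] 0) (𝓝 0) := h.mono_left nhdsWithin_le_nhds
  exact h'.eventually (eventually_le_nhds (show (0 : ℝ) < 1 by norm_num))

/-- expansion of `(cosh (a s) - 1) / s²` -/
lemma exp2_cosh (a : ℝ) : Exp2 (fun s => (cosh (a * s) - 1) / s ^ 2) (a ^ 2 / 2) (a ^ 4 / 24) := by
  unfold Exp2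
  have h0 : Tendsto (fun s : ℝ => a ^ 6 * s ^ 2) (𝓝[>] 0) (𝓝 0) := by
    have := sq_tendsto.const_mul (a ^ 6)
    rwa [mul_zero] at this
  rw [tendsto_iff_norm_sub_tendsto_zero]
  refine squeeze_zero' (Eventually.of_forall fun s => norm_nonneg _) ?_ h0
  filter_upwards [small_ev a, self_mem_nhdsWithin] with s hs hs0
  have hs0' : 0 < s := hs0
  have h1 := cosh_taylor hs
  have e : ((cosh (a * s) - 1) / s ^ 2 - a ^ 2 / 2) / s ^ 2 - a ^ 4 / 24
      = (cosh (a * s) - 1 - (a * s) ^ 2 / 2 - (a * s) ^ 4 / 24) / s ^ 4 := by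
    field_simp
  rw [e, Real.norm_eq_abs, abs_div, abs_of_pos (by positivity : 0 < s ^ 4), div_le_iff₀ (by positivity)]
  calc _ ≤ (a * s) ^ 6 := h1
    _ = _ := by ring

/-- expansion of `sinh (a s) / s` -/
lemma exp2_sinh (a : ℝ) : Exp2 (fun s => sinh (a * s) / s) a (a ^ 3 / 6) := by
  unfold Exp2
  have h0 : Tendsto (fun s : ℝ => |a| ^ 5 * s ^ 2) (𝓝[>] 0) (𝓝 0) := by
    have := sq_tendsto.const_mul (|a| ^ 5)
    rwa [mul_zero] at this
  rw [tendsto_iff_norm_sub_tendsto_zero]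
  refine squeeze_zero' (Eventually.of_forall fun s => norm_nonneg _) ?_ h0
  filter_upwards [small_ev a, self_mem_nhdsWithin] with s hs hs0
  have hs0' : 0 < s := hs0
  have h1 := sinh_taylor hs
  have e : (sinh (a * s) / s - a) / s ^ 2 - a ^ 3 / 6
      = (sinh (a * s) - a * s - (a * s) ^ 3 / 6) / s ^ 3 := by
    field_simp
  rw [e, Real.norm_eq_abs, abs_div, abs_of_pos (by positivity : 0 < s ^ 3), div_le_iff₀ (by positivity)]
  calc _ ≤ |a * s| ^ 5 := h1
    _ = |a| ^ 5 * s ^ 2 * s ^ 3 := by rw [abs_mul, abs_of_pos hs0']; ring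

/-- expansion of the denominator -/
lemma exp2_den (b x : ℝ) :
    Exp2 (fun s => cosh (b * (s * x)) - cos (b * π)) (CC b) (b ^ 2 * x ^ 2 / 2) := by
  have h := (exp2_cosh (b * x)).tendsto
  unfold Exp2
  have e : (b * x) ^ 2 / 2 = b ^ 2 * x ^ 2 / 2 := by ring
  rw [e] at h
  refine h.congr ?_
  intro s
  unfold CC
  have e3 : b * (s * x) = b * x * s := by ring
  simp only [e3]
  ring

/-- second and fourth derivative of the kernel at `0` -/
noncomputable def k2 (b : ℝ) : ℝ := b ^ 3 * sin (b * π) / (2 * CC b ^ 2)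
noncomputable def k4 (b : ℝ) : ℝ := -(b ^ 2 * (6 / CC b - 1)) * k2 b

lemma KKf_sub {b : ℝ} (hb : cos (b * π) ≠ 1) (u : ℝ) :
    KKf b u - KKf b 0 = b * sin (b * π) / (2 * CC b) * ((cosh (b * u) - 1) *
      (cosh (b * u) - cos (b * π))⁻¹) := by
  have hC := CC_pos hb
  have hd := den_pos (b := b) u
  have hd' : 0 < cosh (b * u) - cos (b * π) := hC.trans_le hd
  unfold KKf
  rw [mul_zero, cosh_zero]
  have e : 1 - cos (b * π) = CC b := rfl
  rw [e]
  have e2 : cosh (b * u) - 1 = (cosh (b * u) - cos (b * π)) - CC b := by unfold CC; ring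
  rw [e2]
  field_simp
  ring

/-- expansion of the kernel along `s x` -/
lemma exp2_KKf {b : ℝ} (hb : cos (b * π) ≠ 1) (x : ℝ) :
    Exp2 (fun s => (KKf b (s * x) - KKf b 0) / s ^ 2) (k2 b / 2 * x ^ 2) (k4 b / 24 * x ^ 4) := by
  have hC := CC_pos hb
  have h1 := exp2_cosh (b * x)
  have h2 := (exp2_den b x).inv hC.ne'
  have h3 := (h1.mul h2).const_mul (b * sin (b * π) / (2 * CC b))
  have e1 : b * sin (b * π) / (2 * CC b) * ((b * x) ^ 2 / 2 * (CC b)⁻¹) = k2 b / 2 * x ^ 2 := by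
    unfold k2; field_simp
  have e2 : b * sin (b * π) / (2 * CC b) * ((b * x) ^ 4 / 24 * (CC b)⁻¹ +
      (b * x) ^ 2 / 2 * (-(b ^ 2 * x ^ 2 / 2) / CC b ^ 2)) = k4 b / 24 * x ^ 4 := by
    unfold k4 k2; field_simp; ring
  rw [e1, e2] at h3
  refine h3.congr ?_
  intro s hs
  rw [KKf_sub hb, show b * (s * x) = b * x * s by ring]
  field_simp

lemma cosh_sub_one_le {y : ℝ} (h : |y| ≤ 1) : cosh y - 1 ≤ 2 * y ^ 2 := by
  have h1 := cosh_taylor h
  have h2 := (abs_le.mp h1).2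
  have h3 : y ^ 2 ≤ 1 := by
    rw [← sq_abs]; have := abs_nonneg y; nlinarith only [h, this]
  have h4 : 0 ≤ y ^ 2 := by positivity
  have h5 : y ^ 4 ≤ y ^ 2 := by nlinarith only [h3]
  have h6 : y ^ 6 ≤ y ^ 2 := by nlinarith only [h3, mul_nonneg h4 h4]
  linarith

/-- global quadratic bound -/
lemma KKf_bound2 {b : ℝ} (hb : cos (b * π) ≠ 1) :
    ∃ M, 0 ≤ M ∧ ∀ u, |KKf b u - KKf b 0| ≤ M * u ^ 2 := by
  have hC := CC_pos hb
  refine ⟨|b * sin (b * π) / (2 * CC b)| * ((1 + (CC b)⁻¹) * 2 * b ^ 2), by positivity,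
    fun u => ?_⟩
  rw [KKf_sub hb, abs_mul, mul_assoc]
  gcongr
  have hd := den_pos (b := b) u
  have hd' : 0 < cosh (b * u) - cos (b * π) := hC.trans_le hd
  have hD : 0 ≤ cosh (b * u) - 1 := by have := one_le_cosh (b * u); linarith
  have h4 : 0 < (CC b)⁻¹ := inv_pos.mpr hC
  rw [abs_of_nonneg (by positivity), mul_assoc, show b ^ 2 * u ^ 2 = (b * u) ^ 2 by ring]
  by_cases h : |b * u| ≤ 1
  · have h1 := cosh_sub_one_le h
    have h2 : (cosh (b * u) - cos (b * π))⁻¹ ≤ (CC b)⁻¹ := inv_anti₀ hC hd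
    calc (cosh (b * u) - 1) * (cosh (b * u) - cos (b * π))⁻¹
        ≤ (2 * (b * u) ^ 2) * (CC b)⁻¹ := by gcongr
      _ ≤ _ := by linarith only [mul_nonneg h4.le (sq_nonneg (b * u)), sq_nonneg (b * u)]
  · have h1 : 1 < |b * u| := not_le.mp h
    have h2 : 1 ≤ (b * u) ^ 2 := by rw [← sq_abs]; nlinarith only [h]
    have h3 : (cosh (b * u) - 1) * (cosh (b * u) - cos (b * π))⁻¹ ≤ 1 := by
      rw [← div_eq_mul_inv, div_le_one hd']
      have := cos_le_one (b * π); linarith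
    linarith only [h2, h3, mul_nonneg h4.le (sq_nonneg (b * u))]

/-- from a one-sided limit and evenness to a global quartic bound -/
lemma bound4_of_limit {f : ℝ → ℝ} {M c : ℝ} (heven : ∀ u, f (-u) = f u)
    (hM : ∀ u, |f u| ≤ M * u ^ 2) (hM0 : 0 ≤ M)
    (hlim : Tendsto (fun s => f s / s ^ 4) (𝓝[>] 0) (𝓝 c)) :
    ∃ M', 0 ≤ M' ∧ ∀ u, |f u| ≤ M' * u ^ 4 := by
  have h1 : ∀ᶠ s in 𝓝[>] (0 : ℝ), |f s / s ^ 4| < |c| + 1 := by
    have := hlim.abs
    exact this.eventually (gt_mem_nhds (by linarith))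
  obtain ⟨d, hd, hd2⟩ := (mem_nhdsGT_iff_exists_Ioo_subset).mp h1
  have hd' : 0 < d := hd
  refine ⟨|c| + 1 + M / d ^ 2, by positivity, ?_⟩
  have pos : ∀ u, 0 < u → |f u| ≤ (|c| + 1 + M / d ^ 2) * u ^ 4 := by
    intro u hu
    by_cases hud : u < d
    · have h2 : |f u / u ^ 4| < |c| + 1 := hd2 ⟨hu, hud⟩
      rw [abs_div, abs_of_pos (by positivity : 0 < u ^ 4), div_lt_iff₀ (by positivity)] at h2
      have : 0 ≤ M / d ^ 2 * u ^ 4 := by positivity
      linarith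
    · have hud' : d ≤ u := not_lt.mp hud
      have h3 := hM u
      have h4 : u ^ 2 ≤ u ^ 4 / d ^ 2 := by
        rw [le_div_iff₀ (by positivity)]
        have : d ^ 2 ≤ u ^ 2 := by gcongr
        calc u ^ 2 * d ^ 2 ≤ u ^ 2 * u ^ 2 := by gcongr
          _ = u ^ 4 := by ring
      have h5 : M * u ^ 2 ≤ M / d ^ 2 * u ^ 4 := by
        calc M * u ^ 2 ≤ M * (u ^ 4 / d ^ 2) := by gcongr
          _ = M / d ^ 2 * u ^ 4 := by ring
      have h6 : 0 ≤ (|c| + 1) * u ^ 4 := by positivity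
      linarith
  intro u
  rcases lt_trichotomy u 0 with h | h | h
  · have := pos (-u) (by linarith)
    rw [heven] at this
    calc |f u| ≤ _ := this
      _ = _ := by ring
  · subst h
    have := hM 0
    simpa using this
  · exact pos u h

lemma KKf_even (b u : ℝ) : KKf b (-u) = KKf b u := by
  unfold KKf
  rw [show b * -u = -(b * u) by ring, cosh_neg]

/-- global quartic bound of the second remainder -/
lemma KKf_bound4 {b : ℝ} (hb : cos (b * π) ≠ 1) :
    ∃ M, 0 ≤ M ∧ ∀ u, |KKf b u - KKf b 0 - k2 b / 2 * u ^ 2| ≤ M * u ^ 4 := by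
  obtain ⟨M, hM0, hM⟩ := KKf_bound2 hb
  have h := exp2_KKf hb 1
  refine bound4_of_limit (M := M + |k2 b / 2|) (c := k4 b / 24) ?_ ?_ (by positivity) ?_
  · intro u
    rw [KKf_even]; ring
  · intro u
    calc |KKf b u - KKf b 0 - k2 b / 2 * u ^ 2|
        ≤ |KKf b u - KKf b 0| + |k2 b / 2 * u ^ 2| := abs_sub _ _
      _ ≤ M * u ^ 2 + |k2 b / 2| * u ^ 2 := by
          rw [abs_mul, abs_of_nonneg (sq_nonneg u)]
          have := hM u
          linarith
      _ = _ := by ring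
  · unfold Exp2 at h
    simp only [mul_one, one_pow] at h
    refine h.congr' ?_
    filter_upwards [self_mem_nhdsWithin] with s hs
    have hs' : (0 : ℝ) < s := hs
    field_simp

end Pool.Agent.AEU.H12
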