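import Pool.Agent.Helper12_AEU.FT

/-! helper12, AEU (MP_5b0138_an) Part III, FLUX: exact flux of plane wave superpositions. -/

namespace Pool.Agent.AEU.H12

open MeasureTheory Filter Topology Real Set

/-- one dimensional heat kernel -/
noncomputable def g1 (A w : ℝ) : ℝ := (√(4 * π * A))⁻¹ * rexp (-(w ^ 2 / (4 * A)))

lemma g1_nonneg (A w : ℝ) : 0 ≤ g1 A w := by unfold g1; positivity

lemma g1_le {A : ℝ} (hA : 0 < A) (w : ℝ) : g1 A w ≤ (√(4 * π * A))⁻¹ := by
  unfold g1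
  have h1 : rexp (-(w ^ 2 / (4 * A))) ≤ 1 := by
    rw [← Real.exp_zero]; apply exp_le_exp.mpr
    have : 0 ≤ w ^ 2 / (4 * A) := by positivity
    linarith
  have h2 : 0 ≤ (√(4 * π * A))⁻¹ := by positivity
  nlinarith

lemma continuous_g1 (A : ℝ) : Continuous (g1 A) := by unfold g1; fun_prop

lemma int_g1 {A : ℝ} (hA : 0 < A) : Integrable (g1 A) := by
  unfold g1
  apply Integrable.const_mul
  have := integrable_exp_neg_mul_sq (b := 1 / (4 * A)) (by positivity)
  refine this.congr (Eventually.of_forall fun w => ?_)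
  simp only
  congr 1
  field_simp

lemma ft_g1 {A : ℝ} (hA : 0 < A) (y : ℝ) :
    ∫ w : ℝ, ((g1 A w : ℝ) : ℂ) * Complex.exp (((w * y : ℝ) : ℂ) * Complex.I) =
      ((rexp (-(A * y ^ 2)) : ℝ) : ℂ) := by
  have hb : 0 < ((1 / (4 * A) : ℝ) : ℂ).re := by
    rw [Complex.ofReal_re]; positivity
  have h := fourierIntegral_gaussian hb (y : ℂ)
  have e1 : ((π : ℂ) / ((1 / (4 * A) : ℝ) : ℂ)) ^ (1 / 2 : ℂ) = ((√(4 * π * A) : ℝ) : ℂ) := by
    have : (π : ℂ) / ((1 / (4 * A) : ℝ) : ℂ) = ((4 * π * A : ℝ) : ℂ) := by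
      push_cast
      have : (A : ℂ) ≠ 0 := by exact_mod_cast hA.ne'
      field_simp
    rw [this, Real.sqrt_eq_rpow, Complex.ofReal_cpow (by positivity)]
    norm_num
  rw [e1] at h
  have h2 : ∫ w : ℝ, ((g1 A w : ℝ) : ℂ) * Complex.exp (((w * y : ℝ) : ℂ) * Complex.I)
      = (((√(4 * π * A))⁻¹ : ℝ) : ℂ) *
        ∫ x : ℝ, Complex.exp (Complex.I * y * x) * Complex.exp (-((1 / (4 * A) : ℝ) : ℂ) * x ^ 2) := by
    rw [← integral_const_mul]
    congr 1
    ext w
    unfold g1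
    rw [Complex.ofReal_mul, Complex.ofReal_exp, mul_assoc, ← Complex.exp_add, ← Complex.exp_add]
    congr 2
    push_cast
    have : (A : ℂ) ≠ 0 := by exact_mod_cast hA.ne'
    field_simp
    ring
  rw [h2, h, ← mul_assoc]
  have h3 : ((√(4 * π * A))⁻¹ : ℝ) * √(4 * π * A) = 1 :=
    inv_mul_cancel₀ (Real.sqrt_pos.mpr (by positivity)).ne'
  rw [← Complex.ofReal_mul, h3, Complex.ofReal_one, one_mul, Complex.ofReal_exp]
  congr 1
  push_cast
  have : (A : ℂ) ≠ 0 := by exact_mod_cast hA.ne'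
  field_simp

lemma integral_g1 {A : ℝ} (hA : 0 < A) : ∫ w, g1 A w = 1 := by
  have h := ft_g1 hA 0
  simp only [mul_zero, Complex.ofReal_zero, zero_mul, Complex.exp_zero, mul_one] at h
  rw [integral_complex_ofReal] at h
  have h2 : ((∫ w, g1 A w : ℝ) : ℂ) = ((1 : ℝ) : ℂ) := by
    rw [h]; norm_num
  exact_mod_cast h2

lemma pwi_eq (p s τ u : ℝ) : pwi p s τ u = pwi p 0 τ u *
    Complex.exp (((s * sinh u : ℝ) : ℂ) * Complex.I) := by
  unfold pwi
  rw [← Complex.exp_add]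
  congr 1
  push_cast
  ring

lemma integral_g1_pwi {A : ℝ} (hA : 0 < A) (p s τ u : ℝ) :
    ∫ s', ((g1 A (s - s') : ℝ) : ℂ) * pwi p s' τ u =
      ((rexp (-(A * sinh u ^ 2)) : ℝ) : ℂ) * pwi p s τ u := by
  have h1 : ∫ s', ((g1 A (s - s') : ℝ) : ℂ) * pwi p s' τ u
      = ∫ w, ((g1 A w : ℝ) : ℂ) * pwi p (s - w) τ u := by
    rw [← integral_sub_left_eq_self (fun w => ((g1 A w : ℝ) : ℂ) * pwi p (s - w) τ u) volume s]
    simp only [sub_sub_cancel]
  rw [h1]
  have h2 : (fun w : ℝ => ((g1 A w : ℝ) : ℂ) * pwi p (s - w) τ u) = fun w : ℝ => pwi p s τ u *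
      (((g1 A w : ℝ) : ℂ) * Complex.exp (((w * (-(sinh u)) : ℝ) : ℂ) * Complex.I)) := by
    ext w
    rw [pwi_eq p (s - w), pwi_eq p s]
    have : Complex.exp ((((s - w) * sinh u : ℝ) : ℂ) * Complex.I)
        = Complex.exp (((s * sinh u : ℝ) : ℂ) * Complex.I) *
          Complex.exp (((w * (-(sinh u)) : ℝ) : ℂ) * Complex.I) := by
      rw [← Complex.exp_add]; congr 1; push_cast; ring
    rw [this]; ring
  rw [h2, integral_const_mul, ft_g1 hA, mul_comm]
  congr 3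
  ring

lemma int_g1_sub {A : ℝ} (hA : 0 < A) (s : ℝ) : Integrable fun s' => g1 A (s - s') :=
  (int_g1 hA).comp_sub_left s

lemma integral_g1_pw {A p : ℝ} (hA : 0 < A) (hp : 0 < p) (s τ : ℝ) :
    ∫ s', ((g1 A (s - s') : ℝ) : ℂ) * pw p s' τ =
      (1 / 2 : ℂ) * ∫ u : ℝ, ((rexp (-(A * sinh u ^ 2)) : ℝ) : ℂ) * pwi p s τ u := by
  have h1 : ∫ s', ((g1 A (s - s') : ℝ) : ℂ) * pw p s' τ
      = (1 / 2 : ℂ) * ∫ s', ∫ u, ((g1 A (s - s') : ℝ) : ℂ) * pwi p s' τ u := by
    rw [← integral_const_mul]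
    congr 1
    ext s'
    unfold pw
    rw [integral_const_mul]
    ring
  rw [h1, integral_integral_swap]
  · congr 1
    congr 1
    ext u
    rw [integral_g1_pwi hA]
  · refine ((int_g1_sub hA s).mul_prod (int_ecosh hp)).mono' ?_ (Eventually.of_forall fun z => ?_)
    · apply Continuous.aestronglyMeasurable
      unfold Function.uncurry pwi
      have := continuous_g1 A
      fun_prop
    · simp only [Function.uncurry]
      rw [norm_mul, norm_pwi, Complex.norm_real, Real.norm_eq_abs, abs_of_nonneg (g1_nonneg _ _)]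

/-- exact flux through a pair of lines -/
theorem line_flux (hK : KitShift) {p p' A : ℝ} (hp : 0 < p) (hp' : 0 < p') (hA : 0 < A) (τ σ : ℝ) :
    ∫ s, ∫ s', ((g1 A (s - s') : ℝ) : ℂ) * (pw p s τ * pw p' s' σ) =
      ((π / 2 : ℝ) : ℂ) * ∫ u : ℝ, (((cosh u)⁻¹ * rexp (-((p + p') * cosh u) - A * sinh u ^ 2) : ℝ) : ℂ) *
        Complex.exp ((((σ - τ) * u : ℝ) : ℂ) * Complex.I) := by
  have h1 : ∀ s, ∫ s', ((g1 A (s - s') : ℝ) : ℂ) * (pw p s τ * pw p' s' σ) =
      (1 / 2 : ℂ) * ∫ u : ℝ, pw p s τ * (((rexp (-(A * sinh u ^ 2)) : ℝ) : ℂ) * pwi p' s σ u) := by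
    intro s
    have : (fun s' => ((g1 A (s - s') : ℝ) : ℂ) * (pw p s τ * pw p' s' σ))
        = fun s' => pw p s τ * (((g1 A (s - s') : ℝ) : ℂ) * pw p' s' σ) := by
      ext s'; ring
    rw [this, integral_const_mul, integral_g1_pw hA hp', integral_const_mul]
    ring
  simp_rw [h1]
  rw [integral_const_mul, integral_integral_swap]
  · have h2 : ∀ u : ℝ, ∫ s, pw p s τ * (((rexp (-(A * sinh u ^ 2)) : ℝ) : ℂ) * pwi p' s σ u)
        = (π : ℂ) * ((((cosh u)⁻¹ * rexp (-((p + p') * cosh u) - A * sinh u ^ 2) : ℝ) : ℂ) *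
          Complex.exp ((((σ - τ) * u : ℝ) : ℂ) * Complex.I)) := by
      intro u
      have e : (fun s => pw p s τ * (((rexp (-(A * sinh u ^ 2)) : ℝ) : ℂ) * pwi p' s σ u))
          = fun s => (((rexp (-(A * sinh u ^ 2)) : ℝ) : ℂ) * pwi p' 0 σ u) *
            (pw p s τ * Complex.exp (((s * sinh u : ℝ) : ℂ) * Complex.I)) := by
        ext s; rw [pwi_eq p' s]; ring
      rw [e, integral_const_mul, ft_pw hK hp]
      have e2 : ((rexp (-(A * sinh u ^ 2)) : ℝ) : ℂ) * pwi p' 0 σ u *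
          Complex.exp (((-(p * cosh u) : ℝ) : ℂ) + ((-(τ * u) : ℝ) : ℂ) * Complex.I)
          = ((rexp (-((p + p') * cosh u) - A * sinh u ^ 2) : ℝ) : ℂ) *
            Complex.exp ((((σ - τ) * u : ℝ) : ℂ) * Complex.I) := by
        unfold pwi
        rw [Complex.ofReal_exp, Complex.ofReal_exp, ← Complex.exp_add, ← Complex.exp_add,
          ← Complex.exp_add]
        congr 1
        push_cast
        ring
      calc ((rexp (-(A * sinh u ^ 2)) : ℝ) : ℂ) * pwi p' 0 σ u *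
            (((π / cosh u : ℝ) : ℂ) *
              Complex.exp (((-(p * cosh u) : ℝ) : ℂ) + ((-(τ * u) : ℝ) : ℂ) * Complex.I))
          = ((π / cosh u : ℝ) : ℂ) * (((rexp (-(A * sinh u ^ 2)) : ℝ) : ℂ) * pwi p' 0 σ u *
              Complex.exp (((-(p * cosh u) : ℝ) : ℂ) + ((-(τ * u) : ℝ) : ℂ) * Complex.I)) := by ring
        _ = _ := by
          rw [e2]
          push_cast
          ring
    simp_rw [h2]
    rw [integral_const_mul]
    push_cast
    ring
  · refine ((int_pw_line hK hp τ).norm.mul_prod (int_ecosh hp')).mono' ?_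
      (Eventually.of_forall fun z => ?_)
    · apply Continuous.aestronglyMeasurable
      unfold Function.uncurry pwi
      have := continuous_pw hp τ
      fun_prop
    · simp only [Function.uncurry]
      rw [norm_mul, norm_mul, norm_pwi, Complex.norm_real, Real.norm_eq_abs,
        abs_of_pos (exp_pos _)]
      have h3 : rexp (-(A * sinh z.2 ^ 2)) ≤ 1 := by
        rw [← Real.exp_zero]; apply exp_le_exp.mpr
        have : 0 ≤ A * sinh z.2 ^ 2 := by positivity
        linarith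
      have h4 : 0 ≤ ‖pw p z.1 τ‖ * rexp (-(p' * cosh z.2)) := by positivity
      nlinarith

end Pool.Agent.AEU.H12
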