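import Pool.Agent.Helper60_AEU.Stmt

/-! helper12, AEU (MP_5b0138_an) Part III, block F: statements of the independent pieces. -/

namespace Pool.Agent.AEU.H12F

open MeasureTheory Complex Filter Topology Pool.Agent.H62T Pool.Agent.H16F Pool.Agent.H38KL
  Pool.Agent.H60K

/-- CVT: interchange of the Laplace transform and the integral over the window.
Proof: `t = c / κ + t'`, Fubini; on the window `(rf y).re - x.re > 2 δ`, so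
`|kME t (rf y) x| ≤ 8 * G t (rf y - x) ≤ C`, measurability from `LabStatement`. -/
def CvtStatement : Prop :=
  ∀ (η1 η2 d δ ζ1 ζ2 c κ : ℝ) (O E : Finset (Fin 3)), 0 < d → 0 < δ → 3 * δ < d → 0 < c → 0 < κ →
    Disjoint O E → 0 ∉ O → 0 ∉ E →
    (∫ t in Set.Ioi (c / κ), Real.exp (-(κ ^ 2 * t)) *
        TT3 η1 η2 d O E (d - 2 * δ) δ ζ1 ζ2 (c / κ) t)
      = Real.exp (-(κ * c)) * ∫ x in Rw (d - 2 * δ) δ ζ1 ζ2, ∫ y in Rw (d - 2 * δ) δ ζ1 ζ2,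
        G (c / κ) (x - y) * (ch (d - 2 * δ) y - ch (d - 2 * δ) x) *
        ∫ t in Set.Ioi (0 : ℝ), Real.exp (-(κ ^ 2 * t)) *
          kME (us η1 η2) (hh d) O E t (rf (us η1 η2) (hh d) 0 y) x

/-- IMG: flux of the image kernel (glide reflection), only for `η1 + η2 ≤ π / 2`.
Proof: put `v = exp (i φ) (2 d - conj y) + exp (- i φ) x`, `x = y + w`; then
`v = 2 d exp (i φ) + 2 i Im (exp (-i φ) y) + exp (-i φ) w`. For `|w.im| ≤ μ` and `y.im` (or `x.im`)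
outside the window `|v| ≥ 2 hb - small`; `|w.im| > μ` costs `exp (- μ² κ / 4 c)`; the integral over
the whole line is exact: `∫ Kit 0 (κ √(p² + (q + 2 s cos φ)²)) ds = π exp (-κ |p|) / (2 κ cos φ)`,
`p = Re v` does not depend on `y`, then a Gaussian integral in `w`. -/
def ImgStatement : Prop :=
  ∀ η1 η2 d ε : ℝ, 0 < η1 → η1 < Real.pi / 2 → 0 < η2 → η2 < Real.pi / 2 → 0 < d → 0 < ε →
    η1 + η2 ≤ Real.pi / 2 → Real.pi - 2 * (η1 + η2) + |η1 - η2| < η1 + η2 →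
    ∃ ρ0 : ℝ, 0 < ρ0 ∧ ∀ ρ : ℝ, 0 < ρ → ρ < ρ0 → ∃ δ0 : ℝ, 0 < δ0 ∧ ∀ δ : ℝ, 0 < δ → δ < δ0 →
    ∃ c0 : ℝ, 0 < c0 ∧ ∀ c : ℝ, 0 < c → c < c0 → ∃ C κ0 : ℝ, 0 < κ0 ∧ ∀ κ : ℝ, κ0 ≤ κ →
      |κ / c * Real.exp (-(κ * c)) *
        (∫ x in Rw (d - 2 * δ) δ (d * Real.tan η1 - ρ) (d * Real.tan η2 - ρ),
          ∫ y in Rw (d - 2 * δ) δ (d * Real.tan η1 - ρ) (d * Real.tan η2 - ρ),
          G (c / κ) (x - y) * (ch (d - 2 * δ) y - ch (d - 2 * δ) x) *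
          (Kit 0 (κ * ‖exp ((Real.pi / 2 - (η1 + η2) : ℝ) * I) * (2 * d - (starRingEnd ℂ) y)
              + exp (-((Real.pi / 2 - (η1 + η2) : ℝ) * I)) * x‖) +
            Kit 0 (κ * ‖exp (-((Real.pi / 2 - (η1 + η2) : ℝ) * I)) * (2 * d - (starRingEnd ℂ) y)
              + exp ((Real.pi / 2 - (η1 + η2) : ℝ) * I) * x‖)))
        - 2 * Real.pi * Real.exp (-(2 * d * κ * Real.sin (η1 + η2)))|
        ≤ C * Real.exp (-(κ * (2 * hb η1 η2 d - ε)))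

/-- SHB: ratio of hyperbolic sines -/
def ShbStatement : Prop :=
  ∀ p q : ℝ, |p| < q → (Measurable fun τ : ℝ => Real.sinh (p * τ) / Real.sinh (q * τ)) ∧
    ∃ C : ℝ, 0 ≤ C ∧ ∀ τ : ℝ, |Real.sinh (p * τ) / Real.sinh (q * τ)| ≤
      C * Real.exp (-((q - |p|) * |τ|))

/-- exponent of the tails -/
noncomputable def Ex (d Δ μ θ ζ : ℝ) : ℝ :=
  (2 * d - 2 * Δ) * Real.cos θ + 2 * (ζ - μ) * Real.sin θ

/-- PRS: the angles in the spanning case. `m` is `|2 (η1 + η2) - π|`; `θ1` is the angle used above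
the window for `τ ≥ 0`, `θ1'` for `τ < 0`; `θ2`, `θ2'` below the window. -/
def PrsStatement : Prop :=
  ∀ η1 η2 d ε : ℝ, 0 < η1 → η1 < Real.pi / 2 → 0 < η2 → η2 < Real.pi / 2 → 0 < d → 0 < ε →
    |2 * (η1 + η2) - Real.pi| + |η1 - η2| < η1 + η2 →
    ∃ θ1 θ2 : ℝ, 0 < θ1 ∧ θ1 < Real.pi / 2 ∧ 0 < θ2 ∧ θ2 < Real.pi / 2 ∧
    2 * θ1 < 2 * η1 - |2 * (η1 + η2) - Real.pi| ∧ 2 * θ2 < 2 * η2 - |2 * (η1 + η2) - Real.pi| ∧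
    ∃ ρ0 : ℝ, 0 < ρ0 ∧ ∀ ρ : ℝ, 0 < ρ → ρ < ρ0 → ∃ δ0 : ℝ, 0 < δ0 ∧ ∀ δ : ℝ, 0 < δ → δ < δ0 →
      3 * δ < d ∧ δ < d * Real.tan η1 - ρ ∧ δ < d * Real.tan η2 - ρ ∧
      (∀ x ∈ Rw (d - 2 * δ) δ (d * Real.tan η1 - ρ) (d * Real.tan η2 - ρ),
        0 < x.re ∧ -η2 < Complex.arg x ∧ Complex.arg x < η1 ∧
        0 < (2 * d - (starRingEnd ℂ) x).re ∧ -η2 < Complex.arg (2 * d - (starRingEnd ℂ) x) ∧
        Complex.arg (2 * d - (starRingEnd ℂ) x) < η1) ∧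
      2 * hb η1 η2 d - ε ≤ Ex d δ δ θ1 (d * Real.tan η1 - ρ) ∧
      2 * hb η1 η2 d - ε ≤ Ex d δ δ η1 (d * Real.tan η1 - ρ) ∧
      2 * hb η1 η2 d - ε ≤ Ex d δ δ θ2 (d * Real.tan η2 - ρ) ∧
      2 * hb η1 η2 d - ε ≤ Ex d δ δ η2 (d * Real.tan η2 - ρ)

/-- PRN: the angles in the nonspanning case -/
def PrnStatement : Prop :=
  ∀ η1 η2 d : ℝ, Real.pi / 2 < η1 → 0 < η2 → η1 + η2 < Real.pi → 0 < d →
    ∃ ρ0 : ℝ, 0 < ρ0 ∧ ∀ ρ : ℝ, 0 < ρ → ρ < ρ0 →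
    ∃ θ : ℝ, 0 < θ ∧ θ < Real.pi / 2 ∧ 2 * θ < 2 * η1 - Real.pi ∧ 2 * θ < 2 * (η1 + η2) - Real.pi ∧
    ∃ e δ0 : ℝ, 0 < e ∧ 0 < δ0 ∧ ∀ δ : ℝ, 0 < δ → δ < δ0 →
      3 * δ < d ∧ δ < ρ ∧
      (∀ x ∈ Rw (d - 2 * δ) δ ρ ρ,
        0 < x.re ∧ -η2 < Complex.arg x ∧ Complex.arg x < η1 ∧
        0 < (2 * d - (starRingEnd ℂ) x).re ∧ -η2 < Complex.arg (2 * d - (starRingEnd ℂ) x) ∧
        Complex.arg (2 * d - (starRingEnd ℂ) x) < η1) ∧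
      2 * d + e ≤ Ex d δ δ θ ρ

end Pool.Agent.AEU.H12F
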