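import Pool.Agent.Helper12_AEU.WFlux
import Pool.Agent.Helper12_AEU.Cplx
import Pool.Agent.Helper12_AEU.StmtF

/-! helper12, AEU (MP_5b0138_an) Part III, FLUX: link with the kernels of the wedge. -/

namespace Pool.Agent.AEU.H12

open MeasureTheory Filter Topology Real Set

/-- the contour shift (helper38) -/
theorem kitShift : KitShift := by
  intro τ x φ hx hφ
  have h := H38KL.fourier_Kit hx τ hφ
  have e : ∀ v : ℝ, Complex.exp (-(x * Complex.cosh (v + φ * Complex.I))) *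
      Complex.exp (Complex.I * τ * v) = pwi (x * cos φ) (-(x * sin φ)) τ v := by
    intro v
    unfold pwi
    rw [← Complex.exp_add]
    congr 1
    rw [Complex.cosh_add, Complex.cosh_mul_I, Complex.sinh_mul_I]
    push_cast
    ring
  simp_rw [e] at h
  rw [h]
  have e2 : H38KL.Kit τ x = Kit τ x := rfl
  rw [e2]
  push_cast
  ring

lemma pw_polar {κ : ℝ} {z : ℂ} (hκ : 0 < κ) (hz : 0 < z.re) (σ : ℝ) :
    pw (κ * z.re) (κ * z.im) σ = ((Kit σ (κ * ‖z‖) * rexp (-(z.arg * σ)) : ℝ) : ℂ) := by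
  rw [pw_eq kitShift σ (mul_pos hκ hz)]
  have e1 : κ * z.im / (κ * z.re) = z.im / z.re := by field_simp
  have e2 : √((κ * z.re) ^ 2 + (κ * z.im) ^ 2) = κ * ‖z‖ := by
    have : (κ * z.re) ^ 2 + (κ * z.im) ^ 2 = (κ * ‖z‖) ^ 2 := by
      rw [mul_pow κ ‖z‖, Complex.sq_norm, Complex.normSq_apply]
      ring
    rw [this, Real.sqrt_sq (by positivity)]
  have e3 : arctan (z.im / z.re) = z.arg := by
    have h := (Complex.abs_arg_lt_pi_div_two_iff.mpr (Or.inl hz))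
    rw [abs_lt] at h
    rw [← Complex.tan_arg, Real.arctan_tan h.1 h.2]
  rw [e1, e2, e3, mul_comm]

lemma integral_line_eq {F : ℝ → ℂ} (hF : Integrable F) :
    ∫ τ, F τ = ∫ τ in Ioi (0 : ℝ), (F τ + F (-τ)) := by
  have h1 : ∫ τ in Iic (0 : ℝ), F τ = ∫ τ in Ioi (0 : ℝ), F (-τ) := by
    have := integral_comp_neg_Ioi (0 : ℝ) F
    rw [neg_zero] at this
    exact this.symm
  have h2 : IntegrableOn (fun τ => F (-τ)) (Ioi 0) := hF.comp_neg.integrableOn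
  rw [integral_add hF.integrableOn h2, ← h1, add_comm]
  have := intervalIntegral.integral_Iic_add_Ioi (b := (0 : ℝ)) hF.integrableOn hF.integrableOn
  exact this.symm

lemma G_eq (a : ℝ) (ha : 0 < a) (q r : ℝ × ℝ) :
    H62T.G a ((q.1 + r.1 * Complex.I : ℂ) - (q.2 + r.2 * Complex.I)) = g1 a (q.1 - q.2) * g1 a (r.1 - r.2) := by
  unfold H62T.G g1
  have e1 : ‖((q.1 + r.1 * Complex.I : ℂ) - (q.2 + r.2 * Complex.I))‖ ^ 2 =
      (q.1 - q.2) ^ 2 + (r.1 - r.2) ^ 2 := by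
    rw [Complex.sq_norm, Complex.normSq_apply]
    simp
    ring
  rw [e1]
  calc _ = (4 * π * a)⁻¹ * rexp (-((q.1 - q.2) ^ 2 + (r.1 - r.2) ^ 2) / (4 * a)) := by ring
    _ = (√(4 * π * a))⁻¹ * (√(4 * π * a))⁻¹ * (rexp (-((q.1 - q.2) ^ 2 / (4 * a))) *
        rexp (-((r.1 - r.2) ^ 2 / (4 * a)))) := by
        rw [inv_sqrt_sq ha, ← Real.exp_add]
        congr 2
        ring
    _ = _ := by ring

lemma Mn_eq {κ d : ℝ} (hκ : 0 < κ) (hd : 0 < d) (σ₁ σ₂ : ℝ) :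
    Mn κ d σ₁ σ₂ = ((2 * Kit (σ₂ - σ₁) (2 * κ * d) : ℝ) : ℂ) := by
  have h := kitShift (σ₂ - σ₁) (2 * κ * d) 0 (by positivity) (by rw [abs_zero]; positivity)
  rw [zero_mul, exp_zero, one_mul, cos_zero, sin_zero] at h
  rw [Complex.ofReal_mul, h, Complex.ofReal_ofNat, ← mul_assoc]
  norm_num
  unfold Mn pwi
  congr 1
  ext u
  rw [Complex.ofReal_exp, ← Complex.exp_add]
  congr 1
  push_cast
  ring

/-- even weights -/
structure Ev (m : ℝ → ℝ) (C g : ℝ) : Prop where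
  meas : Measurable m
  even : ∀ τ, m (-τ) = m τ
  bound : ∀ τ, |m τ| ≤ C * rexp (-(g * |τ|))

lemma Ev.C_nonneg {m : ℝ → ℝ} {C g : ℝ} (h : Ev m C g) : 0 ≤ C := by
  have := (abs_nonneg _).trans (h.bound 0)
  simpa using this

/-- weight on the whole line -/
noncomputable def wt (m : ℝ → ℝ) (b τ : ℝ) : ℝ := m τ * rexp (b * τ) / (2 * π ^ 2)

lemma Ev.wt {m : ℝ → ℝ} {C g b : ℝ} (h : Ev m C g) (hb : |b| < g) :
    Wt (wt m b) (C / (2 * π ^ 2)) (g - b) (g + b) := by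
  rw [abs_lt] at hb
  have hm := h.meas
  have hC := h.C_nonneg
  refine ⟨by unfold H12.wt; fun_prop, by linarith, by linarith, fun τ hτ => ?_, fun τ hτ => ?_⟩
  · unfold H12.wt
    rw [abs_div, abs_mul, abs_of_pos (exp_pos _), abs_of_pos (by positivity : 0 < 2 * π ^ 2),
      div_mul_eq_mul_div]
    apply div_le_div_of_nonneg_right _ (by positivity)
    have h1 := h.bound τ
    rw [abs_of_nonneg hτ] at h1
    calc |m τ| * rexp (b * τ) ≤ C * rexp (-(g * τ)) * rexp (b * τ) :=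
          mul_le_mul_of_nonneg_right h1 (exp_pos _).le
      _ = _ := by
        rw [mul_assoc, ← Real.exp_add]
        congr 2
        ring
  · unfold H12.wt
    rw [abs_div, abs_mul, abs_of_pos (exp_pos _), abs_of_pos (by positivity : 0 < 2 * π ^ 2),
      div_mul_eq_mul_div]
    apply div_le_div_of_nonneg_right _ (by positivity)
    have h1 := h.bound τ
    rw [abs_of_neg hτ] at h1
    calc |m τ| * rexp (b * τ) ≤ C * rexp (-(g * -τ)) * rexp (b * τ) :=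
          mul_le_mul_of_nonneg_right h1 (exp_pos _).le
      _ = _ := by
        rw [mul_assoc, ← Real.exp_add]
        congr 2
        ring

/-- the `τ` integral on the half-line -/
noncomputable def JKr (m1 m2 : ℝ → ℝ) (b κ : ℝ) (z x : ℂ) : ℝ :=
  1 / π ^ 2 * ∫ τ in Ioi (0 : ℝ), Kit τ (κ * ‖z‖) * Kit τ (κ * ‖x‖) *
    (m1 τ * cosh ((b + z.arg + x.arg) * τ) + m2 τ * cosh ((z.arg - x.arg) * τ))

lemma Kit_neg' (τ x : ℝ) : Kit (-τ) x = Kit τ x := H38KL.Kit_neg τ x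

/-- the integral over the line equals the integral over the half-line -/
lemma jk_link {m1 m2 : ℝ → ℝ} {C1 C2 g₁ g₂ b κ : ℝ} (h1 : Ev m1 C1 g₁) (h2 : Ev m2 C2 g₂)
    (hκ : 0 < κ) {z x : ℂ} (hz : 0 < z.re) (hx : 0 < x.re)
    (hi1 : Integrable fun τ : ℝ => ((wt m1 b τ : ℝ) : ℂ) *
      (pw (κ * x.re) (κ * x.im) (-1 * τ) * pw (κ * z.re) (κ * z.im) (-1 * τ)))
    (hi2 : Integrable fun τ : ℝ => ((wt m2 0 τ : ℝ) : ℂ) *
      (pw (κ * x.re) (κ * x.im) (1 * τ) * pw (κ * z.re) (κ * z.im) (-1 * τ))) :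
    (∫ τ : ℝ, ((wt m1 b τ : ℝ) : ℂ) *
      (pw (κ * x.re) (κ * x.im) (-1 * τ) * pw (κ * z.re) (κ * z.im) (-1 * τ))) +
    ∫ τ : ℝ, ((wt m2 0 τ : ℝ) : ℂ) *
      (pw (κ * x.re) (κ * x.im) (1 * τ) * pw (κ * z.re) (κ * z.im) (-1 * τ)) =
    ((JKr m1 m2 b κ z x : ℝ) : ℂ) := by
  have h12 : Integrable fun τ : ℝ => ((wt m1 b τ : ℝ) : ℂ) *
      (pw (κ * x.re) (κ * x.im) (-1 * τ) * pw (κ * z.re) (κ * z.im) (-1 * τ)) +
      ((wt m2 0 τ : ℝ) : ℂ) *
      (pw (κ * x.re) (κ * x.im) (1 * τ) * pw (κ * z.re) (κ * z.im) (-1 * τ)) := hi1.add hi2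
  rw [← integral_add hi1 hi2, integral_line_eq h12]
  unfold JKr
  rw [← integral_const_mul, ← integral_complex_ofReal]
  congr 1
  ext τ
  simp only [pw_polar hκ hx, pw_polar hκ hz]
  unfold wt
  rw [h1.even, h2.even]
  have k1 : Kit (-1 * τ) (κ * ‖x‖) = Kit τ (κ * ‖x‖) := by rw [neg_one_mul, Kit_neg']
  have k2 : Kit (-1 * τ) (κ * ‖z‖) = Kit τ (κ * ‖z‖) := by rw [neg_one_mul, Kit_neg']
  have k3 : Kit (-1 * -τ) (κ * ‖x‖) = Kit τ (κ * ‖x‖) := by rw [neg_one_mul, neg_neg]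
  have k4 : Kit (-1 * -τ) (κ * ‖z‖) = Kit τ (κ * ‖z‖) := by rw [neg_one_mul, neg_neg]
  have k5 : Kit (1 * τ) (κ * ‖x‖) = Kit τ (κ * ‖x‖) := by rw [one_mul]
  have k6 : Kit (1 * -τ) (κ * ‖x‖) = Kit τ (κ * ‖x‖) := by rw [one_mul, Kit_neg']
  rw [k1, k2, k3, k4, k5, k6]
  simp only [← Complex.ofReal_mul, ← Complex.ofReal_add]
  congr 1
  have c1 : cosh ((b + z.arg + x.arg) * τ) = (rexp (b * τ) * rexp (-(x.arg * (-1 * τ))) *
      rexp (-(z.arg * (-1 * τ))) + rexp (b * -τ) * rexp (-(x.arg * (-1 * -τ))) *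
      rexp (-(z.arg * (-1 * -τ)))) / 2 := by
    rw [cosh_eq, ← Real.exp_add, ← Real.exp_add, ← Real.exp_add, ← Real.exp_add]
    congr 3 <;> ring
  have c2 : cosh ((z.arg - x.arg) * τ) = (rexp (-(x.arg * (1 * τ))) * rexp (-(z.arg * (-1 * τ))) +
      rexp (-(x.arg * (1 * -τ))) * rexp (-(z.arg * (-1 * -τ)))) / 2 := by
    rw [cosh_eq, ← Real.exp_add, ← Real.exp_add]
    congr 3 <;> ring
  rw [c1, c2, zero_mul, zero_mul, exp_zero]
  field_simp
  ring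

end Pool.Agent.AEU.H12
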