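import Pool.Agent.Helper12_AEU.GermB

/-! helper12, AEU (MP_5b0138_an) Part III, FLUX: plane wave superpositions. -/

namespace Pool.Agent.AEU.H12

open MeasureTheory Filter Topology Real Set

/-- `2 K_0(x)` -/
noncomputable def E0 (x : ℝ) : ℝ := ∫ v : ℝ, rexp (-(x * cosh v))

lemma cosh_lower (v : ℝ) : 1 + v ^ 2 / 2 ≤ cosh v := by linarith [half_sq_le v]

lemma int_ecosh {x : ℝ} (hx : 0 < x) : Integrable (fun v : ℝ => rexp (-(x * cosh v))) := by
  refine (integrable_exp_neg_mul_sq (b := x / 2) (by positivity)).mono' (by fun_prop)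
    (Eventually.of_forall fun v => ?_)
  rw [Real.norm_eq_abs, abs_of_pos (exp_pos _)]
  apply exp_le_exp.mpr
  have := mul_le_mul_of_nonneg_left (cosh_lower v) hx.le
  nlinarith

lemma E0_nonneg (x : ℝ) : 0 ≤ E0 x := integral_nonneg fun _ => (exp_pos _).le

lemma E0_le {x : ℝ} (hx : 0 < x) : E0 x ≤ rexp (-x) * √(2 * π / x) := by
  have h1 : E0 x ≤ ∫ v : ℝ, rexp (-x) * rexp (-(x / 2) * v ^ 2) := by
    apply integral_mono (int_ecosh hx)
    · exact (integrable_exp_neg_mul_sq (b := x / 2) (by positivity)).const_mul _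
    intro v
    simp only
    rw [← Real.exp_add]
    apply exp_le_exp.mpr
    have := mul_le_mul_of_nonneg_left (cosh_lower v) hx.le
    nlinarith
  rw [integral_const_mul, integral_gaussian] at h1
  have e : π / (x / 2) = 2 * π / x := by field_simp
  rwa [e] at h1

/-- exponential decay -/
lemma E0_decay {x y : ℝ} (hx : 0 < x) (hxy : x ≤ y) : E0 y ≤ E0 x * rexp (-(y - x)) := by
  unfold E0
  rw [← integral_mul_const]
  apply integral_mono (int_ecosh (hx.trans_le hxy)) ((int_ecosh hx).mul_const _)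
  intro v
  simp only
  rw [← Real.exp_add]
  apply exp_le_exp.mpr
  have h1 := one_le_cosh v
  nlinarith

lemma E0_anti {x y : ℝ} (hx : 0 < x) (hxy : x ≤ y) : E0 y ≤ E0 x := by
  refine (E0_decay hx hxy).trans ?_
  have h1 : rexp (-(y - x)) ≤ 1 := by
    rw [← Real.exp_zero]; exact exp_le_exp.mpr (by linarith)
  have := E0_nonneg x
  nlinarith

/-- integrand of the plane wave superposition -/
noncomputable def pwi (p s τ u : ℝ) : ℂ :=
  Complex.exp (((-(p * cosh u) : ℝ) : ℂ) + ((s * sinh u + τ * u : ℝ) : ℂ) * Complex.I)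

/-- plane wave superposition `K_{i τ}(r) exp(- τ ψ)` at the point `(p, s) = r (cos ψ, sin ψ)` -/
noncomputable def pw (p s τ : ℝ) : ℂ := (1 / 2 : ℂ) * ∫ u : ℝ, pwi p s τ u

lemma norm_pwi (p s τ u : ℝ) : ‖pwi p s τ u‖ = rexp (-(p * cosh u)) := by
  unfold pwi
  rw [Complex.norm_exp]
  simp

lemma continuous_pwi (p s τ : ℝ) : Continuous (pwi p s τ) := by
  unfold pwi
  fun_prop

lemma int_pwi {p : ℝ} (hp : 0 < p) (s τ : ℝ) : Integrable (pwi p s τ) := by
  refine (int_ecosh hp).mono' (continuous_pwi p s τ).aestronglyMeasurable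
    (Eventually.of_forall fun u => ?_)
  rw [norm_pwi]

lemma continuous_pw {p : ℝ} (hp : 0 < p) (τ : ℝ) : Continuous fun s => pw p s τ := by
  unfold pw
  apply Continuous.mul continuous_const
  apply continuous_of_dominated (bound := fun u => rexp (-(p * cosh u)))
  · intro s; exact (continuous_pwi p s τ).aestronglyMeasurable
  · intro s; exact Eventually.of_forall fun u => by rw [norm_pwi]
  · exact int_ecosh hp
  · refine Eventually.of_forall fun u => ?_
    unfold pwi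
    fun_prop

/-- `K_{i τ}(x)` -/
noncomputable def Kit (τ x : ℝ) : ℝ := ∫ v in Ioi (0 : ℝ), rexp (-(x * cosh v)) * cos (τ * v)

/-- contour shift for `K_{i τ}` -/
def KitShift : Prop :=
  ∀ τ x φ : ℝ, 0 < x → |φ| < π / 2 →
    ((rexp (φ * τ) * Kit τ x : ℝ) : ℂ) =
      (1 / 2 : ℂ) * ∫ v : ℝ, pwi (x * cos φ) (-(x * sin φ)) τ v

lemma sqrt_polar {p s : ℝ} (hp : 0 < p) :
    √(p ^ 2 + s ^ 2) * cos (arctan (s / p)) = p ∧ √(p ^ 2 + s ^ 2) * sin (arctan (s / p)) = s := by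
  have h1 : √(1 + (s / p) ^ 2) = √(p ^ 2 + s ^ 2) / p := by
    rw [eq_div_iff hp.ne', ← Real.sqrt_sq hp.le, ← Real.sqrt_mul (by positivity), Real.sqrt_sq hp.le]
    congr 1
    field_simp
  have h2 : 0 < √(p ^ 2 + s ^ 2) := Real.sqrt_pos.mpr (by positivity)
  rw [Real.cos_arctan, Real.sin_arctan, h1]
  constructor
  · field_simp
  · field_simp

lemma pw_eq (hK : KitShift) {p s : ℝ} (τ : ℝ) (hp : 0 < p) :
    pw p s τ = ((rexp (-(arctan (s / p) * τ)) * Kit τ (√(p ^ 2 + s ^ 2)) : ℝ) : ℂ) := by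
  obtain ⟨h1, h2⟩ := sqrt_polar (s := s) hp
  have h3 : 0 < √(p ^ 2 + s ^ 2) := Real.sqrt_pos.mpr (by positivity)
  have h := hK τ (√(p ^ 2 + s ^ 2)) (-(arctan (s / p))) h3 (by
    rw [abs_neg, abs_lt]; exact ⟨neg_pi_div_two_lt_arctan _, arctan_lt_pi_div_two _⟩)
  rw [cos_neg, sin_neg, mul_neg, neg_neg, h1, h2, neg_mul] at h
  rw [h]
  rfl

/-- the main bound -/
lemma pw_bound (hK : KitShift) {p s τ φ : ℝ} (hp : 0 < p) (hφ : |φ| < π / 2)
    (h : 0 < p * cos φ + s * sin φ) :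
    ‖pw p s τ‖ ≤ rexp (-(φ * τ)) * (E0 (p * cos φ + s * sin φ) / 2) := by
  obtain ⟨h1, h2⟩ := sqrt_polar (s := s) hp
  set r := √(p ^ 2 + s ^ 2) with hr
  set ψ := arctan (s / p) with hψ
  have h3 : 0 < r := Real.sqrt_pos.mpr (by positivity)
  have hψ1 : ψ < π / 2 := arctan_lt_pi_div_two _
  have hψ2 : -(π / 2) < ψ := neg_pi_div_two_lt_arctan _
  rw [abs_lt] at hφ
  have e1 : r * cos (φ - ψ) = p * cos φ + s * sin φ := by
    rw [cos_sub, ← h1, ← h2]; ring
  have h4 : 0 < cos (φ - ψ) := by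
    rw [← e1] at h
    exact (mul_pos_iff_of_pos_left h3).mp h
  have h5 : |φ - ψ| < π / 2 := by
    by_contra hcon
    push Not at hcon
    have h6 : |φ - ψ| ≤ π + π / 2 := by rw [abs_le]; constructor <;> linarith [pi_pos]
    have := cos_nonpos_of_pi_div_two_le_of_le hcon h6
    rw [cos_abs] at this
    linarith
  have h6 := hK τ r (φ - ψ) h3 h5
  rw [pw_eq hK τ hp]
  have e2 : rexp (-(ψ * τ)) * Kit τ r = rexp (-(φ * τ)) * (rexp ((φ - ψ) * τ) * Kit τ r) := by
    rw [← mul_assoc, ← Real.exp_add]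
    congr 2
    ring
  rw [← hψ, ← hr, e2]
  push_cast
  rw [norm_mul]
  push_cast at h6
  rw [h6]
  have e3 : ‖Complex.exp (-(φ * τ) : ℂ)‖ = rexp (-(φ * τ)) := by
    rw [Complex.norm_exp]; simp
  rw [e3]
  gcongr
  rw [norm_mul]
  have e4 : ‖(1 / 2 : ℂ)‖ = 1 / 2 := by norm_num
  rw [e4]
  have h7 : ‖∫ v : ℝ, pwi (r * cos (φ - ψ)) (-(r * sin (φ - ψ))) τ v‖
      ≤ E0 (p * cos φ + s * sin φ) := by
    refine (norm_integral_le_integral_norm _).trans ?_
    unfold E0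
    rw [← e1]
    simp_rw [norm_pwi]
    rfl
  linarith

end Pool.Agent.AEU.H12
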