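import Pool.Agent.Helper12_AEU.LineFlux

/-! helper12, AEU (MP_5b0138_an) Part III, FLUX: the integral across the cut-off line. -/

namespace Pool.Agent.AEU.H12

open MeasureTheory Filter Topology Real Set

/-- cut-off: indicator of the half line beyond `X0` -/
noncomputable def chi (X0 t : ℝ) : ℝ := if X0 ≤ t then 1 else 0

lemma chi_meas (X0 : ℝ) : Measurable (chi X0) :=
  Measurable.ite measurableSet_Ici measurable_const measurable_const

lemma chi_nonneg (X0 t : ℝ) : 0 ≤ chi X0 t := by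
  unfold chi
  split_ifs <;> simp

lemma chi_le_one (X0 t : ℝ) : chi X0 t ≤ 1 := by
  unfold chi
  split_ifs <;> simp

lemma chi_sub_le (X0 s t : ℝ) : |chi X0 s - chi X0 t| ≤ 1 := by
  rw [abs_le]
  constructor <;> linarith [chi_nonneg X0 s, chi_nonneg X0 t, chi_le_one X0 s, chi_le_one X0 t]

lemma chi_of_le {X0 t : ℝ} (h : X0 ≤ t) : chi X0 t = 1 := if_pos h

lemma chi_of_lt {X0 t : ℝ} (h : t < X0) : chi X0 t = 0 := if_neg (not_le.mpr h)

lemma chi_diff_nonneg {X0 w Y : ℝ} (hw : 0 ≤ w) :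
    chi X0 Y - chi X0 (Y + w) = -((Ico (X0 - w) X0).indicator (fun _ => (1 : ℝ)) Y) := by
  rcases le_or_gt X0 Y with h1 | h1
  · rw [chi_of_le h1, chi_of_le (by linarith), indicator_of_notMem (fun h => by
      have := h.2; linarith)]
    norm_num
  · rcases le_or_gt X0 (Y + w) with h2 | h2
    · rw [chi_of_lt h1, chi_of_le h2, indicator_of_mem (mem_Ico.mpr ⟨by linarith, h1⟩)]
      norm_num
    · rw [chi_of_lt h1, chi_of_lt h2, indicator_of_notMem (fun h => by
        have := h.1; linarith)]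
      norm_num

lemma chi_diff_nonpos {X0 w Y : ℝ} (hw : w ≤ 0) :
    chi X0 Y - chi X0 (Y + w) = (Ico X0 (X0 - w)).indicator (fun _ => (1 : ℝ)) Y := by
  rcases le_or_gt X0 Y with h1 | h1
  · rcases le_or_gt X0 (Y + w) with h2 | h2
    · rw [chi_of_le h1, chi_of_le h2, indicator_of_notMem (fun h => by
        have := h.2; linarith)]
      norm_num
    · rw [chi_of_le h1, chi_of_lt h2, indicator_of_mem (mem_Ico.mpr ⟨h1, by linarith⟩)]
      norm_num
  · rw [chi_of_lt h1, chi_of_lt (by linarith), indicator_of_notMem (fun h => by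
      have := h.1; linarith)]
    norm_num

/-- the position integral for a given displacement -/
noncomputable def NN (X0 Δ w : ℝ) : ℝ :=
  ∫ Y, (Ioo (X0 - Δ) (X0 + Δ)).indicator (fun _ => (1 : ℝ)) Y *
    ((Ioo (X0 - Δ) (X0 + Δ)).indicator (fun _ => (1 : ℝ)) (Y + w) *
      (chi X0 Y - chi X0 (Y + w)))

lemma NN_le (X0 Δ w : ℝ) : |NN X0 Δ w| ≤ |w| := by
  have hb : ∀ Y, |(Ioo (X0 - Δ) (X0 + Δ)).indicator (fun _ => (1 : ℝ)) Y *
    ((Ioo (X0 - Δ) (X0 + Δ)).indicator (fun _ => (1 : ℝ)) (Y + w) *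
      (chi X0 Y - chi X0 (Y + w)))| ≤ |chi X0 Y - chi X0 (Y + w)| := by
    intro Y
    rw [abs_mul, abs_mul]
    have h1 : ∀ Z, |(Ioo (X0 - Δ) (X0 + Δ)).indicator (fun _ => (1 : ℝ)) Z| ≤ 1 := by
      intro Z; unfold indicator; split_ifs <;> simp
    have h2 := h1 Y
    have h3 := h1 (Y + w)
    have h4 := abs_nonneg (chi X0 Y - chi X0 (Y + w))
    have h5 := abs_nonneg ((Ioo (X0 - Δ) (X0 + Δ)).indicator (fun _ => (1 : ℝ)) Y)
    have h6 := abs_nonneg ((Ioo (X0 - Δ) (X0 + Δ)).indicator (fun _ => (1 : ℝ)) (Y + w))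
    have h7 : |(Ioo (X0 - Δ) (X0 + Δ)).indicator (fun _ => (1 : ℝ)) (Y + w)| *
      |chi X0 Y - chi X0 (Y + w)| ≤ 1 * |chi X0 Y - chi X0 (Y + w)| := by gcongr
    calc _ ≤ 1 * (1 * |chi X0 Y - chi X0 (Y + w)|) := by gcongr
      _ = _ := by ring
  have hi : ∀ a b : ℝ, Integrable ((Ico a b).indicator (fun _ => (1 : ℝ))) := fun a b =>
    (integrableOn_const (by simp)).integrable_indicator measurableSet_Ico
  have hc : ∀ a b : ℝ, a ≤ b → ∫ Y, (Ico a b).indicator (fun _ => (1 : ℝ)) Y = b - a := by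
    intro a b hab
    rw [integral_indicator measurableSet_Ico, setIntegral_const]
    simp [hab]
  unfold NN
  have hn := norm_integral_le_integral_norm (μ := (volume : Measure ℝ)) (fun Y =>
    (Ioo (X0 - Δ) (X0 + Δ)).indicator (fun _ => (1 : ℝ)) Y *
    ((Ioo (X0 - Δ) (X0 + Δ)).indicator (fun _ => (1 : ℝ)) (Y + w) *
      (chi X0 Y - chi X0 (Y + w))))
  rw [Real.norm_eq_abs] at hn
  refine hn.trans ?_
  simp_rw [Real.norm_eq_abs]
  rcases le_total 0 w with hw | hw
  · rw [abs_of_nonneg hw]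
    have e : ∀ Y, |chi X0 Y - chi X0 (Y + w)| = (Ico (X0 - w) X0).indicator (fun _ => (1 : ℝ)) Y := by
      intro Y
      rw [chi_diff_nonneg hw, abs_neg, abs_of_nonneg]
      unfold indicator; split_ifs <;> simp
    calc _ ≤ ∫ Y, (Ico (X0 - w) X0).indicator (fun _ => (1 : ℝ)) Y := by
          apply integral_mono_of_nonneg (Eventually.of_forall fun _ => abs_nonneg _) (hi _ _)
          exact Eventually.of_forall fun Y => (hb Y).trans (e Y).le
      _ = w := by rw [hc _ _ (by linarith)]; ring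
  · rw [abs_of_nonpos hw]
    have e : ∀ Y, |chi X0 Y - chi X0 (Y + w)| = (Ico X0 (X0 - w)).indicator (fun _ => (1 : ℝ)) Y := by
      intro Y
      rw [chi_diff_nonpos hw, abs_of_nonneg]
      unfold indicator; split_ifs <;> simp
    calc _ ≤ ∫ Y, (Ico X0 (X0 - w)).indicator (fun _ => (1 : ℝ)) Y := by
          apply integral_mono_of_nonneg (Eventually.of_forall fun _ => abs_nonneg _) (hi _ _)
          exact Eventually.of_forall fun Y => (hb Y).trans (e Y).le
      _ = -w := by rw [hc _ _ (by linarith)]; ring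

lemma NN_eq {X0 Δ w : ℝ} (hw : |w| < Δ) : NN X0 Δ w = -w := by
  have hc : ∀ a b : ℝ, a ≤ b → ∫ Y, (Ico a b).indicator (fun _ => (1 : ℝ)) Y = b - a := by
    intro a b hab
    rw [integral_indicator measurableSet_Ico, setIntegral_const]
    simp [hab]
  rw [abs_lt] at hw
  unfold NN
  rcases le_total 0 w with h0 | h0
  · have e : ∀ Y, (Ioo (X0 - Δ) (X0 + Δ)).indicator (fun _ => (1 : ℝ)) Y *
        ((Ioo (X0 - Δ) (X0 + Δ)).indicator (fun _ => (1 : ℝ)) (Y + w) *
        (chi X0 Y - chi X0 (Y + w))) = -((Ico (X0 - w) X0).indicator (fun _ => (1 : ℝ)) Y) := by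
      intro Y
      rw [chi_diff_nonneg h0]
      by_cases hY : Y ∈ Ico (X0 - w) X0
      · have hY' := hY
        rw [mem_Ico] at hY'
        rw [indicator_of_mem hY, indicator_of_mem (show Y ∈ Ioo (X0 - Δ) (X0 + Δ) from
          ⟨by linarith, by linarith⟩), indicator_of_mem (show Y + w ∈ Ioo (X0 - Δ) (X0 + Δ) from
          ⟨by linarith, by linarith⟩)]
        norm_num
      · rw [indicator_of_notMem hY]; simp
    simp_rw [e]
    rw [integral_neg, hc _ _ (by linarith)]
    ring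
  · have e : ∀ Y, (Ioo (X0 - Δ) (X0 + Δ)).indicator (fun _ => (1 : ℝ)) Y *
        ((Ioo (X0 - Δ) (X0 + Δ)).indicator (fun _ => (1 : ℝ)) (Y + w) *
        (chi X0 Y - chi X0 (Y + w))) = (Ico X0 (X0 - w)).indicator (fun _ => (1 : ℝ)) Y := by
      intro Y
      rw [chi_diff_nonpos h0]
      by_cases hY : Y ∈ Ico X0 (X0 - w)
      · have hY' := hY
        rw [mem_Ico] at hY'
        rw [indicator_of_mem hY, indicator_of_mem (show Y ∈ Ioo (X0 - Δ) (X0 + Δ) from
          ⟨by linarith, by linarith⟩), indicator_of_mem (show Y + w ∈ Ioo (X0 - Δ) (X0 + Δ) from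
          ⟨by linarith, by linarith⟩)]
        norm_num
      · rw [indicator_of_notMem hY]; simp
    simp_rw [e]
    rw [hc _ _ (by linarith)]
    ring

/-- the integral across the cut-off line -/
noncomputable def MM (A X0 Δ lam : ℝ) : ℝ :=
  ∫ Y in Ioo (X0 - Δ) (X0 + Δ), ∫ X in Ioo (X0 - Δ) (X0 + Δ),
    g1 A (X - Y) * (chi X0 Y - chi X0 X) * rexp (-((X - Y) * lam))

lemma g1_shift {A : ℝ} (hA : 0 < A) (lam w : ℝ) :
    g1 A w * rexp (-(w * lam)) = rexp (A * lam ^ 2) * g1 A (w + 2 * A * lam) := by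
  unfold g1
  rw [mul_assoc, ← Real.exp_add, mul_left_comm, ← Real.exp_add]
  congr 2
  field_simp
  ring

lemma int_g1_mul {A : ℝ} (hA : 0 < A) : Integrable fun w => w * g1 A w := by
  have h := integrable_mul_exp_neg_mul_sq (b := 1 / (4 * A)) (by positivity)
  have h2 := h.const_mul ((√(4 * π * A))⁻¹)
  refine h2.congr (Eventually.of_forall fun w => ?_)
  simp only
  unfold g1
  have e : -(1 / (4 * A)) * w ^ 2 = -(w ^ 2 / (4 * A)) := by field_simp
  rw [e]
  ring

lemma int_g1_exp {A : ℝ} (hA : 0 < A) (lam : ℝ) :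
    Integrable fun w => g1 A w * rexp (-(w * lam)) := by
  simp_rw [g1_shift hA]
  exact ((int_g1 hA).comp_add_right _).const_mul _

lemma int_g1_exp_mul {A : ℝ} (hA : 0 < A) (lam : ℝ) :
    Integrable fun w => w * (g1 A w * rexp (-(w * lam))) := by
  simp_rw [g1_shift hA]
  have h1 := ((int_g1_mul hA).comp_add_right (2 * A * lam)).const_mul (rexp (A * lam ^ 2))
  have h2 := ((int_g1 hA).comp_add_right (2 * A * lam)).const_mul (rexp (A * lam ^ 2) * (2 * A * lam))
  refine (h1.sub h2).congr (Eventually.of_forall fun w => ?_)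
  simp only [Pi.sub_apply]
  ring

lemma integral_g1_mul (A : ℝ) : ∫ w, w * g1 A w = 0 := by
  have h : ∫ w, w * g1 A w = ∫ w, (-w) * g1 A (-w) :=
    (integral_neg_eq_self (fun w => w * g1 A w) volume).symm
  have h2 : ∀ w, (-w) * g1 A (-w) = -(w * g1 A w) := by
    intro w; unfold g1; rw [neg_sq]; ring
  simp_rw [h2] at h
  rw [integral_neg] at h
  linarith

lemma integral_g1_exp_mul {A : ℝ} (hA : 0 < A) (lam : ℝ) :
    ∫ w, (-w) * (g1 A w * rexp (-(w * lam))) = 2 * A * lam * rexp (A * lam ^ 2) := by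
  have e : ∀ w, (-w) * (g1 A w * rexp (-(w * lam))) = (fun v => rexp (A * lam ^ 2) *
      (2 * A * lam * g1 A v - v * g1 A v)) (w + 2 * A * lam) := by
    intro w
    simp only
    rw [g1_shift hA]
    ring
  simp_rw [e]
  rw [integral_add_right_eq_self (fun v => rexp (A * lam ^ 2) *
      (2 * A * lam * g1 A v - v * g1 A v)), integral_const_mul,
    integral_sub ((int_g1 hA).const_mul _) (int_g1_mul hA), integral_const_mul, integral_g1 hA,
    integral_g1_mul]
  ring

lemma MM_eq {A : ℝ} (hA : 0 < A) (X0 Δ lam : ℝ) :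
    MM A X0 Δ lam = ∫ w, NN X0 Δ w * (g1 A w * rexp (-(w * lam))) := by
  have hI : MeasurableSet (Ioo (X0 - Δ) (X0 + Δ)) := measurableSet_Ioo
  unfold MM
  rw [← integral_indicator hI]
  have h1 : ∀ Y, (Ioo (X0 - Δ) (X0 + Δ)).indicator (fun Y => ∫ X in Ioo (X0 - Δ) (X0 + Δ),
      g1 A (X - Y) * (chi X0 Y - chi X0 X) * rexp (-((X - Y) * lam))) Y
      = ∫ w, (Ioo (X0 - Δ) (X0 + Δ)).indicator (fun _ => (1 : ℝ)) Y *
        ((Ioo (X0 - Δ) (X0 + Δ)).indicator (fun _ => (1 : ℝ)) (Y + w) *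
        (chi X0 Y - chi X0 (Y + w))) * (g1 A w * rexp (-(w * lam))) := by
    intro Y
    by_cases hY : Y ∈ Ioo (X0 - Δ) (X0 + Δ)
    · rw [indicator_of_mem hY, ← integral_indicator hI]
      rw [← integral_add_left_eq_self _ Y]
      congr 1
      ext w
      rw [indicator_of_mem hY]
      by_cases hw : Y + w ∈ Ioo (X0 - Δ) (X0 + Δ)
      · rw [indicator_of_mem hw, indicator_of_mem hw, add_sub_cancel_left]
        ring
      · rw [indicator_of_notMem hw, indicator_of_notMem hw]
        ring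
    · rw [indicator_of_notMem hY, indicator_of_notMem hY]
      simp
  simp_rw [h1]
  rw [integral_integral_swap]
  · congr 1
    ext w
    rw [integral_mul_const]
    rfl
  · have hd : Integrable ((Ioo (X0 - Δ) (X0 + Δ)).indicator (fun _ => (1 : ℝ))) :=
      (integrableOn_const (by simp)).integrable_indicator hI
    refine (hd.mul_prod (int_g1_exp hA lam)).mono' ?_ (Eventually.of_forall fun z => ?_)
    · apply Measurable.aestronglyMeasurable
      unfold Function.uncurry
      have m1 : Measurable ((Ioo (X0 - Δ) (X0 + Δ)).indicator (fun _ => (1 : ℝ))) :=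
        measurable_const.indicator hI
      have m2 := chi_meas X0
      have m3 := (continuous_g1 A).measurable
      fun_prop
    · simp only [Function.uncurry]
      have hi : ∀ Z, (Ioo (X0 - Δ) (X0 + Δ)).indicator (fun _ => (1 : ℝ)) Z = 0 ∨
          (Ioo (X0 - Δ) (X0 + Δ)).indicator (fun _ => (1 : ℝ)) Z = 1 := by
        intro Z; unfold indicator; split_ifs <;> simp
      have h3 := chi_sub_le X0 z.1 (z.1 + z.2)
      have h4 : 0 ≤ g1 A z.2 * rexp (-(z.2 * lam)) := mul_nonneg (g1_nonneg _ _) (exp_pos _).le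
      rw [Real.norm_eq_abs, abs_mul, abs_of_nonneg h4]
      rcases hi z.1 with h | h <;> rcases hi (z.1 + z.2) with h' | h' <;> rw [h, h'] <;>
        simp only [zero_mul, one_mul, mul_zero, abs_zero] <;> first | exact le_refl _ | exact h4 | skip
      nlinarith

/-- tail -/
noncomputable def RR (A Δ lam : ℝ) : ℝ :=
  ∫ w, (Ioo (-Δ) Δ)ᶜ.indicator (fun w => 2 * |w| * (g1 A w * rexp (-(w * lam)))) w

lemma int_abs_g1_exp {A : ℝ} (hA : 0 < A) (lam : ℝ) :
    Integrable fun w => 2 * |w| * (g1 A w * rexp (-(w * lam))) := by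
  refine ((int_g1_exp_mul hA lam).norm.const_mul 2).congr (Eventually.of_forall fun w => ?_)
  simp only
  rw [norm_mul, Real.norm_eq_abs, Real.norm_eq_abs, abs_of_nonneg (mul_nonneg (g1_nonneg A w)
    (exp_pos _).le)]
  ring

lemma MM_sub {A : ℝ} (hA : 0 < A) (X0 Δ lam : ℝ) :
    |MM A X0 Δ lam - 2 * A * lam * rexp (A * lam ^ 2)| ≤ RR A Δ lam := by
  rw [MM_eq hA, ← integral_g1_exp_mul hA]
  have hm : Measurable (NN X0 Δ) := by
    unfold NN
    have hI : MeasurableSet (Ioo (X0 - Δ) (X0 + Δ)) := measurableSet_Ioo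
    have m1 : Measurable ((Ioo (X0 - Δ) (X0 + Δ)).indicator (fun _ => (1 : ℝ))) :=
        measurable_const.indicator hI
    have m2 := chi_meas X0
    have : Measurable (Function.uncurry fun w Y : ℝ =>
      (Ioo (X0 - Δ) (X0 + Δ)).indicator (fun _ => (1 : ℝ)) Y *
      ((Ioo (X0 - Δ) (X0 + Δ)).indicator (fun _ => (1 : ℝ)) (Y + w) *
      (chi X0 Y - chi X0 (Y + w)))) := by
      unfold Function.uncurry
      fun_prop
    exact (this.stronglyMeasurable.integral_prod_right).measurable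
  have hi1 : Integrable fun w => NN X0 Δ w * (g1 A w * rexp (-(w * lam))) := by
    refine (int_g1_exp_mul hA lam).norm.mono' ?_ (Eventually.of_forall fun w => ?_)
    · have m3 := (continuous_g1 A).measurable
      apply Measurable.aestronglyMeasurable
      fun_prop
    · rw [norm_mul, norm_mul w]
      exact mul_le_mul_of_nonneg_right (NN_le X0 Δ w) (norm_nonneg _)
  have hi2 : Integrable fun w => (-w) * (g1 A w * rexp (-(w * lam))) := by
    refine (int_g1_exp_mul hA lam).neg.congr (Eventually.of_forall fun w => ?_)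
    simp
  rw [← integral_sub hi1 hi2]
  have hn := norm_integral_le_integral_norm (μ := (volume : Measure ℝ)) (fun w =>
    NN X0 Δ w * (g1 A w * rexp (-(w * lam))) - (-w) * (g1 A w * rexp (-(w * lam))))
  rw [Real.norm_eq_abs] at hn
  refine hn.trans ?_
  unfold RR
  apply integral_mono (hi1.sub hi2).norm
  · exact (int_abs_g1_exp hA lam).indicator measurableSet_Ioo.compl
  intro w
  simp only [Pi.sub_apply]
  have h0 : 0 ≤ g1 A w * rexp (-(w * lam)) := mul_nonneg (g1_nonneg A w) (exp_pos _).le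
  rw [← sub_mul, norm_mul, Real.norm_eq_abs, Real.norm_eq_abs, abs_of_nonneg h0]
  by_cases hw : w ∈ (Ioo (-Δ) Δ)ᶜ
  · rw [indicator_of_mem hw]
    gcongr
    have := NN_le X0 Δ w
    calc |NN X0 Δ w - -w| ≤ |NN X0 Δ w| + |-w| := abs_sub _ _
      _ ≤ _ := by rw [abs_neg]; linarith
  · rw [indicator_of_notMem hw]
    have hw' : w ∈ Ioo (-Δ) Δ := by simpa using hw
    rw [NN_eq (abs_lt.mpr hw')]
    simp

end Pool.Agent.AEU.H12
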