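import Pool.Agent.Helper12_AEU.Exact

/-! helper12, AEU (MP_5b0138_an) Part III, FLUX: exact flux through a strip. -/

namespace Pool.Agent.AEU.H12

open MeasureTheory Filter Topology Real Set

lemma norm_pw_le {p : ℝ} (s τ : ℝ) : ‖pw p s τ‖ ≤ E0 p / 2 := by
  unfold pw
  rw [norm_mul]
  have h : ‖∫ u : ℝ, pwi p s τ u‖ ≤ E0 p := by
    refine (norm_integral_le_integral_norm _).trans ?_
    unfold E0
    simp_rw [norm_pwi]
    rfl
  have e4 : ‖(1 / 2 : ℂ)‖ = 1 / 2 := by norm_num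
  rw [e4]
  linarith only [h]

lemma g1_scale {a κ : ℝ} (hκ : 0 < κ) (ha : 0 < a) (w : ℝ) :
    g1 a w = κ * g1 (a * κ ^ 2) (κ * w) := by
  unfold g1
  have e1 : 4 * π * (a * κ ^ 2) = κ ^ 2 * (4 * π * a) := by ring
  rw [e1, Real.sqrt_mul (show 0 ≤ κ ^ 2 by positivity) (4 * π * a), Real.sqrt_sq hκ.le]
  have e2 : (κ * w) ^ 2 / (4 * (a * κ ^ 2)) = w ^ 2 / (4 * a) := by field_simp
  rw [e2, mul_inv, ← mul_assoc, ← mul_assoc, mul_inv_cancel₀ hκ.ne', one_mul]

lemma int_pw_line_u (hK : KitShift) {κ ξ : ℝ} (hκ : 0 < κ) (hξ : 0 < ξ) (τ : ℝ) :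
    Integrable fun s => pw (κ * ξ) (κ * s) τ :=
  (int_pw_line hK (mul_pos hκ hξ) τ).comp_mul_left' hκ.ne'

lemma line_int (hK : KitShift) {κ a ξ ξ' : ℝ} (hκ : 0 < κ) (ha : 0 < a) (hξ : 0 < ξ) (hξ' : 0 < ξ')
    (σ₁ σ₂ : ℝ) : Integrable (fun r : ℝ × ℝ => ((g1 a (r.1 - r.2) : ℝ) : ℂ) *
      (pw (κ * ξ) (κ * r.1) σ₁ * pw (κ * ξ') (κ * r.2) σ₂)) := by
  refine (((int_pw_line_u hK hκ hξ σ₁).norm.mul_prod (int_pw_line_u hK hκ hξ' σ₂).norm).const_mul
    ((√(4 * π * a))⁻¹)).mono' ?_ (Eventually.of_forall fun r => ?_)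
  · apply Continuous.aestronglyMeasurable
    have h1 := continuous_g1 a
    have h2 := continuous_pw (mul_pos hκ hξ) σ₁
    have h3 := continuous_pw (mul_pos hκ hξ') σ₂
    fun_prop
  · rw [norm_mul, norm_mul, Complex.norm_real, Real.norm_eq_abs, abs_of_nonneg (g1_nonneg _ _)]
    have := g1_le ha (r.1 - r.2)
    gcongr

/-- exact flux through a pair of lines -/
theorem line_flux_u (hK : KitShift) {κ a ξ ξ' : ℝ} (hκ : 0 < κ) (ha : 0 < a) (hξ : 0 < ξ)
    (hξ' : 0 < ξ') (σ₁ σ₂ : ℝ) :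
    ∫ r : ℝ × ℝ, ((g1 a (r.1 - r.2) : ℝ) : ℂ) *
      (pw (κ * ξ) (κ * r.1) σ₁ * pw (κ * ξ') (κ * r.2) σ₂) =
      ((π / (2 * κ) : ℝ) : ℂ) * ∫ u : ℝ, (((cosh u)⁻¹ *
        rexp (-(κ * (ξ + ξ') * cosh u) - a * κ ^ 2 * sinh u ^ 2) : ℝ) : ℂ) *
        Complex.exp ((((σ₂ - σ₁) * u : ℝ) : ℂ) * Complex.I) := by
  rw [Measure.volume_eq_prod, integral_prod]
  swap
  · rw [← Measure.volume_eq_prod]; exact line_int hK hκ ha hξ hξ' σ₁ σ₂
  simp only
  have h := line_flux hK (p := κ * ξ) (p' := κ * ξ') (A := a * κ ^ 2) (by positivity)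
    (by positivity) (by positivity) σ₁ σ₂
  set H : ℝ → ℝ → ℂ := fun s s' => ((g1 (a * κ ^ 2) (s - s') : ℝ) : ℂ) *
    (pw (κ * ξ) s σ₁ * pw (κ * ξ') s' σ₂) with hH
  have e1 : ∀ s s' : ℝ, ((g1 a (s - s') : ℝ) : ℂ) *
      (pw (κ * ξ) (κ * s) σ₁ * pw (κ * ξ') (κ * s') σ₂) = (κ : ℂ) * H (κ * s) (κ * s') := by
    intro s s'
    rw [hH, g1_scale hκ ha]
    simp only
    rw [mul_sub]
    push_cast
    ring
  simp_rw [e1]
  have e2 : ∀ s : ℝ, ∫ s' : ℝ, (κ : ℂ) * H (κ * s) (κ * s') = ∫ s' : ℝ, H (κ * s) s' := by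
    intro s
    rw [integral_const_mul, Measure.integral_comp_mul_left (fun s' => H (κ * s) s') κ,
      abs_of_pos (inv_pos.mpr hκ), Complex.real_smul, ← mul_assoc, ← Complex.ofReal_mul,
      mul_inv_cancel₀ hκ.ne', Complex.ofReal_one, one_mul]
  simp_rw [e2]
  rw [Measure.integral_comp_mul_left (fun s => ∫ s' : ℝ, H s s') κ, abs_of_pos (inv_pos.mpr hκ),
    Complex.real_smul, hH, h, ← mul_assoc, ← Complex.ofReal_mul]
  have e3 : κ⁻¹ * (π / 2) = π / (2 * κ) := by field_simp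
  rw [e3]
  congr 1
  congr 1
  ext u
  congr 5
  ring

/-- the kernel of the flux -/
noncomputable def KF (κ d a X0 σ₁ σ₂ : ℝ) (q r : ℝ × ℝ) : ℂ :=
  ((g1 a (q.1 - q.2) * (chi X0 q.2 - chi X0 q.1) * g1 a (r.1 - r.2) : ℝ) : ℂ) *
    (pw (κ * q.1) (κ * r.1) σ₁ * pw (κ * (2 * d - q.2)) (κ * r.2) σ₂)

/-- the square across the cut-off line -/
def Iq (X0 Δ : ℝ) : Set (ℝ × ℝ) := Ioo (X0 - Δ) (X0 + Δ) ×ˢ Ioo (X0 - Δ) (X0 + Δ)

lemma Iq_meas (X0 Δ : ℝ) : MeasurableSet (Iq X0 Δ) := measurableSet_Ioo.prod measurableSet_Ioo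

lemma Iq_vol (X0 Δ : ℝ) : volume (Iq X0 Δ) ≠ ⊤ := by
  unfold Iq
  rw [Measure.volume_eq_prod, Measure.prod_prod, Real.volume_Ioo]
  exact ENNReal.mul_ne_top ENNReal.ofReal_ne_top ENNReal.ofReal_ne_top

/-- exact flux through a strip -/
theorem strip_flux (hK : KitShift) {κ d a X0 Δ : ℝ} (hκ : 0 < κ) (ha : 0 < a)
    (hX : Δ < X0) (hX2 : X0 + Δ < 2 * d) (σ₁ σ₂ : ℝ) :
    ∫ q in Iq X0 Δ, ∫ r, KF κ d a X0 σ₁ σ₂ q r =
      ((π / (2 * κ) : ℝ) : ℂ) * ∫ u : ℝ, (((cosh u)⁻¹ *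
        rexp (-(2 * d * κ * cosh u) - a * κ ^ 2 * sinh u ^ 2) * MM a X0 Δ (κ * cosh u) : ℝ) : ℂ) *
        Complex.exp ((((σ₂ - σ₁) * u : ℝ) : ℂ) * Complex.I) := by
  have h1 : ∀ q ∈ Iq X0 Δ, ∫ r, KF κ d a X0 σ₁ σ₂ q r = ((π / (2 * κ) : ℝ) : ℂ) * ∫ u : ℝ,
      ((g1 a (q.1 - q.2) * (chi X0 q.2 - chi X0 q.1) * ((cosh u)⁻¹ *
        rexp (-(κ * (2 * d + q.1 - q.2) * cosh u) - a * κ ^ 2 * sinh u ^ 2)) : ℝ) : ℂ) *
        Complex.exp ((((σ₂ - σ₁) * u : ℝ) : ℂ) * Complex.I) := by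
    intro q hq
    have hq1 : 0 < q.1 := by have := hq.1.1; linarith
    have hq2 : 0 < 2 * d - q.2 := by have := hq.2.2; linarith
    have e : ∀ r, KF κ d a X0 σ₁ σ₂ q r = ((g1 a (q.1 - q.2) * (chi X0 q.2 - chi X0 q.1) : ℝ) : ℂ) *
        (((g1 a (r.1 - r.2) : ℝ) : ℂ) * (pw (κ * q.1) (κ * r.1) σ₁ *
          pw (κ * (2 * d - q.2)) (κ * r.2) σ₂)) := by
      intro r
      unfold KF
      push_cast
      ring
    simp_rw [e]
    rw [integral_const_mul, line_flux_u hK hκ ha hq1 hq2, mul_left_comm, ← integral_const_mul]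
    congr 1
    congr 1
    ext u
    have e2 : q.1 + (2 * d - q.2) = 2 * d + q.1 - q.2 := by ring
    rw [e2]
    push_cast
    ring
  rw [setIntegral_congr_fun (Iq_meas X0 Δ) h1, integral_const_mul]
  congr 1
  rw [integral_integral_swap]
  · congr 1
    ext u
    have h2 : ∀ q : ℝ × ℝ, ((g1 a (q.1 - q.2) * (chi X0 q.2 - chi X0 q.1) * ((cosh u)⁻¹ *
        rexp (-(κ * (2 * d + q.1 - q.2) * cosh u) - a * κ ^ 2 * sinh u ^ 2)) : ℝ) : ℂ) *
        Complex.exp ((((σ₂ - σ₁) * u : ℝ) : ℂ) * Complex.I) =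
        ((g1 a (q.1 - q.2) * (chi X0 q.2 - chi X0 q.1) * rexp (-((q.1 - q.2) * (κ * cosh u))) : ℝ) : ℂ) *
        ((((cosh u)⁻¹ * rexp (-(2 * d * κ * cosh u) - a * κ ^ 2 * sinh u ^ 2) : ℝ) : ℂ) *
        Complex.exp ((((σ₂ - σ₁) * u : ℝ) : ℂ) * Complex.I)) := by
      intro q
      have e3 : rexp (-(κ * (2 * d + q.1 - q.2) * cosh u) - a * κ ^ 2 * sinh u ^ 2) =
        rexp (-((q.1 - q.2) * (κ * cosh u))) *
          rexp (-(2 * d * κ * cosh u) - a * κ ^ 2 * sinh u ^ 2) := by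
        rw [← Real.exp_add]; congr 1; ring
      rw [e3]
      push_cast
      ring
    simp_rw [h2]
    rw [integral_mul_const, integral_complex_ofReal]
    have h3 := MM_prod a X0 Δ (κ * cosh u)
    unfold Iq
    rw [h3, ← mul_assoc, ← Complex.ofReal_mul]
    congr 2
    ring
  · have h4 : 0 < κ * (2 * d - 2 * Δ) := mul_pos hκ (by linarith)
    have hc : IntegrableOn (fun _ : ℝ × ℝ => (√(4 * π * a))⁻¹) (Iq X0 Δ) :=
      integrableOn_const (Iq_vol X0 Δ)
    have h5 := hc.mul_prod (int_ecosh h4)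
    have hmem : ∀ᵐ z : (ℝ × ℝ) × ℝ ∂((volume.restrict (Iq X0 Δ)).prod volume), z.1 ∈ Iq X0 Δ := by
      have hA : ∀ᵐ q ∂(volume.restrict (Iq X0 Δ)), q ∈ Iq X0 Δ := ae_restrict_mem (Iq_meas X0 Δ)
      exact Measure.quasiMeasurePreserving_fst.ae hA
    refine h5.mono' ?_ ?_
    · apply Measurable.aestronglyMeasurable
      unfold Function.uncurry
      have m1 := (continuous_g1 a).measurable
      have m2 := chi_meas X0
      fun_prop
    · filter_upwards [hmem] with z hz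
      simp only [Function.uncurry]
      have hz1 : -(2 * Δ) < z.1.1 - z.1.2 := by
        have := hz.1.1; have := hz.2.2; linarith
      rw [norm_mul, Complex.norm_real, Complex.norm_exp_ofReal_mul_I, mul_one, Real.norm_eq_abs,
        abs_mul, abs_mul, abs_of_nonneg (g1_nonneg _ _)]
      have h6 := chi_sub_le X0 z.1.2 z.1.1
      have h7 := g1_le ha (z.1.1 - z.1.2)
      have h8 : |(cosh z.2)⁻¹ * rexp (-(κ * (2 * d + z.1.1 - z.1.2) * cosh z.2) -
          a * κ ^ 2 * sinh z.2 ^ 2)| ≤ rexp (-(κ * (2 * d - 2 * Δ) * cosh z.2)) := by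
        have hcp := cosh_pos z.2
        rw [abs_of_nonneg (by positivity)]
        have h9 : (cosh z.2)⁻¹ ≤ 1 := inv_le_one_of_one_le₀ (one_le_cosh _)
        have h10 : rexp (-(κ * (2 * d + z.1.1 - z.1.2) * cosh z.2) - a * κ ^ 2 * sinh z.2 ^ 2) ≤
            rexp (-(κ * (2 * d - 2 * Δ) * cosh z.2)) := by
          apply exp_le_exp.mpr
          have : 0 ≤ a * κ ^ 2 * sinh z.2 ^ 2 := by positivity
          have h11 : κ * (2 * d - 2 * Δ) * cosh z.2 ≤ κ * (2 * d + z.1.1 - z.1.2) * cosh z.2 := by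
            apply mul_le_mul_of_nonneg_right _ hcp.le
            apply mul_le_mul_of_nonneg_left _ hκ.le
            linarith
          linarith
        calc _ ≤ 1 * rexp (-(κ * (2 * d - 2 * Δ) * cosh z.2)) := by gcongr
          _ = _ := one_mul _
      have h12 : g1 a (z.1.1 - z.1.2) * |chi X0 z.1.2 - chi X0 z.1.1| ≤ (√(4 * π * a))⁻¹ := by
        have := g1_nonneg a (z.1.1 - z.1.2)
        calc _ ≤ g1 a (z.1.1 - z.1.2) * 1 := by gcongr
          _ ≤ _ := by linarith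
      have h13 : 0 ≤ (√(4 * π * a))⁻¹ := by positivity
      exact mul_le_mul h12 h8 (abs_nonneg _) h13

lemma sqrt_bound {c κ : ℝ} (hc : 0 < c) (hκ : 1 ≤ κ) :
    (√(4 * π * (c / κ)))⁻¹ ≤ κ * (√(4 * π * c))⁻¹ := by
  have h0 : 0 < κ := by linarith
  have e : 4 * π * (c / κ) = (4 * π * c) / κ := by ring
  rw [e, Real.sqrt_div (by positivity), inv_div, div_eq_mul_inv]
  gcongr
  rw [Real.sqrt_le_left h0.le]
  nlinarith only [hκ]

/-- pointwise error of the strip flux -/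
lemma strip_pt {d Δ M c κ : ℝ} (X0 : ℝ) (hd : 0 < d) (hΔ : 0 < Δ) (hM : 0 < M) (hc : 0 < c)
    (hc1 : c ≤ Δ ^ 2 / (16 * M)) (hc2 : c ≤ d * Δ / (8 * M)) (hκ : 1 ≤ κ) (u : ℝ) :
    |κ / c * rexp (-(κ * c)) * (π / (2 * κ)) * ((cosh u)⁻¹ *
        rexp (-(2 * d * κ * cosh u) - c / κ * κ ^ 2 * sinh u ^ 2) * MM (c / κ) X0 Δ (κ * cosh u)) -
        π * rexp (-(2 * d * κ * cosh u))| ≤
        π * (16 * (√(4 * π * c))⁻¹ + 2 * (1 + 2 * (√(4 * π * c))⁻¹)) * rexp (-(κ * M)) *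
          rexp (-(d * κ * cosh u)) := by
  set Q := (√(4 * π * c))⁻¹ with hQ
  have hQ0 : 0 ≤ Q := by positivity
  have hκ0 : 0 < κ := by linarith
  have ha : 0 < c / κ := by positivity
  have hch := cosh_pos u
  have hch1 := one_le_cosh u
  have e1 : rexp (-(κ * c)) * rexp (-(2 * d * κ * cosh u) - c / κ * κ ^ 2 * sinh u ^ 2) =
      rexp (-(2 * d * κ * cosh u)) * rexp (-(c * κ * cosh u ^ 2)) := by
    rw [← Real.exp_add, ← Real.exp_add]
    congr 1
    have h2 := Real.cosh_sq u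
    have h3 : c / κ * κ ^ 2 = c * κ := by field_simp
    rw [h3, h2]
    ring
  have e2 : κ / c * rexp (-(κ * c)) * (π / (2 * κ)) * ((cosh u)⁻¹ *
      rexp (-(2 * d * κ * cosh u) - c / κ * κ ^ 2 * sinh u ^ 2) * MM (c / κ) X0 Δ (κ * cosh u))
      = π * rexp (-(2 * d * κ * cosh u)) * (MM (c / κ) X0 Δ (κ * cosh u) *
        (rexp (-(c * κ * cosh u ^ 2)) / (2 * c * cosh u))) := by
    calc _ = (κ / c * (π / (2 * κ)) * (cosh u)⁻¹ * MM (c / κ) X0 Δ (κ * cosh u)) *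
          (rexp (-(κ * c)) * rexp (-(2 * d * κ * cosh u) - c / κ * κ ^ 2 * sinh u ^ 2)) := by ring
      _ = _ := by
        rw [e1]
        field_simp
  have h4 := MM_sub ha X0 Δ (κ * cosh u)
  have e3 : 2 * (c / κ) * (κ * cosh u) * rexp (c / κ * (κ * cosh u) ^ 2) =
      2 * c * cosh u * rexp (c * κ * cosh u ^ 2) := by
    have : c / κ * (κ * cosh u) ^ 2 = c * κ * cosh u ^ 2 := by field_simp
    rw [this]
    field_simp
  rw [e3] at h4
  have hw : 0 < rexp (-(c * κ * cosh u ^ 2)) / (2 * c * cosh u) := by positivity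
  have e4 : 2 * c * cosh u * rexp (c * κ * cosh u ^ 2) *
      (rexp (-(c * κ * cosh u ^ 2)) / (2 * c * cosh u)) = 1 := by
    rw [Real.exp_neg]
    field_simp
  have e5 : π * rexp (-(2 * d * κ * cosh u)) * (MM (c / κ) X0 Δ (κ * cosh u) *
        (rexp (-(c * κ * cosh u ^ 2)) / (2 * c * cosh u))) - π * rexp (-(2 * d * κ * cosh u)) =
      π * rexp (-(2 * d * κ * cosh u)) * ((MM (c / κ) X0 Δ (κ * cosh u) -
        2 * c * cosh u * rexp (c * κ * cosh u ^ 2)) *
        (rexp (-(c * κ * cosh u ^ 2)) / (2 * c * cosh u))) := by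
    rw [sub_mul, e4]; ring
  rw [e2, e5, abs_mul, abs_of_pos (by positivity), abs_mul, abs_of_pos hw]
  have hRR : RR (c / κ) Δ (κ * cosh u) * (rexp (-(c * κ * cosh u ^ 2)) / (2 * c * cosh u)) *
      rexp (-(2 * d * κ * cosh u)) ≤ (16 * Q + 2 * (1 + 2 * Q)) * rexp (-(κ * M)) *
        rexp (-(d * κ * cosh u)) := by
    have hs := sqrt_bound hc hκ
    rw [← hQ] at hs
    have hexp1 : rexp (-(c * κ * cosh u ^ 2)) ≤ 1 := by
      rw [← Real.exp_zero]; apply exp_le_exp.mpr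
      have : 0 ≤ c * κ * cosh u ^ 2 := by positivity
      linarith only [this]
    have hden : 1 / (2 * c * cosh u) ≤ 1 / (2 * c) := by
      apply one_div_le_one_div_of_le (by positivity)
      nlinarith only [hc, hch1]
    rcases le_or_gt (κ * cosh u) (Δ / (8 * (c / κ))) with hcase | hcase
    · have h5 := RR1 ha hΔ (by positivity) hcase
      have h6 : rexp (-(Δ ^ 2 / (16 * (c / κ)))) ≤ rexp (-(κ * M)) := by
        apply exp_le_exp.mpr
        have : κ * M ≤ Δ ^ 2 / (16 * (c / κ)) := by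
          rw [le_div_iff₀ (by positivity)] at hc1 ⊢
          calc κ * M * (16 * (c / κ)) = c * (16 * M) := by field_simp
            _ ≤ Δ ^ 2 := hc1
        linarith only [this]
      have h7 : RR (c / κ) Δ (κ * cosh u) * (rexp (-(c * κ * cosh u ^ 2)) / (2 * c * cosh u)) ≤
          16 * Q * rexp (-(κ * M)) := by
        calc RR (c / κ) Δ (κ * cosh u) * (rexp (-(c * κ * cosh u ^ 2)) / (2 * c * cosh u))
            ≤ (32 * (c / κ) * (κ * Q) * rexp (-(κ * M))) * (1 / (2 * c)) := by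
              have h8 : RR (c / κ) Δ (κ * cosh u) ≤ 32 * (c / κ) * (κ * Q) * rexp (-(κ * M)) := by
                refine h5.trans ?_
                gcongr
              have h9 : rexp (-(c * κ * cosh u ^ 2)) / (2 * c * cosh u) ≤ 1 / (2 * c) := by
                refine le_trans ?_ hden
                gcongr
              have h10 := RR_nonneg (c / κ) Δ (κ * cosh u)
              have h11 : 0 ≤ 32 * (c / κ) * (κ * Q) * rexp (-(κ * M)) := by positivity
              gcongr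
          _ = _ := by field_simp; ring
      have h12 : rexp (-(2 * d * κ * cosh u)) ≤ rexp (-(d * κ * cosh u)) := by
        apply exp_le_exp.mpr
        have : 0 ≤ d * κ * cosh u := by positivity
        linarith only [this]
      calc _ ≤ 16 * Q * rexp (-(κ * M)) * rexp (-(d * κ * cosh u)) := by
            have h10 := RR_nonneg (c / κ) Δ (κ * cosh u)
            gcongr
        _ ≤ _ := by gcongr; linarith only [hQ0]
    · have h5 := RR2 (Δ := Δ) ha (lam := κ * cosh u) (by positivity)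
      have e6 : c / κ * (κ * cosh u) ^ 2 = c * κ * cosh u ^ 2 := by field_simp
      rw [e6] at h5
      have h7 : RR (c / κ) Δ (κ * cosh u) * (rexp (-(c * κ * cosh u ^ 2)) / (2 * c * cosh u)) ≤
          2 * (1 + 2 * Q) := by
        calc RR (c / κ) Δ (κ * cosh u) * (rexp (-(c * κ * cosh u ^ 2)) / (2 * c * cosh u))
            ≤ (2 * rexp (c * κ * cosh u ^ 2) * (2 * (c / κ) * (κ * cosh u) +
              (κ * Q) * (4 * (c / κ)))) * (rexp (-(c * κ * cosh u ^ 2)) / (2 * c * cosh u)) := by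
              apply mul_le_mul_of_nonneg_right _ hw.le
              refine h5.trans ?_
              gcongr
          _ = 2 * (1 + 2 * Q / cosh u) := by
              rw [Real.exp_neg]
              field_simp
              ring
          _ ≤ 2 * (1 + 2 * Q) := by
              have : 2 * Q / cosh u ≤ 2 * Q := div_le_self (by positivity) hch1
              linarith only [this]
      have h12 : rexp (-(2 * d * κ * cosh u)) ≤ rexp (-(κ * M)) * rexp (-(d * κ * cosh u)) := by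
        rw [← Real.exp_add]
        apply exp_le_exp.mpr
        have h13 : Δ / (8 * c) < cosh u := by
          have e7 : Δ / (8 * (c / κ)) = κ * (Δ / (8 * c)) := by field_simp
          rw [e7] at hcase
          exact lt_of_mul_lt_mul_left hcase hκ0.le
        have h14 : M ≤ d * cosh u := by
          have h15 : M ≤ d * (Δ / (8 * c)) := by
            rw [le_div_iff₀ (by positivity)] at hc2
            rw [← mul_div_assoc, le_div_iff₀ (by positivity)]
            linarith only [hc2]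
          nlinarith only [h15, hd, h13]
        nlinarith only [h14, hκ]
      calc _ ≤ 2 * (1 + 2 * Q) * (rexp (-(κ * M)) * rexp (-(d * κ * cosh u))) := by
            have h10 := RR_nonneg (c / κ) Δ (κ * cosh u)
            gcongr
        _ ≤ _ := by
            rw [← mul_assoc]
            gcongr
            linarith only [hQ0]
  calc _ ≤ π * rexp (-(2 * d * κ * cosh u)) * (RR (c / κ) Δ (κ * cosh u) *
        (rexp (-(c * κ * cosh u ^ 2)) / (2 * c * cosh u))) := by gcongr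
    _ = π * (RR (c / κ) Δ (κ * cosh u) * (rexp (-(c * κ * cosh u ^ 2)) / (2 * c * cosh u)) *
      rexp (-(2 * d * κ * cosh u))) := by ring
    _ ≤ π * ((16 * Q + 2 * (1 + 2 * Q)) * rexp (-(κ * M)) * rexp (-(d * κ * cosh u))) := by
        gcongr
    _ = _ := by ring

/-- flux of a pair of plane wave superpositions through a strip, with a uniform error -/
theorem strip_err (hK : KitShift) {d Δ M : ℝ} (hd : 0 < d) (hΔ : 0 < Δ) (hM : 0 < M) :
    ∃ c0, 0 < c0 ∧ ∀ c, 0 < c → c < c0 → ∃ C, 0 ≤ C ∧ ∀ κ X0 σ₁ σ₂ : ℝ, 1 ≤ κ → Δ < X0 →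
      X0 + Δ < 2 * d →
      ‖((κ / c * rexp (-(κ * c)) : ℝ) : ℂ) * (∫ q in Iq X0 Δ, ∫ r, KF κ d (c / κ) X0 σ₁ σ₂ q r) -
        ((π : ℝ) : ℂ) * ∫ u : ℝ, ((rexp (-(2 * d * κ * cosh u)) : ℝ) : ℂ) *
          Complex.exp ((((σ₂ - σ₁) * u : ℝ) : ℂ) * Complex.I)‖ ≤ C * rexp (-(κ * M)) := by
  refine ⟨min (Δ ^ 2 / (16 * M)) (d * Δ / (8 * M)), by positivity, fun c hc hcc => ?_⟩
  have hc1 : c ≤ Δ ^ 2 / (16 * M) := (hcc.trans_le (min_le_left _ _)).le
  have hc2 : c ≤ d * Δ / (8 * M) := (hcc.trans_le (min_le_right _ _)).le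
  set Q := (√(4 * π * c))⁻¹ with hQ
  have hQ0 : 0 ≤ Q := by positivity
  refine ⟨π * (16 * Q + 2 * (1 + 2 * Q)) * E0 d, by have := E0_nonneg d; positivity,
    fun κ X0 σ₁ σ₂ hκ hX hX2 => ?_⟩
  have hκ0 : 0 < κ := by linarith
  have ha : 0 < c / κ := by positivity
  rw [strip_flux hK hκ0 ha hX hX2, ← mul_assoc, ← Complex.ofReal_mul, ← integral_const_mul,
    ← integral_const_mul]
  have hdk : 0 < d * κ := by positivity
  have hMMm : Measurable fun u : ℝ => MM (c / κ) X0 Δ (κ * cosh u) := by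
    unfold MM
    have m1 := (continuous_g1 (c / κ)).measurable
    have m2 := chi_meas X0
    have : Measurable (fun z : (ℝ × ℝ) × ℝ => g1 (c / κ) (z.2 - z.1.2) *
      (chi X0 z.1.2 - chi X0 z.2) * rexp (-((z.2 - z.1.2) * (κ * cosh z.1.1)))) := by fun_prop
    have h1 := this.stronglyMeasurable.integral_prod_right'
      (ν := volume.restrict (Ioo (X0 - Δ) (X0 + Δ)))
    exact (h1.integral_prod_right' (ν := volume.restrict (Ioo (X0 - Δ) (X0 + Δ)))).measurable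
  have hpt := fun u : ℝ => strip_pt X0 hd hΔ hM hc hc1 hc2 hκ u
  rw [← hQ] at hpt
  have hgi : Integrable fun u : ℝ => π * (16 * Q + 2 * (1 + 2 * Q)) * rexp (-(κ * M)) *
      rexp (-(d * κ * cosh u)) := (int_ecosh hdk).const_mul _
  have hsub : (∫ u : ℝ, ((κ / c * rexp (-(κ * c)) * (π / (2 * κ)) : ℝ) : ℂ) * ((((cosh u)⁻¹ *
        rexp (-(2 * d * κ * cosh u) - c / κ * κ ^ 2 * sinh u ^ 2) *
        MM (c / κ) X0 Δ (κ * cosh u) : ℝ) : ℂ) *
        Complex.exp ((((σ₂ - σ₁) * u : ℝ) : ℂ) * Complex.I))) -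
      ∫ u : ℝ, ((π : ℝ) : ℂ) * (((rexp (-(2 * d * κ * cosh u)) : ℝ) : ℂ) *
          Complex.exp ((((σ₂ - σ₁) * u : ℝ) : ℂ) * Complex.I)) =
      ∫ u : ℝ, ((κ / c * rexp (-(κ * c)) * (π / (2 * κ)) * ((cosh u)⁻¹ *
        rexp (-(2 * d * κ * cosh u) - c / κ * κ ^ 2 * sinh u ^ 2) * MM (c / κ) X0 Δ (κ * cosh u)) -
        π * rexp (-(2 * d * κ * cosh u)) : ℝ) : ℂ) *
        Complex.exp ((((σ₂ - σ₁) * u : ℝ) : ℂ) * Complex.I) := by
    have hi2 : Integrable fun u : ℝ => ((π : ℝ) : ℂ) * (((rexp (-(2 * d * κ * cosh u)) : ℝ) : ℂ) *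
          Complex.exp ((((σ₂ - σ₁) * u : ℝ) : ℂ) * Complex.I)) := by
      have hdk2 : 0 < 2 * d * κ := by positivity
      refine ((int_ecosh hdk2).const_mul π).mono' (by
        apply Continuous.aestronglyMeasurable; fun_prop) (Eventually.of_forall fun u => ?_)
      rw [norm_mul, norm_mul, Complex.norm_exp_ofReal_mul_I, mul_one, Complex.norm_real,
        Complex.norm_real, Real.norm_eq_abs, Real.norm_eq_abs, abs_of_pos pi_pos,
        abs_of_pos (exp_pos _)]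
    have hi3 : Integrable fun u : ℝ => ((κ / c * rexp (-(κ * c)) * (π / (2 * κ)) * ((cosh u)⁻¹ *
        rexp (-(2 * d * κ * cosh u) - c / κ * κ ^ 2 * sinh u ^ 2) * MM (c / κ) X0 Δ (κ * cosh u)) -
        π * rexp (-(2 * d * κ * cosh u)) : ℝ) : ℂ) *
        Complex.exp ((((σ₂ - σ₁) * u : ℝ) : ℂ) * Complex.I) := by
      refine hgi.mono' ?_ (Eventually.of_forall fun u => ?_)
      · apply Measurable.aestronglyMeasurable
        fun_prop
      · rw [norm_mul, Complex.norm_exp_ofReal_mul_I, mul_one, Complex.norm_real, Real.norm_eq_abs]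
        exact hpt u
    rw [← integral_sub' , ]
    · congr 1
      ext u
      simp only [Pi.sub_apply]
      push_cast
      ring
    · have := hi3.add hi2
      refine this.congr (Eventually.of_forall fun u => ?_)
      simp only [Pi.add_apply]
      push_cast
      ring
    · exact hi2
  rw [hsub]
  refine (norm_integral_le_of_norm_le hgi (Eventually.of_forall fun u => ?_)).trans ?_
  · rw [norm_mul, Complex.norm_exp_ofReal_mul_I, mul_one, Complex.norm_real, Real.norm_eq_abs]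
    exact hpt u
  · rw [integral_const_mul]
    have h15 : ∫ u : ℝ, rexp (-(d * κ * cosh u)) ≤ E0 d := by
      have : E0 (d * κ) ≤ E0 d := E0_anti hd (by nlinarith only [hd, hκ])
      exact this
    calc _ ≤ π * (16 * Q + 2 * (1 + 2 * Q)) * rexp (-(κ * M)) * E0 d := by gcongr
      _ = _ := by ring

end Pool.Agent.AEU.H12
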