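import Pool.Agent.Helper12_AEU.Strip

/-! helper12, AEU (MP_5b0138_an) Part III, FLUX: tails. -/

namespace Pool.Agent.AEU.H12

open MeasureTheory Filter Topology Real Set

/-- a constant -/
noncomputable def CE : ℝ := E0 1 * rexp 1

lemma CE_nonneg : 0 ≤ CE := mul_nonneg (E0_nonneg _) (exp_pos _).le

lemma E0_le_exp {y : ℝ} (hy : 1 ≤ y) : E0 y ≤ CE * rexp (-y) := by
  have h := E0_decay one_pos hy
  have e : -(y - 1) = 1 + -y := by ring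
  rw [e, Real.exp_add, ← mul_assoc] at h
  exact h

lemma integral_exp_abs {b : ℝ} (hb : 0 < b) : ∫ s : ℝ, rexp (-(b * |s|)) = 2 / b := by
  have h := integral_comp_abs (f := fun s : ℝ => rexp (-(b * s)))
  rw [h]
  have h2 : ∫ s in Ioi (0 : ℝ), rexp (-(b * s)) = 1 / b := by
    have := integral_exp_mul_Ioi (a := -b) (by linarith) 0
    simp only [mul_zero, exp_zero] at this
    have e : ∀ s : ℝ, -(b * s) = -b * s := fun s => by ring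
    simp_rw [e]
    rw [this]
    field_simp
  rw [h2]
  ring

/-- one-sided exponential -/
noncomputable def top (b z s : ℝ) : ℝ := (Ici z).indicator (fun s => rexp (-(b * s))) s

/-- one-sided exponential -/
noncomputable def bot (b z s : ℝ) : ℝ := (Iic (-z)).indicator (fun s => rexp (b * s)) s

lemma top_nonneg (b z s : ℝ) : 0 ≤ top b z s := indicator_nonneg (fun _ _ => (exp_pos _).le) _
lemma bot_nonneg (b z s : ℝ) : 0 ≤ bot b z s := indicator_nonneg (fun _ _ => (exp_pos _).le) _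

lemma int_top {b : ℝ} (hb : 0 < b) (z : ℝ) : Integrable (top b z) := by
  unfold top
  apply IntegrableOn.integrable_indicator _ measurableSet_Ici
  rw [integrableOn_Ici_iff_integrableOn_Ioi]
  have := integrableOn_exp_mul_Ioi (a := -b) (by linarith) z
  refine this.congr_fun (fun s _ => ?_) measurableSet_Ioi
  simp only
  congr 1; ring

lemma integral_top {b : ℝ} (hb : 0 < b) (z : ℝ) : ∫ s, top b z s = rexp (-(b * z)) / b := by
  unfold top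
  rw [integral_indicator measurableSet_Ici, integral_Ici_eq_integral_Ioi]
  have := integral_exp_mul_Ioi (a := -b) (by linarith) z
  have e : ∀ s : ℝ, -(b * s) = -b * s := fun s => by ring
  simp_rw [e]
  rw [this]
  field_simp

lemma int_bot {b : ℝ} (hb : 0 < b) (z : ℝ) : Integrable (bot b z) := by
  unfold bot
  exact (integrableOn_exp_mul_Iic hb (-z)).integrable_indicator measurableSet_Iic

lemma integral_bot {b : ℝ} (hb : 0 < b) (z : ℝ) : ∫ s, bot b z s = rexp (-(b * z)) / b := by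
  unfold bot
  rw [integral_indicator measurableSet_Iic, integral_exp_mul_Iic hb]
  congr 2
  ring

/-- the window -/
def Jw (ζ1 ζ2 : ℝ) : Set (ℝ × ℝ) := Ioo (-ζ2) ζ1 ×ˢ Ioo (-ζ2) ζ1

lemma Jw_meas (ζ1 ζ2 : ℝ) : MeasurableSet (Jw ζ1 ζ2) := measurableSet_Ioo.prod measurableSet_Ioo

lemma not_window {ζ1 ζ2 μ : ℝ} {r : ℝ × ℝ} (h : r ∉ Jw ζ1 ζ2) (hμ : |r.1 - r.2| ≤ μ) :
    (ζ1 - μ ≤ r.1 ∧ ζ1 - μ ≤ r.2) ∨ (r.1 ≤ -(ζ2 - μ) ∧ r.2 ≤ -(ζ2 - μ)) := by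
  rw [abs_le] at hμ
  by_cases h1 : r.1 ∈ Ioo (-ζ2) ζ1
  · have h2 : r.2 ∉ Ioo (-ζ2) ζ1 := fun h2 => h ⟨h1, h2⟩
    rw [mem_Ioo, not_and_or, not_lt, not_lt] at h2
    rcases h2 with h2 | h2
    · right; constructor <;> linarith
    · left; constructor <;> linarith
  · rw [mem_Ioo, not_and_or, not_lt, not_lt] at h1
    rcases h1 with h1 | h1
    · right; constructor <;> linarith
    · left; constructor <;> linarith

/-- bound of one factor above the window -/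
lemma pw_top (hK : KitShift) {κ X s σ θ : ℝ} (hκ : 0 < κ) (hX : 0 < X) (hθ : 0 < θ) (hθ2 : θ < π / 2)
    (hs : 0 ≤ s) (h1 : 1 ≤ κ * X * cos θ) :
    ‖pw (κ * X) (κ * s) σ‖ ≤ rexp (-(θ * σ)) * (CE / 2 * (rexp (-(κ * X * cos θ)) *
      rexp (-(κ * sin θ * s)))) := by
  have hc : 0 < cos θ := cos_pos_of_mem_Ioo ⟨by linarith only [hθ, pi_pos], hθ2⟩
  have hsn : 0 < sin θ := sin_pos_of_mem_Ioo ⟨hθ, by linarith [pi_pos]⟩
  have h2 : 1 ≤ κ * X * cos θ + κ * s * sin θ := by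
    have : 0 ≤ κ * s * sin θ := by positivity
    linarith
  have h := pw_bound hK (p := κ * X) (s := κ * s) (τ := σ) (φ := θ) (by positivity)
    (by rwa [abs_of_pos hθ]) (by linarith)
  refine h.trans ?_
  have h3 := E0_le_exp h2
  have e : rexp (-(κ * X * cos θ + κ * s * sin θ)) = rexp (-(κ * X * cos θ)) *
      rexp (-(κ * sin θ * s)) := by
    rw [← Real.exp_add]; congr 1; ring
  rw [e] at h3
  gcongr
  linarith

/-- bound of one factor below the window -/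
lemma pw_bot (hK : KitShift) {κ X s σ θ : ℝ} (hκ : 0 < κ) (hX : 0 < X) (hθ : 0 < θ) (hθ2 : θ < π / 2)
    (hs : s ≤ 0) (h1 : 1 ≤ κ * X * cos θ) :
    ‖pw (κ * X) (κ * s) σ‖ ≤ rexp (θ * σ) * (CE / 2 * (rexp (-(κ * X * cos θ)) *
      rexp (κ * sin θ * s))) := by
  have hc : 0 < cos θ := cos_pos_of_mem_Ioo ⟨by linarith [pi_pos], hθ2⟩
  have hsn : 0 < sin θ := sin_pos_of_mem_Ioo ⟨hθ, by linarith [pi_pos]⟩
  have h2 : 1 ≤ κ * X * cos (-θ) + κ * s * sin (-θ) := by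
    rw [cos_neg, sin_neg]
    have : 0 ≤ κ * (-s) * sin θ := by
      have : 0 ≤ -s := by linarith
      positivity
    linarith only [h1, this]
  have h := pw_bound hK (p := κ * X) (s := κ * s) (τ := σ) (φ := -θ) (by positivity)
    (by rwa [abs_neg, abs_of_pos hθ]) (by linarith)
  have e0 : -(-θ * σ) = θ * σ := by ring
  rw [e0] at h
  refine h.trans ?_
  have h3 := E0_le_exp h2
  have e : rexp (-(κ * X * cos (-θ) + κ * s * sin (-θ))) = rexp (-(κ * X * cos θ)) *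
      rexp (κ * sin θ * s) := by
    rw [← Real.exp_add, cos_neg, sin_neg]; congr 1; ring
  rw [e] at h3
  gcongr
  linarith only [h3]

/-- bound of one factor everywhere -/
lemma pw_far (hK : KitShift) {κ X s σ θ : ℝ} (hκ : 0 < κ) (hX : 0 < X) (hθ : 0 < θ) (hθ2 : θ < π / 2)
    (h1 : 1 ≤ κ * X * cos θ) :
    ‖pw (κ * X) (κ * s) σ‖ ≤ rexp (θ * |σ|) * (CE / 2 * rexp (-(κ * sin θ * |s|))) := by
  have hc : 0 < cos θ := cos_pos_of_mem_Ioo ⟨by linarith [pi_pos], hθ2⟩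
  have hsn : 0 < sin θ := sin_pos_of_mem_Ioo ⟨hθ, by linarith [pi_pos]⟩
  have h2 : 1 ≤ κ * X * cos θ + |κ * s| * sin θ := by
    have : 0 ≤ |κ * s| * sin θ := by positivity
    linarith
  have h := pw_bound_abs hK (p := κ * X) (τ := σ) (κ * s) (by positivity) hθ hθ2
  refine h.trans ?_
  have h3 := E0_le_exp h2
  have e : rexp (-(κ * X * cos θ + |κ * s| * sin θ)) ≤ rexp (-(κ * sin θ * |s|)) := by
    apply exp_le_exp.mpr
    rw [abs_mul, abs_of_pos hκ]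
    linarith only [h1]
  have := CE_nonneg
  gcongr
  calc E0 (κ * X * cos θ + |κ * s| * sin θ) / 2 ≤ CE * rexp (-(κ * X * cos θ + |κ * s| * sin θ)) / 2 := by
        linarith
    _ ≤ CE * rexp (-(κ * sin θ * |s|)) / 2 := by gcongr
    _ = _ := by ring

/-- the dominating function -/
noncomputable def Dm (κ d a Δ μ ζ1 ζ2 θ0 θ1 θ2 σ₁ σ₂ : ℝ) (r : ℝ × ℝ) : ℝ :=
  (4 * π * a)⁻¹ * (CE / 2) ^ 2 *
    (rexp (θ0 * (|σ₁| + |σ₂|)) * rexp (-(μ ^ 2 / (4 * a))) *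
        (rexp (-(κ * sin θ0 * |r.1|)) * rexp (-(κ * sin θ0 * |r.2|))) +
      (rexp (-(θ1 * (σ₁ + σ₂))) * rexp (-(κ * (2 * d - 2 * Δ) * cos θ1)) *
        (top (κ * sin θ1) (ζ1 - μ) r.1 * top (κ * sin θ1) (ζ1 - μ) r.2) +
      rexp (θ2 * (σ₁ + σ₂)) * rexp (-(κ * (2 * d - 2 * Δ) * cos θ2)) *
        (bot (κ * sin θ2) (ζ2 - μ) r.1 * bot (κ * sin θ2) (ζ2 - μ) r.2)))

lemma inv_sqrt_sq {a : ℝ} (ha : 0 < a) : (√(4 * π * a))⁻¹ * (√(4 * π * a))⁻¹ = (4 * π * a)⁻¹ := by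
  rw [← mul_inv, Real.mul_self_sqrt (by positivity)]

lemma tail_pt (hK : KitShift) {κ d a X0 Δ μ ζ1 ζ2 θ0 θ1 θ2 σ₁ σ₂ : ℝ} (hκ : 0 < κ) (ha : 0 < a)
    (hX : Δ < X0) (hX2 : X0 + Δ < 2 * d) (hμ : 0 ≤ μ) (hζ1 : μ ≤ ζ1) (hζ2 : μ ≤ ζ2)
    (h0 : 0 < θ0) (h0' : θ0 < π / 2) (h1 : 0 < θ1) (h1' : θ1 < π / 2) (h2 : 0 < θ2)
    (h2' : θ2 < π / 2)
    (hA : ∀ θ, θ = θ0 ∨ θ = θ1 ∨ θ = θ2 → 1 ≤ κ * (X0 - Δ) * cos θ ∧
      1 ≤ κ * (2 * d - X0 - Δ) * cos θ)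
    {q r : ℝ × ℝ} (hq : q ∈ Iq X0 Δ) (hr : r ∉ Jw ζ1 ζ2) :
    ‖KF κ d a X0 σ₁ σ₂ q r‖ ≤ Dm κ d a Δ μ ζ1 ζ2 θ0 θ1 θ2 σ₁ σ₂ r := by
  have hq11 := hq.1.1
  have hq12 := hq.1.2
  have hq21 := hq.2.1
  have hq22 := hq.2.2
  have hX1 : 0 < q.1 := by linarith
  have hX1' : 0 < 2 * d - q.2 := by linarith
  have hcos : ∀ θ, θ = θ0 ∨ θ = θ1 ∨ θ = θ2 → 0 < cos θ := by
    intro θ h
    rcases h with h | h | h <;> rw [h] <;> apply cos_pos_of_mem_Ioo <;> constructor <;>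
      linarith [pi_pos]
  have hA1 : ∀ θ, θ = θ0 ∨ θ = θ1 ∨ θ = θ2 → 1 ≤ κ * q.1 * cos θ := by
    intro θ h
    have hc := hcos θ h
    refine (hA θ h).1.trans ?_
    apply mul_le_mul_of_nonneg_right _ hc.le
    apply mul_le_mul_of_nonneg_left _ hκ.le
    linarith
  have hA2 : ∀ θ, θ = θ0 ∨ θ = θ1 ∨ θ = θ2 → 1 ≤ κ * (2 * d - q.2) * cos θ := by
    intro θ h
    have hc := hcos θ h
    refine (hA θ h).2.trans ?_
    apply mul_le_mul_of_nonneg_right _ hc.le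
    apply mul_le_mul_of_nonneg_left _ hκ.le
    linarith
  have hsq : 0 ≤ (√(4 * π * a))⁻¹ := by positivity
  have hCE := CE_nonneg
  -- first bound
  have hb : ‖KF κ d a X0 σ₁ σ₂ q r‖ ≤ (√(4 * π * a))⁻¹ * (g1 a (r.1 - r.2) *
      (‖pw (κ * q.1) (κ * r.1) σ₁‖ * ‖pw (κ * (2 * d - q.2)) (κ * r.2) σ₂‖)) := by
    unfold KF
    rw [norm_mul, norm_mul, Complex.norm_real, Real.norm_eq_abs, abs_mul, abs_mul,
      abs_of_nonneg (g1_nonneg _ _), abs_of_nonneg (g1_nonneg _ _), mul_assoc (g1 a (q.1 - q.2) *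
      |chi X0 q.2 - chi X0 q.1|)]
    have h3 := chi_sub_le X0 q.2 q.1
    have h4 := g1_le ha (q.1 - q.2)
    have h5 := g1_nonneg a (q.1 - q.2)
    have h6 := g1_nonneg a (r.1 - r.2)
    have h7 : g1 a (q.1 - q.2) * |chi X0 q.2 - chi X0 q.1| ≤ (√(4 * π * a))⁻¹ := by
      calc _ ≤ g1 a (q.1 - q.2) * 1 := by gcongr
        _ ≤ _ := by linarith
    gcongr
  refine hb.trans ?_
  -- nonnegativity of the three terms
  have hn0 : 0 ≤ rexp (θ0 * (|σ₁| + |σ₂|)) * rexp (-(μ ^ 2 / (4 * a))) *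
        (rexp (-(κ * sin θ0 * |r.1|)) * rexp (-(κ * sin θ0 * |r.2|))) := by positivity
  have hn1 : 0 ≤ rexp (-(θ1 * (σ₁ + σ₂))) * rexp (-(κ * (2 * d - 2 * Δ) * cos θ1)) *
        (top (κ * sin θ1) (ζ1 - μ) r.1 * top (κ * sin θ1) (ζ1 - μ) r.2) := by
    have := top_nonneg (κ * sin θ1) (ζ1 - μ) r.1
    have := top_nonneg (κ * sin θ1) (ζ1 - μ) r.2
    positivity
  have hn2 : 0 ≤ rexp (θ2 * (σ₁ + σ₂)) * rexp (-(κ * (2 * d - 2 * Δ) * cos θ2)) *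
        (bot (κ * sin θ2) (ζ2 - μ) r.1 * bot (κ * sin θ2) (ζ2 - μ) r.2) := by
    have := bot_nonneg (κ * sin θ2) (ζ2 - μ) r.1
    have := bot_nonneg (κ * sin θ2) (ζ2 - μ) r.2
    positivity
  have hQ : 0 ≤ (4 * π * a)⁻¹ * (CE / 2) ^ 2 := by positivity
  rcases lt_or_ge μ |r.1 - r.2| with hfar | hnear
  · have hg : g1 a (r.1 - r.2) ≤ (√(4 * π * a))⁻¹ * rexp (-(μ ^ 2 / (4 * a))) := by
      have hsq2 : μ ^ 2 ≤ (r.1 - r.2) ^ 2 := by
        rw [← sq_abs (r.1 - r.2)]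
        exact pow_le_pow_left₀ hμ hfar.le 2
      unfold g1
      apply mul_le_mul_of_nonneg_left _ hsq
      apply exp_le_exp.mpr
      have : μ ^ 2 / (4 * a) ≤ (r.1 - r.2) ^ 2 / (4 * a) := by gcongr
      linarith only [this]
    have hp1 := pw_far hK (s := r.1) (σ := σ₁) hκ hX1 h0 h0' (hA1 θ0 (Or.inl rfl))
    have hp2 := pw_far hK (s := r.2) (σ := σ₂) hκ hX1' h0 h0' (hA2 θ0 (Or.inl rfl))
    calc _ ≤ (√(4 * π * a))⁻¹ * ((√(4 * π * a))⁻¹ * rexp (-(μ ^ 2 / (4 * a))) *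
          (rexp (θ0 * |σ₁|) * (CE / 2 * rexp (-(κ * sin θ0 * |r.1|))) *
            (rexp (θ0 * |σ₂|) * (CE / 2 * rexp (-(κ * sin θ0 * |r.2|)))))) := by
          have := g1_nonneg a (r.1 - r.2)
          gcongr
      _ = (√(4 * π * a))⁻¹ * (√(4 * π * a))⁻¹ * (CE / 2) ^ 2 *
          ((rexp (θ0 * |σ₁|) * rexp (θ0 * |σ₂|)) * rexp (-(μ ^ 2 / (4 * a))) *
          (rexp (-(κ * sin θ0 * |r.1|)) * rexp (-(κ * sin θ0 * |r.2|)))) := by ring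
      _ = (4 * π * a)⁻¹ * (CE / 2) ^ 2 *
          (rexp (θ0 * (|σ₁| + |σ₂|)) * rexp (-(μ ^ 2 / (4 * a))) *
          (rexp (-(κ * sin θ0 * |r.1|)) * rexp (-(κ * sin θ0 * |r.2|)))) := by
          rw [inv_sqrt_sq ha, ← Real.exp_add (θ0 * |σ₁|), mul_add θ0]
      _ ≤ _ := by
          unfold Dm
          apply mul_le_mul_of_nonneg_left _ hQ
          linarith only [hn1, hn2]
  · have hgl := g1_le ha (r.1 - r.2)
    rcases not_window hr hnear with ⟨ht1, ht2⟩ | ⟨ht1, ht2⟩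
    · have hp1 := pw_top hK (s := r.1) (σ := σ₁) hκ hX1 h1 h1' (by linarith)
        (hA1 θ1 (Or.inr (Or.inl rfl)))
      have hp2 := pw_top hK (s := r.2) (σ := σ₂) hκ hX1' h1 h1' (by linarith)
        (hA2 θ1 (Or.inr (Or.inl rfl)))
      have hc := hcos θ1 (Or.inr (Or.inl rfl))
      have e1 : top (κ * sin θ1) (ζ1 - μ) r.1 = rexp (-(κ * sin θ1 * r.1)) :=
        indicator_of_mem (mem_Ici.mpr ht1) _
      have e2 : top (κ * sin θ1) (ζ1 - μ) r.2 = rexp (-(κ * sin θ1 * r.2)) :=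
        indicator_of_mem (mem_Ici.mpr ht2) _
      have e3 : rexp (-(κ * q.1 * cos θ1)) * rexp (-(κ * (2 * d - q.2) * cos θ1)) ≤
          rexp (-(κ * (2 * d - 2 * Δ) * cos θ1)) := by
        rw [← Real.exp_add]
        apply exp_le_exp.mpr
        have : κ * (2 * d - 2 * Δ) * cos θ1 ≤ κ * (q.1 + (2 * d - q.2)) * cos θ1 := by
          apply mul_le_mul_of_nonneg_right _ hc.le
          apply mul_le_mul_of_nonneg_left _ hκ.le
          linarith only [hq11, hq22]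
        linarith only [this]
      calc _ ≤ (√(4 * π * a))⁻¹ * ((√(4 * π * a))⁻¹ *
            (rexp (-(θ1 * σ₁)) * (CE / 2 * (rexp (-(κ * q.1 * cos θ1)) *
              rexp (-(κ * sin θ1 * r.1)))) * (rexp (-(θ1 * σ₂)) * (CE / 2 *
              (rexp (-(κ * (2 * d - q.2) * cos θ1)) * rexp (-(κ * sin θ1 * r.2))))))) := by
            have := g1_nonneg a (r.1 - r.2)
            gcongr
        _ = (√(4 * π * a))⁻¹ * (√(4 * π * a))⁻¹ * (CE / 2) ^ 2 *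
            ((rexp (-(θ1 * σ₁)) * rexp (-(θ1 * σ₂))) *
            (rexp (-(κ * q.1 * cos θ1)) * rexp (-(κ * (2 * d - q.2) * cos θ1))) *
            (rexp (-(κ * sin θ1 * r.1)) * rexp (-(κ * sin θ1 * r.2)))) := by ring
        _ ≤ (4 * π * a)⁻¹ * (CE / 2) ^ 2 *
            (rexp (-(θ1 * (σ₁ + σ₂))) * rexp (-(κ * (2 * d - 2 * Δ) * cos θ1)) *
            (rexp (-(κ * sin θ1 * r.1)) * rexp (-(κ * sin θ1 * r.2)))) := by
            have e4 : rexp (-(θ1 * σ₁)) * rexp (-(θ1 * σ₂)) = rexp (-(θ1 * (σ₁ + σ₂))) := by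
              rw [← Real.exp_add]; congr 1; ring
            rw [inv_sqrt_sq ha, e4]
            gcongr
        _ ≤ _ := by
            unfold Dm
            rw [e1, e2] at hn1 ⊢
            apply mul_le_mul_of_nonneg_left _ hQ
            linarith only [hn0, hn2]
    · have hp1 := pw_bot hK (s := r.1) (σ := σ₁) hκ hX1 h2 h2' (by linarith only [hζ2, ht1])
        (hA1 θ2 (Or.inr (Or.inr rfl)))
      have hp2 := pw_bot hK (s := r.2) (σ := σ₂) hκ hX1' h2 h2' (by linarith)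
        (hA2 θ2 (Or.inr (Or.inr rfl)))
      have hc := hcos θ2 (Or.inr (Or.inr rfl))
      have e1 : bot (κ * sin θ2) (ζ2 - μ) r.1 = rexp (κ * sin θ2 * r.1) :=
        indicator_of_mem (mem_Iic.mpr ht1) _
      have e2 : bot (κ * sin θ2) (ζ2 - μ) r.2 = rexp (κ * sin θ2 * r.2) :=
        indicator_of_mem (mem_Iic.mpr ht2) _
      have e3 : rexp (-(κ * q.1 * cos θ2)) * rexp (-(κ * (2 * d - q.2) * cos θ2)) ≤
          rexp (-(κ * (2 * d - 2 * Δ) * cos θ2)) := by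
        rw [← Real.exp_add]
        apply exp_le_exp.mpr
        have : κ * (2 * d - 2 * Δ) * cos θ2 ≤ κ * (q.1 + (2 * d - q.2)) * cos θ2 := by
          apply mul_le_mul_of_nonneg_right _ hc.le
          apply mul_le_mul_of_nonneg_left _ hκ.le
          linarith only [hq11, hq22]
        linarith only [this]
      calc _ ≤ (√(4 * π * a))⁻¹ * ((√(4 * π * a))⁻¹ *
            (rexp (θ2 * σ₁) * (CE / 2 * (rexp (-(κ * q.1 * cos θ2)) *
              rexp (κ * sin θ2 * r.1))) * (rexp (θ2 * σ₂) * (CE / 2 *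
              (rexp (-(κ * (2 * d - q.2) * cos θ2)) * rexp (κ * sin θ2 * r.2)))))) := by
            have := g1_nonneg a (r.1 - r.2)
            gcongr
        _ = (√(4 * π * a))⁻¹ * (√(4 * π * a))⁻¹ * (CE / 2) ^ 2 *
            ((rexp (θ2 * σ₁) * rexp (θ2 * σ₂)) *
            (rexp (-(κ * q.1 * cos θ2)) * rexp (-(κ * (2 * d - q.2) * cos θ2))) *
            (rexp (κ * sin θ2 * r.1) * rexp (κ * sin θ2 * r.2))) := by ring
        _ ≤ (4 * π * a)⁻¹ * (CE / 2) ^ 2 *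
            (rexp (θ2 * (σ₁ + σ₂)) * rexp (-(κ * (2 * d - 2 * Δ) * cos θ2)) *
            (rexp (κ * sin θ2 * r.1) * rexp (κ * sin θ2 * r.2))) := by
            have e4 : rexp (θ2 * σ₁) * rexp (θ2 * σ₂) = rexp (θ2 * (σ₁ + σ₂)) := by
              rw [← Real.exp_add]; congr 1; ring
            rw [inv_sqrt_sq ha, e4]
            gcongr
        _ ≤ _ := by
            unfold Dm
            rw [e1, e2] at hn2 ⊢
            apply mul_le_mul_of_nonneg_left _ hQ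
            linarith only [hn0, hn1]

lemma int_Dm {κ d a Δ μ ζ1 ζ2 θ0 θ1 θ2 σ₁ σ₂ : ℝ} (hκ : 0 < κ) (h0 : 0 < sin θ0) (h1 : 0 < sin θ1)
    (h2 : 0 < sin θ2) : Integrable (Dm κ d a Δ μ ζ1 ζ2 θ0 θ1 θ2 σ₁ σ₂) ∧
    ∫ r, Dm κ d a Δ μ ζ1 ζ2 θ0 θ1 θ2 σ₁ σ₂ r = (4 * π * a)⁻¹ * (CE / 2) ^ 2 *
      (rexp (θ0 * (|σ₁| + |σ₂|)) * rexp (-(μ ^ 2 / (4 * a))) * (2 / (κ * sin θ0)) ^ 2 +
      (rexp (-(θ1 * (σ₁ + σ₂))) * rexp (-(κ * (2 * d - 2 * Δ) * cos θ1)) *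
        (rexp (-(κ * sin θ1 * (ζ1 - μ))) / (κ * sin θ1)) ^ 2 +
      rexp (θ2 * (σ₁ + σ₂)) * rexp (-(κ * (2 * d - 2 * Δ) * cos θ2)) *
        (rexp (-(κ * sin θ2 * (ζ2 - μ))) / (κ * sin θ2)) ^ 2)) := by
  have i0 := (int_exp_neg_abs (a := κ * sin θ0) (by positivity)).mul_prod
    (int_exp_neg_abs (a := κ * sin θ0) (by positivity))
  have i1 := (int_top (b := κ * sin θ1) (by positivity) (ζ1 - μ)).mul_prod
    (int_top (b := κ * sin θ1) (by positivity) (ζ1 - μ))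
  have i2 := (int_bot (b := κ * sin θ2) (by positivity) (ζ2 - μ)).mul_prod
    (int_bot (b := κ * sin θ2) (by positivity) (ζ2 - μ))
  rw [← Measure.volume_eq_prod] at i0 i1 i2
  have i12 : Integrable (fun r : ℝ × ℝ =>
      rexp (-(θ1 * (σ₁ + σ₂))) * rexp (-(κ * (2 * d - 2 * Δ) * cos θ1)) *
        (top (κ * sin θ1) (ζ1 - μ) r.1 * top (κ * sin θ1) (ζ1 - μ) r.2) +
      rexp (θ2 * (σ₁ + σ₂)) * rexp (-(κ * (2 * d - 2 * Δ) * cos θ2)) *
        (bot (κ * sin θ2) (ζ2 - μ) r.1 * bot (κ * sin θ2) (ζ2 - μ) r.2)) :=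
    (i1.const_mul _).add (i2.const_mul _)
  constructor
  · unfold Dm
    exact ((i0.const_mul _).add i12).const_mul _
  · unfold Dm
    rw [integral_const_mul, integral_add (i0.const_mul _) i12,
      integral_add (i1.const_mul _) (i2.const_mul _), integral_const_mul, integral_const_mul,
      integral_const_mul]
    have j0 := integral_prod_mul (μ := (volume : Measure ℝ)) (ν := (volume : Measure ℝ))
      (fun s => rexp (-(κ * sin θ0 * |s|))) (fun s => rexp (-(κ * sin θ0 * |s|)))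
    have j1 := integral_prod_mul (μ := (volume : Measure ℝ)) (ν := (volume : Measure ℝ))
      (fun s => top (κ * sin θ1) (ζ1 - μ) s) (fun s => top (κ * sin θ1) (ζ1 - μ) s)
    have j2 := integral_prod_mul (μ := (volume : Measure ℝ)) (ν := (volume : Measure ℝ))
      (fun s => bot (κ * sin θ2) (ζ2 - μ) s) (fun s => bot (κ * sin θ2) (ζ2 - μ) s)
    rw [Measure.volume_eq_prod, j0, j1, j2, integral_exp_abs (by positivity),
      integral_top (by positivity), integral_bot (by positivity)]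
    ring

/-- exponent of the tails -/
noncomputable def Ex (d Δ μ θ ζ : ℝ) : ℝ := (2 * d - 2 * Δ) * cos θ + 2 * (ζ - μ) * sin θ

/-- bound of the tails -/
theorem tail_main (hK : KitShift) {d Δ c θ0 θ1 θ2 : ℝ} (hΔ : 0 < Δ) (hc : 0 < c)
    (h0 : 0 < θ0) (h0' : θ0 < π / 2) (h1 : 0 < θ1) (h1' : θ1 < π / 2) (h2 : 0 < θ2)
    (h2' : θ2 < π / 2) : ∃ C, 0 ≤ C ∧ ∀ κ X0 ζ1 ζ2 μ σ₁ σ₂ : ℝ, 0 < κ → Δ < X0 → X0 + Δ < 2 * d →
      0 ≤ μ → μ ≤ ζ1 → μ ≤ ζ2 →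
      (∀ θ, θ = θ0 ∨ θ = θ1 ∨ θ = θ2 → 1 ≤ κ * (X0 - Δ) * cos θ ∧
        1 ≤ κ * (2 * d - X0 - Δ) * cos θ) →
      κ / c * (∫ q in Iq X0 Δ, ∫ r in (Jw ζ1 ζ2)ᶜ, ‖KF κ d (c / κ) X0 σ₁ σ₂ q r‖) ≤
        C * (rexp (θ0 * (|σ₁| + |σ₂|)) * rexp (-(κ * (μ ^ 2 / (4 * c)))) +
          (rexp (-(θ1 * (σ₁ + σ₂))) * rexp (-(κ * Ex d Δ μ θ1 ζ1)) +
          rexp (θ2 * (σ₁ + σ₂)) * rexp (-(κ * Ex d Δ μ θ2 ζ2)))) := by
  have s0 : 0 < sin θ0 := sin_pos_of_mem_Ioo ⟨h0, by linarith [pi_pos]⟩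
  have s1 : 0 < sin θ1 := sin_pos_of_mem_Ioo ⟨h1, by linarith [pi_pos]⟩
  have s2 : 0 < sin θ2 := sin_pos_of_mem_Ioo ⟨h2, by linarith [pi_pos]⟩
  have hCE := CE_nonneg
  set S := 4 / sin θ0 ^ 2 + (1 / sin θ1 ^ 2 + 1 / sin θ2 ^ 2) with hS
  refine ⟨(2 * Δ) ^ 2 * ((4 * π * c ^ 2)⁻¹ * (CE / 2) ^ 2) * S, by positivity, ?_⟩
  intro κ X0 ζ1 ζ2 μ σ₁ σ₂ hκ hX hX2 hμ hζ1 hζ2 hA
  have ha : 0 < c / κ := by positivity
  obtain ⟨i1, i2⟩ := int_Dm (d := d) (a := c / κ) (Δ := Δ) (μ := μ) (ζ1 := ζ1) (ζ2 := ζ2)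
    (σ₁ := σ₁) (σ₂ := σ₂) hκ s0 s1 s2
  have hDn : ∀ r, 0 ≤ Dm κ d (c / κ) Δ μ ζ1 ζ2 θ0 θ1 θ2 σ₁ σ₂ r := by
    intro r
    have := top_nonneg (κ * sin θ1) (ζ1 - μ) r.1
    have := top_nonneg (κ * sin θ1) (ζ1 - μ) r.2
    have := bot_nonneg (κ * sin θ2) (ζ2 - μ) r.1
    have := bot_nonneg (κ * sin θ2) (ζ2 - μ) r.2
    unfold Dm
    positivity
  have hin : ∀ q ∈ Iq X0 Δ, ∫ r in (Jw ζ1 ζ2)ᶜ, ‖KF κ d (c / κ) X0 σ₁ σ₂ q r‖ ≤
      ∫ r, Dm κ d (c / κ) Δ μ ζ1 ζ2 θ0 θ1 θ2 σ₁ σ₂ r := by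
    intro q hq
    calc _ ≤ ∫ r in (Jw ζ1 ζ2)ᶜ, Dm κ d (c / κ) Δ μ ζ1 ζ2 θ0 θ1 θ2 σ₁ σ₂ r := by
          apply integral_mono_of_nonneg
          · exact Eventually.of_forall fun _ => norm_nonneg _
          · exact i1.integrableOn
          · filter_upwards [ae_restrict_mem (Jw_meas ζ1 ζ2).compl] with r hr
            exact tail_pt hK hκ ha hX hX2 hμ hζ1 hζ2 h0 h0' h1 h1' h2 h2' hA hq hr
      _ ≤ _ := setIntegral_le_integral i1 (Eventually.of_forall hDn)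
  have hout : ∫ q in Iq X0 Δ, ∫ r in (Jw ζ1 ζ2)ᶜ, ‖KF κ d (c / κ) X0 σ₁ σ₂ q r‖ ≤
      (2 * Δ) ^ 2 * ∫ r, Dm κ d (c / κ) Δ μ ζ1 ζ2 θ0 θ1 θ2 σ₁ σ₂ r := by
    calc _ ≤ ∫ _q in Iq X0 Δ, ∫ r, Dm κ d (c / κ) Δ μ ζ1 ζ2 θ0 θ1 θ2 σ₁ σ₂ r := by
          apply integral_mono_of_nonneg
          · exact Eventually.of_forall fun _ => integral_nonneg fun _ => norm_nonneg _
          · exact integrableOn_const (Iq_vol X0 Δ)
          · filter_upwards [ae_restrict_mem (Iq_meas X0 Δ)] with q hq using hin q hq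
      _ = _ := by
          rw [setIntegral_const, smul_eq_mul]
          congr 1
          unfold Iq
          rw [Measure.volume_eq_prod, measureReal_def, Measure.prod_prod, Real.volume_Ioo,
            ENNReal.toReal_mul, ENNReal.toReal_ofReal (by linarith)]
          ring
  have e1 : rexp (-(κ * (2 * d - 2 * Δ) * cos θ1)) * (rexp (-(κ * sin θ1 * (ζ1 - μ))) / (κ * sin θ1)) ^ 2
      = rexp (-(κ * Ex d Δ μ θ1 ζ1)) * (1 / κ ^ 2 * (1 / sin θ1 ^ 2)) := by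
    have : rexp (-(κ * Ex d Δ μ θ1 ζ1)) = rexp (-(κ * (2 * d - 2 * Δ) * cos θ1)) *
        (rexp (-(κ * sin θ1 * (ζ1 - μ)))) ^ 2 := by
      rw [sq, ← Real.exp_add, ← Real.exp_add]
      congr 1
      unfold Ex
      ring
    rw [this]
    field_simp
  have e2 : rexp (-(κ * (2 * d - 2 * Δ) * cos θ2)) * (rexp (-(κ * sin θ2 * (ζ2 - μ))) / (κ * sin θ2)) ^ 2
      = rexp (-(κ * Ex d Δ μ θ2 ζ2)) * (1 / κ ^ 2 * (1 / sin θ2 ^ 2)) := by
    have : rexp (-(κ * Ex d Δ μ θ2 ζ2)) = rexp (-(κ * (2 * d - 2 * Δ) * cos θ2)) *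
        (rexp (-(κ * sin θ2 * (ζ2 - μ)))) ^ 2 := by
      rw [sq, ← Real.exp_add, ← Real.exp_add]
      congr 1
      unfold Ex
      ring
    rw [this]
    field_simp
  have e3 : rexp (-(μ ^ 2 / (4 * (c / κ)))) = rexp (-(κ * (μ ^ 2 / (4 * c)))) := by
    congr 1
    field_simp
  rw [i2] at hout
  have hκc : 0 ≤ κ / c := by positivity
  refine (mul_le_mul_of_nonneg_left hout hκc).trans ?_
  rw [mul_assoc (rexp (-(θ1 * (σ₁ + σ₂)))), mul_assoc (rexp (θ2 * (σ₁ + σ₂))), e1, e2, e3]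
  set A0 := rexp (θ0 * (|σ₁| + |σ₂|)) * rexp (-(κ * (μ ^ 2 / (4 * c)))) with hA0
  set A1 := rexp (-(κ * Ex d Δ μ θ1 ζ1)) with hA1
  set A2 := rexp (-(κ * Ex d Δ μ θ2 ζ2)) with hA2
  set B1 := rexp (-(θ1 * (σ₁ + σ₂))) with hB1
  set B2 := rexp (θ2 * (σ₁ + σ₂)) with hB2
  have e4 : κ / c * ((2 * Δ) ^ 2 * ((4 * π * (c / κ))⁻¹ * (CE / 2) ^ 2 *
      (A0 * (2 / (κ * sin θ0)) ^ 2 + (B1 * (A1 * (1 / κ ^ 2 * (1 / sin θ1 ^ 2))) +
        B2 * (A2 * (1 / κ ^ 2 * (1 / sin θ2 ^ 2))))))) =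
      (2 * Δ) ^ 2 * ((4 * π * c ^ 2)⁻¹ * (CE / 2) ^ 2) * (A0 * (4 / sin θ0 ^ 2) +
        (B1 * A1 * (1 / sin θ1 ^ 2) + B2 * A2 * (1 / sin θ2 ^ 2))) := by
    field_simp
    ring
  rw [e4, mul_assoc ((2 * Δ) ^ 2 * ((4 * π * c ^ 2)⁻¹ * (CE / 2) ^ 2))]
  apply mul_le_mul_of_nonneg_left _ (by positivity)
  have p0 : 0 ≤ A0 := by positivity
  have p1 : 0 ≤ B1 * A1 := by positivity
  have p2 : 0 ≤ B2 * A2 := by positivity
  have t0 : 0 ≤ 4 / sin θ0 ^ 2 := by positivity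
  have t1 : 0 ≤ 1 / sin θ1 ^ 2 := by positivity
  have t2 : 0 ≤ 1 / sin θ2 ^ 2 := by positivity
  have u0 : A0 * (4 / sin θ0 ^ 2) ≤ S * A0 := by rw [mul_comm]; gcongr; linarith only [t1, t2]
  have u1 : B1 * A1 * (1 / sin θ1 ^ 2) ≤ S * (B1 * A1) := by rw [mul_comm]; gcongr; linarith only [t0, t2]
  have u2 : B2 * A2 * (1 / sin θ2 ^ 2) ≤ S * (B2 * A2) := by rw [mul_comm]; gcongr; linarith only [t0, t1]
  linarith only [u0, u1, u2]

end Pool.Agent.AEU.H12
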