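import Pool.Agent.Helper12_AEU.Weight

/-! helper12, AEU (MP_5b0138_an) Part III, FLUX: summation over the order `τ`. -/

namespace Pool.Agent.AEU.H12

open MeasureTheory Filter Topology Real Set

/-- a weight which decays exponentially on both sides -/
structure Wt (w : ℝ → ℝ) (Cw ap am : ℝ) : Prop where
  meas : Measurable w
  hap : 0 < ap
  ham : 0 < am
  pos : ∀ τ, 0 ≤ τ → |w τ| ≤ Cw * rexp (-(ap * τ))
  neg : ∀ τ, τ < 0 → |w τ| ≤ Cw * rexp (am * τ)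

lemma Wt.Cw_nonneg {w : ℝ → ℝ} {Cw ap am : ℝ} (h : Wt w Cw ap am) : 0 ≤ Cw := by
  have h1 := (abs_nonneg _).trans (h.pos 0 le_rfl)
  simpa using h1

lemma Wt.bound {w : ℝ → ℝ} {Cw ap am g : ℝ} (h : Wt w Cw ap am) (hg1 : g ≤ ap) (hg2 : g ≤ am)
    (τ : ℝ) : |w τ| ≤ Cw * rexp (-(g * |τ|)) := by
  have hC := h.Cw_nonneg
  rcases lt_or_ge τ 0 with ht | ht
  · refine (h.neg τ ht).trans ?_
    gcongr
    rw [abs_of_neg ht]
    nlinarith
  · refine (h.pos τ ht).trans ?_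
    rw [abs_of_nonneg ht]
    gcongr

lemma measurable_WFx (κ d c X0 Δ ζ1 ζ2 s1 s2 : ℝ) :
    Measurable fun τ : ℝ => WFx κ d c X0 Δ ζ1 ζ2 (s1 * τ) (s2 * τ) := by
  unfold WFx
  apply Measurable.const_mul
  have h := (measurable_KF κ d (c / κ) X0 s1 s2).stronglyMeasurable
  have h1 := h.integral_prod_right' (ν := volume.restrict (Jw ζ1 ζ2))
  have h2 := h1.integral_prod_right' (ν := volume.restrict (Iq X0 Δ))
  exact h2.measurable

lemma measurable_Mn (κ d s1 s2 : ℝ) : Measurable fun τ : ℝ => Mn κ d (s1 * τ) (s2 * τ) := by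
  unfold Mn
  have h : Continuous fun z : ℝ × ℝ => ((rexp (-(2 * d * κ * cosh z.2)) : ℝ) : ℂ) *
    Complex.exp ((((s2 * z.1 - s1 * z.1) * z.2 : ℝ) : ℂ) * Complex.I) := by fun_prop
  exact (h.stronglyMeasurable.integral_prod_right').measurable

lemma norm_Mn_le {κ d : ℝ} (σ₁ σ₂ : ℝ) : ‖Mn κ d σ₁ σ₂‖ ≤ E0 (2 * d * κ) := by
  unfold Mn E0
  refine (norm_integral_le_integral_norm _).trans (le_of_eq ?_)
  congr 1
  ext u
  rw [norm_mul, Complex.norm_exp_ofReal_mul_I, mul_one, Complex.norm_real, Real.norm_eq_abs,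
    abs_of_pos (exp_pos _)]

/-- joint integrability for the interchange of the integrals -/
lemma joint_int (hK : KitShift) {κ d a X0 Δ θ0 s1 s2 Cw ap am : ℝ} {w : ℝ → ℝ}
    (hw : Wt w Cw ap am) (hs1 : |s1| ≤ 1) (hs2 : |s2| ≤ 1) (hκ : 0 < κ) (ha : 0 < a)
    (hX : Δ < X0) (hX2 : X0 + Δ < 2 * d) (h0 : 0 < θ0) (h0' : θ0 < π / 2)
    (h1 : 2 * θ0 < ap) (h2 : 2 * θ0 < am)
    (hA : 1 ≤ κ * (X0 - Δ) * cos θ0 ∧ 1 ≤ κ * (2 * d - X0 - Δ) * cos θ0) :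
    Integrable (fun z : (ℝ × (ℝ × ℝ)) × (ℝ × ℝ) => ((w z.1.1 : ℝ) : ℂ) *
      KF κ d a X0 (s1 * z.1.1) (s2 * z.1.1) z.1.2 z.2)
      ((volume.prod (volume.restrict (Iq X0 Δ))).prod volume) := by
  have s0 : 0 < sin θ0 := sin_pos_of_mem_Ioo ⟨h0, by linarith [pi_pos]⟩
  have hCw := hw.Cw_nonneg
  set g := min ap am with hg
  have hgp : 0 < g - 2 * θ0 := by
    have : 2 * θ0 < g := lt_min h1 h2
    linarith
  have i0 := (int_exp_neg_abs (a := κ * sin θ0) (by positivity)).mul_prod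
    (int_exp_neg_abs (a := κ * sin θ0) (by positivity))
  rw [← Measure.volume_eq_prod] at i0
  have hc : IntegrableOn (fun _ : ℝ × ℝ => (4 * π * a)⁻¹ * (CE / 2) ^ 2 * Cw) (Iq X0 Δ) :=
    integrableOn_const (Iq_vol X0 Δ)
  have i1 := (int_exp_neg_abs hgp).mul_prod hc
  have hmem : ∀ᵐ z : (ℝ × (ℝ × ℝ)) × (ℝ × ℝ) ∂((volume.prod (volume.restrict (Iq X0 Δ))).prod
      volume), z.1.2 ∈ Iq X0 Δ := by
    have hA : ∀ᵐ q ∂(volume.restrict (Iq X0 Δ)), q ∈ Iq X0 Δ := ae_restrict_mem (Iq_meas X0 Δ)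
    have hB : ∀ᵐ z : ℝ × (ℝ × ℝ) ∂(volume.prod (volume.restrict (Iq X0 Δ))), z.2 ∈ Iq X0 Δ :=
      Measure.quasiMeasurePreserving_snd.ae hA
    exact Measure.quasiMeasurePreserving_fst.ae hB
  refine (i1.mul_prod i0).mono' ?_ ?_
  · apply Measurable.aestronglyMeasurable
    apply Measurable.mul _ (measurable_KF κ d a X0 s1 s2)
    have := hw.meas
    apply Complex.measurable_ofReal.comp
    fun_prop
  · filter_upwards [hmem] with z hz
    have h3 := kf_dom hK (σ₁ := s1 * z.1.1) (σ₂ := s2 * z.1.1) hκ ha hX hX2 h0 h0' hA hz z.2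
    rw [norm_mul, Complex.norm_real, Real.norm_eq_abs]
    have h4 := hw.bound (g := g) (min_le_left _ _) (min_le_right _ _) z.1.1
    have h5 : rexp (θ0 * (|s1 * z.1.1| + |s2 * z.1.1|)) ≤ rexp (2 * θ0 * |z.1.1|) := by
      apply exp_le_exp.mpr
      rw [abs_mul, abs_mul]
      have := abs_nonneg z.1.1
      nlinarith [mul_le_mul_of_nonneg_right hs1 this, mul_le_mul_of_nonneg_right hs2 this]
    calc |w z.1.1| * ‖KF κ d a X0 (s1 * z.1.1) (s2 * z.1.1) z.1.2 z.2‖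
        ≤ (Cw * rexp (-(g * |z.1.1|))) * ((4 * π * a)⁻¹ * (CE / 2) ^ 2 *
          rexp (2 * θ0 * |z.1.1|) *
          (rexp (-(κ * sin θ0 * |z.2.1|)) * rexp (-(κ * sin θ0 * |z.2.2|)))) := by
          have := norm_nonneg (KF κ d a X0 (s1 * z.1.1) (s2 * z.1.1) z.1.2 z.2)
          refine mul_le_mul h4 (h3.trans ?_) this (by positivity)
          gcongr
      _ = (rexp (-(g * |z.1.1|)) * rexp (2 * θ0 * |z.1.1|)) * ((4 * π * a)⁻¹ * (CE / 2) ^ 2 * Cw) *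
          (rexp (-(κ * sin θ0 * |z.2.1|)) * rexp (-(κ * sin θ0 * |z.2.2|))) := by ring
      _ = _ := by
          rw [← Real.exp_add]
          congr 3
          ring_nf

/-- interchange of the integrals -/
theorem wf_fubini (hK : KitShift) {κ d c X0 Δ ζ1 ζ2 θ0 s1 s2 Cw ap am : ℝ} {w : ℝ → ℝ}
    (hw : Wt w Cw ap am) (hs1 : |s1| ≤ 1) (hs2 : |s2| ≤ 1) (hκ : 0 < κ) (hc : 0 < c)
    (hX : Δ < X0) (hX2 : X0 + Δ < 2 * d) (h0 : 0 < θ0) (h0' : θ0 < π / 2)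
    (h1 : 2 * θ0 < ap) (h2 : 2 * θ0 < am)
    (hA : 1 ≤ κ * (X0 - Δ) * cos θ0 ∧ 1 ≤ κ * (2 * d - X0 - Δ) * cos θ0) :
    ∫ τ, ((w τ : ℝ) : ℂ) * WFx κ d c X0 Δ ζ1 ζ2 (s1 * τ) (s2 * τ) =
      ((κ / c * rexp (-(κ * c)) : ℝ) : ℂ) * ∫ q in Iq X0 Δ, ∫ r in Jw ζ1 ζ2,
        ∫ τ, ((w τ : ℝ) : ℂ) * KF κ d (c / κ) X0 (s1 * τ) (s2 * τ) q r := by
  have ha : 0 < c / κ := by positivity
  have hj := joint_int hK hw hs1 hs2 hκ ha hX hX2 h0 h0' h1 h2 hA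
  have hjJ : Integrable (fun z : (ℝ × (ℝ × ℝ)) × (ℝ × ℝ) => ((w z.1.1 : ℝ) : ℂ) *
      KF κ d (c / κ) X0 (s1 * z.1.1) (s2 * z.1.1) z.1.2 z.2)
      ((volume.prod (volume.restrict (Iq X0 Δ))).prod (volume.restrict (Jw ζ1 ζ2))) :=
    hj.mono_measure (Measure.prod_mono le_rfl Measure.restrict_le_self)
  -- first interchange: `τ` and `q`
  have e1 : ∫ τ, ((w τ : ℝ) : ℂ) * WFx κ d c X0 Δ ζ1 ζ2 (s1 * τ) (s2 * τ) =
      ((κ / c * rexp (-(κ * c)) : ℝ) : ℂ) * ∫ τ, ∫ q in Iq X0 Δ, ∫ r in Jw ζ1 ζ2,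
        ((w τ : ℝ) : ℂ) * KF κ d (c / κ) X0 (s1 * τ) (s2 * τ) q r := by
    rw [← integral_const_mul]
    congr 1
    ext τ
    unfold WFx
    simp_rw [integral_const_mul]
    ring
  rw [e1]
  congr 1
  rw [integral_integral_swap (f := fun τ q => ∫ r in Jw ζ1 ζ2,
        ((w τ : ℝ) : ℂ) * KF κ d (c / κ) X0 (s1 * τ) (s2 * τ) q r)]
  · apply integral_congr_ae
    -- second interchange: `τ` and `r`
    have hassoc : Integrable (fun z : (ℝ × ℝ) × (ℝ × (ℝ × ℝ)) => ((w z.2.1 : ℝ) : ℂ) *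
        KF κ d (c / κ) X0 (s1 * z.2.1) (s2 * z.2.1) z.1 z.2.2)
        ((volume.restrict (Iq X0 Δ)).prod (volume.prod (volume.restrict (Jw ζ1 ζ2)))) := by
      have p1 := measurePreserving_prodAssoc (volume : Measure ℝ) (volume.restrict (Iq X0 Δ))
        (volume.restrict (Jw ζ1 ζ2))
      have p2 := measurePreserving_prodAssoc (volume.restrict (Iq X0 Δ)) (volume : Measure ℝ)
        (volume.restrict (Jw ζ1 ζ2))
      have p3 : MeasurePreserving (Prod.map Prod.swap id)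
          (((volume.restrict (Iq X0 Δ)).prod (volume : Measure ℝ)).prod
            (volume.restrict (Jw ζ1 ζ2)))
          (((volume : Measure ℝ).prod (volume.restrict (Iq X0 Δ))).prod
            (volume.restrict (Jw ζ1 ζ2))) :=
        Measure.measurePreserving_swap.prod (MeasurePreserving.id _)
      have h3 := p3.integrable_comp_of_integrable hjJ
      have h4 := (p2.symm _).integrable_comp_of_integrable h3
      exact h4
    filter_upwards [hassoc.prod_right_ae] with q hq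
    exact integral_integral_swap (f := fun τ r => ((w τ : ℝ) : ℂ) *
      KF κ d (c / κ) X0 (s1 * τ) (s2 * τ) q r) hq
  · exact hjJ.integral_prod_left

lemma h5_aux {θ0 s1 s2 : ℝ} (h0 : 0 ≤ θ0) (hs1 : |s1| ≤ 1) (hs2 : |s2| ≤ 1) (τ : ℝ) :
    rexp (θ0 * (|s1 * τ| + |s2 * τ|)) ≤ rexp (2 * θ0 * |τ|) := by
  apply exp_le_exp.mpr
  rw [abs_mul, abs_mul]
  have := abs_nonneg τ
  nlinarith [mul_le_mul_of_nonneg_right hs1 this, mul_le_mul_of_nonneg_right hs2 this]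

lemma wt_alg {W N Cw E C1 C2 R e1 e2 e3 G : ℝ} (hN0 : 0 ≤ N) (hCw : 0 ≤ Cw) (hE : 0 ≤ E)
    (hC1 : 0 ≤ C1) (hC2 : 0 ≤ C2) (hR : 0 ≤ R) (hW : W ≤ Cw * R)
    (hN : N ≤ E * (C1 + C2 * (e1 + (e2 + e3)))) (f1 : R ≤ G) (f2 : R * e1 ≤ G) (f3 : R * e2 ≤ G)
    (f4 : R * e3 ≤ G) : W * N ≤ Cw * (C1 + 3 * C2) * E * G := by
  have h1 : W * N ≤ (Cw * R) * (E * (C1 + C2 * (e1 + (e2 + e3)))) :=
    mul_le_mul hW hN hN0 (mul_nonneg hCw hR)
  have h2 : (Cw * R) * (E * (C1 + C2 * (e1 + (e2 + e3)))) =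
      (Cw * E) * (C1 * R + C2 * (R * e1 + (R * e2 + R * e3))) := by ring
  have h3 : C1 * R + C2 * (R * e1 + (R * e2 + R * e3)) ≤ C1 * G + C2 * (G + (G + G)) :=
    add_le_add (mul_le_mul_of_nonneg_left f1 hC1)
      (mul_le_mul_of_nonneg_left (add_le_add f2 (add_le_add f3 f4)) hC2)
  have h4 := mul_le_mul_of_nonneg_left h3 (mul_nonneg hCw hE)
  calc _ ≤ _ := h1
    _ = _ := h2
    _ ≤ _ := h4
    _ = _ := by ring

lemma fneg {x y g τ : ℝ} (hτ : τ < 0) (h : g ≤ x - y) :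
    rexp (x * τ) * rexp (-y * τ) ≤ rexp (-(g * |τ|)) := by
  rw [← Real.exp_add, abs_of_neg hτ]
  apply exp_le_exp.mpr
  have := mul_le_mul_of_nonpos_right h hτ.le
  linarith

lemma fpos {x y g τ : ℝ} (hτ : 0 ≤ τ) (h : g ≤ x - y) :
    rexp (-(x * τ)) * rexp (y * τ) ≤ rexp (-(g * |τ|)) := by
  rw [← Real.exp_add, abs_of_nonneg hτ]
  apply exp_le_exp.mpr
  have := mul_le_mul_of_nonneg_right h hτ
  linarith

lemma tail_exp {κ M x : ℝ} (hκ : 0 ≤ κ) (hx : M ≤ x) : rexp (-(κ * x)) ≤ rexp (-(κ * M)) := by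
  apply exp_le_exp.mpr
  have := mul_le_mul_of_nonneg_left hx hκ
  linarith

lemma hsum_alg {N C1 C3 E T A e1 e2 e3 y1 y2 y3 : ℝ} (hC3 : 0 ≤ C3) (hN : N ≤ C1 * E + T)
    (hT : T ≤ C3 * (A * y1 + (e2 * y2 + e3 * y3))) (hA : A ≤ e1) (he1 : 0 ≤ e1) (he2 : 0 ≤ e2)
    (he3 : 0 ≤ e3) (hy0 : 0 ≤ y1) (hy1 : y1 ≤ E) (hy2 : y2 ≤ E) (hy3 : y3 ≤ E) :
    N ≤ E * (C1 + C3 * (e1 + (e2 + e3))) := by
  have h1 : A * y1 ≤ e1 * E := mul_le_mul hA hy1 hy0 he1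
  have h2 : e2 * y2 ≤ e2 * E := mul_le_mul_of_nonneg_left hy2 he2
  have h3 : e3 * y3 ≤ e3 * E := mul_le_mul_of_nonneg_left hy3 he3
  have h4 := mul_le_mul_of_nonneg_left (add_le_add h1 (add_le_add h2 h3)) hC3
  calc N ≤ C1 * E + T := hN
    _ ≤ C1 * E + C3 * (e1 * E + (e2 * E + e3 * E)) := by linarith
    _ = _ := by ring

/-- the sum over the order -/
theorem weight_flux (hK : KitShift) {d Δ X0 ζ1 ζ2 μ M s1 s2 Cw ap am θ1 θ2 θ1' θ2' : ℝ} {w : ℝ → ℝ}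
    (hd : 0 < d) (hΔ : 0 < Δ) (hM : 0 < M) (hX : Δ < X0) (hX2 : X0 + Δ < 2 * d) (hμ : 0 < μ)
    (hζ1 : μ ≤ ζ1) (hζ2 : μ ≤ ζ2) (hs1 : |s1| ≤ 1) (hs2 : |s2| ≤ 1) (hw : Wt w Cw ap am)
    (h1 : 0 < θ1) (h1' : θ1 < π / 2) (h2 : 0 < θ2) (h2' : θ2 < π / 2)
    (h3 : 0 < θ1') (h3' : θ1' < π / 2) (h4 : 0 < θ2') (h4' : θ2' < π / 2)
    (r1 : -(θ1 * (s1 + s2)) < ap) (r2 : θ2 * (s1 + s2) < ap)
    (r3 : θ1' * (s1 + s2) < am) (r4 : -(θ2' * (s1 + s2)) < am)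
    (x1 : M ≤ Ex d Δ μ θ1 ζ1) (x2 : M ≤ Ex d Δ μ θ2 ζ2)
    (x3 : M ≤ Ex d Δ μ θ1' ζ1) (x4 : M ≤ Ex d Δ μ θ2' ζ2) :
    ∃ c0, 0 < c0 ∧ ∀ c, 0 < c → c < c0 → ∃ C κ0 : ℝ, 0 < κ0 ∧ ∀ κ, κ0 ≤ κ →
      ‖((κ / c * rexp (-(κ * c)) : ℝ) : ℂ) * (∫ q in Iq X0 Δ, ∫ r in Jw ζ1 ζ2,
        ∫ τ, ((w τ : ℝ) : ℂ) * KF κ d (c / κ) X0 (s1 * τ) (s2 * τ) q r) -
        ((π : ℝ) : ℂ) * ∫ τ, ((w τ : ℝ) : ℂ) * Mn κ d (s1 * τ) (s2 * τ)‖ ≤ C * rexp (-(κ * M)) := by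
  obtain ⟨c1, hc1, hstrip⟩ := strip_err hK hd hΔ hM
  refine ⟨min c1 (μ ^ 2 / (4 * M)), by positivity, fun c hc hcc => ?_⟩
  obtain ⟨C1, hC1, hst⟩ := hstrip c hc (hcc.trans_le (min_le_left _ _))
  have hcμ : c ≤ μ ^ 2 / (4 * M) := (hcc.trans_le (min_le_right _ _)).le
  have hMμ : M ≤ μ ^ 2 / (4 * c) := by
    rw [le_div_iff₀ (by positivity)] at hcμ ⊢
    linarith
  have hap := hw.hap
  have ham := hw.ham
  have hCw := hw.Cw_nonneg
  set θ0 := min (min ap am) 1 / 4 with hθ0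
  have hmin : 0 < min (min ap am) 1 := lt_min (lt_min hap ham) one_pos
  have h0 : 0 < θ0 := by positivity
  have hq1 : min (min ap am) 1 ≤ ap := (min_le_left _ _).trans (min_le_left _ _)
  have hq2 : min (min ap am) 1 ≤ am := (min_le_left _ _).trans (min_le_right _ _)
  have hq3 : min (min ap am) 1 ≤ 1 := min_le_right _ _
  have h0' : θ0 < π / 2 := by have := pi_gt_three; linarith
  have h0a : 2 * θ0 < ap := by linarith
  have h0b : 2 * θ0 < am := by linarith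
  obtain ⟨C2, hC2, ht⟩ := tail_main hK (d := d) hΔ hc h0 h0' h1 h1' h2 h2'
  obtain ⟨C3, hC3, ht'⟩ := tail_main hK (d := d) hΔ hc h0 h0' h3 h3' h4 h4'
  have hle2 : Cw * (C1 + 3 * C2) ≤ Cw * (C1 + 3 * (C2 + C3)) :=
    mul_le_mul_of_nonneg_left (by linarith) hCw
  have hle3 : Cw * (C1 + 3 * C3) ≤ Cw * (C1 + 3 * (C2 + C3)) :=
    mul_le_mul_of_nonneg_left (by linarith) hCw
  -- the smallest cosine
  have hcos : ∀ θ, 0 < θ → θ < π / 2 → 0 < cos θ := fun θ h h' =>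
    cos_pos_of_mem_Ioo ⟨by linarith [pi_pos], h'⟩
  set m := min (cos θ0) (min (min (cos θ1) (cos θ2)) (min (cos θ1') (cos θ2'))) with hm
  have hm0 : 0 < m := lt_min (hcos _ h0 h0') (lt_min (lt_min (hcos _ h1 h1') (hcos _ h2 h2'))
    (lt_min (hcos _ h3 h3') (hcos _ h4 h4')))
  set L := min (X0 - Δ) (2 * d - X0 - Δ) with hL
  have hL0 : 0 < L := lt_min (by linarith) (by linarith)
  have hcond : ∀ κ, max 1 (1 / (L * m)) ≤ κ → ∀ θ, m ≤ cos θ → 1 ≤ κ * (X0 - Δ) * cos θ ∧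
      1 ≤ κ * (2 * d - X0 - Δ) * cos θ := by
    intro κ hκ θ hθ
    have hκ0 : 0 < κ := lt_of_lt_of_le one_pos ((le_max_left _ _).trans hκ)
    have h5 : 1 / (L * m) ≤ κ := (le_max_right _ _).trans hκ
    rw [div_le_iff₀ (by positivity)] at h5
    have hLa : L ≤ X0 - Δ := min_le_left _ _
    have hLb : L ≤ 2 * d - X0 - Δ := min_le_right _ _
    constructor
    · calc 1 ≤ κ * (L * m) := h5
        _ = κ * L * m := by ring
        _ ≤ κ * (X0 - Δ) * cos θ := by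
          have : 0 ≤ κ * (X0 - Δ) := mul_nonneg hκ0.le (by linarith)
          exact mul_le_mul (mul_le_mul_of_nonneg_left hLa hκ0.le) hθ hm0.le this
    · calc 1 ≤ κ * (L * m) := h5
        _ = κ * L * m := by ring
        _ ≤ κ * (2 * d - X0 - Δ) * cos θ := by
          have : 0 ≤ κ * (2 * d - X0 - Δ) := mul_nonneg hκ0.le (by linarith)
          exact mul_le_mul (mul_le_mul_of_nonneg_left hLb hκ0.le) hθ hm0.le this
  have hm_0 : m ≤ cos θ0 := min_le_left _ _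
  have hm_1 : m ≤ cos θ1 := (min_le_right _ _).trans ((min_le_left _ _).trans (min_le_left _ _))
  have hm_2 : m ≤ cos θ2 := (min_le_right _ _).trans ((min_le_left _ _).trans (min_le_right _ _))
  have hm_3 : m ≤ cos θ1' := (min_le_right _ _).trans ((min_le_right _ _).trans (min_le_left _ _))
  have hm_4 : m ≤ cos θ2' := (min_le_right _ _).trans ((min_le_right _ _).trans (min_le_right _ _))
  -- rates
  set gp := ap - max (max 0 (2 * θ0)) (max (-(θ1 * (s1 + s2))) (θ2 * (s1 + s2))) with hgp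
  set gm := am - max (max 0 (2 * θ0)) (max (θ1' * (s1 + s2)) (-(θ2' * (s1 + s2)))) with hgm
  have hgp0 : 0 < gp := by
    rw [hgp, sub_pos]; exact max_lt (max_lt hap h0a) (max_lt r1 r2)
  have hgm0 : 0 < gm := by
    rw [hgm, sub_pos]; exact max_lt (max_lt ham h0b) (max_lt r3 r4)
  set g := min gp gm with hg
  have hg0 : 0 < g := lt_min hgp0 hgm0
  have gp1 : g ≤ ap - 0 := (min_le_left _ _).trans (by
    rw [hgp]; exact sub_le_sub_left ((le_max_left _ _).trans (le_max_left _ _)) _)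
  have gp2 : g ≤ ap - 2 * θ0 := (min_le_left _ _).trans (by
    rw [hgp]; exact sub_le_sub_left ((le_max_right _ _).trans (le_max_left _ _)) _)
  have gp3 : g ≤ ap - -(θ1 * (s1 + s2)) := (min_le_left _ _).trans (by
    rw [hgp]; exact sub_le_sub_left ((le_max_left _ _).trans (le_max_right _ _)) _)
  have gp4 : g ≤ ap - θ2 * (s1 + s2) := (min_le_left _ _).trans (by
    rw [hgp]; exact sub_le_sub_left ((le_max_right _ _).trans (le_max_right _ _)) _)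
  have gm1 : g ≤ am - 0 := (min_le_right _ _).trans (by
    rw [hgm]; exact sub_le_sub_left ((le_max_left _ _).trans (le_max_left _ _)) _)
  have gm2 : g ≤ am - 2 * θ0 := (min_le_right _ _).trans (by
    rw [hgm]; exact sub_le_sub_left ((le_max_right _ _).trans (le_max_left _ _)) _)
  have gm3 : g ≤ am - θ1' * (s1 + s2) := (min_le_right _ _).trans (by
    rw [hgm]; exact sub_le_sub_left ((le_max_left _ _).trans (le_max_right _ _)) _)
  have gm4 : g ≤ am - -(θ2' * (s1 + s2)) := (min_le_right _ _).trans (by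
    rw [hgm]; exact sub_le_sub_left ((le_max_right _ _).trans (le_max_right _ _)) _)
  set K := Cw * (C1 + 3 * (C2 + C3)) with hKd
  have hK0 : 0 ≤ K := by positivity
  refine ⟨K * (2 / g), max 1 (1 / (L * m)), lt_of_lt_of_le one_pos (le_max_left _ _),
    fun κ hκ => ?_⟩
  have hκ1 : 1 ≤ κ := (le_max_left _ _).trans hκ
  have hκ0 : 0 < κ := by linarith
  have hc0 := hcond κ hκ θ0 hm_0
  have ha : 0 < c / κ := by positivity
  -- pointwise bound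
  have hpt : ∀ τ, ‖((w τ : ℝ) : ℂ) * (WFx κ d c X0 Δ ζ1 ζ2 (s1 * τ) (s2 * τ) -
      ((π : ℝ) : ℂ) * Mn κ d (s1 * τ) (s2 * τ))‖ ≤ K * rexp (-(κ * M)) * rexp (-(g * |τ|)) := by
    intro τ
    have hwe := wf_err hK (ζ1 := ζ1) (ζ2 := ζ2) (σ₁ := s1 * τ) (σ₂ := s2 * τ) hκ0 hc hX hX2 h0 h0' hc0
    have hs := hst κ X0 (s1 * τ) (s2 * τ) hκ1 hX hX2
    have h5 : rexp (θ0 * (|s1 * τ| + |s2 * τ|)) ≤ rexp (2 * θ0 * |τ|) := h5_aux h0.le hs1 hs2 τ
    have hPi : ‖WFx κ d c X0 Δ ζ1 ζ2 (s1 * τ) (s2 * τ) - ((π : ℝ) : ℂ) * Mn κ d (s1 * τ) (s2 * τ)‖ ≤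
        C1 * rexp (-(κ * M)) + κ / c * (∫ q in Iq X0 Δ, ∫ r in (Jw ζ1 ζ2)ᶜ,
          ‖KF κ d (c / κ) X0 (s1 * τ) (s2 * τ) q r‖) := by
      exact hwe.trans (add_le_add_left hs _)
    rw [norm_mul, Complex.norm_real, Real.norm_eq_abs]
    rcases lt_or_ge τ 0 with hτ | hτ
    · have hT := ht' κ X0 ζ1 ζ2 μ (s1 * τ) (s2 * τ) hκ0 hX hX2 hμ.le hζ1 hζ2 (by
        intro θ hθ
        rcases hθ with hθ | hθ | hθ <;> rw [hθ]
        · exact hcond κ hκ θ0 hm_0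
        · exact hcond κ hκ θ1' hm_3
        · exact hcond κ hκ θ2' hm_4)
      have e1 : rexp (-(θ1' * (s1 * τ + s2 * τ))) = rexp (-(θ1' * (s1 + s2)) * τ) := by
        congr 1; ring
      have e2 : rexp (θ2' * (s1 * τ + s2 * τ)) = rexp (θ2' * (s1 + s2) * τ) := by
        congr 1; ring
      rw [e1, e2] at hT
      have hsum := hsum_alg hC3 hPi hT h5 (exp_pos _).le (exp_pos _).le (exp_pos _).le
        (exp_pos _).le (tail_exp hκ0.le hMμ) (tail_exp hκ0.le x3) (tail_exp hκ0.le x4)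
      have f1 : rexp (am * τ) ≤ rexp (-(g * |τ|)) := by
        have := fneg (x := am) (y := 0) hτ gm1
        rwa [neg_zero, zero_mul, exp_zero, mul_one] at this
      have f2 : rexp (am * τ) * rexp (2 * θ0 * |τ|) ≤ rexp (-(g * |τ|)) := by
        have e3 : 2 * θ0 * |τ| = -(2 * θ0) * τ := by rw [abs_of_neg hτ]; ring
        rw [e3]
        exact fneg hτ gm2
      have f3 : rexp (am * τ) * rexp (-(θ1' * (s1 + s2)) * τ) ≤ rexp (-(g * |τ|)) :=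
        fneg hτ gm3
      have f4 : rexp (am * τ) * rexp (θ2' * (s1 + s2) * τ) ≤ rexp (-(g * |τ|)) := by
        have := fneg (x := am) (y := -(θ2' * (s1 + s2))) hτ gm4
        rwa [neg_neg] at this
      have hfin := wt_alg (norm_nonneg _) hCw (exp_pos (-(κ * M))).le hC1 hC3 (exp_pos _).le
        (hw.neg τ hτ) hsum f1 f2 f3 f4
      exact hfin.trans (mul_le_mul_of_nonneg_right (mul_le_mul_of_nonneg_right hle3
        (exp_pos _).le) (exp_pos _).le)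
    · have hT := ht κ X0 ζ1 ζ2 μ (s1 * τ) (s2 * τ) hκ0 hX hX2 hμ.le hζ1 hζ2 (by
        intro θ hθ
        rcases hθ with hθ | hθ | hθ <;> rw [hθ]
        · exact hcond κ hκ θ0 hm_0
        · exact hcond κ hκ θ1 hm_1
        · exact hcond κ hκ θ2 hm_2)
      have e1 : rexp (-(θ1 * (s1 * τ + s2 * τ))) = rexp (-(θ1 * (s1 + s2)) * τ) := by
        congr 1; ring
      have e2 : rexp (θ2 * (s1 * τ + s2 * τ)) = rexp (θ2 * (s1 + s2) * τ) := by
        congr 1; ring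
      rw [e1, e2] at hT
      have hsum := hsum_alg hC2 hPi hT h5 (exp_pos _).le (exp_pos _).le (exp_pos _).le
        (exp_pos _).le (tail_exp hκ0.le hMμ) (tail_exp hκ0.le x1) (tail_exp hκ0.le x2)
      have f1 : rexp (-(ap * τ)) ≤ rexp (-(g * |τ|)) := by
        have := fpos (x := ap) (y := 0) hτ gp1
        rwa [zero_mul, exp_zero, mul_one] at this
      have f2 : rexp (-(ap * τ)) * rexp (2 * θ0 * |τ|) ≤ rexp (-(g * |τ|)) := by
        rw [abs_of_nonneg hτ]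
        have := fpos (x := ap) (y := 2 * θ0) hτ gp2
        rwa [abs_of_nonneg hτ] at this
      have f3 : rexp (-(ap * τ)) * rexp (-(θ1 * (s1 + s2)) * τ) ≤ rexp (-(g * |τ|)) :=
        fpos hτ gp3
      have f4 : rexp (-(ap * τ)) * rexp (θ2 * (s1 + s2) * τ) ≤ rexp (-(g * |τ|)) :=
        fpos hτ gp4
      have hfin := wt_alg (norm_nonneg _) hCw (exp_pos (-(κ * M))).le hC1 hC2 (exp_pos _).le
        (hw.pos τ hτ) hsum f1 f2 f3 f4
      exact hfin.trans (mul_le_mul_of_nonneg_right (mul_le_mul_of_nonneg_right hle2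
        (exp_pos _).le) (exp_pos _).le)
  rw [← wf_fubini hK hw hs1 hs2 hκ0 hc hX hX2 h0 h0' h0a h0b hc0]
  have hgi : Integrable fun τ : ℝ => K * rexp (-(κ * M)) * rexp (-(g * |τ|)) :=
    (int_exp_neg_abs hg0).const_mul _
  have hwm : Measurable fun τ : ℝ => ((w τ : ℝ) : ℂ) := Complex.measurable_ofReal.comp hw.meas
  have hgw : g ≤ ap ∧ g ≤ am := ⟨by simpa using gp1, by simpa using gm1⟩
  have hmW : Measurable fun τ : ℝ => WFx κ d c X0 Δ ζ1 ζ2 (s1 * τ) (s2 * τ) :=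
    measurable_WFx κ d c X0 Δ ζ1 ζ2 s1 s2
  have hmM : Measurable fun τ : ℝ => Mn κ d (s1 * τ) (s2 * τ) := measurable_Mn κ d s1 s2
  have hmP : Measurable fun τ : ℝ => ((π : ℝ) : ℂ) * Mn κ d (s1 * τ) (s2 * τ) := hmM.const_mul _
  have hmQ : Measurable fun τ : ℝ => ((w τ : ℝ) : ℂ) * Mn κ d (s1 * τ) (s2 * τ) := hwm.mul hmM
  have hmR : Measurable fun τ : ℝ => ((π : ℝ) : ℂ) * (((w τ : ℝ) : ℂ) * Mn κ d (s1 * τ) (s2 * τ)) :=
    hmQ.const_mul _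
  have hi2 : Integrable fun τ : ℝ => ((π : ℝ) : ℂ) * (((w τ : ℝ) : ℂ) * Mn κ d (s1 * τ) (s2 * τ)) := by
    refine ((int_exp_neg_abs hg0).const_mul (π * (Cw * E0 (2 * d * κ)))).mono'
      hmR.aestronglyMeasurable (Eventually.of_forall fun τ => ?_)
    rw [norm_mul, norm_mul, Complex.norm_real, Complex.norm_real, Real.norm_eq_abs,
      Real.norm_eq_abs, abs_of_pos pi_pos]
    have h6 := hw.bound hgw.1 hgw.2 τ
    have h7 := norm_Mn_le (κ := κ) (d := d) (s1 * τ) (s2 * τ)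
    have h8 := E0_nonneg (2 * d * κ)
    calc π * (|w τ| * ‖Mn κ d (s1 * τ) (s2 * τ)‖) ≤ π * ((Cw * rexp (-(g * |τ|))) * E0 (2 * d * κ)) := by
          gcongr
      _ = _ := by ring
  have hi3 : Integrable fun τ : ℝ => ((w τ : ℝ) : ℂ) * (WFx κ d c X0 Δ ζ1 ζ2 (s1 * τ) (s2 * τ) -
      ((π : ℝ) : ℂ) * Mn κ d (s1 * τ) (s2 * τ)) := by
    refine hgi.mono' ?_ (Eventually.of_forall hpt)
    exact (hwm.mul (hmW.sub hmP)).aestronglyMeasurable
  have e5 : (∫ τ, ((w τ : ℝ) : ℂ) * WFx κ d c X0 Δ ζ1 ζ2 (s1 * τ) (s2 * τ)) -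
      ((π : ℝ) : ℂ) * ∫ τ, ((w τ : ℝ) : ℂ) * Mn κ d (s1 * τ) (s2 * τ) =
      ∫ τ, ((w τ : ℝ) : ℂ) * (WFx κ d c X0 Δ ζ1 ζ2 (s1 * τ) (s2 * τ) -
      ((π : ℝ) : ℂ) * Mn κ d (s1 * τ) (s2 * τ)) := by
    rw [← integral_const_mul, ← integral_sub _ hi2]
    · congr 1
      ext τ
      ring
    · refine (hi3.add hi2).congr (Eventually.of_forall fun τ => ?_)
      simp only [Pi.add_apply]
      ring
  rw [e5]
  refine (norm_integral_le_of_norm_le hgi (Eventually.of_forall hpt)).trans (le_of_eq ?_)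
  rw [integral_const_mul, integral_exp_abs hg0]
  ring

end Pool.Agent.AEU.H12
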