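import Mathlib

/-! helper12, AEU (MP_5b0138_an) Part III: leading term of Laplace type integrals (scaling and
dominated convergence), first order expansions, and comparison of germs. -/

namespace Pool.Agent.AEU.H12

open MeasureTheory Filter Topology Real Set

section Watson

variable {E : Type*} [NormedAddCommGroup E] [NormedSpace ℝ E] [FiniteDimensional ℝ E]
  [MeasurableSpace E] [BorelSpace E] (μ : Measure E) [μ.IsAddHaarMeasure]

/-- **Leading term.**  `φ ≥ q` with `q` homogeneous of degree two, `m` homogeneous of degree `2k`,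
`|h| ≤ M m`, and `h` has the radial expansion `h (s x) = s^(2k) (c m(x) + o(1))`. -/
theorem watson_leading (φ q m h : E → ℝ) (M c : ℝ) (k : ℕ)
    (hφ : Measurable φ) (hh : Measurable h)
    (hq : ∀ x, q x ≤ φ x) (hq2 : ∀ x, ∀ s : ℝ, 0 < s → q (s • x) = s ^ 2 * q x)
    (hφ2 : ∀ x, Tendsto (fun s : ℝ => φ (s • x) / s ^ 2) (𝓝[>] 0) (𝓝 (q x)))
    (hm2 : ∀ x, ∀ s : ℝ, 0 < s → m (s • x) = s ^ (2 * k) * m x)
    (hb : ∀ x, |h x| ≤ M * m x)
    (hlim : ∀ x, Tendsto (fun s : ℝ => h (s • x) / s ^ (2 * k)) (𝓝[>] 0) (𝓝 (c * m x)))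
    (hint : Integrable (fun x => rexp (-q x) * m x) μ) :
    Tendsto (fun L : ℝ => (√L) ^ (2 * k + Module.finrank ℝ E) * ∫ x, rexp (-(L * φ x)) * h x ∂μ)
      atTop (𝓝 (c * ∫ x, rexp (-q x) * m x ∂μ)) := by
  -- scale
  have hscale : ∀ L : ℝ, 0 < L →
      (√L) ^ (2 * k + Module.finrank ℝ E) * ∫ x, rexp (-(L * φ x)) * h x ∂μ
        = ∫ x, rexp (-(L * φ ((√L)⁻¹ • x))) * (h ((√L)⁻¹ • x) / ((√L)⁻¹) ^ (2 * k)) ∂μ := by
    intro L hL
    have hs : 0 < √L := Real.sqrt_pos.mpr hL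
    have h1 := Measure.integral_comp_smul μ (fun x => rexp (-(L * φ x)) * h x) (√L)⁻¹
    have h2 : ∫ x, rexp (-(L * φ ((√L)⁻¹ • x))) * (h ((√L)⁻¹ • x) / ((√L)⁻¹) ^ (2 * k)) ∂μ
        = (√L) ^ (2 * k) * ∫ x, rexp (-(L * φ ((√L)⁻¹ • x))) * h ((√L)⁻¹ • x) ∂μ := by
      rw [← integral_const_mul]
      congr 1
      ext x
      rw [inv_pow]
      field_simp
    rw [h2, h1, inv_pow, inv_inv, abs_of_pos (by positivity), smul_eq_mul, pow_add]
    ring
  have hev : (fun L : ℝ => (√L) ^ (2 * k + Module.finrank ℝ E) * ∫ x, rexp (-(L * φ x)) * h x ∂μ)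
      =ᶠ[atTop] fun L => ∫ x, rexp (-(L * φ ((√L)⁻¹ • x))) *
        (h ((√L)⁻¹ • x) / ((√L)⁻¹) ^ (2 * k)) ∂μ := by
    filter_upwards [eventually_gt_atTop 0] with L hL using hscale L hL
  rw [tendsto_congr' hev, ← integral_const_mul]
  have hsm : ∀ L : ℝ, Measurable fun x : E => (√L)⁻¹ • x := fun L =>
    (continuous_const_smul _).measurable
  have hto : Tendsto (fun L : ℝ => (√L)⁻¹) atTop (𝓝[>] 0) := by
    refine tendsto_nhdsWithin_iff.mpr ⟨tendsto_inv_atTop_zero.comp tendsto_sqrt_atTop, ?_⟩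
    filter_upwards [eventually_gt_atTop 0] with L hL
    exact inv_pos.mpr (Real.sqrt_pos.mpr hL)
  refine tendsto_integral_filter_of_dominated_convergence (fun x => M * (rexp (-q x) * m x))
    ?_ ?_ (hint.const_mul M) ?_
  · refine Eventually.of_forall fun L => ?_
    refine (Measurable.aestronglyMeasurable ?_)
    refine Measurable.mul ?_ ?_
    · exact (((hφ.comp (hsm L)).const_mul L).neg).exp
    · exact (hh.comp (hsm L)).div_const _
  · filter_upwards [eventually_gt_atTop 0] with L hL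
    refine Eventually.of_forall fun x => ?_
    have hs : 0 < (√L)⁻¹ := inv_pos.mpr (Real.sqrt_pos.mpr hL)
    have hsq : ((√L)⁻¹) ^ 2 = L⁻¹ := by rw [inv_pow, Real.sq_sqrt hL.le]
    have e1 : q x ≤ L * φ ((√L)⁻¹ • x) := by
      have := hq ((√L)⁻¹ • x)
      rw [hq2 x _ hs, hsq] at this
      calc q x = L * (L⁻¹ * q x) := by field_simp
        _ ≤ L * φ ((√L)⁻¹ • x) := by gcongr
    have e2 : |h ((√L)⁻¹ • x) / ((√L)⁻¹) ^ (2 * k)| ≤ M * m x := by
      rw [abs_div, abs_of_pos (by positivity : 0 < ((√L)⁻¹) ^ (2 * k)), div_le_iff₀ (by positivity)]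
      have := hb ((√L)⁻¹ • x)
      rw [hm2 x _ hs] at this
      linarith
    rw [norm_mul, Real.norm_eq_abs, Real.norm_eq_abs, abs_of_pos (exp_pos _)]
    calc rexp (-(L * φ ((√L)⁻¹ • x))) * |h ((√L)⁻¹ • x) / ((√L)⁻¹) ^ (2 * k)|
        ≤ rexp (-q x) * (M * m x) := by
          gcongr
      _ = M * (rexp (-q x) * m x) := by ring
  · refine Eventually.of_forall fun x => ?_
    have t1 : Tendsto (fun L : ℝ => rexp (-(L * φ ((√L)⁻¹ • x)))) atTop (𝓝 (rexp (-q x))) := by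
      refine (Real.continuous_exp.tendsto _).comp ?_
      refine Tendsto.neg ?_
      have := (hφ2 x).comp hto
      refine this.congr' ?_
      filter_upwards [eventually_gt_atTop 0] with L hL
      have hsq : ((√L)⁻¹) ^ 2 = L⁻¹ := by rw [inv_pow, Real.sq_sqrt hL.le]
      simp only [Function.comp]
      rw [hsq]
      field_simp
    have t2 := (hlim x).comp hto
    have t3 := t1.mul t2
    have e3 : rexp (-q x) * (c * m x) = c * (rexp (-q x) * m x) := by ring
    rw [e3] at t3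
    exact t3

end Watson

/-! ### First order expansions in `s ^ 2` -/

/-- `A s = a + a' s^2 + o(s^2)` as `s → 0+` -/
def Exp2 (A : ℝ → ℝ) (a a' : ℝ) : Prop :=
  Tendsto (fun s => (A s - a) / s ^ 2) (𝓝[>] 0) (𝓝 a')

lemma sq_tendsto : Tendsto (fun s : ℝ => s ^ 2) (𝓝[>] 0) (𝓝 0) := by
  have : Tendsto (fun s : ℝ => s ^ 2) (𝓝 0) (𝓝 (0 ^ 2)) := (continuous_pow 2).tendsto 0
  rw [zero_pow two_ne_zero] at this
  exact this.mono_left nhdsWithin_le_nhds

lemma Exp2.tendsto {A : ℝ → ℝ} {a a' : ℝ} (h : Exp2 A a a') : Tendsto A (𝓝[>] 0) (𝓝 a) := by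
  have h1 := (h.mul sq_tendsto).const_add a
  rw [mul_zero, add_zero] at h1
  refine h1.congr' ?_
  filter_upwards [self_mem_nhdsWithin] with s hs
  have hs' : (s : ℝ) ≠ 0 := (Set.mem_Ioi.mp hs).ne'
  field_simp
  ring

lemma Exp2.const (a : ℝ) : Exp2 (fun _ => a) a 0 := by
  unfold Exp2
  simp

lemma Exp2.congr {A B : ℝ → ℝ} {a a' : ℝ} (h : Exp2 A a a') (hAB : ∀ s, 0 < s → A s = B s) :
    Exp2 B a a' := by
  refine Tendsto.congr' ?_ h
  filter_upwards [self_mem_nhdsWithin] with s hs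
  rw [hAB s hs]

lemma Exp2.add {A B : ℝ → ℝ} {a a' b b' : ℝ} (hA : Exp2 A a a') (hB : Exp2 B b b') :
    Exp2 (fun s => A s + B s) (a + b) (a' + b') := by
  refine Tendsto.congr ?_ (Tendsto.add hA hB)
  intro s
  ring

lemma Exp2.sub {A B : ℝ → ℝ} {a a' b b' : ℝ} (hA : Exp2 A a a') (hB : Exp2 B b b') :
    Exp2 (fun s => A s - B s) (a - b) (a' - b') := by
  refine Tendsto.congr ?_ (Tendsto.sub hA hB)
  intro s
  ring

lemma Exp2.mul {A B : ℝ → ℝ} {a a' b b' : ℝ} (hA : Exp2 A a a') (hB : Exp2 B b b') :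
    Exp2 (fun s => A s * B s) (a * b) (a' * b + a * b') := by
  have h := (Tendsto.mul hA hB.tendsto).add (Tendsto.const_mul a hB)
  refine Tendsto.congr ?_ h
  intro s
  ring

lemma Exp2.const_mul {A : ℝ → ℝ} {a a' : ℝ} (c : ℝ) (hA : Exp2 A a a') :
    Exp2 (fun s => c * A s) (c * a) (c * a') := by
  have := (Exp2.const c).mul hA
  simpa using this

lemma Exp2.inv {A : ℝ → ℝ} {a a' : ℝ} (hA : Exp2 A a a') (ha : a ≠ 0) :
    Exp2 (fun s => (A s)⁻¹) a⁻¹ (-a' / a ^ 2) := by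
  have hne : ∀ᶠ s in 𝓝[>] (0 : ℝ), A s ≠ 0 := hA.tendsto.eventually_ne ha
  have h1 : Tendsto (fun s => -((A s - a) / s ^ 2) * ((A s)⁻¹ * a⁻¹)) (𝓝[>] 0)
      (𝓝 (-a' * (a⁻¹ * a⁻¹))) :=
    (Tendsto.neg hA).mul ((hA.tendsto.inv₀ ha).mul_const _)
  have e : -a' * (a⁻¹ * a⁻¹) = -a' / a ^ 2 := by field_simp
  rw [e] at h1
  refine Tendsto.congr' ?_ h1
  filter_upwards [hne] with s hs
  field_simp
  ring

/-! ### Germs -/

/-- `T κ ~ c e^(-Lκ) κ^(-p)` -/
def Lead (T : ℝ → ℝ) (L p c : ℝ) : Prop :=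
  Tendsto (fun κ => T κ * (rexp (L * κ) * κ ^ p)) atTop (𝓝 c)

/-- exponential beats powers -/
lemma exp_neg_mul_rpow_tendsto {a : ℝ} (ha : 0 < a) (p : ℝ) :
    Tendsto (fun κ : ℝ => rexp (-(a * κ)) * κ ^ p) atTop (𝓝 0) := by
  have := tendsto_rpow_mul_exp_neg_mul_atTop_nhds_zero p a ha
  refine this.congr ?_
  intro κ
  rw [mul_comm, neg_mul]

lemma Lead.mul_small {T : ℝ → ℝ} {L p c : ℝ} (h : Lead T L p c) {L' : ℝ} (hL : L' < L) (p' : ℝ) :
    Tendsto (fun κ => T κ * (rexp (L' * κ) * κ ^ p')) atTop (𝓝 0) := by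
  have h1 := h.mul (exp_neg_mul_rpow_tendsto (sub_pos.mpr hL) (p' - p))
  rw [mul_zero] at h1
  refine h1.congr' ?_
  filter_upwards [eventually_gt_atTop 0] with κ hκ
  have e1 : rexp (L' * κ) = rexp (L * κ) * rexp (-((L - L') * κ)) := by
    rw [← Real.exp_add]; congr 1; ring
  have e2 : κ ^ p' = κ ^ p * κ ^ (p' - p) := by
    rw [← Real.rpow_add hκ]; congr 1; ring
  rw [e1, e2]
  ring

lemma small_of_bound {T : ℝ → ℝ} {C L δ : ℝ} (hδ : 0 < δ)
    (h : ∀ᶠ κ in atTop, |T κ| ≤ C * rexp (-((L + δ) * κ))) {L' : ℝ} (hL : L' ≤ L) (p : ℝ) :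
    Tendsto (fun κ => T κ * (rexp (L' * κ) * κ ^ p)) atTop (𝓝 0) := by
  have h1 := (exp_neg_mul_rpow_tendsto (a := L + δ - L') (by linarith) p).const_mul C
  rw [mul_zero] at h1
  refine squeeze_zero_norm' ?_ h1
  filter_upwards [h, eventually_gt_atTop 0] with κ hκ hκ0
  rw [norm_mul, Real.norm_eq_abs, Real.norm_eq_abs,
    abs_of_pos (mul_pos (exp_pos _) (Real.rpow_pos_of_pos hκ0 p))]
  have e1 : rexp (-((L + δ - L') * κ)) = rexp (-((L + δ) * κ)) * rexp (L' * κ) := by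
    rw [← Real.exp_add]; congr 1; ring
  rw [e1]
  have := mul_le_mul_of_nonneg_right hκ
    (mul_pos (exp_pos (L' * κ)) (Real.rpow_pos_of_pos hκ0 p)).le
  calc _ ≤ C * rexp (-((L + δ) * κ)) * (rexp (L' * κ) * κ ^ p) := this
    _ = _ := by ring

/-- **Comparison of two germs**: same length, same power, same leading coefficient. -/
theorem Lead.unique {T T' : ℝ → ℝ} {L p c L' p' c' C δ : ℝ} (h : Lead T L p c)
    (h' : Lead T' L' p' c') (hc : c ≠ 0) (hc' : c' ≠ 0) (hδ : 0 < δ)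
    (hb : ∀ᶠ κ in atTop, |T κ - T' κ| ≤ C * rexp (-((L + δ) * κ))) :
    L = L' ∧ p = p' ∧ c = c' := by
  have hL : L = L' := by
    rcases lt_trichotomy L L' with hlt | heq | hgt
    · exfalso
      -- T' is negligible at rate L
      have h1 := h'.mul_small hlt p
      have h2 := small_of_bound hδ hb le_rfl p
      have h3 := h1.add h2
      have h4 : Tendsto (fun κ => T κ * (rexp (L * κ) * κ ^ p)) atTop (𝓝 (0 + 0)) := by
        refine h3.congr ?_
        intro κ; ring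
      rw [add_zero] at h4
      exact hc (tendsto_nhds_unique h h4)
    · exact heq
    · exfalso
      have h1 := h.mul_small hgt p'
      have h2 := small_of_bound hδ hb hgt.le p'
      have h3 := h1.sub h2
      have h4 : Tendsto (fun κ => T' κ * (rexp (L' * κ) * κ ^ p')) atTop (𝓝 (0 - 0)) := by
        refine h3.congr ?_
        intro κ; ring
      rw [sub_zero] at h4
      exact hc' (tendsto_nhds_unique h' h4)
  subst hL
  have key : ∀ r : ℝ, Tendsto (fun κ => (T κ - T' κ) * (rexp (L * κ) * κ ^ r)) atTop (𝓝 0) :=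
    fun r => small_of_bound hδ hb le_rfl r
  have hp : p = p' := by
    rcases lt_trichotomy p p' with hlt | heq | hgt
    · exfalso
      -- κ^p with p < p': T' κ^p → 0
      have h1 : Tendsto (fun κ => T' κ * (rexp (L * κ) * κ ^ p)) atTop (𝓝 0) := by
        have h2 := h'.mul (tendsto_rpow_neg_atTop (show 0 < p' - p by linarith))
        rw [mul_zero] at h2
        refine h2.congr' ?_
        filter_upwards [eventually_gt_atTop 0] with κ hκ
        have e2 : κ ^ p = κ ^ p' * κ ^ (-(p' - p)) := by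
          rw [← Real.rpow_add hκ]; congr 1; ring
        rw [e2]; ring
      have h4 : Tendsto (fun κ => T κ * (rexp (L * κ) * κ ^ p)) atTop (𝓝 (0 + 0)) := by
        refine (h1.add (key p)).congr ?_
        intro κ; ring
      rw [add_zero] at h4
      exact hc (tendsto_nhds_unique h h4)
    · exact heq
    · exfalso
      have h1 : Tendsto (fun κ => T κ * (rexp (L * κ) * κ ^ p')) atTop (𝓝 0) := by
        have h2 := h.mul (tendsto_rpow_neg_atTop (show 0 < p - p' by linarith))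
        rw [mul_zero] at h2
        refine h2.congr' ?_
        filter_upwards [eventually_gt_atTop 0] with κ hκ
        have e2 : κ ^ p' = κ ^ p * κ ^ (-(p - p')) := by
          rw [← Real.rpow_add hκ]; congr 1; ring
        rw [e2]; ring
      have h4 : Tendsto (fun κ => T' κ * (rexp (L * κ) * κ ^ p')) atTop (𝓝 (0 - 0)) := by
        refine (h1.sub (key p')).congr ?_
        intro κ; ring
      rw [sub_zero] at h4
      exact hc' (tendsto_nhds_unique h' h4)
  subst hp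
  refine ⟨rfl, rfl, ?_⟩
  have h5 := h'.add (key p)
  have h6 : Tendsto (fun κ => T κ * (rexp (L * κ) * κ ^ p)) atTop (𝓝 (c' + 0)) := by
    refine h5.congr ?_
    intro κ; ring
  rw [add_zero] at h6
  exact tendsto_nhds_unique h h6

/-- a germ is not exponentially small -/
theorem Lead.not_small {T : ℝ → ℝ} {L p c C δ : ℝ} (h : Lead T L p c) (hc : c ≠ 0) (hδ : 0 < δ)
    (hb : ∀ᶠ κ in atTop, |T κ| ≤ C * rexp (-((L + δ) * κ))) : False := by
  have := small_of_bound hδ hb le_rfl p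
  exact hc (tendsto_nhds_unique h this)

end Pool.Agent.AEU.H12
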