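import Pool.Agent.Helper12_AEU.Tail

/-! helper12, AEU (MP_5b0138_an) Part III, FLUX: summation over the order `τ`. -/

namespace Pool.Agent.AEU.H12

open MeasureTheory Filter Topology Real Set

lemma measurable_pw : Measurable fun z : ℝ × ℝ × ℝ => pw z.1 z.2.1 z.2.2 := by
  unfold pw
  apply Measurable.const_mul
  have h : Continuous fun z : (ℝ × ℝ × ℝ) × ℝ => pwi z.1.1 z.1.2.1 z.1.2.2 z.2 := by
    unfold pwi
    fun_prop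
  exact (h.stronglyMeasurable.integral_prod_right').measurable

lemma measurable_KF (κ d a X0 s1 s2 : ℝ) : Measurable fun z : (ℝ × (ℝ × ℝ)) × (ℝ × ℝ) =>
    KF κ d a X0 (s1 * z.1.1) (s2 * z.1.1) z.1.2 z.2 := by
  unfold KF
  have m1 := (continuous_g1 a).measurable
  have m2 := chi_meas X0
  have h1 : Measurable fun z : (ℝ × (ℝ × ℝ)) × (ℝ × ℝ) =>
      pw (κ * z.1.2.1) (κ * z.2.1) (s1 * z.1.1) := by
    have : Measurable fun z : (ℝ × (ℝ × ℝ)) × (ℝ × ℝ) =>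
      ((κ * z.1.2.1, κ * z.2.1, s1 * z.1.1) : ℝ × ℝ × ℝ) := by fun_prop
    exact measurable_pw.comp this
  have h2 : Measurable fun z : (ℝ × (ℝ × ℝ)) × (ℝ × ℝ) =>
      pw (κ * (2 * d - z.1.2.2)) (κ * z.2.2) (s2 * z.1.1) := by
    have : Measurable fun z : (ℝ × (ℝ × ℝ)) × (ℝ × ℝ) =>
      ((κ * (2 * d - z.1.2.2), κ * z.2.2, s2 * z.1.1) : ℝ × ℝ × ℝ) := by fun_prop
    exact measurable_pw.comp this
  apply Measurable.mul _ (h1.mul h2)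
  apply Complex.measurable_ofReal.comp
  fun_prop

/-- a global bound of the kernel -/
lemma kf_dom (hK : KitShift) {κ d a X0 Δ θ0 σ₁ σ₂ : ℝ} (hκ : 0 < κ) (ha : 0 < a)
    (hX : Δ < X0) (hX2 : X0 + Δ < 2 * d)
    (h0 : 0 < θ0) (h0' : θ0 < π / 2)
    (hA : 1 ≤ κ * (X0 - Δ) * cos θ0 ∧ 1 ≤ κ * (2 * d - X0 - Δ) * cos θ0)
    {q : ℝ × ℝ} (hq : q ∈ Iq X0 Δ) (r : ℝ × ℝ) :
    ‖KF κ d a X0 σ₁ σ₂ q r‖ ≤ (4 * π * a)⁻¹ * (CE / 2) ^ 2 * rexp (θ0 * (|σ₁| + |σ₂|)) *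
      (rexp (-(κ * sin θ0 * |r.1|)) * rexp (-(κ * sin θ0 * |r.2|))) := by
  have hq11 := hq.1.1
  have hq12 := hq.1.2
  have hq21 := hq.2.1
  have hq22 := hq.2.2
  have hX1 : 0 < q.1 := by linarith
  have hX1' : 0 < 2 * d - q.2 := by linarith
  have hc : 0 < cos θ0 := cos_pos_of_mem_Ioo ⟨by linarith [pi_pos], h0'⟩
  have hA1 : 1 ≤ κ * q.1 * cos θ0 := by
    refine hA.1.trans ?_
    apply mul_le_mul_of_nonneg_right _ hc.le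
    apply mul_le_mul_of_nonneg_left _ hκ.le
    linarith
  have hA2 : 1 ≤ κ * (2 * d - q.2) * cos θ0 := by
    refine hA.2.trans ?_
    apply mul_le_mul_of_nonneg_right _ hc.le
    apply mul_le_mul_of_nonneg_left _ hκ.le
    linarith
  have hsq : 0 ≤ (√(4 * π * a))⁻¹ := by positivity
  have hCE := CE_nonneg
  have hp1 := pw_far hK (s := r.1) (σ := σ₁) hκ hX1 h0 h0' hA1
  have hp2 := pw_far hK (s := r.2) (σ := σ₂) hκ hX1' h0 h0' hA2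
  have hg := g1_le ha (r.1 - r.2)
  have hg0 := g1_nonneg a (r.1 - r.2)
  have h3 := chi_sub_le X0 q.2 q.1
  have h4 := g1_le ha (q.1 - q.2)
  have h5 := g1_nonneg a (q.1 - q.2)
  have h7 : g1 a (q.1 - q.2) * |chi X0 q.2 - chi X0 q.1| ≤ (√(4 * π * a))⁻¹ := by
    calc _ ≤ g1 a (q.1 - q.2) * 1 := by gcongr
      _ ≤ _ := by linarith
  unfold KF
  rw [norm_mul, norm_mul, Complex.norm_real, Real.norm_eq_abs, abs_mul, abs_mul,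
    abs_of_nonneg (g1_nonneg _ _), abs_of_nonneg (g1_nonneg _ _)]
  calc _ ≤ (√(4 * π * a))⁻¹ * (√(4 * π * a))⁻¹ *
        (rexp (θ0 * |σ₁|) * (CE / 2 * rexp (-(κ * sin θ0 * |r.1|))) *
          (rexp (θ0 * |σ₂|) * (CE / 2 * rexp (-(κ * sin θ0 * |r.2|))))) := by
        gcongr
    _ = (√(4 * π * a))⁻¹ * (√(4 * π * a))⁻¹ * (CE / 2) ^ 2 *
        (rexp (θ0 * |σ₁|) * rexp (θ0 * |σ₂|)) *
        (rexp (-(κ * sin θ0 * |r.1|)) * rexp (-(κ * sin θ0 * |r.2|))) := by ring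
    _ = _ := by rw [inv_sqrt_sq ha, ← Real.exp_add (θ0 * |σ₁|), ← mul_add θ0]

lemma kf_int (hK : KitShift) {κ d a X0 Δ θ0 : ℝ} (σ₁ σ₂ : ℝ) (hκ : 0 < κ) (ha : 0 < a)
    (hX : Δ < X0) (hX2 : X0 + Δ < 2 * d) (h0 : 0 < θ0) (h0' : θ0 < π / 2)
    (hA : 1 ≤ κ * (X0 - Δ) * cos θ0 ∧ 1 ≤ κ * (2 * d - X0 - Δ) * cos θ0) :
    Integrable (fun z : (ℝ × ℝ) × (ℝ × ℝ) => KF κ d a X0 σ₁ σ₂ z.1 z.2)
      ((volume.restrict (Iq X0 Δ)).prod volume) := by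
  have s0 : 0 < sin θ0 := sin_pos_of_mem_Ioo ⟨h0, by linarith [pi_pos]⟩
  have i0 := (int_exp_neg_abs (a := κ * sin θ0) (by positivity)).mul_prod
    (int_exp_neg_abs (a := κ * sin θ0) (by positivity))
  rw [← Measure.volume_eq_prod] at i0
  have hc : IntegrableOn (fun _ : ℝ × ℝ => (4 * π * a)⁻¹ * (CE / 2) ^ 2 *
    rexp (θ0 * (|σ₁| + |σ₂|))) (Iq X0 Δ) := integrableOn_const (Iq_vol X0 Δ)
  have hmem : ∀ᵐ z : (ℝ × ℝ) × (ℝ × ℝ) ∂((volume.restrict (Iq X0 Δ)).prod volume), z.1 ∈ Iq X0 Δ := by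
    have hA : ∀ᵐ q ∂(volume.restrict (Iq X0 Δ)), q ∈ Iq X0 Δ := ae_restrict_mem (Iq_meas X0 Δ)
    exact Measure.quasiMeasurePreserving_fst.ae hA
  refine (hc.mul_prod i0).mono' ?_ ?_
  · apply Measurable.aestronglyMeasurable
    have h := measurable_KF κ d a X0 σ₁ σ₂
    have h2 : Measurable fun z : (ℝ × ℝ) × (ℝ × ℝ) => (((1 : ℝ), z.1), z.2) := by fun_prop
    have h3 := h.comp h2
    simpa [Function.comp_def] using h3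
  · filter_upwards [hmem] with z hz
    exact kf_dom hK hκ ha hX hX2 h0 h0' hA hz z.2

/-- flux through the window -/
noncomputable def WFx (κ d c X0 Δ ζ1 ζ2 σ₁ σ₂ : ℝ) : ℂ :=
  ((κ / c * rexp (-(κ * c)) : ℝ) : ℂ) *
    ∫ q in Iq X0 Δ, ∫ r in Jw ζ1 ζ2, KF κ d (c / κ) X0 σ₁ σ₂ q r

/-- main term -/
noncomputable def Mn (κ d σ₁ σ₂ : ℝ) : ℂ :=
  ∫ u : ℝ, ((rexp (-(2 * d * κ * cosh u)) : ℝ) : ℂ) *
    Complex.exp ((((σ₂ - σ₁) * u : ℝ) : ℂ) * Complex.I)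

lemma wf_err (hK : KitShift) {κ d c X0 Δ ζ1 ζ2 σ₁ σ₂ θ0 : ℝ} (hκ : 0 < κ) (hc : 0 < c)
    (hX : Δ < X0) (hX2 : X0 + Δ < 2 * d) (h0 : 0 < θ0) (h0' : θ0 < π / 2)
    (hA : 1 ≤ κ * (X0 - Δ) * cos θ0 ∧ 1 ≤ κ * (2 * d - X0 - Δ) * cos θ0) :
    ‖WFx κ d c X0 Δ ζ1 ζ2 σ₁ σ₂ - ((π : ℝ) : ℂ) * Mn κ d σ₁ σ₂‖ ≤
      ‖((κ / c * rexp (-(κ * c)) : ℝ) : ℂ) * (∫ q in Iq X0 Δ, ∫ r, KF κ d (c / κ) X0 σ₁ σ₂ q r) -
        ((π : ℝ) : ℂ) * Mn κ d σ₁ σ₂‖ +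
      κ / c * (∫ q in Iq X0 Δ, ∫ r in (Jw ζ1 ζ2)ᶜ, ‖KF κ d (c / κ) X0 σ₁ σ₂ q r‖) := by
  have ha : 0 < c / κ := by positivity
  have hi := kf_int hK σ₁ σ₂ hκ ha hX hX2 h0 h0' hA
  have hJ := Jw_meas ζ1 ζ2
  -- restricted integrability
  have hiJ : Integrable (fun z : (ℝ × ℝ) × (ℝ × ℝ) => KF κ d (c / κ) X0 σ₁ σ₂ z.1 z.2)
      ((volume.restrict (Iq X0 Δ)).prod (volume.restrict (Jw ζ1 ζ2))) :=
    hi.mono_measure (Measure.prod_mono le_rfl Measure.restrict_le_self)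
  have hiJc : Integrable (fun z : (ℝ × ℝ) × (ℝ × ℝ) => KF κ d (c / κ) X0 σ₁ σ₂ z.1 z.2)
      ((volume.restrict (Iq X0 Δ)).prod (volume.restrict (Jw ζ1 ζ2)ᶜ)) :=
    hi.mono_measure (Measure.prod_mono le_rfl Measure.restrict_le_self)
  have hsplit : ∫ q in Iq X0 Δ, ∫ r, KF κ d (c / κ) X0 σ₁ σ₂ q r =
      (∫ q in Iq X0 Δ, ∫ r in Jw ζ1 ζ2, KF κ d (c / κ) X0 σ₁ σ₂ q r) +
      ∫ q in Iq X0 Δ, ∫ r in (Jw ζ1 ζ2)ᶜ, KF κ d (c / κ) X0 σ₁ σ₂ q r := by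
    rw [← integral_add hiJ.integral_prod_left hiJc.integral_prod_left]
    apply integral_congr_ae
    filter_upwards [hi.prod_right_ae] with q hq
    exact (integral_add_compl hJ hq).symm
  have htail : ‖∫ q in Iq X0 Δ, ∫ r in (Jw ζ1 ζ2)ᶜ, KF κ d (c / κ) X0 σ₁ σ₂ q r‖ ≤
      ∫ q in Iq X0 Δ, ∫ r in (Jw ζ1 ζ2)ᶜ, ‖KF κ d (c / κ) X0 σ₁ σ₂ q r‖ := by
    refine (norm_integral_le_integral_norm _).trans ?_
    apply integral_mono hiJc.integral_prod_left.norm hiJc.norm.integral_prod_left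
    intro q
    exact norm_integral_le_integral_norm _
  set S := ∫ q in Iq X0 Δ, ∫ r, KF κ d (c / κ) X0 σ₁ σ₂ q r with hS
  set W := ∫ q in Iq X0 Δ, ∫ r in Jw ζ1 ζ2, KF κ d (c / κ) X0 σ₁ σ₂ q r with hW
  set T := ∫ q in Iq X0 Δ, ∫ r in (Jw ζ1 ζ2)ᶜ, KF κ d (c / κ) X0 σ₁ σ₂ q r with hT
  have e : WFx κ d c X0 Δ ζ1 ζ2 σ₁ σ₂ - ((π : ℝ) : ℂ) * Mn κ d σ₁ σ₂ =
      (((κ / c * rexp (-(κ * c)) : ℝ) : ℂ) * S - ((π : ℝ) : ℂ) * Mn κ d σ₁ σ₂) -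
        ((κ / c * rexp (-(κ * c)) : ℝ) : ℂ) * T := by
    unfold WFx
    rw [← hW, hsplit]
    ring
  rw [e]
  refine (norm_sub_le _ _).trans ?_
  gcongr
  rw [norm_mul, Complex.norm_real, Real.norm_eq_abs, abs_of_pos (by positivity), mul_assoc]
  have h1 : rexp (-(κ * c)) ≤ 1 := by
    rw [← Real.exp_zero]; apply exp_le_exp.mpr
    have : 0 ≤ κ * c := by positivity
    linarith
  have h2 := norm_nonneg T
  gcongr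
  calc rexp (-(κ * c)) * ‖T‖ ≤ 1 * ‖T‖ := by gcongr
    _ ≤ _ := by rw [one_mul]; exact htail

end Pool.Agent.AEU.H12
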